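import Pool.Agent.XD.Circ

/-!
# QPIT, row Q7: substitution into the classes

If every variable is replaced by a member of the class `0` with `κ` affine forms, the members of
the class `k` become members of the class `k + 1`.
-/

set_option autoImplicit false

namespace Pool.QPIT

open Finset MvPolynomial Pool.Agent.Helper41.CD Pool.XD

section subst

variable {σ τ K : Type} [Field K]

theorem const_mem (w0 w S k : ℕ) (c : K) : (C c : MvPolynomial σ K) ∈ Cls w0 w S k := by
  induction k with
  | zero =>
    refine ⟨fun _ => 0, C c, fun _ => by rw [totalDegree_zero]; exact Nat.zero_le 1, ?_⟩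
    rw [aeval_C]
    rfl
  | succ k ih =>
    refine ⟨fun _ _ _ => C c, C c, fun _ _ _ => ih, ?_⟩
    rw [aeval_C]
    rfl

theorem one_mem' (w0 w S k : ℕ) : (1 : MvPolynomial σ K) ∈ Cls w0 w S k := by
  have := const_mem (σ := σ) w0 w S k (1 : K)
  rwa [C_1] at this

theorem zero_mem' (w0 w S k : ℕ) : (0 : MvPolynomial σ K) ∈ Cls w0 w S k := by
  have := const_mem (σ := σ) w0 w S k (0 : K)
  rwa [C_0] at this

/-- the class is closed under scalars -/
theorem smul_mem' {w0 w S k : ℕ} {f : MvPolynomial σ K} (hf : f ∈ Cls w0 w S k) (c : K) :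
    C c * f ∈ Cls w0 w S k := by
  cases k with
  | zero =>
    obtain ⟨L, Q, hL, rfl⟩ := hf
    refine ⟨L, C c * Q, hL, ?_⟩
    rw [map_mul, aeval_C]
    rfl
  | succ k =>
    obtain ⟨F, Q, hF, rfl⟩ := hf
    refine ⟨F, C c * Q, hF, ?_⟩
    rw [map_mul, aeval_C]
    rfl

/-- polynomials in `w` sums of products of members of the class `k` -/
theorem poly_mem {w0 w w' S k : ℕ} (hw : w ≤ w') (g : Fin w → MvPolynomial σ K)
    (hg : ∀ l, ∃ F : Fin S → Fin S → MvPolynomial σ K, (∀ i j, F i j ∈ Cls w0 w' S k) ∧
      ∑ i, ∏ j, F i j = g l) (Q : MvPolynomial (Fin w) K) :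
    aeval g Q ∈ Cls w0 w' S (k + 1) := by
  classical
  choose F hF hFg using hg
  refine ⟨fun l => if h : l.1 < w then F ⟨l.1, h⟩ else fun _ _ => 0,
    rename (Fin.castLE hw) Q, fun l i j => ?_, ?_⟩
  · by_cases h : l.1 < w
    · simp only [h, dif_pos]
      exact hF _ _ _
    · simp only [h, dif_neg, not_false_eq_true]
      exact zero_mem' _ _ _ _
  · rw [aeval_rename]
    congr 2
    funext l
    show g l = ∑ i, ∏ j, (if h : (Fin.castLE hw l).1 < w then F ⟨(Fin.castLE hw l).1, h⟩ else
      fun _ _ => 0) i j
    rw [dif_pos (show (Fin.castLE hw l).1 < w from l.2)]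
    exact (hFg l).symm

theorem affine_eq [Fintype σ] (f : MvPolynomial σ K) (hf : f.totalDegree ≤ 1) :
    f = C (coeff 0 f) + ∑ v, C (coeff (Finsupp.single v 1) f) * X v := by
  classical
  ext m
  rw [coeff_add, coeff_sum, coeff_C]
  have h1 : ∀ v, coeff m (C (coeff (Finsupp.single v 1) f) * X v) =
      if Finsupp.single v 1 = m then coeff (Finsupp.single v 1) f else 0 := by
    intro v
    rw [coeff_C_mul, coeff_X]
    split_ifs <;> simp
  rw [sum_congr rfl fun v _ => h1 v]
  by_cases hm0 : m = 0
  · subst hm0
    rw [if_pos rfl, sum_eq_zero, add_zero]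
    intro v _
    rw [if_neg]
    intro h
    have := DFunLike.congr_fun h v
    simp at this
  · rw [if_neg (Ne.symm hm0), zero_add]
    by_cases hm1 : ∃ v, Finsupp.single v 1 = m
    · obtain ⟨v, rfl⟩ := hm1
      rw [sum_eq_single v]
      · rw [if_pos rfl]
      · intro u _ hu
        rw [if_neg]
        intro h
        exact hu (Finsupp.single_left_injective one_ne_zero h)
      · intro h
        exact absurd (mem_univ v) h
    · rw [sum_eq_zero]
      · by_contra hne
        have h2 : m ∈ f.support := mem_support_iff.2 hne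
        have h3 : m.degree ≤ 1 := (le_totalDegree h2).trans hf
        rcases Nat.le_one_iff_eq_zero_or_eq_one.1 h3 with h4 | h4
        · exact hm0 ((Finsupp.degree_eq_zero_iff m).1 h4)
        · apply hm1
          obtain ⟨s, hs⟩ := Finsupp.ne_iff.1 hm0
          have h5 : m s ≤ m.degree := Finsupp.le_degree s m
          have h6 : m s = 1 := by
            have : m s ≠ 0 := hs
            omega
          refine ⟨s, ?_⟩
          have h7 : m = (m - Finsupp.single s 1) + Finsupp.single s 1 := by
            ext t
            by_cases ht : t = s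
            · subst ht; simp [h6]
            · simp [Ne.symm ht]
          have h8 : (m - Finsupp.single s 1).degree = 0 := by
            have := congrArg Finsupp.degree h7
            rw [map_add, Finsupp.degree_single, h4] at this
            omega
          rw [Finsupp.degree_eq_zero_iff] at h8
          rw [h8, zero_add] at h7
          exact h7.symm
      · intro v _
        rw [if_neg]
        exact fun h => hm1 ⟨v, h⟩

/-- **Row Q7**: substitution of members of the class `0`. -/
theorem cls_subst [Fintype σ] {κ w0 w w' S S' : ℕ} (hw0 : w0 ≤ w') (hw : w ≤ w') (hS : S ≤ S')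
    (hn : Fintype.card σ + 1 ≤ S') (φ : σ → MvPolynomial τ K)
    (hφ : ∀ v, φ v ∈ Cls κ w' S' 0) (k : ℕ) {f : MvPolynomial σ K} (hf : f ∈ Cls w0 w S k) :
    aeval φ f ∈ Cls κ w' S' (k + 1) := by
  classical
  have hS1 : 1 ≤ S' := by omega
  induction k generalizing f with
  | zero =>
    obtain ⟨L, Q, hL, rfl⟩ := hf
    have e1 : aeval φ (aeval L Q) = aeval (fun i => aeval φ (L i)) Q := by
      rw [← AlgHom.comp_apply, comp_aeval]
    rw [e1]
    refine poly_mem hw0 _ (fun l => ?_) Q
    obtain ⟨g, hg, hgf⟩ := exists_sum_prod (T := S') (S := S') (ι := Option σ) hS1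
      (by rw [Fintype.card_option]; exact hn) (A := (Cls κ w' S' 0 : Set (MvPolynomial τ K)))
      (zero_mem' κ w' S' 0)
      (fun o => o.elim (C (coeff 0 (L l))) fun v => C (coeff (Finsupp.single v 1) (L l)) * φ v)
      (fun o => by
        obtain ⟨g, hg, hgf⟩ := exists_prod (S := S') (ι := Unit)
          (by rw [Fintype.card_unit]; exact hS1)
          (A := (Cls κ w' S' 0 : Set (MvPolynomial τ K))) (one_mem' κ w' S' 0)
          (fun _ => o.elim (C (coeff 0 (L l))) fun v =>
            C (coeff (Finsupp.single v 1) (L l)) * φ v) (fun _ => by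
            cases o with
            | none => exact const_mem _ _ _ _ _
            | some v => exact smul_mem' (hφ v) _)
        exact ⟨g, hg, by rw [hgf]; simp⟩)
    refine ⟨g, hg, ?_⟩
    rw [hgf, Fintype.sum_option]
    conv_rhs => rw [affine_eq (L l) (hL l), map_add, map_sum, aeval_C]
    simp only [Option.elim, map_mul, aeval_C, aeval_X]
    rfl
  | succ k ih =>
    obtain ⟨F, Q, hF, rfl⟩ := hf
    have e1 : aeval φ (aeval (fun l => ∑ i, ∏ j, F l i j) Q) =
        aeval (fun l => aeval φ (∑ i, ∏ j, F l i j)) Q := by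
      rw [← AlgHom.comp_apply, comp_aeval]
    rw [e1]
    refine poly_mem hw _ (fun l => ?_) Q
    obtain ⟨g, hg, hgf⟩ := exists_sum_prod (T := S') (S := S') (ι := Fin S) hS1
      (by rw [Fintype.card_fin]; exact hS)
      (A := (Cls κ w' S' (k + 1) : Set (MvPolynomial τ K))) (zero_mem' κ w' S' (k + 1))
      (fun i => ∏ j, aeval φ (F l i j)) (fun i => by
        exact exists_prod (S := S') (ι := Fin S) (by rw [Fintype.card_fin]; exact hS)
          (A := (Cls κ w' S' (k + 1) : Set (MvPolynomial τ K))) (one_mem' κ w' S' (k + 1))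
          (fun j => aeval φ (F l i j)) (fun j => ih (hF l i j)))
    refine ⟨g, hg, ?_⟩
    rw [hgf, map_sum]
    refine sum_congr rfl fun i _ => ?_
    rw [map_prod]

end subst

end Pool.QPIT
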