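import Pool.Agent.QPIT.Defs
import Pool.Agent.QPIT.Subst

/-!
# QPIT, row Q7: substitution of sums of products of affine forms
-/

set_option autoImplicit false

namespace Pool.QPIT

open Finset MvPolynomial Pool.Agent.Helper41.CD Pool.XD

section gen

variable {σ τ K : Type} [Field K]

/-- substitution of polynomials for which affine forms become sums of products of members of the
class `0` -/
theorem cls_subst_gen {κ w0 w w' S S' : ℕ} (hw0 : w0 ≤ w') (hw : w ≤ w') (hS : S ≤ S')
    (hS1 : 1 ≤ S') (φ : σ → MvPolynomial τ K)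
    (hφ : ∀ L : MvPolynomial σ K, L.totalDegree ≤ 1 → ∃ F : Fin S' → Fin S' → MvPolynomial τ K,
      (∀ i j, F i j ∈ Cls κ w' S' 0) ∧ ∑ i, ∏ j, F i j = aeval φ L)
    (k : ℕ) {f : MvPolynomial σ K} (hf : f ∈ Cls w0 w S k) :
    aeval φ f ∈ Cls κ w' S' (k + 1) := by
  classical
  induction k generalizing f with
  | zero =>
    obtain ⟨L, Q, hL, rfl⟩ := hf
    have e1 : aeval φ (aeval L Q) = aeval (fun i => aeval φ (L i)) Q := by
      rw [← AlgHom.comp_apply, comp_aeval]
    rw [e1]
    exact poly_mem hw0 _ (fun l => hφ (L l) (hL l)) Q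
  | succ k ih =>
    obtain ⟨F, Q, hF, rfl⟩ := hf
    have e1 : aeval φ (aeval (fun l => ∑ i, ∏ j, F l i j) Q) =
        aeval (fun l => aeval φ (∑ i, ∏ j, F l i j)) Q := by
      rw [← AlgHom.comp_apply, comp_aeval]
    rw [e1]
    refine poly_mem hw _ (fun l => ?_) Q
    obtain ⟨g, hg, hgf⟩ := exists_sum_prod (T := S') (S := S') (ι := Fin S) hS1
      (by rw [Fintype.card_fin]; exact hS)
      (A := (Cls κ w' S' (k + 1) : Set (MvPolynomial τ K))) (zero_mem' κ w' S' (k + 1))
      (fun i => ∏ j, aeval φ (F l i j)) (fun i => by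
        exact exists_prod (S := S') (ι := Fin S) (by rw [Fintype.card_fin]; exact hS)
          (A := (Cls κ w' S' (k + 1) : Set (MvPolynomial τ K))) (one_mem' κ w' S' (k + 1))
          (fun j => aeval φ (F l i j)) (fun j => ih (hF l i j)))
    refine ⟨g, hg, ?_⟩
    rw [hgf, map_sum]
    refine sum_congr rfl fun i _ => ?_
    rw [map_prod]

end gen

theorem cls_sps {V K : Type} [Field K] {n N N' S S' k : ℕ} (hN : n * N + 1 ≤ S') (hN' : N' ≤ S')
    (h1 : 1 ≤ N') (hS : S ≤ S') (h1S : 1 ≤ S) (φ : Fin n → MvPolynomial V K)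
    (hφ : ∀ i, Sps N N' (φ i)) {f : MvPolynomial (Fin n) K} (hf : f ∈ Cls 1 1 S k) :
    MvPolynomial.aeval φ f ∈ Cls (R := K) 1 1 S' (k + 1) := by
  classical
  have hS1 : 1 ≤ S' := h1S.trans hS
  refine cls_subst_gen le_rfl le_rfl hS hS1 φ (fun L hL => ?_) k hf
  choose A hA hAφ using hφ
  have haff : ∀ p : MvPolynomial V K, p.totalDegree ≤ 1 → p ∈ Cls 1 1 S' 0 := fun p hp =>
    cls_affine hp
  obtain ⟨g, hg, hgf⟩ := exists_sum_prod (T := S') (S := S') (ι := Option (Fin n × Fin N)) hS1
    (by rw [Fintype.card_option, Fintype.card_prod, Fintype.card_fin, Fintype.card_fin]; exact hN)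
    (A := (Cls 1 1 S' 0 : Set (MvPolynomial V K))) (zero_mem' 1 1 S' 0)
    (fun o => o.elim (C (coeff 0 L)) fun p =>
      C (coeff (Finsupp.single p.1 1) L) * ∏ j, A p.1 p.2 j)
    (fun o => by
      cases o with
      | none =>
        obtain ⟨g, hg, hgf⟩ := exists_prod (S := S') (ι := Unit)
          (by rw [Fintype.card_unit]; exact hS1)
          (A := (Cls 1 1 S' 0 : Set (MvPolynomial V K))) (one_mem' 1 1 S' 0)
          (fun _ => C (coeff 0 L)) (fun _ => const_mem _ _ _ _ _)
        exact ⟨g, hg, by rw [hgf]; simp⟩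
      | some p =>
        set a := coeff (Finsupp.single p.1 1) L
        obtain ⟨g, hg, hgf⟩ := exists_prod (S := S') (ι := Fin N')
          (by rw [Fintype.card_fin]; exact hN')
          (A := (Cls 1 1 S' 0 : Set (MvPolynomial V K))) (one_mem' 1 1 S' 0)
          (fun j => if j = ⟨0, h1⟩ then C a * A p.1 p.2 j else A p.1 p.2 j) (fun j => by
            split_ifs
            · exact smul_mem' (haff _ (hA _ _ _)) _
            · exact haff _ (hA _ _ _))
        refine ⟨g, hg, ?_⟩
        rw [hgf]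
        show _ = C a * ∏ j, A p.1 p.2 j
        rw [← mul_prod_erase univ _ (mem_univ (⟨0, h1⟩ : Fin N')),
          ← mul_prod_erase univ (fun j => A p.1 p.2 j) (mem_univ (⟨0, h1⟩ : Fin N')),
          if_pos rfl, mul_assoc]
        congr 2
        refine prod_congr rfl fun j hj => ?_
        rw [if_neg (ne_of_mem_erase hj)])
  refine ⟨g, hg, ?_⟩
  rw [hgf, Fintype.sum_option, Fintype.sum_prod_type]
  conv_rhs => rw [affine_eq L hL, map_add, map_sum, aeval_C]
  simp only [Option.elim, map_mul, aeval_C, aeval_X]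
  congr 1
  refine sum_congr rfl fun v _ => ?_
  rw [hAφ v, mul_sum]
  rfl

end Pool.QPIT
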