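import Pool.Agent.QPIT.Class

/-!
# QPIT: substitution of sums of products of affine forms, circuits with arbitrary gates of fan-in `w`
-/

set_option autoImplicit false

namespace Pool.QPIT

open Finset MvPolynomial Pool.Agent.Helper41.CD Pool.XD

theorem affineW {V K : Type} [Field K] {w S : ℕ} (hw : 1 ≤ w) {p : MvPolynomial V K}
    (hp : p.totalDegree ≤ 1) : p ∈ Cls w w S 0 :=
  ⟨fun _ => p, X ⟨0, hw⟩, fun _ => hp, by rw [aeval_X]⟩

theorem cls_spsW {V K : Type} [Field K] {w n N N' S S' k : ℕ} (hw : 1 ≤ w) (hN : n * N + 1 ≤ S') (hN' : N' ≤ S')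
    (h1 : 1 ≤ N') (hS : S ≤ S') (h1S : 1 ≤ S) (φ : Fin n → MvPolynomial V K)
    (hφ : ∀ i, Sps N N' (φ i)) {f : MvPolynomial (Fin n) K} (hf : f ∈ Cls w w S k) :
    MvPolynomial.aeval φ f ∈ Cls (R := K) w w S' (k + 1) := by
  classical
  have hS1 : 1 ≤ S' := h1S.trans hS
  refine cls_subst_gen le_rfl le_rfl hS hS1 φ (fun L hL => ?_) k hf
  choose A hA hAφ using hφ
  have haff : ∀ p : MvPolynomial V K, p.totalDegree ≤ 1 → p ∈ Cls w w S' 0 := fun p hp =>
    affineW hw hp
  obtain ⟨g, hg, hgf⟩ := exists_sum_prod (T := S') (S := S') (ι := Option (Fin n × Fin N)) hS1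
    (by rw [Fintype.card_option, Fintype.card_prod, Fintype.card_fin, Fintype.card_fin]; exact hN)
    (A := (Cls w w S' 0 : Set (MvPolynomial V K))) (zero_mem' w w S' 0)
    (fun o => o.elim (C (coeff 0 L)) fun p =>
      C (coeff (Finsupp.single p.1 1) L) * ∏ j, A p.1 p.2 j)
    (fun o => by
      cases o with
      | none =>
        obtain ⟨g, hg, hgf⟩ := exists_prod (S := S') (ι := Unit)
          (by rw [Fintype.card_unit]; exact hS1)
          (A := (Cls w w S' 0 : Set (MvPolynomial V K))) (one_mem' w w S' 0)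
          (fun _ => C (coeff 0 L)) (fun _ => const_mem _ _ _ _ _)
        exact ⟨g, hg, by rw [hgf]; simp⟩
      | some p =>
        set a := coeff (Finsupp.single p.1 1) L
        obtain ⟨g, hg, hgf⟩ := exists_prod (S := S') (ι := Fin N')
          (by rw [Fintype.card_fin]; exact hN')
          (A := (Cls w w S' 0 : Set (MvPolynomial V K))) (one_mem' w w S' 0)
          (fun j => if j = ⟨0, h1⟩ then C a * A p.1 p.2 j else A p.1 p.2 j) (fun j => by
            split_ifs
            · exact smul_mem' (haff _ (hA _ _ _)) _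
            · exact haff _ (hA _ _ _))
        refine ⟨g, hg, ?_⟩
        rw [hgf]
        show _ = C a * ∏ j, A p.1 p.2 j
        rw [← mul_prod_erase univ _ (mem_univ (⟨0, h1⟩ : Fin N')),
          ← mul_prod_erase univ (fun j => A p.1 p.2 j) (mem_univ (⟨0, h1⟩ : Fin N')),
          if_pos rfl, mul_assoc]
        congr 2
        refine prod_congr rfl fun j hj => ?_
        rw [if_neg (ne_of_mem_erase hj)])
  refine ⟨g, hg, ?_⟩
  rw [hgf, Fintype.sum_option, Fintype.sum_prod_type]
  conv_rhs => rw [affine_eq L hL, map_add, map_sum, aeval_C]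
  simp only [Option.elim, map_mul, aeval_C, aeval_X]
  congr 1
  refine sum_congr rfl fun v _ => ?_
  rw [hAφ v, mul_sum]
  rfl

end Pool.QPIT
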