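import Pool.Agent.XD.Defs

/-!
# Iterated matrix multiplication at a generic point: definitions

`immP d W o R` is the entry `(o, o)` of the product of `d` matrices of variables, indexed by `W`.
-/

set_option autoImplicit false

namespace Pool.QPIT

open Finset Pool.XD

/-- the entry `(o, o)` of the product of the matrices -/
noncomputable def immV {R W : Type} [CommRing R] [Fintype W] [DecidableEq W] {d : ℕ}
    (A : Fin d → Matrix W W R) (o : W) : R := (List.ofFn A).prod o o

/-- iterated matrix multiplication: the entry `(o, o)` of the product of `d` matrices of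
variables -/
noncomputable def immP (d : ℕ) (W : Type) [Fintype W] [DecidableEq W] (o : W) (R : Type)
    [CommRing R] : MvPolynomial (Fin d × W × W) R :=
  immV (fun i => Matrix.of fun a b => MvPolynomial.X (i, a, b)) o

/-- the coordinates which the gauge needs: one for the ends, one for every inner vertex -/
abbrev GV (d : ℕ) (wd : ℕ → ℕ) : Type := Option ((j : Fin (d - 1)) × Fin (wd (j + 1)))

/-- **GAUGE**: at every point outside of a hypersurface there are linear directions along which
iterated matrix multiplication is exactly constant plus the chain polynomial. -/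
def Gauge (K : Type) [Field K] : Prop :=
  ∀ (d : ℕ) (wd : ℕ → ℕ) (W : Type) [Fintype W] [DecidableEq W] (o : W), 2 ≤ d → wd 0 = 1 →
    wd d = 1 → (∃ e : GV d wd → W, Function.Injective e ∧ e none = o) →
    ∃ V : MvPolynomial (Fin d × W × W) K, V ≠ 0 ∧ ∀ x : Fin d × W × W → K,
      MvPolynomial.eval x V ≠ 0 → ∃ D : Ltr d wd → Fin d × W × W → K,
        ∀ (R : Type) [CommRing R] [Algebra K R] (X : Ltr d wd → R),
          MvPolynomial.aeval (fun v => algebraMap K R (x v) + ∑ l, X l * algebraMap K R (D l v))
            (immP d W o K) =
          algebraMap K R (MvPolynomial.eval x (immP d W o K)) +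
            ∑ s : Wrd d wd, ∏ i : Fin d, X (ltr s i)

end Pool.QPIT
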