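import Pool.Agent.QPIT.Defs

/-!
# QPIT, row Q6: the hybrid argument and the factor `y - f`

`f` is a polynomial in the variables `A`, `e i : A → Z` are injections, the polynomials
`G i = rename (e i) f` are the coordinates of the generator.  If a nonzero polynomial `F` in `n`
variables vanishes at `G`, then for some `j` the polynomial in `y` and `x_a` which one gets by
`G i` (`i < j`, all seeds outside `e j` constant), `y` (`i = j`), constants (`i > j`) is nonzero and
vanishes at `y = f`; so it is a product of a power of `y - f` and a polynomial which does not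
vanish at `y = f`.
-/

set_option autoImplicit false

namespace Pool.QPIT

open MvPolynomial

section sub

variable {A K : Type} [Field K]

/-- the polynomial `y - f` -/
noncomputable def yMinus (f : MvPolynomial A K) : MvPolynomial (Option A) K :=
  X none - rename some f

theorem subY_rename (f g : MvPolynomial A K) : subY f (rename some g) = g := by
  rw [subY, aeval_rename]
  exact aeval_X_left_apply g

theorem subY_yMinus (f : MvPolynomial A K) : subY f (yMinus f) = 0 := by
  rw [yMinus, map_sub, subY_rename, subY, aeval_X]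
  exact sub_self f

/-- the polynomials in `y` over the polynomials in `x` -/
theorem eval_optionEquivLeft (f : MvPolynomial A K) (P : MvPolynomial (Option A) K) :
    (optionEquivLeft K A P).eval f = subY f P := by
  have h : ((Polynomial.evalRingHom f).comp (optionEquivLeft K A).toRingEquiv.toRingHom) =
      (subY f).toRingHom := by
    apply MvPolynomial.ringHom_ext
    · intro r
      simp [subY]
    · intro i
      rcases i with _ | a
      · simp [subY, optionEquivLeft_X_none]
      · simp [subY, optionEquivLeft_X_some]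
  exact DFunLike.congr_fun h P

/-- THE FACTOR `y - f` -/
theorem exists_factor (f : MvPolynomial A K) {P : MvPolynomial (Option A) K} (hP : P ≠ 0)
    (h0 : subY f P = 0) : ∃ (μ : ℕ) (R : MvPolynomial (Option A) K), 1 ≤ μ ∧
      P = yMinus f ^ μ * R ∧ subY f R ≠ 0 := by
  set p := optionEquivLeft K A P with hp
  have hp0 : p ≠ 0 := by
    rw [hp]
    simpa using hP
  have hroot : p.IsRoot f := by
    rw [Polynomial.IsRoot, hp, eval_optionEquivLeft, h0]
  obtain ⟨q, hq, hnd⟩ := Polynomial.exists_eq_pow_rootMultiplicity_mul_and_not_dvd p hp0 f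
  refine ⟨p.rootMultiplicity f, (optionEquivLeft K A).symm q, ?_, ?_, ?_⟩
  · exact (Polynomial.rootMultiplicity_pos hp0).2 hroot
  · have h1 : (optionEquivLeft K A) (yMinus f) = Polynomial.X - Polynomial.C f := by
      rw [yMinus, map_sub, optionEquivLeft_X_none]
      congr 1
      have h2 : ((optionEquivLeft K A).toAlgHom.comp (rename some)) =
          (Polynomial.CAlgHom : MvPolynomial A K →ₐ[K] Polynomial (MvPolynomial A K)) := by
        apply MvPolynomial.algHom_ext
        intro a
        simp [optionEquivLeft_X_some]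
      exact DFunLike.congr_fun h2 f
    apply (optionEquivLeft K A).injective
    rw [map_mul, map_pow, h1, AlgEquiv.apply_symm_apply]
    exact hq
  · rw [← eval_optionEquivLeft, AlgEquiv.apply_symm_apply]
    intro h2
    exact hnd (Polynomial.dvd_iff_isRoot.2 h2)

end sub

section hybrid

variable {A Z K : Type} [Field K] {n : ℕ}

open Classical in
/-- the seed `z` seen from the set of seeds `e`: a variable or a constant -/
noncomputable def look (e : A → Z) (c : Z → K) (z : Z) : MvPolynomial (Option A) K :=
  if h : ∃ a, e a = z then X (some h.choose) else C (c z)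

theorem look_self {e : A → Z} (he : Function.Injective e) (c : Z → K) (a : A) :
    look e c (e a) = X (some a) := by
  classical
  have h : ∃ a', e a' = e a := ⟨a, rfl⟩
  rw [look, dif_pos h]
  exact congrArg (fun b => X (some b)) (he h.choose_spec)

theorem look_of_not {e : A → Z} (c : Z → K) {z : Z} (h : ∀ a, e a ≠ z) :
    look e c z = C (c z) := by
  classical
  rw [look, dif_neg]
  rintro ⟨a, ha⟩
  exact h a ha

open Classical in
/-- the polynomials which are put into the variables of `F` at step `j` of the hybrid argument -/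
noncomputable def hyb (f : MvPolynomial A K) (e : Fin n → A → Z) (j : Fin n) (c : Z → K)
    (b : Fin n → K) (i : Fin n) : MvPolynomial (Option A) K :=
  if i < j then aeval (fun a => look (e j) c (e i a)) f else if i = j then X none else C (b i)

/-- THE HYBRID ARGUMENT -/
theorem hybrid_abs [Infinite K] (f : MvPolynomial A K) (e : Fin n → A → Z) (he : ∀ i, Function.Injective (e i))
    {F : MvPolynomial (Fin n) K} (hF : F ≠ 0)
    (hG : aeval (fun i => rename (e i) f) F = (0 : MvPolynomial Z K)) :
    ∃ (j : Fin n) (c : Z → K) (b : Fin n → K),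
      aeval (hyb f e j c b) F ≠ 0 ∧ subY f (aeval (hyb f e j c b) F) = 0 := by
  classical
  -- the hybrids
  let g : ℕ → Fin n → MvPolynomial (Z ⊕ Fin n) K := fun j i =>
    if i.val < j then rename Sum.inl (rename (e i) f) else X (Sum.inr i)
  let H : ℕ → MvPolynomial (Z ⊕ Fin n) K := fun j => aeval (g j) F
  have hH0 : H 0 ≠ 0 := by
    have h1 : H 0 = rename Sum.inr F := by
      show aeval (g 0) F = rename Sum.inr F
      rw [rename_eq_aeval]
      congr 1
    rw [h1]
    intro h2
    apply hF
    exact rename_injective _ Sum.inr_injective (by rw [h2, map_zero])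
  have hHn : H n = 0 := by
    have h1 : H n = rename Sum.inl (aeval (fun i => rename (e i) f) F : MvPolynomial Z K) := by
      show aeval (g n) F = _
      rw [← AlgHom.comp_apply]
      congr 1
      apply MvPolynomial.algHom_ext
      intro i
      rw [AlgHom.comp_apply, aeval_X, aeval_X]
      show (if i.val < n then _ else _) = _
      rw [if_pos i.2]
    rw [h1, hG, map_zero]
  obtain ⟨j, hj1, hj2, hj3⟩ : ∃ j, j < n ∧ H j ≠ 0 ∧ H (j + 1) = 0 := by
    by_contra hcon
    push Not at hcon
    have h1 : ∀ j, j ≤ n → H j ≠ 0 := by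
      intro j
      induction j with
      | zero => intro _; exact hH0
      | succ j ih => intro h; exact hcon j (by omega) (ih (by omega))
    exact h1 n le_rfl hHn
  let j' : Fin n := ⟨j, hj1⟩
  -- a point where the hybrid does not vanish
  obtain ⟨p, hp⟩ : ∃ p : Z ⊕ Fin n → K, eval p (H j) ≠ 0 := by
    by_contra hcon
    push Not at hcon
    exact hj2 (MvPolynomial.funext fun p => by rw [hcon p, map_zero])
  let c : Z → K := fun z => p (Sum.inl z)
  let b : Fin n → K := fun i => p (Sum.inr i)
  let σ : Z ⊕ Fin n → MvPolynomial (Option A) K := Sum.elim (fun z => look (e j') c z)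
    fun i => if i = j' then X none else C (b i)
  have hcomp : aeval (hyb f e j' c b) F = aeval σ (H j) := by
    show _ = aeval σ (aeval (g j) F)
    rw [← AlgHom.comp_apply]
    congr 1
    apply MvPolynomial.algHom_ext
    intro i
    rw [AlgHom.comp_apply, aeval_X, aeval_X]
    show _ = aeval σ (if i.val < j then rename Sum.inl (rename (e i) f) else X (Sum.inr i))
    rw [hyb]
    by_cases h1 : i < j'
    · have h2 : i.val < j := h1
      rw [if_pos h1, if_pos h2, aeval_rename, aeval_rename]
      rfl
    · have h2 : ¬ i.val < j := h1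
      rw [if_neg h1, if_neg h2, aeval_X]
      rfl
  refine ⟨j', c, b, ?_, ?_⟩
  · -- the value at the point
    intro h0
    apply hp
    let q : Option A → K := fun o => o.elim (p (Sum.inr j')) fun a => p (Sum.inl (e j' a))
    have h1 : ∀ s, eval q (σ s) = p s := by
      rintro (z | i)
      · show eval q (look (e j') c z) = p (Sum.inl z)
        by_cases h2 : ∃ a, e j' a = z
        · obtain ⟨a, rfl⟩ := h2
          rw [look_self (he j'), eval_X]
          rfl
        · rw [look_of_not c fun a ha => h2 ⟨a, ha⟩, eval_C]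
      · show eval q (if i = j' then X none else C (b i)) = p (Sum.inr i)
        by_cases h2 : i = j'
        · rw [if_pos h2, eval_X, h2]
          rfl
        · rw [if_neg h2, eval_C]
    have h2 : eval q (aeval σ (H j)) = eval p (H j) := by
      have h3 : ((aeval q : MvPolynomial (Option A) K →ₐ[K] K).comp (aeval σ)) = aeval p := by
        apply MvPolynomial.algHom_ext
        intro s
        rw [AlgHom.comp_apply, aeval_X, aeval_X]
        exact h1 s
      exact DFunLike.congr_fun h3 (H j)
    rw [← h2, ← hcomp, h0, map_zero]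
  · -- it vanishes at y = f
    have h1 : subY f (aeval σ (H j)) = aeval (fun s => subY f (σ s)) (H (j + 1)) := by
      have h2 : subY f (aeval σ (H j)) = aeval (fun s => subY f (σ s)) (H j) := by
        rw [← AlgHom.comp_apply]
        congr 1
        apply MvPolynomial.algHom_ext
        intro s
        rw [AlgHom.comp_apply, aeval_X, aeval_X]
      rw [h2]
      show aeval (fun s => subY f (σ s)) (aeval (g j) F) =
        aeval (fun s => subY f (σ s)) (aeval (g (j + 1)) F)
      rw [← AlgHom.comp_apply, ← AlgHom.comp_apply]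
      congr 1
      apply MvPolynomial.algHom_ext
      intro i
      rw [AlgHom.comp_apply, AlgHom.comp_apply, aeval_X, aeval_X]
      show aeval (fun s => subY f (σ s)) (if i.val < j then rename Sum.inl (rename (e i) f)
        else X (Sum.inr i)) = aeval (fun s => subY f (σ s))
          (if i.val < j + 1 then rename Sum.inl (rename (e i) f) else X (Sum.inr i))
      by_cases h3 : i.val < j
      · rw [if_pos h3, if_pos (by omega)]
      · by_cases h4 : i.val = j
        · rw [if_neg h3, if_pos (by omega), aeval_X, aeval_rename, aeval_rename]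
          have h5 : i = j' := Fin.ext h4
          have h6 : ((fun s => subY f (σ s)) ∘ Sum.inl) ∘ e i = (X : A → MvPolynomial A K) := by
            funext a
            show subY f (look (e j') c (e i a)) = X a
            rw [h5, look_self (he j'), subY, aeval_X]
            rfl
          rw [h6, aeval_X_left_apply]
          show subY f (if i = j' then X none else C (b i)) = f
          rw [if_pos h5, subY, aeval_X]
          rfl
        · rw [if_neg h3, if_neg (by omega)]
    rw [hcomp, h1, hj3, map_zero]

/-- hybrid argument and factor `y - f` together -/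
theorem hybrid_factor [Infinite K] (f : MvPolynomial A K) (e : Fin n → A → Z)
    (he : ∀ i, Function.Injective (e i)) {F : MvPolynomial (Fin n) K} (hF : F ≠ 0)
    (hG : aeval (fun i => rename (e i) f) F = (0 : MvPolynomial Z K)) :
    ∃ (j : Fin n) (c : Z → K) (b : Fin n → K) (μ : ℕ) (R : MvPolynomial (Option A) K), 1 ≤ μ ∧
      aeval (hyb f e j c b) F = yMinus f ^ μ * R ∧ subY f R ≠ 0 := by
  obtain ⟨j, c, b, h1, h2⟩ := hybrid_abs f e he hF hG
  obtain ⟨μ, R, h3, h4, h5⟩ := exists_factor f h1 h2
  exact ⟨j, c, b, μ, R, h3, h4, h5⟩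

end hybrid

/-- the factorisation in the form of the rows file -/
theorem exists_mult {V K : Type} [Field K] (f : MvPolynomial V K)
    (P : MvPolynomial (Option V) K) (hP : P ≠ 0) (hP0 : subY f P = 0) :
    ∃ (μ : ℕ) (R : MvPolynomial (Option V) K), 1 ≤ μ ∧ subY f R ≠ 0 ∧
      P = (MvPolynomial.X none - MvPolynomial.rename some f) ^ μ * R := by
  obtain ⟨μ, R, h1, h2, h3⟩ := exists_factor f hP hP0
  exact ⟨μ, R, h1, h3, h2⟩

/-! ### sums of few products of affine forms -/

section sps

variable {V R : Type} [CommRing R]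

theorem Sps.zero (N N' : ℕ) : Sps N (N' + 1) (0 : MvPolynomial V R) := by
  refine ⟨fun _ _ => 0, fun _ _ => by simp, ?_⟩
  symm
  apply Finset.sum_eq_zero
  intro i _
  exact Finset.prod_eq_zero (Finset.mem_univ 0) rfl

theorem Sps.add_prod {N N' : ℕ} {f : MvPolynomial V R} (hf : Sps N N' f)
    (A : Fin N' → MvPolynomial V R) (hA : ∀ j, (A j).totalDegree ≤ 1) :
    Sps (N + 1) N' (∏ j, A j + f) := by
  obtain ⟨B, hB, rfl⟩ := hf
  refine ⟨Fin.cons A B, ?_, ?_⟩
  · intro i
    refine Fin.cases ?_ (fun i => ?_) i
    · intro j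
      exact hA j
    · intro j
      exact hB i j
  · rw [Fin.sum_univ_succ]
    rfl

theorem exists_prod_X [Nontrivial R] (N : ℕ) : ∀ t : Finset V, t.card ≤ N →
    ∃ A : Fin N → MvPolynomial V R, (∀ j, (A j).totalDegree ≤ 1) ∧ ∏ v ∈ t, X v = ∏ j, A j := by
  classical
  induction N with
  | zero =>
    intro t ht
    have h1 : t = ∅ := Finset.card_eq_zero.1 (by omega)
    exact ⟨fun _ => 1, fun _ => by simp, by rw [h1]; simp⟩
  | succ N ih =>
    intro t ht
    rcases t.eq_empty_or_nonempty with h1 | ⟨v, hv⟩
    · exact ⟨fun _ => 1, fun _ => by simp, by rw [h1]; simp⟩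
    · have h2 : (t.erase v).card ≤ N := by
        rw [Finset.card_erase_of_mem hv]
        omega
      obtain ⟨A, hA, h3⟩ := ih _ h2
      refine ⟨Fin.cons (X v) A, ?_, ?_⟩
      · intro j
        refine Fin.cases ?_ (fun j => ?_) j
        · exact (totalDegree_X v).le
        · exact hA j
      · rw [Fin.prod_univ_succ, ← Finset.mul_prod_erase t _ hv, h3]
        rfl

/-- a sum of few terms `c * ∏ X v` -/
theorem Sps.of_sum [Nontrivial R] {ι : Type} (s : Finset ι) (c : ι → R) (t : ι → Finset V)
    {κ : ℕ} (ht : ∀ i ∈ s, (t i).card ≤ κ) : ∀ N : ℕ, s.card ≤ N →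
      Sps N (κ + 1) (∑ i ∈ s, C (c i) * ∏ v ∈ t i, X v) := by
  classical
  induction s using Finset.induction_on with
  | empty =>
    intro N _
    rw [Finset.sum_empty]
    exact Sps.zero N κ
  | insert i s hi ih =>
    intro N hN
    rw [Finset.card_insert_of_notMem hi] at hN
    obtain ⟨N, rfl⟩ : ∃ M, N = M + 1 := ⟨N - 1, by omega⟩
    rw [Finset.sum_insert hi]
    obtain ⟨A, hA, h3⟩ := exists_prod_X (R := R) κ (t i) (ht i (Finset.mem_insert_self _ _))
    have h4 : C (c i) * ∏ v ∈ t i, X v = ∏ j, (Fin.cons (C (c i)) A : Fin (κ + 1) → _) j := by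
      rw [Fin.prod_univ_succ, h3]
      rfl
    rw [h4]
    refine Sps.add_prod (ih (fun j hj => ht j (Finset.mem_insert_of_mem hj)) N (by omega)) _ ?_
    intro j
    refine Fin.cases ?_ (fun j => ?_) j
    · show (C (c i)).totalDegree ≤ 1
      rw [totalDegree_C]
      exact Nat.zero_le _
    · exact hA j

theorem Sps.C [Nontrivial R] {N : ℕ} (hN : 1 ≤ N) (κ : ℕ) (a : R) :
    Sps N (κ + 1) (MvPolynomial.C a : MvPolynomial V R) := by
  have h := Sps.of_sum (V := V) ({0} : Finset ℕ) (fun _ => a) (fun _ => ∅) (κ := κ)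
    (fun _ _ => by simp) N (by simpa using hN)
  simpa using h

theorem Sps.X [Nontrivial R] {N κ : ℕ} (hN : 1 ≤ N) (hκ : 1 ≤ κ) (v : V) :
    Sps N (κ + 1) (MvPolynomial.X v : MvPolynomial V R) := by
  have h := Sps.of_sum (V := V) ({0} : Finset ℕ) (fun _ => (1 : R)) (fun _ => {v}) (κ := κ)
    (fun _ _ => by simpa using hκ) N (by simpa using hN)
  simpa using h

/-- a multilinear polynomial, with all but few variables replaced by constants -/
theorem Sps.restrict [Nontrivial R] {W : Type} (D : Finset V) (f : MvPolynomial V R)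
    (hf : ∀ v, f.degreeOf v ≤ 1) (θ : V → MvPolynomial W R) (ι : V → W)
    (h1 : ∀ v ∈ D, θ v = MvPolynomial.X (ι v)) (c : V → R)
    (h2 : ∀ v, v ∉ D → θ v = MvPolynomial.C (c v)) {κ : ℕ} (hκ : D.card ≤ κ)
    (hι : Set.InjOn ι D) : Sps (2 ^ κ) (κ + 1) (aeval θ f) := by
  classical
  -- the terms
  have hm : ∀ m ∈ f.support, ∀ v, m v ≤ 1 := by
    intro m hm v
    exact ((degreeOf_le_iff).1 (hf v)) m hm
  have hterm : ∀ m ∈ f.support, m.prod (fun v e => θ v ^ e) =
      MvPolynomial.C (∏ v ∈ m.support \ D, c v) * ∏ v ∈ m.support ∩ D, MvPolynomial.X (ι v) := by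
    intro m hm'
    rw [Finsupp.prod, ← Finset.sdiff_union_inter m.support D, Finset.prod_union
      (Finset.disjoint_sdiff_inter _ _), map_prod]
    congr 1
    · rw [Finset.sdiff_union_inter]
      refine Finset.prod_congr rfl fun v hv => ?_
      rw [Finset.mem_sdiff, Finsupp.mem_support_iff] at hv
      have h3 := hm m hm' v
      have h4 : m v = 1 := by omega
      rw [h4, pow_one, h2 v hv.2]
    · rw [Finset.sdiff_union_inter]
      refine Finset.prod_congr rfl fun v hv => ?_
      rw [Finset.mem_inter, Finsupp.mem_support_iff] at hv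
      have h3 := hm m hm' v
      have h4 : m v = 1 := by omega
      rw [h4, pow_one, h1 v hv.2]
  have h3 : aeval θ f = ∑ m ∈ f.support, MvPolynomial.C (f.coeff m * ∏ v ∈ m.support \ D, c v) *
      ∏ v ∈ m.support ∩ D, MvPolynomial.X (ι v) := by
    rw [aeval_def, eval₂_eq]
    refine Finset.sum_congr rfl fun m hm' => ?_
    have h4 := hterm m hm'
    rw [Finsupp.prod] at h4
    rw [h4, algebraMap_eq, map_mul, mul_assoc]
  have h4 : aeval θ f = ∑ s ∈ D.powerset, MvPolynomial.C
      (∑ m ∈ f.support.filter (fun m => m.support ∩ D = s),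
        f.coeff m * ∏ v ∈ m.support \ D, c v) * ∏ v ∈ s.image ι, MvPolynomial.X v := by
    rw [h3, ← Finset.sum_fiberwise_of_maps_to (s := f.support) (t := D.powerset)
      (g := fun m => m.support ∩ D) (fun m _ => Finset.mem_powerset.2 Finset.inter_subset_right)]
    refine Finset.sum_congr rfl fun s hs => ?_
    rw [map_sum, Finset.sum_mul]
    refine Finset.sum_congr rfl fun m hm' => ?_
    rw [Finset.mem_filter] at hm'
    rw [hm'.2, Finset.prod_image fun x hx y hy h => hι (Finset.mem_powerset.1 hs hx)
      (Finset.mem_powerset.1 hs hy) h]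
  rw [h4]
  refine Sps.of_sum _ _ _ (fun s hs => ?_) _ ?_
  · exact Finset.card_image_le.trans ((Finset.card_le_card (Finset.mem_powerset.1 hs)).trans hκ)
  · rw [Finset.card_powerset]
    exact Nat.pow_le_pow_right (by norm_num) hκ

end sps

/-- THE HYBRID ARGUMENT in the form of the rows file -/
theorem hybrid {V Z K : Type} [Finite V] [Finite Z] [Field K] [Infinite K] {n κ : ℕ} (hκ : 1 ≤ κ)
    (f : MvPolynomial V K) (hf : ∀ v, f.degreeOf v ≤ 1) (pl : Fin n → V → Z)
    (hpl : ∀ i j v v', pl i v = pl j v' → v = v')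
    (hag : ∀ i j, i ≠ j → {v | pl i v = pl j v}.ncard < κ)
    (F : MvPolynomial (Fin n) K) (hF : F ≠ 0)
    (hF0 : MvPolynomial.aeval (fun i => MvPolynomial.rename (pl i) f) F = 0) :
    ∃ φ : Fin n → MvPolynomial (Option V) K, (∀ i, Sps (2 ^ κ) (κ + 1) (φ i)) ∧
      MvPolynomial.aeval φ F ≠ 0 ∧ subY f (MvPolynomial.aeval φ F) = 0 := by
  classical
  obtain ⟨j, c, b, h1, h2⟩ := hybrid_abs f pl (fun i v v' h => hpl i i v v' h) hF hF0
  refine ⟨hyb f pl j c b, fun i => ?_, h1, h2⟩
  rw [hyb]
  have h2κ : 1 ≤ 2 ^ κ := Nat.one_le_two_pow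
  by_cases h3 : i < j
  · rw [if_pos h3]
    have hfin : {v | pl i v = pl j v}.Finite := Set.toFinite _
    have hcard : hfin.toFinset.card ≤ κ := by
      have h4 := hag i j h3.ne
      rw [Set.ncard_eq_toFinset_card _ hfin] at h4
      exact h4.le
    refine Sps.restrict hfin.toFinset f hf _ some ?_ (fun v => c (pl i v)) ?_ hcard
      (fun x _ y _ h => Option.some_injective _ h)
    · intro v hv
      rw [Set.Finite.mem_toFinset, Set.mem_ofPred_eq] at hv
      show look (pl j) c (pl i v) = _
      rw [hv, look_self fun v v' h => hpl j j v v' h]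
    · intro v hv
      rw [Set.Finite.mem_toFinset, Set.mem_ofPred_eq] at hv
      show look (pl j) c (pl i v) = _
      rw [look_of_not]
      intro v' hv'
      have h5 := hpl j i v' v hv'
      rw [h5] at hv'
      exact hv hv'.symm
  · rw [if_neg h3]
    by_cases h4 : i = j
    · rw [if_pos h4]
      exact Sps.X h2κ hκ none
    · rw [if_neg h4]
      exact Sps.C h2κ κ (b i)

/-! ### the iterated matrix product is multilinear -/

theorem degreeOf_mulentry {V K : Type} [Field K] {w k k' : ℕ} (v : V)
    (A B : Matrix (Fin w) (Fin w) (MvPolynomial V K)) (hA : ∀ a b, (A a b).degreeOf v ≤ k)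
    (hB : ∀ a b, (B a b).degreeOf v ≤ k') (a b : Fin w) : ((A * B) a b).degreeOf v ≤ k + k' := by
  rw [Matrix.mul_apply]
  refine (degreeOf_sum_le _ _ _).trans (Finset.sup_le fun c _ => ?_)
  exact (degreeOf_mul_le _ _ _).trans (Nat.add_le_add (hA a c) (hB c b))

theorem degreeOf_ofFn_prod {V K : Type} [Field K] {w : ℕ} (v : V) : ∀ (d : ℕ)
    (M : Fin d → Matrix (Fin w) (Fin w) (MvPolynomial V K)) (k : Fin d → ℕ)
    (_ : ∀ i a b, (M i a b).degreeOf v ≤ k i) (a b : Fin w),
    ((List.ofFn M).prod a b).degreeOf v ≤ ∑ i, k i := by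
  intro d
  induction d with
  | zero =>
    intro M k _ a b
    rw [List.ofFn_zero, List.prod_nil, Matrix.one_apply]
    split_ifs
    · rw [degreeOf_one]
      exact Nat.zero_le _
    · rw [degreeOf_zero]
      exact Nat.zero_le _
  | succ d ih =>
    intro M k h a b
    rw [List.ofFn_succ, List.prod_cons, Fin.sum_univ_succ]
    exact degreeOf_mulentry v _ _ (h 0) (ih _ _ fun i => h i.succ) a b

theorem degreeOf_imm (d w : ℕ) (K : Type) [Field K] (v : Vr d w) :
    (imm d w K).degreeOf v ≤ 1 := by
  classical
  have h := degreeOf_ofFn_prod v d (fun i : Fin d => (Matrix.of fun a b => X (i, a, b) :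
    Matrix (Fin (w + 1)) (Fin (w + 1)) (MvPolynomial (Vr d w) K)))
    (fun i => if i = v.1 then 1 else 0) (fun i a b => ?_) 0 0
  · refine h.trans ?_
    rw [Finset.sum_ite_eq' Finset.univ v.1, if_pos (Finset.mem_univ _)]
  · rw [Matrix.of_apply, degreeOf_X]
    by_cases h1 : v = (i, a, b)
    · rw [if_pos h1, if_pos (by rw [h1])]
    · rw [if_neg h1]
      exact Nat.zero_le _

end Pool.QPIT
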