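import Pool.Agent.XD.Shift

/-!
# QPIT, row Q2: the substitution `X v ↦ c v + lam * α v + mu * β v`

`α v` is linear in the letters of type `true`, `β v` is linear in the letters of type `false`.
* `PhiG_mem`, `PhiG_zero`, `PhiG_one`: the hypotheses of the machine;
* `cf_pow_mul`: the coefficient of `lam ^ r * mu ^ E` in the image of `A ^ m * R` if the image of
  `A` is `t - lam ^ r * mu ^ E * F`.
-/

set_option autoImplicit false
set_option linter.unusedSectionVars false

namespace Pool.QPIT

open Finset Pool.Agent.Helper87.D3 Pool.Agent.Helper41.CD Pool.XD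

section phi

variable {L : Type} [Fintype L] (ty : L → Bool) {K V : Type} [Field K]

/-- the substitution `X v ↦ c v + lam * α v + mu * β v` -/
noncomputable def PhiG (c : V → K) (α β : V → MvPolynomial L K) :
    MvPolynomial V K →ₐ[K] Ser (MvPolynomial L K) :=
  MvPolynomial.aeval fun v => cst (MvPolynomial.C (c v)) + lam (MvPolynomial L K) * cst (α v) +
    mu (MvPolynomial L K) * cst (β v)

variable (c : V → K) (α β : V → MvPolynomial L K)

theorem PhiG_C (a : K) :
    PhiG c α β (MvPolynomial.C a) = cst (algebraMap K (MvPolynomial L K) a) := by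
  rw [PhiG, MvPolynomial.aeval_C, Pool.Agent.Helper59.CD.algebraMap_ser]

theorem PhiG_X (v : V) : PhiG c α β (MvPolynomial.X v) = cst (MvPolynomial.C (c v)) +
    lam (MvPolynomial L K) * cst (α v) + mu (MvPolynomial L K) * cst (β v) := by
  rw [PhiG, MvPolynomial.aeval_X]

theorem PhiG_mem (hα1 : ∀ v, α v ∈ UU ty K 1) (hα0 : ∀ v, α v ∈ VV ty K 0)
    (hβ0 : ∀ v, β v ∈ UU ty K 0) (hβ1 : ∀ v, β v ∈ VV ty K 1) (f : MvPolynomial V K) :
    InB (Pool.CD.Bi (VV ty K) (UU ty K)) (PhiG c α β f) := by
  induction f using MvPolynomial.induction_on with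
  | C a =>
    rw [PhiG_C]
    exact InB.cst (big_X ty) a
  | add p q hp hq =>
    rw [map_add]
    exact hp.add hq
  | mul_X p v hp =>
    rw [map_mul]
    refine hp.mul (big_X ty) ?_
    rw [PhiG_X]
    refine InB.add (InB.add (InB.cst (big_X ty) (c v)) ?_) ?_
    · intro b e
      rw [cf_lam_mul]
      split_ifs with hbe
      · rw [hbe.1, hbe.2]
        exact ⟨hα1 v, hα0 v⟩
      · exact Submodule.zero_mem _
    · intro b e
      rw [cf_mu_mul]
      split_ifs with hbe
      · rw [hbe.1, hbe.2]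
        exact ⟨hβ0 v, hβ1 v⟩
      · exact Submodule.zero_mem _

theorem PhiG_zero (f : MvPolynomial V K) :
    cf 0 0 (PhiG c α β f) = algebraMap K (MvPolynomial L K) (MvPolynomial.eval c f) := by
  induction f using MvPolynomial.induction_on with
  | C a =>
    rw [PhiG_C, cf_cst, if_pos ⟨rfl, rfl⟩, MvPolynomial.eval_C]
  | add p q hp hq =>
    rw [map_add, cf_add, hp, hq, map_add, map_add]
  | mul_X p v hp =>
    rw [map_mul, cf_zero_zero_mul, hp, map_mul, map_mul, MvPolynomial.eval_X, PhiG_X, cf_add,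
      cf_add, cf_cst, if_pos ⟨rfl, rfl⟩, cf_lam_mul, cf_mu_mul, if_neg (by omega),
      if_neg (by omega), add_zero, add_zero]
    rfl

theorem XAff.varG (hα0 : ∀ v, α v ∈ VV ty K 0) (hβ0 : ∀ v, β v ∈ UU ty K 0) (v : V) :
    XAff ty (PhiG c α β (MvPolynomial.X v)) :=
  ⟨c v, α v, hα0 v, β v, hβ0 v, PhiG_X c α β v⟩

variable {ty}

/-- polynomials of degree at most one -/
theorem XAff.aevalG (f : V → Ser (MvPolynomial L K)) (hf : ∀ s, XAff ty (f s))
    (P : MvPolynomial V K) (hP : P.totalDegree ≤ 1) : XAff ty (MvPolynomial.aeval f P) := by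
  classical
  rw [P.as_sum, map_sum]
  have key : ∀ m ∈ P.support,
      XAff ty (MvPolynomial.aeval f (MvPolynomial.monomial m (P.coeff m))) := by
    intro m hm
    have h1 : m.degree ≤ 1 := (MvPolynomial.le_totalDegree hm).trans hP
    rcases Nat.le_one_iff_eq_zero_or_eq_one.1 h1 with h2 | h2
    · have h3 : m = 0 := (Finsupp.degree_eq_zero_iff m).1 h2
      rw [h3, MvPolynomial.aeval_monomial]
      simp only [Finsupp.prod_zero_index, mul_one]
      exact XAff.const _
    · obtain ⟨s, hs⟩ : ∃ s, m = Finsupp.single s 1 := by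
        have h3 : m ≠ 0 := by
          rintro rfl
          simp at h2
        obtain ⟨s, hs⟩ := Finsupp.ne_iff.1 h3
        have h4 : m s ≤ m.degree := Finsupp.le_degree s m
        have h5 : m s = 1 := by
          have : m s ≠ 0 := hs
          omega
        refine ⟨s, ?_⟩
        have h6 : m = (m - Finsupp.single s 1) + Finsupp.single s 1 := by
          ext t
          by_cases ht : t = s
          · subst ht; simp [h5]
          · simp [Ne.symm ht]
        have h7 : (m - Finsupp.single s 1).degree = 0 := by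
          have := congrArg Finsupp.degree h6
          rw [map_add, Finsupp.degree_single, h2] at this
          omega
        rw [Finsupp.degree_eq_zero_iff] at h7
        rw [h7, zero_add] at h6
        exact h6
      rw [hs, MvPolynomial.aeval_monomial, Finsupp.prod_single_index (by simp), pow_one,
        ← Algebra.smul_def]
      exact (hf s).smul _
  have : ∀ t ⊆ P.support, XAff ty
      (∑ m ∈ t, MvPolynomial.aeval f (MvPolynomial.monomial m (P.coeff m))) := by
    intro t
    induction t using Finset.induction_on with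
    | empty => intro _; rw [sum_empty]; exact XAff.zero
    | insert a t ha ih =>
      intro ht
      rw [sum_insert ha]
      exact (key a (ht (mem_insert_self _ _))).add (ih fun i hi => ht (mem_insert_of_mem hi))
  exact this _ (Subset.refl _)

variable (ty)

theorem PhiG_one (hα0 : ∀ v, α v ∈ VV ty K 0) (hβ0 : ∀ v, β v ∈ UU ty K 0)
    (f : MvPolynomial V K) (hf : f.totalDegree ≤ 1) :
    ∃ a ∈ VV ty K 0, ∃ b ∈ UU ty K 0,
      PhiG c α β f = cst (algebraMap K _ (MvPolynomial.eval c f)) + lam _ * cst a +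
        mu _ * cst b := by
  have h1 : XAff ty (PhiG c α β f) := by
    have h2 : PhiG c α β f =
        MvPolynomial.aeval (fun v => PhiG c α β (MvPolynomial.X v)) f := by
      have : PhiG c α β = MvPolynomial.aeval (fun v => PhiG c α β (MvPolynomial.X v)) := by
        apply MvPolynomial.algHom_ext
        intro v
        rw [MvPolynomial.aeval_X]
      exact DFunLike.congr_fun this f
    rw [h2]
    exact XAff.aevalG _ (fun v => XAff.varG ty c α β hα0 hβ0 v) f hf
  obtain ⟨a, x, hx, y, hy, h⟩ := h1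
  refine ⟨x, hx, y, hy, ?_⟩
  have h0 := PhiG_zero c α β f
  rw [h, cf_add, cf_add, cf_cst, if_pos ⟨rfl, rfl⟩, cf_lam_mul, cf_mu_mul, if_neg (by omega),
    if_neg (by omega), add_zero, add_zero] at h0
  rw [h, h0]

end phi

section coeff

variable {B : Type} [CommRing B]

theorem cf_lam_mul_gen (b e : ℕ) (F : Ser B) :
    cf (b + 1) e (lam B * F) = cf b e F := by
  unfold cf lam
  rw [PowerSeries.coeff_succ_X_mul]

theorem cf_lam_mul_zero (e : ℕ) (F : Ser B) : cf 0 e (lam B * F) = 0 := by
  unfold cf lam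
  rw [PowerSeries.coeff_zero_X_mul, map_zero]

theorem cf_mu_mul_gen (b e : ℕ) (F : Ser B) :
    cf b (e + 1) (mu B * F) = cf b e F := by
  unfold cf mu
  rw [PowerSeries.coeff_C_mul, PowerSeries.coeff_succ_X_mul]

theorem cf_mu_mul_zero (b : ℕ) (F : Ser B) : cf b 0 (mu B * F) = 0 := by
  unfold cf mu
  rw [PowerSeries.coeff_C_mul, PowerSeries.coeff_zero_X_mul]

/-- coefficients of `lam ^ r * mu ^ n * F` -/
theorem cf_lam_mu_pow (r n : ℕ) : ∀ (b e : ℕ) (F : Ser B),
    cf b e (lam B ^ r * mu B ^ n * F) = if r ≤ b ∧ n ≤ e then cf (b - r) (e - n) F else 0 := by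
  have hm : ∀ (n b e : ℕ) (F : Ser B), cf b e (mu B ^ n * F) =
      if n ≤ e then cf b (e - n) F else 0 := by
    intro n
    induction n with
    | zero => intro b e F; simp
    | succ n ih =>
      intro b e F
      rw [pow_succ', mul_assoc]
      rcases e with _ | e
      · rw [cf_mu_mul_zero, if_neg (by omega)]
      · rw [cf_mu_mul_gen, ih]
        by_cases h : n ≤ e
        · rw [if_pos h, if_pos (by omega), Nat.add_sub_add_right]
        · rw [if_neg h, if_neg (by omega)]
  induction r with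
  | zero =>
    intro b e F
    rw [pow_zero, one_mul, hm]
    simp
  | succ r ih =>
    intro b e F
    rw [pow_succ', mul_assoc, mul_assoc, ← mul_assoc (lam B ^ r)]
    rcases b with _ | b
    · rw [cf_lam_mul_zero, if_neg (by omega)]
    · rw [cf_lam_mul_gen, ih]
      by_cases h : r ≤ b ∧ n ≤ e
      · rw [if_pos h, if_pos (by omega), Nat.add_sub_add_right]
      · rw [if_neg h, if_neg (by omega)]

/-- the powers of `t - u * F` modulo `u ^ 2` -/
theorem exists_pow_sub (t u F : Ser B) (m : ℕ) : ∃ G : Ser B,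
    (t - u * F) ^ (m + 1) = t ^ (m + 1) - (m + 1 : ℕ) * t ^ m * (u * F) + u * u * G := by
  induction m with
  | zero => exact ⟨0, by simp⟩
  | succ m ih =>
    obtain ⟨G, hG⟩ := ih
    refine ⟨G * (t - u * F) + (m + 1 : ℕ) * t ^ m * (F * F), ?_⟩
    rw [pow_succ, hG]
    push_cast
    ring

/-- **the coefficient of `lam ^ r * mu ^ E`** in `A ^ (m + 1) * R` if `A = t - lam ^ r * mu ^ E * F`
with constants `t`, `F` -/
theorem cf_pow_mul_ser {r E : ℕ} (hrE : (r, E) ≠ (0, 0)) (t F : B) (m : ℕ) (A R : Ser B)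
    (hA : A = cst t - lam B ^ r * mu B ^ E * cst F) :
    cf r E (A ^ (m + 1) * R) =
      t ^ m * (t * cf r E R - (m + 1 : ℕ) * F * cf 0 0 R) := by
  obtain ⟨G, hG⟩ := exists_pow_sub (cst t) (lam B ^ r * mu B ^ E) (cst F) m
  have hcp : ∀ k : ℕ, (cst t : Ser B) ^ k = cst (t ^ k) := by
    intro k
    induction k with
    | zero => rw [pow_zero, pow_zero, cst_one]
    | succ k ih => rw [pow_succ, pow_succ, cst_mul, ih]
  have hcn : ((m + 1 : ℕ) : Ser B) = cst ((m + 1 : ℕ) : B) := by
    unfold cst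
    rw [map_natCast, map_natCast]
  have e1 : A ^ (m + 1) * R = cst (t ^ (m + 1)) * R -
      cst (((m + 1 : ℕ) : B) * t ^ m * F) * (lam B ^ r * mu B ^ E * R) +
      lam B ^ r * mu B ^ E * (lam B ^ r * mu B ^ E * (G * R)) := by
    rw [hA, hG, hcp, hcp, hcn, cst_mul, cst_mul]
    ring
  rw [e1, cf_add, cf_sub, cf_cst_mul, cf_cst_mul, cf_lam_mu_pow, if_pos ⟨le_rfl, le_rfl⟩,
    cf_lam_mu_pow, if_pos ⟨le_rfl, le_rfl⟩, cf_lam_mu_pow, Nat.sub_self, Nat.sub_self, if_neg]
  · rw [pow_succ]
    ring
  · rintro ⟨h1, h2⟩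
    apply hrE
    rw [Prod.mk.injEq]
    omega

/-- the same for the image under an algebra map -/
theorem cf_pow_mul {K V : Type} [Field K] [Algebra K B] (Φ : MvPolynomial V K →ₐ[K] Ser B)
    {r E : ℕ} (hrE : (r, E) ≠ (0, 0)) (t F : B) (m : ℕ) (A R : MvPolynomial V K)
    (hA : Φ A = cst t - lam B ^ r * mu B ^ E * cst F) :
    cf r E (Φ (A ^ (m + 1) * R)) =
      t ^ m * (t * cf r E (Φ R) - (m + 1 : ℕ) * F * cf 0 0 (Φ R)) := by
  rw [map_mul, map_pow]
  exact cf_pow_mul_ser hrE t F m (Φ A) (Φ R) hA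

end coeff

end Pool.QPIT
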