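import Pool.Agent.XD.Finish
import Pool.Agent.XD.Level
import Pool.Agent.XD.Rank
import Pool.Agent.XD.Perm
import Pool.Agent.XD.Shift
import Pool.Agent.QPIT.Phi
import Pool.Agent.QPIT.Hybrid
import Pool.Agent.QPIT.GaugeDefs

/-!
# QPIT, row Q3: all multiples of `y - IMM` are hard

The base point is generic, `y = IMM (x0) + t`; the coefficients are polynomials in `t`, and at
`t = 0` the matrix is a multiple of the matrix of the chain polynomial.
-/

set_option autoImplicit false
set_option linter.unusedSectionVars false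

namespace Pool.QPIT

open Finset Pool.Agent.Helper87.D3 Pool.Agent.Helper41.CD Pool.XD

section polyfun

variable {L K : Type} [Field K]

/-- all coefficients are polynomials in the parameter -/
def PF (F : K → Ser (MvPolynomial L K)) : Prop :=
  ∀ (b e : ℕ) (m : L →₀ ℕ), ∃ p : Polynomial K, ∀ t : K,
    MvPolynomial.coeff m (cf b e (F t)) = p.eval t

theorem PF.const (F : Ser (MvPolynomial L K)) : PF fun _ : K => F := fun b e m =>
  ⟨Polynomial.C (MvPolynomial.coeff m (cf b e F)), fun t => by rw [Polynomial.eval_C]⟩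

theorem PF.add {F G : K → Ser (MvPolynomial L K)} (hF : PF F) (hG : PF G) :
    PF fun t => F t + G t := fun b e m => by
  obtain ⟨p, hp⟩ := hF b e m
  obtain ⟨q, hq⟩ := hG b e m
  exact ⟨p + q, fun t => by rw [cf_add, MvPolynomial.coeff_add, hp, hq, Polynomial.eval_add]⟩

theorem PF.mul {F G : K → Ser (MvPolynomial L K)} (hF : PF F) (hG : PF G) :
    PF fun t => F t * G t := fun b e m => by
  classical
  choose p hp using hF
  choose q hq using hG
  refine ⟨∑ i ∈ antidiagonal b, ∑ j ∈ antidiagonal e, ∑ x ∈ antidiagonal m,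
    p i.1 j.1 x.1 * q i.2 j.2 x.2, fun t => ?_⟩
  rw [cf_mul, MvPolynomial.coeff_sum, Polynomial.eval_finsetSum]
  refine sum_congr rfl fun i _ => ?_
  rw [MvPolynomial.coeff_sum, Polynomial.eval_finsetSum]
  refine sum_congr rfl fun j _ => ?_
  rw [MvPolynomial.coeff_mul, Polynomial.eval_finsetSum]
  refine sum_congr rfl fun x _ => ?_
  rw [hp, hq, Polynomial.eval_mul]

/-- the constants `a + t` -/
theorem PF.lin (a : K) : PF fun t : K => (cst (MvPolynomial.C (a + t)) :
    Ser (MvPolynomial L K)) := fun b e m => by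
  classical
  refine ⟨if b = 0 ∧ e = 0 then (if 0 = m then Polynomial.C a + Polynomial.X else 0) else 0,
    fun t => ?_⟩
  rw [cf_cst]
  split_ifs with h1 h2
  · rw [MvPolynomial.coeff_C, if_pos h2, Polynomial.eval_add, Polynomial.eval_C,
      Polynomial.eval_X]
  · rw [MvPolynomial.coeff_C, if_neg h2, Polynomial.eval_zero]
  · rw [MvPolynomial.coeff_zero, Polynomial.eval_zero]

/-- the base point -/
def bp {V : Type} (x0 : V → K) (a t : K) : Option V → K := fun o => o.elim (a + t) x0

theorem PF.phi [Fintype L] {V : Type} (x0 : V → K) (a : K) (α β : Option V → MvPolynomial L K)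
    (R : MvPolynomial (Option V) K) : PF fun t => PhiG (bp x0 a t) α β R := by
  induction R using MvPolynomial.induction_on with
  | C c =>
    have h1 : (fun t => PhiG (bp x0 a t) α β (MvPolynomial.C c)) = fun _ : K =>
        (cst (MvPolynomial.C c) : Ser (MvPolynomial L K)) := by
      funext t
      exact PhiG_C _ α β c
    rw [h1]
    exact PF.const _
  | add p q hp hq =>
    simp only [map_add]
    exact hp.add hq
  | mul_X p o hp =>
    simp only [map_mul]
    refine hp.mul ?_
    cases o with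
    | none =>
      have h1 : (fun t => PhiG (bp x0 a t) α β (MvPolynomial.X none)) = fun t : K =>
          cst (MvPolynomial.C (a + t)) + lam (MvPolynomial L K) * cst (α none) +
            mu (MvPolynomial L K) * cst (β none) := by
        funext t
        exact PhiG_X _ α β none
      rw [h1]
      exact ((PF.lin a).add (PF.const _)).add (PF.const _)
    | some v =>
      have h1 : (fun t => PhiG (bp x0 a t) α β (MvPolynomial.X (some v))) = fun _ : K =>
          cst (MvPolynomial.C (x0 v)) + lam (MvPolynomial L K) * cst (α (some v)) +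
            mu (MvPolynomial L K) * cst (β (some v)) := by
        funext t
        exact PhiG_X _ α β (some v)
      rw [h1]
      exact PF.const _

theorem pf_eval {V : Type} (x0 : V → K) (a : K) (R : MvPolynomial (Option V) K) :
    ∃ p : Polynomial K, ∀ t, MvPolynomial.eval (bp x0 a t) R = p.eval t := by
  obtain ⟨p, hp⟩ := PF.phi (L := Empty) x0 a (fun _ => 0) (fun _ => 0) R 0 0 0
  refine ⟨p, fun t => ?_⟩
  rw [← hp t, PhiG_zero, MvPolynomial.algebraMap_eq, MvPolynomial.coeff_C, if_pos rfl]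

theorem exists_eval_ne {K : Type} [Field K] [CharZero K] (p : Polynomial K) (hp : p ≠ 0) :
    ∃ t : K, p.eval t ≠ 0 := by
  by_contra h
  push Not at h
  exact hp (Polynomial.funext fun t => by rw [h t, Polynomial.eval_zero])

theorem eval_subY {V : Type} (f : MvPolynomial V K) (x0 : V → K)
    (R : MvPolynomial (Option V) K) :
    MvPolynomial.eval (bp x0 (MvPolynomial.eval x0 f) 0) R = MvPolynomial.eval x0 (subY f R) := by
  unfold subY
  induction R using MvPolynomial.induction_on with
  | C c => rw [MvPolynomial.eval_C, MvPolynomial.aeval_C, MvPolynomial.algebraMap_eq,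
      MvPolynomial.eval_C]
  | add p q hp hq => rw [map_add, map_add, map_add, hp, hq]
  | mul_X p o hp =>
    rw [map_mul, map_mul, map_mul, hp, MvPolynomial.eval_X, MvPolynomial.aeval_X]
    congr 1
    cases o with
    | none => simp [bp]
    | some v => simp [bp]

theorem eval_yMinus {V : Type} (f : MvPolynomial V K) (x0 : V → K) (t : K) :
    MvPolynomial.eval (bp x0 (MvPolynomial.eval x0 f) t) (yMinus f) = t := by
  unfold yMinus
  rw [map_sub, MvPolynomial.eval_X, MvPolynomial.eval_rename]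
  have h1 : (bp x0 (MvPolynomial.eval x0 f) t) ∘ some = x0 := by
    funext v
    rfl
  rw [h1]
  simp [bp]

end polyfun

section core

theorem mem_lin {L : Type} [Fintype L] (K : Type) [Field K] (wt : L → ℕ) (a : ℕ)
    (D : L → K) (hD : ∀ l, D l ≠ 0 → wt l = a) :
    (∑ l, MvPolynomial.C (D l) * MvPolynomial.X l : MvPolynomial L K) ∈
      MvPolynomial.weightedHomogeneousSubmodule K wt a := by
  refine Submodule.sum_mem _ fun l _ => ?_
  by_cases h : D l = 0
  · rw [h, MvPolynomial.C_0, zero_mul]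
    exact Submodule.zero_mem _
  · rw [← MvPolynomial.smul_eq_C_mul]
    refine Submodule.smul_mem _ _ ?_
    rw [MvPolynomial.mem_weightedHomogeneousSubmodule, ← hD l h]
    exact MvPolynomial.isWeightedHomogeneous_X K wt l

/-- **all multiples of `y - f` are expensive**, for every `f` which has, at a generic point, linear
directions along which it is a constant plus the chain polynomial -/
theorem mult_core_gen {K V : Type} [Field K] [CharZero K] [Fintype V] {d T S w w0 k : ℕ} {y : ℝ}
    {X Y : ℕ → ℝ} (hd : 2 ≤ d) (f0 : MvPolynomial V K) (V1 : MvPolynomial V K) (hV1 : V1 ≠ 0)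
    (hgauge : ∀ x : V → K, MvPolynomial.eval x V1 ≠ 0 →
      ∃ D : Ltr d (wdc d (8 * d)) → V → K,
        ∀ (R : Type) [CommRing R] [Algebra K R] (X : Ltr d (wdc d (8 * d)) → R),
          MvPolynomial.aeval (fun v => algebraMap K R (x v) + ∑ l, X l * algebraMap K R (D l v))
            f0 = algebraMap K R (MvPolynomial.eval x f0) +
            ∑ s : Wrd d (wdc d (8 * d)), ∏ i : Fin d, X (ltr s i))
    (P : MvPolynomial (Option V) K) (hP : P ≠ 0) (hP0 : subY f0 P = 0)
    (f : Fin T → Fin S → MvPolynomial (Option V) K)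
    (hf : ∀ i j, f i j ∈ Cls w0 w S k) (hPf : P = ∑ i, ∏ j, f i j)
    (hy : 0 < y) (hy1 : y ≤ 1)
    (hX : ∀ i, 0 < X i) (hY : ∀ i, 0 < Y i) (hX0 : X 0 = 1) (hY0 : Y 0 = 1)
    (hnum : ∀ i ≤ 2 * k, NumD d (S * (d + 1) ^ (8 * (w0 + w) + 16)) (Real.exp 1)
        (Real.exp y) (X i) (Y i) (X (i + 1)) (Y (i + 1))) :
    ∃ r E : ℕ, r + E = d ∧ -y ≤ r - y * E ∧
      Real.exp 1 ^ r ≤ T * ((d + 1 : ℝ) ^ 16 *
        (X (2 * k + 1) ^ r * Y (2 * k + 1) ^ E)) * (6 * Real.exp 2) := by
  classical
  obtain ⟨wd, hwd⟩ : ∃ wd, wd = wdc d (8 * d) := ⟨_, rfl⟩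
  obtain ⟨ty, hty⟩ : ∃ ty, ty = tyl d wd (tyc y d) := ⟨_, rfl⟩
  obtain ⟨r, hr⟩ : ∃ r, r = (univ.filter fun i : Fin d => tyc y d i = true).card := ⟨_, rfl⟩
  obtain ⟨E, hE⟩ : ∃ E, E = (univ.filter fun i : Fin d => tyc y d i = false).card := ⟨_, rfl⟩
  obtain ⟨hrE, hrE', LU, LV, hL, hfin⟩ := finish (K := K) (g := 1) (m := d) (one_mul d).symm le_rfl
    hd hy hy1 hr hE
  rw [← hwd, ← hty] at hfin
  rw [← hwd] at hgauge
  -- the factorisations
  obtain ⟨μ, R, hμ, hPR, hR⟩ := exists_factor f0 hP hP0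
  obtain ⟨m, rfl⟩ : ∃ m, μ = m + 1 := ⟨μ - 1, by omega⟩
  obtain ⟨W1, hW1, hgen⟩ := exists_gen (I := Fin T × Fin S) (fun p => f p.1 p.2)
    (fun p => hf p.1 p.2)
  obtain ⟨a, W2, hW12, hW2⟩ : ∃ (a : ℕ) (W2 : MvPolynomial (Option V) K),
      W1 = yMinus f0 ^ a * W2 ∧ subY f0 W2 ≠ 0 := by
    by_cases h : subY f0 W1 = 0
    · obtain ⟨a, W2, _, h1, h2⟩ := exists_factor f0 hW1 h
      exact ⟨a, W2, h1, h2⟩
    · exact ⟨0, W1, by rw [pow_zero, one_mul], h⟩
  -- the generic point
  obtain ⟨xn, hxn⟩ := exists_nat_eval (V1 * subY f0 R * subY f0 W2)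
    (mul_ne_zero (mul_ne_zero hV1 hR) hW2)
  set x0 : V → K := fun v => (xn v : K) with hx0
  rw [map_mul, map_mul] at hxn
  have hx1 : MvPolynomial.eval x0 V1 ≠ 0 := left_ne_zero_of_mul (left_ne_zero_of_mul hxn)
  have hx2 : MvPolynomial.eval x0 (subY f0 R) ≠ 0 := right_ne_zero_of_mul (left_ne_zero_of_mul hxn)
  have hx3 : MvPolynomial.eval x0 (subY f0 W2) ≠ 0 := right_ne_zero_of_mul hxn
  set a0 := MvPolynomial.eval x0 f0 with ha0
  obtain ⟨D, hD⟩ := hgauge x0 hx1
  set α : Option V → MvPolynomial (Ltr d wd) K := fun o => o.elim 0 fun v =>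
    ∑ l, MvPolynomial.C (if ty l then D l v else 0) * MvPolynomial.X l with hα
  set β : Option V → MvPolynomial (Ltr d wd) K := fun o => o.elim 0 fun v =>
    ∑ l, MvPolynomial.C (if ty l then 0 else D l v) * MvPolynomial.X l with hβ
  have hαm : ∀ o, α o ∈ UU ty K 1 ∧ α o ∈ VV ty K 0 := by
    intro o
    cases o with
    | none => exact ⟨Submodule.zero_mem _, Submodule.zero_mem _⟩
    | some v =>
      refine ⟨mem_lin K _ 1 _ fun l hl => ?_, mem_lin K _ 0 _ fun l hl => ?_⟩
      · by_cases h : ty l = true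
        · rw [if_pos h]
        · exact absurd (if_neg h) hl
      · by_cases h : ty l = true
        · rw [if_pos h]
        · exact absurd (if_neg h) hl
  have hβm : ∀ o, β o ∈ UU ty K 0 ∧ β o ∈ VV ty K 1 := by
    intro o
    cases o with
    | none => exact ⟨Submodule.zero_mem _, Submodule.zero_mem _⟩
    | some v =>
      refine ⟨mem_lin K _ 0 _ fun l hl => ?_, mem_lin K _ 1 _ fun l hl => ?_⟩
      · by_cases h : ty l = true
        · exact absurd (if_pos h) hl
        · rw [if_neg h]
      · by_cases h : ty l = true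
        · exact absurd (if_pos h) hl
        · rw [if_neg h]
  -- the image of `y - f`
  have hprod : ∏ i : Fin d, (if tyc y d i then lam (MvPolynomial (Ltr d wd) K) else
      mu (MvPolynomial (Ltr d wd) K)) = lam (MvPolynomial (Ltr d wd) K) ^ r *
        mu (MvPolynomial (Ltr d wd) K) ^ E := by
    rw [prod_ite, prod_const, prod_const, hr, hE]
    congr 3
    ext i
    simp
  have hyM : ∀ t : K, PhiG (bp x0 a0 t) α β (yMinus f0) = cst (MvPolynomial.C t) -
      lam (MvPolynomial (Ltr d wd) K) ^ r * mu (MvPolynomial (Ltr d wd) K) ^ E *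
        cst (chn d wd K) := by
    intro t
    have h1 := hD (Ser (MvPolynomial (Ltr d wd) K)) (fun l =>
      (if ty l then lam (MvPolynomial (Ltr d wd) K) else mu (MvPolynomial (Ltr d wd) K)) *
        cst (MvPolynomial.X l))
    have h2 : PhiG (bp x0 a0 t) α β (MvPolynomial.rename some f0) =
        MvPolynomial.aeval (fun v => algebraMap K (Ser (MvPolynomial (Ltr d wd) K)) (x0 v) +
          ∑ l, ((if ty l then lam (MvPolynomial (Ltr d wd) K) else
            mu (MvPolynomial (Ltr d wd) K)) * cst (MvPolynomial.X l)) *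
              algebraMap K (Ser (MvPolynomial (Ltr d wd) K)) (D l v)) f0 := by
      unfold PhiG
      rw [MvPolynomial.aeval_rename]
      congr 2
      funext v
      show cst (MvPolynomial.C (x0 v)) + lam _ * cst (α (some v)) + mu _ * cst (β (some v)) = _
      rw [Pool.Agent.Helper59.CD.algebraMap_ser, MvPolynomial.algebraMap_eq, add_assoc]
      congr 1
      have h3 : ∀ g : Ltr d wd → MvPolynomial (Ltr d wd) K,
          cst (∑ l, g l) = ∑ l, (cst (g l) : Ser (MvPolynomial (Ltr d wd) K)) := by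
        intro g
        simp only [cst, map_sum]
      show lam _ * cst (∑ l, MvPolynomial.C (if ty l then D l v else 0) * MvPolynomial.X l) +
        mu _ * cst (∑ l, MvPolynomial.C (if ty l then 0 else D l v) * MvPolynomial.X l) = _
      rw [h3, h3, mul_sum, mul_sum, ← sum_add_distrib]
      refine sum_congr rfl fun l _ => ?_
      rw [Pool.Agent.Helper59.CD.algebraMap_ser, MvPolynomial.algebraMap_eq, cst_mul, cst_mul]
      split_ifs with h
      · rw [MvPolynomial.C_0, cst_zero]
        ring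
      · rw [MvPolynomial.C_0, cst_zero]
        ring
    unfold yMinus
    rw [map_sub, h2, h1, PhiG_X]
    have h4 : ∀ s : Wrd d wd, ∏ i : Fin d, ((if ty (ltr s i) then
        lam (MvPolynomial (Ltr d wd) K) else mu (MvPolynomial (Ltr d wd) K)) *
          cst (MvPolynomial.X (ltr s i))) =
        lam (MvPolynomial (Ltr d wd) K) ^ r * mu (MvPolynomial (Ltr d wd) K) ^ E *
          cst (∏ i : Fin d, MvPolynomial.X (ltr s i)) := by
      intro s
      rw [prod_mul_distrib, ← cst_prod]
      congr 1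
      rw [← hprod]
      refine prod_congr rfl fun i _ => ?_
      rw [hty]
      rfl
    rw [sum_congr rfl fun s _ => h4 s, ← mul_sum]
    have h5 : ∑ s : Wrd d wd, (cst (∏ i : Fin d, MvPolynomial.X (ltr s i)) :
        Ser (MvPolynomial (Ltr d wd) K)) = cst (chn d wd K) := by
      unfold chn
      simp only [cst, map_sum]
    rw [h5, Pool.Agent.Helper59.CD.algebraMap_ser, MvPolynomial.algebraMap_eq]
    show cst (MvPolynomial.C (a0 + t)) + lam _ * cst 0 + mu _ * cst 0 - _ = _
    rw [cst_zero, map_add, cst_add]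
    ring
  -- the coefficient
  have hne : (r, E) ≠ (0, 0) := by
    intro h
    rw [Prod.mk.injEq] at h
    omega
  set Q : K → MvPolynomial (Ltr d wd) K := fun t =>
    MvPolynomial.C t * cf r E (PhiG (bp x0 a0 t) α β R) -
      ((m + 1 : ℕ) : MvPolynomial (Ltr d wd) K) * chn d wd K *
        cf 0 0 (PhiG (bp x0 a0 t) α β R) with hQ
  have hcoef : ∀ t, cf r E (PhiG (bp x0 a0 t) α β P) = MvPolynomial.C t ^ m * Q t := by
    intro t
    rw [hPR]
    exact cf_pow_mul (PhiG (bp x0 a0 t) α β) hne (MvPolynomial.C t) (chn d wd K) m _ R (hyM t)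
  -- polynomials in `t`
  have hQpoly : ∀ n : Ltr d wd →₀ ℕ, ∃ p : Polynomial K, ∀ t,
      MvPolynomial.coeff n (Q t) = p.eval t := by
    intro n
    obtain ⟨p1, hp1⟩ := PF.phi x0 a0 α β R r E n
    have h2 : PF fun t => cst (((m + 1 : ℕ) : MvPolynomial (Ltr d wd) K) * chn d wd K) * PhiG (bp x0 a0 t) α β R :=
      (PF.const _).mul (PF.phi x0 a0 α β R)
    obtain ⟨p2, hp2⟩ := h2 0 0 n
    refine ⟨Polynomial.X * p1 - p2, fun t => ?_⟩
    rw [Polynomial.eval_sub, Polynomial.eval_mul, Polynomial.eval_X, ← hp1 t, ← hp2 t, hQ]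
    show MvPolynomial.coeff n (_ - _) = _
    rw [MvPolynomial.coeff_sub, MvPolynomial.coeff_C_mul, cf_cst_mul]
  -- the minor
  obtain ⟨I, J, hIJ⟩ := exists_minor_int (opM ty (chn d wd ℤ) LU LV (LU - r) (LV + E))
  have hmap : (opM ty (chn d wd ℤ) LU LV (LU - r) (LV + E)).map
      (Int.cast : ℤ → ℝ) = opM ty (chn d wd ℝ) LU LV (LU - r) (LV + E) := by
    have h1 : (opM ty (chn d wd ℤ) LU LV (LU - r) (LV + E)).map (Int.castRingHom ℝ) =
        opM ty (MvPolynomial.map (Int.castRingHom ℝ) (chn d wd ℤ)) LU LV (LU - r) (LV + E) := by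
      ext u v
      rw [Matrix.map_apply]
      unfold opM
      split_ifs
      · rw [MvPolynomial.coeff_map]
      · rw [map_zero]
    have h2 : MvPolynomial.map (Int.castRingHom ℝ) (chn d wd ℤ) = chn d wd ℝ := by
      unfold chn
      rw [map_sum]
      refine sum_congr rfl fun s _ => ?_
      rw [map_prod]
      exact prod_congr rfl fun i _ => MvPolynomial.map_X _ _
    rw [h2] at h1
    exact h1
  choose p hp using hQpoly
  set δ : Polynomial K := (Matrix.of fun i j =>
    if Adm ty (I i).1 (J j).1 then p (gap ty (I i).1 (J j).1) else 0).det with hδ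
  have hδt : ∀ t, δ.eval t = ((opM ty (Q t) LU LV (LU - r) (LV + E)).submatrix I J).det := by
    intro t
    rw [hδ]
    have h1 := RingHom.map_det (Polynomial.evalRingHom t) (Matrix.of fun i j =>
      if Adm ty (I i).1 (J j).1 then p (gap ty (I i).1 (J j).1) else 0)
    rw [Polynomial.coe_evalRingHom] at h1
    rw [h1]
    congr 1
    ext i j
    rw [RingHom.mapMatrix_apply, Matrix.map_apply, Matrix.of_apply, Matrix.submatrix_apply]
    unfold opM
    split_ifs
    · rw [Polynomial.coe_evalRingHom, ← hp]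
    · rw [map_zero]
  have hR0 : MvPolynomial.eval (bp x0 a0 0) R ≠ 0 := by
    rw [ha0, eval_subY]
    exact hx2
  have hQ0 : Q 0 = MvPolynomial.C (-((m + 1 : ℕ) : K) * MvPolynomial.eval (bp x0 a0 0) R) *
      chn d wd K := by
    rw [hQ]
    show MvPolynomial.C 0 * _ - _ = _
    rw [MvPolynomial.C_0, zero_mul, zero_sub, PhiG_zero, MvPolynomial.algebraMap_eq,
      MvPolynomial.C_mul, MvPolynomial.C_neg, MvPolynomial.C_eq_coe_nat]
    ring
  have hδ0 : δ.eval 0 ≠ 0 := by
    rw [hδt, hQ0]
    have h1 : (opM ty (MvPolynomial.C (-((m + 1 : ℕ) : K) *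
        MvPolynomial.eval (bp x0 a0 0) R) * chn d wd K) LU LV (LU - r) (LV + E)).submatrix I J =
        (-((m + 1 : ℕ) : K) * MvPolynomial.eval (bp x0 a0 0) R) •
          (Int.castRingHom K).mapMatrix
            ((opM ty (chn d wd ℤ) LU LV (LU - r) (LV + E)).submatrix I J) := by
      ext i j
      rw [Matrix.submatrix_apply, Matrix.smul_apply, RingHom.mapMatrix_apply, Matrix.map_apply,
        Matrix.submatrix_apply]
      unfold opM
      split_ifs
      · rw [MvPolynomial.coeff_C_mul, smul_eq_mul]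
        congr 1
        have h2 : MvPolynomial.map (Int.castRingHom K) (chn d wd ℤ) = chn d wd K := by
          unfold chn
          rw [map_sum]
          refine sum_congr rfl fun s _ => ?_
          rw [map_prod]
          exact prod_congr rfl fun i _ => MvPolynomial.map_X _ _
        rw [← h2, MvPolynomial.coeff_map]
      · rw [map_zero, smul_zero]
    rw [h1, Matrix.det_smul, ← RingHom.map_det]
    refine mul_ne_zero (pow_ne_zero _ (mul_ne_zero (neg_ne_zero.2 ?_) hR0)) ?_
    · exact Nat.cast_ne_zero.2 (by omega)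
    · rw [eq_intCast]
      exact Int.cast_ne_zero.2 hIJ
  obtain ⟨p2, hp2⟩ := pf_eval x0 a0 W2
  have hp20 : p2.eval 0 ≠ 0 := by
    rw [← hp2, ha0, eval_subY]
    exact hx3
  obtain ⟨t, ht⟩ := exists_eval_ne (δ * p2 * Polynomial.X) (mul_ne_zero (mul_ne_zero
    (fun h => hδ0 (by rw [h, Polynomial.eval_zero]))
    (fun h => hp20 (by rw [h, Polynomial.eval_zero]))) Polynomial.X_ne_zero)
  rw [Polynomial.eval_mul, Polynomial.eval_mul, Polynomial.eval_X] at ht
  have ht0 : t ≠ 0 := right_ne_zero_of_mul ht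
  have ht1 : δ.eval t ≠ 0 := left_ne_zero_of_mul (left_ne_zero_of_mul ht)
  have ht2 : p2.eval t ≠ 0 := right_ne_zero_of_mul (left_ne_zero_of_mul ht)
  -- the machine
  have hW : MvPolynomial.eval (bp x0 a0 t) W1 ≠ 0 := by
    rw [hW12, map_mul, map_pow, ha0, eval_yMinus, ← ha0, hp2]
    exact mul_ne_zero (pow_ne_zero _ ht0) ht2
  have hN := hgen _ hW
  obtain ⟨SU, SV, hSU, hSV⟩ := exists_sub ty (K := K)
  have hfV := filt_VV ty (K := K)
  have hfU := filt_UU ty (K := K)
  have he1 : (0 : ℝ) < Real.exp 1 := Real.exp_pos _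
  have hey : (0 : ℝ) < Real.exp y := Real.exp_pos _
  have hmach := level_machine_at (Pool.CD.cost_Nu hfV hfU hey.le he1.le)
    (Pool.CD.big_Bi hfV hfU) he1 hey (Pool.CD.leaf_Bi hfV hfU (Real.exp y) (Real.exp 1)) SU SV
    (fun u hu v hv => by
      have h1 := Pool.CD.Nu.ofMul (V := VV ty K) (U := UU ty K)
        (hv := Real.exp y) (hu := Real.exp 1) ((hSU u).1 hu) ((hSV v).1 hv)
      rwa [pow_zero, pow_zero, mul_one] at h1)
    (bp x0 a0 t) (PhiG (bp x0 a0 t) α β)
    (PhiG_mem ty _ α β (fun o => (hαm o).1) (fun o => (hαm o).2) (fun o => (hβm o).1)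
      (fun o => (hβm o).2))
    (PhiG_zero _ α β)
    (fun g hg => by
      obtain ⟨u, hu, v, hv, h1⟩ := PhiG_one ty (bp x0 a0 t) α β (fun o => (hαm o).2)
        (fun o => (hβm o).1) g hg
      exact ⟨u, (hSU u).2 hu, v, (hSV v).2 hv, h1⟩)
    (d := d) hX hY hX0 hY0 hnum f (fun i j => hN (i, j)) r E (by omega)
  rw [← hPf] at hmach
  have hPm : cf r E (PhiG (bp x0 a0 t) α β P) ∈ UU ty K r ∧
      cf r E (PhiG (bp x0 a0 t) α β P) ∈ VV ty K E :=
    PhiG_mem ty _ α β (fun o => (hαm o).1) (fun o => (hαm o).2) (fun o => (hβm o).1)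
      (fun o => (hβm o).2) P r E
  have hrank : (opM ty (chn d wd ℝ) LU LV (LU - r) (LV + E)).rank ≤
      (opM ty (cf r E (PhiG (bp x0 a0 t) α β P)) LU LV (LU - r) (LV + E)).rank := by
    rw [← hmap]
    refine le_rank_of_minor _ I J ?_
    have h1 : (opM ty (cf r E (PhiG (bp x0 a0 t) α β P)) LU LV (LU - r) (LV + E)).submatrix I J =
        (t ^ m) • (opM ty (Q t) LU LV (LU - r) (LV + E)).submatrix I J := by
      ext i j
      rw [Matrix.submatrix_apply, Matrix.smul_apply, Matrix.submatrix_apply]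
      unfold opM
      split_ifs
      · rw [hcoef, ← MvPolynomial.C_pow, MvPolynomial.coeff_C_mul, smul_eq_mul]
      · rw [smul_zero]
    rw [h1, Matrix.det_smul, ← hδt]
    exact mul_ne_zero (pow_ne_zero _ (pow_ne_zero _ ht0)) ht1
  have hfinal := hfin _ hPm.1 hPm.2 hrank _ hmach
  refine ⟨r, E, hrE, ?_, ?_⟩
  · have h1 := hrE'
    push_cast at h1
    linarith
  · rwa [pow_one] at hfinal

end core

end Pool.QPIT
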