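import Pool.Agent.QPIT.GaugeDefs
import Pool.Agent.XD.Perm

/-!
# The gauge: iterated matrix multiplication along special directions
-/

set_option autoImplicit false

namespace Pool.QPIT

open Finset Pool.XD Matrix

section core

set_option linter.unusedSectionVars false

variable {R W : Type} [CommRing R] [Fintype W] [DecidableEq W]

/-- the column `A_j A_(j+1) ... A_(j+m-1) e_o` -/
noncomputable def cv (A : ℕ → Matrix W W R) (o : W) : ℕ → ℕ → W → R
  | 0, _ => Pi.single o 1
  | m + 1, j => (A j).mulVec (cv A o m (j + 1))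

theorem cv_succ (A : ℕ → Matrix W W R) (o : W) (m j : ℕ) :
    cv A o (m + 1) j = (A j).mulVec (cv A o m (j + 1)) := rfl

theorem prod_mulVec (A : ℕ → Matrix W W R) (o : W) (m : ℕ) : ∀ j,
    ((List.ofFn fun i : Fin m => A (j + i)).prod).mulVec (Pi.single o 1) = cv A o m j := by
  induction m with
  | zero =>
    intro j
    rw [List.ofFn_zero, List.prod_nil, Matrix.one_mulVec]
    rfl
  | succ m ih =>
    intro j
    rw [List.ofFn_succ, List.prod_cons, ← Matrix.mulVec_mulVec, cv_succ, ← ih (j + 1)]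
    congr 3
    congr 1
    funext i
    show A (j + (i + 1)) = A (j + 1 + i)
    congr 1
    omega

theorem immV_eq_cv (A : ℕ → Matrix W W R) (o : W) (d : ℕ) :
    immV (fun i : Fin d => A i) o = cv A o d 0 o := by
  rw [← prod_mulVec, Matrix.mulVec_single_one]
  unfold immV
  show _ = (List.ofFn fun i : Fin d => A (0 + i)).prod o o
  simp only [Nat.zero_add]

variable (d : ℕ) (wd : ℕ → ℕ) (o : W) (e : GV d wd → W)

/-- the coordinate of a vertex -/
def vx : ℕ → ℕ → W
  | 0, _ => o
  | j + 1, a => if h : j < d - 1 then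
      (if h2 : a < wd (j + 1) then e (some ⟨⟨j, h⟩, ⟨a, h2⟩⟩) else o) else o

theorem vx_succ (j a : ℕ) : vx d wd o e (j + 1) a = if h : j < d - 1 then
      (if h2 : a < wd (j + 1) then e (some ⟨⟨j, h⟩, ⟨a, h2⟩⟩) else o) else o := rfl

theorem vx_some (j : Fin (d - 1)) (a : Fin (wd (j + 1))) :
    vx d wd o e (j + 1) a = e (some ⟨j, a⟩) := by
  rw [vx_succ, dif_pos j.2, dif_pos a.2]

/-- the letters as a matrix -/
noncomputable def ZM (X : ℕ → ℕ → ℕ → R) (i : ℕ) : Matrix W W R :=
  ∑ a ∈ range (wd i), ∑ b ∈ range (wd (i + 1)),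
    X i a b • Matrix.single (vx d wd o e i a) (vx d wd o e (i + 1) b) 1

theorem ZM_mulVec (X : ℕ → ℕ → ℕ → R) (i : ℕ) (u : W → R) :
    (ZM d wd o e X i).mulVec u = ∑ a ∈ range (wd i), ∑ b ∈ range (wd (i + 1)),
      (X i a b * u (vx d wd o e (i + 1) b)) • Pi.single (vx d wd o e i a) 1 := by
  unfold ZM
  rw [Matrix.sum_mulVec]
  refine sum_congr rfl fun a _ => ?_
  rw [Matrix.sum_mulVec]
  refine sum_congr rfl fun b _ => ?_
  rw [Matrix.smul_mulVec, Matrix.single_mulVec]
  funext w
  rw [Pi.smul_apply, Pi.smul_apply, smul_eq_mul, smul_eq_mul]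
  by_cases h : w = vx d wd o e i a
  · subst h
    simp
  · simp [Pi.single_eq_of_ne h, Function.update_of_ne h]

/-- the columns of the standard model -/
noncomputable def UC (X : ℕ → ℕ → ℕ → R) (c : R) (j : ℕ) : W → R :=
  c • Pi.single o 1 + ∑ i : Fin (d - 1), if j ≤ (i : ℕ) + 1 then
    ∑ a : Fin (wd (i + 1)), PS wd X (d - (i + 1)) (i + 1) a • Pi.single (e (some ⟨i, a⟩)) 1 else 0

theorem UC_none (he : Function.Injective e) (heo : e none = o) (X : ℕ → ℕ → ℕ → R) (c : R) (j : ℕ) :
    UC d wd o e X c j o = c := by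
  unfold UC
  rw [Pi.add_apply, Pi.smul_apply, Pi.single_eq_same, smul_eq_mul, mul_one, Finset.sum_apply,
    sum_eq_zero, add_zero]
  intro i _
  split_ifs
  · rw [Finset.sum_apply]
    refine sum_eq_zero fun a _ => ?_
    rw [Pi.smul_apply, Pi.single_eq_of_ne, smul_zero]
    rw [← heo]
    exact fun h => by cases he h
  · rfl

theorem UC_some (he : Function.Injective e) (heo : e none = o) (X : ℕ → ℕ → ℕ → R) (c : R) (j : ℕ)
    (i : Fin (d - 1)) (a : Fin (wd (i + 1))) (hj : j ≤ (i : ℕ) + 1) :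
    UC d wd o e X c j (e (some ⟨i, a⟩)) = PS wd X (d - (i + 1)) (i + 1) a := by
  unfold UC
  have h1 : e (some ⟨i, a⟩) ≠ o := by
    rw [← heo]
    exact fun h => by cases he h
  rw [Pi.add_apply, Pi.smul_apply, Pi.single_eq_of_ne h1, smul_zero, zero_add, Finset.sum_apply,
    sum_eq_single i]
  · rw [if_pos hj, Finset.sum_apply, sum_eq_single a]
    · rw [Pi.smul_apply, Pi.single_eq_same, smul_eq_mul, mul_one]
    · intro b _ hb
      rw [Pi.smul_apply, Pi.single_eq_of_ne, smul_zero]
      intro h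
      have h2 := he h
      apply hb
      have h3 := Option.some.inj h2
      rw [Sigma.mk.injEq] at h3
      exact (eq_of_heq h3.2).symm
    · intro h
      exact absurd (mem_univ _) h
  · intro i' _ hi'
    split_ifs
    · rw [Finset.sum_apply]
      refine sum_eq_zero fun b _ => ?_
      rw [Pi.smul_apply, Pi.single_eq_of_ne, smul_zero]
      intro h
      have h2 := he h
      apply hi'
      have h3 := Option.some.inj h2
      rw [Sigma.mk.injEq] at h3
      exact h3.1.symm
    · rfl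
  · intro h
    exact absurd (mem_univ _) h

/-- one step of the standard model -/
theorem UC_step (he : Function.Injective e) (heo : e none = o) (X : ℕ → ℕ → ℕ → R) (c : R) {i : ℕ}
    (hi : i + 2 < d) :
    UC d wd o e X c (i + 1) = UC d wd o e X c (i + 2) +
      (ZM d wd o e X (i + 1)).mulVec (UC d wd o e X c (i + 2)) := by
  have h0 : i < d - 1 := by omega
  have h1 : i + 1 < d - 1 := by omega
  have hZ : (ZM d wd o e X (i + 1)).mulVec (UC d wd o e X c (i + 2)) =
      ∑ a : Fin (wd (i + 1)), PS wd X (d - (i + 1)) (i + 1) a •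
        (Pi.single (e (some ⟨⟨i, h0⟩, a⟩)) 1 : W → R) := by
    rw [ZM_mulVec, Finset.sum_range]
    refine sum_congr rfl fun a _ => ?_
    rw [← Finset.sum_smul, vx_some d wd o e ⟨i, h0⟩ a]
    congr 1
    obtain ⟨m, hm⟩ : ∃ m, d - (i + 1) = m + 1 := ⟨d - (i + 2), by omega⟩
    rw [hm, PS_succ]
    refine sum_congr rfl fun b hb => ?_
    congr 1
    have hb' : b < wd (i + 1 + 1) := mem_range.1 hb
    have e1 := vx_some d wd o e ⟨i + 1, h1⟩ ⟨b, hb'⟩
    have e2 := UC_some d wd o e he heo X c (i + 2) ⟨i + 1, h1⟩ ⟨b, hb'⟩ (le_refl _)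
    have e3 : vx d wd o e (i + 1 + 1) b = e (some ⟨⟨i + 1, h1⟩, ⟨b, hb'⟩⟩) := e1
    rw [e3, e2]
    show PS wd X (d - (i + 1 + 1)) (i + 1 + 1) b = PS wd X m (i + 1 + 1) b
    congr 1
    omega
  rw [hZ]
  unfold UC
  rw [add_assoc]
  congr 1
  have h2 : ∀ i' : Fin (d - 1), (if i + 1 ≤ (i' : ℕ) + 1 then
      ∑ a : Fin (wd (i' + 1)), PS wd X (d - (i' + 1)) (i' + 1) a •
        (Pi.single (e (some ⟨i', a⟩)) 1 : W → R) else 0) =
      (if i + 2 ≤ (i' : ℕ) + 1 then
      ∑ a : Fin (wd (i' + 1)), PS wd X (d - (i' + 1)) (i' + 1) a •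
        (Pi.single (e (some ⟨i', a⟩)) 1 : W → R) else 0) +
      (if i' = ⟨i, h0⟩ then ∑ a : Fin (wd (i' + 1)), PS wd X (d - (i' + 1)) (i' + 1) a •
        (Pi.single (e (some ⟨i', a⟩)) 1 : W → R) else 0) := by
    intro i'
    by_cases h3 : i' = ⟨i, h0⟩
    · have h4 : (i' : ℕ) = i := by rw [h3]
      rw [if_pos h3, if_pos (by omega), if_neg (by omega), zero_add]
    · have h4 : ¬ (i' : ℕ) = i := fun h => h3 (Fin.ext h)
      rw [if_neg h3, add_zero]
      by_cases h5 : i + 1 ≤ (i' : ℕ) + 1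
      · rw [if_pos h5, if_pos (by omega)]
      · rw [if_neg h5, if_neg (by omega)]
  rw [sum_congr rfl fun i' _ => h2 i', sum_add_distrib, Finset.sum_ite_eq' univ]
  rw [if_pos (mem_univ _)]

/-- **the core**: all over `R` -/
theorem gauge_core (hd : 2 ≤ d) (hw0 : wd 0 = 1) (hw1 : wd d = 1) (he : Function.Injective e)
    (heo : e none = o) (X : ℕ → ℕ → ℕ → R) (c : R) (M g h : ℕ → Matrix W W R)
    (hg : ∀ i, g (i + 1) = g i * M (i + 1)) (hgh : ∀ i, i + 2 ≤ d → g i * h i = 1)
    (hrow : ∀ w, g 0 o w = M 0 o w)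
    (hlast : (g (d - 2)).mulVec ((M (d - 1)).mulVec (Pi.single o 1)) = c • Pi.single o 1) :
    cv (fun i => M i + (if i = 0 then 1 else h (i - 1)) * ZM d wd o e X i *
      (if i + 1 = d then 1 else g i)) o d 0 o = c + PS wd X d 0 0 := by
  obtain ⟨A, hA⟩ : ∃ A : ℕ → Matrix W W R, A = fun i => M i + (if i = 0 then 1 else h (i - 1)) *
    ZM d wd o e X i * (if i + 1 = d then 1 else g i) := ⟨_, rfl⟩
  rw [← hA]
  -- the columns in the gauge
  have key : ∀ t, t + 2 ≤ d → (g (d - 2 - t)).mulVec (cv A o (t + 1) (d - 1 - t)) =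
      UC d wd o e X c (d - 1 - t) := by
    intro t
    induction t with
    | zero =>
      intro _
      rw [Nat.sub_zero, Nat.sub_zero, cv_succ]
      have e1 : A (d - 1) = M (d - 1) + h (d - 2) * ZM d wd o e X (d - 1) := by
        rw [hA]
        show M (d - 1) + (if d - 1 = 0 then 1 else h (d - 1 - 1)) * ZM d wd o e X (d - 1) *
          (if d - 1 + 1 = d then 1 else g (d - 1)) = _
        rw [if_neg (by omega), if_pos (by omega), mul_one, show d - 1 - 1 = d - 2 by omega]
      rw [e1, Matrix.add_mulVec, Matrix.mulVec_add]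
      show (g (d - 2)).mulVec ((M (d - 1)).mulVec (Pi.single o 1)) +
        (g (d - 2)).mulVec ((h (d - 2) * ZM d wd o e X (d - 1)).mulVec (Pi.single o 1)) = _
      rw [hlast, Matrix.mulVec_mulVec, ← Matrix.mul_assoc, hgh _ (by omega), Matrix.one_mul,
        ZM_mulVec]
      have h0 : d - 2 < d - 1 := by omega
      unfold UC
      congr 1
      rw [sum_eq_single (⟨d - 2, h0⟩ : Fin (d - 1))]
      · rw [if_pos (by show d - 1 ≤ d - 2 + 1; omega)]
        have e2 : wd (d - 1) = wd (d - 2 + 1) := by congr 1; omega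
        have e3 : wd (d - 1 + 1) = 1 := by
          rw [show d - 1 + 1 = d by omega]
          exact hw1
        rw [e3, range_one]
        simp only [sum_singleton]
        rw [show (∑ a ∈ range (wd (d - 1)), (X (d - 1) a 0 * (Pi.single o (1 : R) : W → R)
            (vx d wd o e (d - 1 + 1) 0)) • (Pi.single (vx d wd o e (d - 1) a) (1 : R) : W → R)) =
          ∑ a ∈ range (wd (d - 2 + 1)), (X (d - 1) a 0 * (Pi.single o (1 : R) : W → R)
            (vx d wd o e (d - 1 + 1) 0)) • (Pi.single (vx d wd o e (d - 1) a) (1 : R) : W → R) by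
          rw [e2]]
        rw [Finset.sum_range]
        refine sum_congr rfl fun a _ => ?_
        have e4 : vx d wd o e (d - 1 + 1) 0 = o := by
          rw [vx_succ, dif_neg (by omega)]
        have e5 : vx d wd o e (d - 1) a = e (some ⟨⟨d - 2, h0⟩, a⟩) := by
          have := vx_some d wd o e ⟨d - 2, h0⟩ a
          rw [← this]
          congr 1
          show d - 1 = d - 2 + 1
          omega
        rw [e4, e5, Pi.single_eq_same, mul_one]
        congr 1
        show X (d - 1) a 0 = PS wd X (d - (d - 2 + 1)) (d - 2 + 1) a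
        obtain ⟨a', ha'⟩ : ∃ a' : ℕ, a' = (a : ℕ) := ⟨_, rfl⟩
        rw [← ha']
        rw [show d - (d - 2 + 1) = 0 + 1 by omega, PS_succ, show d - 2 + 1 + 1 = d by omega, hw1,
          range_one, sum_singleton, show d - 2 + 1 = d - 1 by omega]
        show X (d - 1) a' 0 = X (d - 1) a' 0 * 1
        rw [mul_one]
      · intro i _ hi
        rw [if_neg]
        have h1 := i.2
        have h2 : (i : ℕ) ≠ d - 2 := fun h => hi (Fin.ext h)
        omega
      · intro h
        exact absurd (mem_univ _) h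
    | succ t ih =>
      intro ht
      have ih' := ih (by omega)
      obtain ⟨i, hi⟩ : ∃ i, i = d - 2 - (t + 1) := ⟨_, rfl⟩
      have e1 : d - 1 - (t + 1) = i + 1 := by omega
      have e2 : d - 2 - t = i + 1 := by omega
      have e3 : d - 1 - t = i + 2 := by omega
      rw [e2, e3] at ih'
      rw [← hi, e1, cv_succ, show i + 1 + 1 = i + 2 by omega]
      have e4 : A (i + 1) = M (i + 1) + h i * ZM d wd o e X (i + 1) * g (i + 1) := by
        rw [hA]
        show M (i + 1) + (if i + 1 = 0 then 1 else h (i + 1 - 1)) * ZM d wd o e X (i + 1) *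
          (if i + 1 + 1 = d then 1 else g (i + 1)) = _
        rw [if_neg (by omega), if_neg (by omega), Nat.add_sub_cancel]
      rw [e4, Matrix.mulVec_mulVec, Matrix.mul_add, ← hg, ← Matrix.mul_assoc, ← Matrix.mul_assoc,
        hgh _ (by omega), Matrix.one_mul, Matrix.add_mulVec, ← Matrix.mulVec_mulVec, ih',
        ← UC_step d wd o e he heo X c (by omega)]
  have k0 := key (d - 2) (by omega)
  rw [show d - 2 - (d - 2) = 0 by omega, show d - 1 - (d - 2) = 1 by omega,
    show d - 2 + 1 = d - 1 by omega] at k0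
  obtain ⟨d', hd'⟩ : ∃ d', d = d' + 1 := ⟨d - 1, by omega⟩
  have e1 : cv A o d 0 = (A 0).mulVec (cv A o (d - 1) 1) := by
    rw [hd', cv_succ]
    rfl
  have e2 : A 0 = M 0 + ZM d wd o e X 0 * g 0 := by
    rw [hA]
    show M 0 + (if 0 = 0 then 1 else h (0 - 1)) * ZM d wd o e X 0 *
      (if 0 + 1 = d then 1 else g 0) = _
    rw [if_pos rfl, if_neg (by omega), one_mul]
  rw [e1, e2, Matrix.add_mulVec, Pi.add_apply, ← Matrix.mulVec_mulVec, k0]
  congr 1
  · have e3 : (M 0).mulVec (cv A o (d - 1) 1) o = (g 0).mulVec (cv A o (d - 1) 1) o := by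
      have h1 : ∑ w, M 0 o w * cv A o (d - 1) 1 w = ∑ w, g 0 o w * cv A o (d - 1) 1 w :=
        sum_congr rfl fun w _ => by rw [hrow w]
      exact h1
    rw [e3, k0, UC_none d wd o e he heo]
  · rw [ZM_mulVec, hw0, range_one, sum_singleton, Finset.sum_apply]
    have hPS : PS wd X d 0 0 = ∑ b ∈ range (wd (0 + 1)), X 0 0 b * PS wd X d' (0 + 1) b := by
      rw [← PS_succ, ← hd']
    rw [hPS]
    refine sum_congr rfl fun b hb => ?_
    rw [Pi.smul_apply, smul_eq_mul]
    have e4 : vx d wd o e 0 0 = o := rfl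
    rw [e4, Pi.single_eq_same, mul_one]
    congr 1
    have hb' : b < wd (0 + 1) := mem_range.1 hb
    have h0 : 0 < d - 1 := by omega
    have e5 := vx_some d wd o e ⟨0, h0⟩ ⟨b, hb'⟩
    have e6 := UC_some d wd o e he heo X c 1 ⟨0, h0⟩ ⟨b, hb'⟩ (le_refl _)
    have e7 : vx d wd o e (0 + 1) b = e (some ⟨⟨0, h0⟩, ⟨b, hb'⟩⟩) := e5
    rw [e7, e6]
    show PS wd X (d - (0 + 1)) (0 + 1) b = PS wd X d' (0 + 1) b
    congr 1
    omega

end core

section field

variable {K W : Type} [Field K] [Fintype W] [DecidableEq W]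

/-- the gauge matrix -/
noncomputable def gm (o : W) (p Q : W → K) (c : K) : Matrix W W K :=
  fun i j => if i = o then p j else (if i = j then 1 else 0) - Q i / c * p j

theorem gm_mulVec_o (o : W) (p Q : W → K) (c : K) (u : W → K) :
    (gm o p Q c).mulVec u o = ∑ j, p j * u j := by
  have h1 : ∑ j, gm o p Q c o j * u j = ∑ j, p j * u j :=
    sum_congr rfl fun j _ => by unfold gm; rw [if_pos rfl]
  exact h1

theorem gm_mulVec_ne (o : W) (p Q : W → K) (c : K) (u : W → K) {i : W} (hi : i ≠ o) :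
    (gm o p Q c).mulVec u i = u i - Q i / c * ∑ j, p j * u j := by
  have h1 : ∑ j, gm o p Q c i j * u j = u i - Q i / c * ∑ j, p j * u j := by
    have h2 : ∀ j, gm o p Q c i j * u j = (if i = j then u j else 0) - Q i / c * (p j * u j) := by
      intro j
      unfold gm
      rw [if_neg hi]
      split_ifs <;> ring
    rw [sum_congr rfl fun j _ => h2 j, sum_sub_distrib, ← mul_sum, Finset.sum_ite_eq univ i,
      if_pos (mem_univ _)]
  exact h1

theorem gm_det (o : W) (p Q : W → K) (c : K) (hp : p o ≠ 0) : (gm o p Q c).det ≠ 0 := by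
  intro h
  obtain ⟨u, hu, hu0⟩ := (Matrix.exists_mulVec_eq_zero_iff (M := gm o p Q c)).2 h
  apply hu
  have h1 : ∑ j, p j * u j = 0 := by
    rw [← gm_mulVec_o o p Q c u, hu0]
    rfl
  have h2 : ∀ i, i ≠ o → u i = 0 := by
    intro i hi
    have h3 := gm_mulVec_ne o p Q c u hi
    rw [hu0, h1, mul_zero, sub_zero] at h3
    exact h3.symm
  have h4 : u o = 0 := by
    rw [sum_eq_single o] at h1
    · exact (mul_eq_zero.1 h1).resolve_left hp
    · intro j _ hj
      rw [h2 j hj, mul_zero]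
    · intro h
      exact absurd (mem_univ _) h
  funext i
  by_cases hi : i = o
  · rw [hi, h4]
    rfl
  · rw [h2 i hi]
    rfl

theorem gm_Q (o : W) (p Q : W → K) (c : K) (hc : ∑ j, p j * Q j = c) (hc0 : c ≠ 0) :
    (gm o p Q c).mulVec Q = c • Pi.single o 1 := by
  funext i
  by_cases hi : i = o
  · rw [hi, gm_mulVec_o, hc, Pi.smul_apply, Pi.single_eq_same, smul_eq_mul, mul_one]
  · rw [gm_mulVec_ne o p Q c Q hi, hc, Pi.smul_apply, Pi.single_eq_of_ne hi, smul_zero,
      div_mul_cancel₀ _ hc0, sub_self]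

/-- the gauges along the product -/
noncomputable def gs (G : Matrix W W K) (M : ℕ → Matrix W W K) : ℕ → Matrix W W K
  | 0 => G
  | i + 1 => gs G M i * M (i + 1)

theorem gs_det (G : Matrix W W K) (M : ℕ → Matrix W W K) (hG : G.det ≠ 0) (n : ℕ)
    (hM : ∀ i, 1 ≤ i → i ≤ n → (M i).det ≠ 0) : ∀ i, i ≤ n → (gs G M i).det ≠ 0 := by
  intro i
  induction i with
  | zero => intro _; exact hG
  | succ i ih =>
    intro hi
    show (gs G M i * M (i + 1)).det ≠ 0
    rw [Matrix.det_mul]
    exact mul_ne_zero (ih (by omega)) (hM _ (by omega) hi)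

theorem gs_cv (G : Matrix W W K) (M : ℕ → Matrix W W K) (o : W) (c : K) (n : ℕ)
    (h : G.mulVec (cv M o n 1) = c • Pi.single o 1) : ∀ i, i ≤ n →
    (gs G M i).mulVec (cv M o (n - i) (i + 1)) = c • Pi.single o 1 := by
  intro i
  induction i with
  | zero => intro _; exact h
  | succ i ih =>
    intro hi
    have h1 := ih (by omega)
    obtain ⟨m, hm⟩ : ∃ m, n - i = m + 1 := ⟨n - i - 1, by omega⟩
    rw [hm, cv_succ, Matrix.mulVec_mulVec] at h1
    rw [show n - (i + 1) = m by omega]
    exact h1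

theorem immV_map {R S : Type} [CommRing R] [CommRing S] (f : R →+* S) {d : ℕ}
    (A : Fin d → Matrix W W R) (o : W) :
    f (immV A o) = immV (fun i => (A i).map f) o := by
  unfold immV
  have h1 : f.mapMatrix (List.ofFn A).prod = (List.ofFn fun i => (A i).map f).prod := by
    rw [map_list_prod, List.map_ofFn]
    rfl
  rw [← h1]
  rfl

theorem aeval_immP {R : Type} [CommRing R] [Algebra K R] (d : ℕ) (o : W)
    (x : Fin d × W × W → R) :
    MvPolynomial.aeval x (immP d W o K) = immV (fun i => Matrix.of fun a b => x (i, a, b)) o := by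
  unfold immP
  have h1 := immV_map (W := W) ((MvPolynomial.aeval (R := K) x : MvPolynomial _ K →ₐ[K] R) :
    MvPolynomial (Fin d × W × W) K →+* R)
    (fun i : Fin d => Matrix.of fun a b => MvPolynomial.X (i, a, b)) o
  rw [show MvPolynomial.aeval x (immV (fun i : Fin d => Matrix.of fun a b =>
    (MvPolynomial.X (i, a, b) : MvPolynomial (Fin d × W × W) K)) o) =
    ((MvPolynomial.aeval (R := K) x : MvPolynomial _ K →ₐ[K] R) :
    MvPolynomial (Fin d × W × W) K →+* R) (immV (fun i : Fin d => Matrix.of fun a b =>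
    (MvPolynomial.X (i, a, b) : MvPolynomial (Fin d × W × W) K)) o) from rfl, h1]
  congr 1
  funext i
  ext a b
  rw [Matrix.map_apply, Matrix.of_apply, Matrix.of_apply]
  exact MvPolynomial.aeval_X _ _

theorem eval_immP (d : ℕ) (o : W) (x : Fin d × W × W → K) :
    MvPolynomial.eval x (immP d W o K) = immV (fun i => Matrix.of fun a b => x (i, a, b)) o := by
  have h := aeval_immP (K := K) (R := K) d o x
  rw [← h, ← MvPolynomial.coe_aeval_eq_eval]
  rfl

/-- the exceptional hypersurface -/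
noncomputable def VP (d : ℕ) (hd : 2 ≤ d) (o : W) (K : Type) [Field K] :
    MvPolynomial (Fin d × W × W) K :=
  immP d W o K * MvPolynomial.X (⟨0, by omega⟩, o, o) *
    ∏ i : Fin d, (Matrix.of fun a b => (MvPolynomial.X (i, a, b) :
      MvPolynomial (Fin d × W × W) K)).det

theorem eval_det {d : ℕ} (x : Fin d × W × W → K) (i : Fin d) :
    MvPolynomial.eval x (Matrix.of fun a b => (MvPolynomial.X (i, a, b) :
      MvPolynomial (Fin d × W × W) K)).det = (Matrix.of fun a b => x (i, a, b)).det := by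
  rw [RingHom.map_det]
  congr 1
  ext a b
  rw [RingHom.mapMatrix_apply, Matrix.map_apply, Matrix.of_apply, Matrix.of_apply,
    MvPolynomial.eval_X]

theorem eval_VP (d : ℕ) (hd : 2 ≤ d) (o : W) (x : Fin d × W × W → K) :
    MvPolynomial.eval x (VP d hd o K) =
      immV (fun i => Matrix.of fun a b => x (i, a, b)) o * x (⟨0, by omega⟩, o, o) *
        ∏ i : Fin d, (Matrix.of fun a b => x (i, a, b)).det := by
  unfold VP
  rw [map_mul, map_mul, map_prod, eval_immP, MvPolynomial.eval_X,
    prod_congr rfl fun i _ => eval_det x i]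

theorem VP_ne_zero (d : ℕ) (hd : 2 ≤ d) (o : W) : VP d hd o K ≠ 0 := by
  intro h
  have h1 := eval_VP (K := K) d hd o (fun v => if v.2.1 = v.2.2 then 1 else 0)
  rw [h, map_zero] at h1
  have h2 : ∀ i : Fin d, (Matrix.of fun a b => (fun v : Fin d × W × W =>
      if v.2.1 = v.2.2 then (1 : K) else 0) (i, a, b)) = (1 : Matrix W W K) := by
    intro i
    ext a b
    rw [Matrix.of_apply, Matrix.one_apply]
  rw [prod_congr rfl fun i _ => congrArg Matrix.det (h2 i)] at h1
  simp only [Matrix.det_one, prod_const_one, mul_one, if_true] at h1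
  have h3 : immV (fun i : Fin d => Matrix.of fun a b => (fun v : Fin d × W × W =>
      if v.2.1 = v.2.2 then (1 : K) else 0) (i, a, b)) o = 1 := by
    unfold immV
    rw [List.prod_eq_one]
    · exact Matrix.one_apply_eq o
    · intro A hA
      rw [List.mem_ofFn] at hA
      obtain ⟨i, hi⟩ := hA
      rw [← hi]
      exact h2 i
  rw [h3] at h1
  exact zero_ne_one h1

/-- the letters as a function of natural numbers -/
noncomputable def ext3 {R : Type} [CommRing R] (d : ℕ) (wd : ℕ → ℕ) (X : Ltr d wd → R)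
    (i a b : ℕ) : R :=
  if h : i < d ∧ a < wd i ∧ b < wd (i + 1) then X ⟨⟨i, h.1⟩, (⟨a, h.2.1⟩, ⟨b, h.2.2⟩)⟩ else 0

theorem ext3_of {R : Type} [CommRing R] {d : ℕ} {wd : ℕ → ℕ} (X : Ltr d wd → R) (i : Fin d)
    (a : Fin (wd i)) (b : Fin (wd (i + 1))) : ext3 d wd X i a b = X ⟨i, (a, b)⟩ := by
  unfold ext3
  rw [dif_pos ⟨i.2, a.2, b.2⟩]

/-- the directions -/
noncomputable def dirD (d : ℕ) (wd : ℕ → ℕ) (o : W) (e : GV d wd → W) (Lf Rf : ℕ → Matrix W W K)
    (l : Ltr d wd) (v : Fin d × W × W) : K :=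
  if v.1 = l.1 then ((Lf l.1 * Matrix.single (vx d wd o e l.1 l.2.1)
    (vx d wd o e (l.1 + 1) l.2.2) 1 * Rf l.1 : Matrix W W K)) v.2.1 v.2.2 else 0

/-- **GAUGE** -/
theorem gauge (K : Type) [Field K] : Gauge K := by
  intro d wd W _ _ o hd hw0 hw1 ⟨e, he, heo⟩
  refine ⟨VP d hd o K, VP_ne_zero d hd o, fun x hx => ?_⟩
  rw [eval_VP] at hx
  have hx1 := left_ne_zero_of_mul (left_ne_zero_of_mul hx)
  have hx2 := right_ne_zero_of_mul (left_ne_zero_of_mul hx)
  have hx3 := right_ne_zero_of_mul hx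
  rw [prod_ne_zero_iff] at hx3
  obtain ⟨M, hM⟩ : ∃ M : ℕ → Matrix W W K, M = fun i => if h : i < d then
    Matrix.of fun a b => x (⟨i, h⟩, a, b) else 0 := ⟨_, rfl⟩
  have hMi : ∀ i : Fin d, M i = Matrix.of fun a b => x (i, a, b) := by
    intro i
    rw [hM]
    show (if h : (i : ℕ) < d then _ else _) = _
    rw [dif_pos i.2]
  have himm : immV (fun i => Matrix.of fun a b => x (i, a, b)) o = cv M o d 0 o := by
    rw [← immV_eq_cv]
    congr 1
    funext i
    rw [hMi]
  have hc0 : cv M o d 0 o ≠ 0 := by rw [← himm]; exact hx1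
  have hdet : ∀ i < d, (M i).det ≠ 0 := by
    intro i hi
    have h1 := hx3 ⟨i, hi⟩ (mem_univ _)
    rw [← hMi ⟨i, hi⟩] at h1
    exact h1
  have hp : M 0 o o ≠ 0 := by
    have h1 := hMi ⟨0, by omega⟩
    have h2 : M 0 = Matrix.of fun a b => x (⟨0, by omega⟩, a, b) := h1
    rw [h2, Matrix.of_apply]
    exact hx2
  obtain ⟨c, hc⟩ : ∃ c, c = cv M o d 0 o := ⟨_, rfl⟩
  obtain ⟨p, hpd⟩ : ∃ p : W → K, p = fun w => M 0 o w := ⟨_, rfl⟩
  obtain ⟨G, hG⟩ : ∃ G : Matrix W W K, G = gm o p (cv M o (d - 1) 1) c := ⟨_, rfl⟩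
  have hpc : ∑ j, p j * cv M o (d - 1) 1 j = c := by
    obtain ⟨d', hd'⟩ : ∃ d', d = d' + 1 := ⟨d - 1, by omega⟩
    rw [hc, hpd, hd', cv_succ]
    rfl
  have hG1 : G.mulVec (cv M o (d - 1) 1) = c • Pi.single o 1 := by
    rw [hG]
    exact gm_Q o p _ c hpc (by rw [hc]; exact hc0)
  have hG2 : G.det ≠ 0 := by
    rw [hG]
    exact gm_det o p _ c (by rw [hpd]; exact hp)
  have hG3 : ∀ w, G o w = M 0 o w := by
    intro w
    rw [hG]
    unfold gm
    rw [if_pos rfl, hpd]
  have hgdet : ∀ i, i + 2 ≤ d → (gs G M i).det ≠ 0 := by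
    intro i hi
    exact gs_det G M hG2 (d - 2) (fun j _ hj => hdet j (by omega)) i (by omega)
  -- the directions
  obtain ⟨Lf, hLf⟩ : ∃ Lf : ℕ → Matrix W W K, Lf = fun i => if i = 0 then 1 else
    (gs G M (i - 1))⁻¹ := ⟨_, rfl⟩
  obtain ⟨Rf, hRf⟩ : ∃ Rf : ℕ → Matrix W W K, Rf = fun i => if i + 1 = d then 1 else
    gs G M i := ⟨_, rfl⟩
  refine ⟨dirD d wd o e Lf Rf, ?_⟩
  intro R _ _ X
  rw [aeval_immP, eval_immP, himm, ← hc]
  -- the weights
  have hsum : ∑ s : Wrd d wd, ∏ i : Fin d, X (ltr s i) = PS wd (ext3 d wd X) d 0 0 := by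
    rw [← sum_wrd d wd (ext3 d wd X) hw0]
    refine sum_congr rfl fun s _ => prod_congr rfl fun i _ => ?_
    exact (ext3_of X i (s i.castSucc) (s i.succ)).symm
  rw [hsum]
  have hcore := gauge_core d wd o e hd hw0 hw1 he heo (ext3 d wd X) (algebraMap K R c)
    (fun i => (M i).map (algebraMap K R)) (fun i => (gs G M i).map (algebraMap K R))
    (fun i => ((gs G M i)⁻¹).map (algebraMap K R))
    (fun i => by
      show (gs G M i * M (i + 1)).map (algebraMap K R) = _
      rw [Matrix.map_mul])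
    (fun i hi => by
      rw [← Matrix.map_mul, Matrix.mul_nonsing_inv _ (Ne.isUnit (hgdet i hi)),
        Matrix.map_one _ (map_zero _) (map_one _)])
    (fun w => by
      show algebraMap K R (G o w) = algebraMap K R (M 0 o w)
      rw [hG3])
    (by
      have h1 := gs_cv G M o c (d - 1) hG1 (d - 2) (by omega)
      rw [show d - 1 - (d - 2) = 0 + 1 by omega, cv_succ, show d - 2 + 1 = d - 1 by omega] at h1
      have h2 := congrArg (fun u : W → K => fun w => algebraMap K R (u w)) h1
      have h3 : ∀ (A : Matrix W W K) (u : W → K), (fun w => algebraMap K R (A.mulVec u w)) =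
          (A.map (algebraMap K R)).mulVec fun w => algebraMap K R (u w) := by
        intro A u
        funext w
        have h4 : algebraMap K R (∑ j, A w j * u j) =
            ∑ j, algebraMap K R (A w j) * algebraMap K R (u j) := by
          rw [map_sum]
          exact sum_congr rfl fun j _ => map_mul _ _ _
        exact h4
      have h5 : (fun w => algebraMap K R ((Pi.single o 1 : W → K) w)) = Pi.single o 1 := by
        funext w
        by_cases hw : w = o
        · rw [hw, Pi.single_eq_same, Pi.single_eq_same, map_one]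
        · rw [Pi.single_eq_of_ne hw, Pi.single_eq_of_ne hw, map_zero]
      have h6 : (fun w => algebraMap K R ((c • Pi.single o 1 : W → K) w)) =
          algebraMap K R c • Pi.single o 1 := by
        rw [← h5]
        funext w
        rw [Pi.smul_apply, Pi.smul_apply, smul_eq_mul, smul_eq_mul, map_mul]
      rw [← h6, ← h2, ← h5]
      show ((gs G M (d - 2)).map (algebraMap K R)).mulVec
        (((M (d - 1)).map (algebraMap K R)).mulVec
          fun w => algebraMap K R ((Pi.single o 1 : W → K) w)) = _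
      rw [← h3 (M (d - 1)), ← h3 (gs G M (d - 2))]
      rfl)
  rw [← hcore, ← immV_eq_cv]
  congr 1
  funext i
  ext w1 w2
  rw [Matrix.of_apply, Matrix.add_apply, Matrix.map_apply, hMi, Matrix.of_apply]
  congr 1
  -- the sum over the letters
  have hL : (if (i : ℕ) = 0 then (1 : Matrix W W R) else
      ((gs G M ((i : ℕ) - 1))⁻¹).map (algebraMap K R)) = (Lf i).map (algebraMap K R) := by
    rw [hLf]
    show _ = (if (i : ℕ) = 0 then (1 : Matrix W W K) else (gs G M ((i : ℕ) - 1))⁻¹).map _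
    split_ifs
    · rw [Matrix.map_one _ (map_zero _) (map_one _)]
    · rfl
  have hR : (if (i : ℕ) + 1 = d then (1 : Matrix W W R) else
      (gs G M (i : ℕ)).map (algebraMap K R)) = (Rf i).map (algebraMap K R) := by
    rw [hRf]
    show _ = (if (i : ℕ) + 1 = d then (1 : Matrix W W K) else gs G M (i : ℕ)).map _
    split_ifs
    · rw [Matrix.map_one _ (map_zero _) (map_one _)]
    · rfl
  rw [hL, hR]
  unfold ZM
  rw [Finset.mul_sum, Finset.sum_mul, Matrix.sum_apply, Finset.sum_range, Fintype.sum_sigma,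
    sum_eq_single i]
  · rw [Fintype.sum_prod_type]
    refine sum_congr rfl fun a _ => ?_
    rw [Finset.mul_sum, Finset.sum_mul, Matrix.sum_apply, Finset.sum_range]
    refine sum_congr rfl fun b _ => ?_
    rw [ext3_of X i a b, Matrix.mul_smul, Matrix.smul_mul, Matrix.smul_apply,
      smul_eq_mul]
    congr 1
    unfold dirD
    rw [if_pos rfl]
    have h1 : (Matrix.single (vx d wd o e i a) (vx d wd o e (i + 1) b) (1 : R)) =
        (Matrix.single (vx d wd o e i a) (vx d wd o e (i + 1) b) (1 : K)).map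
          (algebraMap K R) := by
      rw [Matrix.map_single, map_one]
    rw [h1, ← Matrix.map_mul, ← Matrix.map_mul, Matrix.map_apply]
  · intro i' _ hi'
    refine sum_eq_zero fun ab _ => ?_
    unfold dirD
    rw [if_neg (fun h : i = i' => hi' h.symm), map_zero, mul_zero]
  · intro h
    exact absurd (mem_univ _) h

end field

end Pool.QPIT
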