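import Pool.Agent.QPIT.CoreAt
import Pool.Agent.QPIT.Gauge
import Pool.Agent.QPIT.Hybrid
import Pool.Agent.XD.Perm
import Pool.Agent.XD.Trace

/-!
# QPIT, row Q3: multiples of `y - IMM`, the substitutions

A nonzero polynomial `P (y, x)` with `P (f (x), x) = 0`, `f` the iterated matrix product, is
`(y - f) ^ μ * R`.  At `x = x0 + D (letters)` and `y = f (x0) + t` its part of bidegree `(r, E)` is
`t ^ (μ - 1) * (t * G - μ * R (f (x0) + t, x0) * chn)`, and the operator of this polynomial has at
least the rank of the operator of the chain polynomial, for generic `t`.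
-/

set_option autoImplicit false
set_option linter.unusedSectionVars false

namespace Pool.QPIT

open Finset Pool.XD Pool.Agent.Helper87.D3 Pool.Agent.Helper41.CD Pool.CDep

section forms

variable {L V : Type} [Fintype L] (ty : L → Bool) {K : Type} [Field K] (D : L → V → K)

/-- the linear form of the letters of type `true` -/
noncomputable def aV (v : V) : MvPolynomial L K :=
  ∑ l, if ty l then MvPolynomial.C (D l v) * MvPolynomial.X l else 0

/-- the linear form of the letters of type `false` -/
noncomputable def bV (v : V) : MvPolynomial L K :=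
  ∑ l, if ty l then 0 else MvPolynomial.C (D l v) * MvPolynomial.X l

theorem aV_UU (v : V) : aV ty D v ∈ UU ty K 1 := by
  refine Submodule.sum_mem _ fun l _ => ?_
  split_ifs with h
  · rw [← MvPolynomial.smul_eq_C_mul]
    have h1 := X_mem_UU ty (K := K) l
    rw [if_pos h] at h1
    exact Submodule.smul_mem _ _ h1
  · exact Submodule.zero_mem _

theorem aV_VV (v : V) : aV ty D v ∈ VV ty K 0 := by
  refine Submodule.sum_mem _ fun l _ => ?_
  split_ifs with h
  · rw [← MvPolynomial.smul_eq_C_mul]
    have h1 := X_mem_VV ty (K := K) l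
    rw [if_pos h] at h1
    exact Submodule.smul_mem _ _ h1
  · exact Submodule.zero_mem _

theorem bV_UU (v : V) : bV ty D v ∈ UU ty K 0 := by
  refine Submodule.sum_mem _ fun l _ => ?_
  split_ifs with h
  · exact Submodule.zero_mem _
  · rw [← MvPolynomial.smul_eq_C_mul]
    have h1 := X_mem_UU ty (K := K) l
    rw [if_neg h] at h1
    exact Submodule.smul_mem _ _ h1

theorem bV_VV (v : V) : bV ty D v ∈ VV ty K 1 := by
  refine Submodule.sum_mem _ fun l _ => ?_
  split_ifs with h
  · exact Submodule.zero_mem _
  · rw [← MvPolynomial.smul_eq_C_mul]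
    have h1 := X_mem_VV ty (K := K) l
    rw [if_neg h] at h1
    exact Submodule.smul_mem _ _ h1

/-- the letter as a series -/
noncomputable def serX (l : L) : Ser (MvPolynomial L K) :=
  (if ty l then lam (MvPolynomial L K) else mu (MvPolynomial L K)) * cst (MvPolynomial.X l)

theorem cst_sum' {B ι : Type} [CommRing B] (s : Finset ι) (F : ι → B) :
    (cst (∑ i ∈ s, F i) : Ser B) = ∑ i ∈ s, cst (F i) := by
  unfold cst
  rw [map_sum, map_sum]

theorem forms_eq (c : K) (v : V) : cst (MvPolynomial.C c) + lam (MvPolynomial L K) *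
    cst (aV ty D v) + mu (MvPolynomial L K) * cst (bV ty D v) =
    algebraMap K (Ser (MvPolynomial L K)) c + ∑ l, serX ty l *
      algebraMap K (Ser (MvPolynomial L K)) (D l v) := by
  rw [Pool.Agent.Helper59.CD.algebraMap_ser, add_assoc]
  congr 1
  unfold aV bV
  rw [cst_sum', cst_sum', mul_sum, mul_sum, ← sum_add_distrib]
  refine sum_congr rfl fun l _ => ?_
  rw [Pool.Agent.Helper59.CD.algebraMap_ser]
  unfold serX
  rcases h : ty l with _ | _
  · simp only [Bool.false_eq_true, if_false]
    rw [cst_zero, mul_zero, zero_add, cst_mul, MvPolynomial.algebraMap_eq]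
    ring
  · simp only [if_true]
    rw [cst_zero, mul_zero, add_zero, cst_mul, MvPolynomial.algebraMap_eq]
    ring

end forms

section chain

variable {d : ℕ} {wd : ℕ → ℕ} (ty : ℕ → Bool) {K : Type} [Field K]

theorem sum_serX {r E : ℕ} (hr : r = (univ.filter fun i : Fin d => ty i = true).card)
    (hE : E = (univ.filter fun i : Fin d => ty i = false).card) :
    ∑ s : Wrd d wd, ∏ i : Fin d, serX (K := K) (tyl d wd ty) (ltr s i) =
      lam _ ^ r * mu _ ^ E * cst (chn d wd K) := by
  unfold chn
  rw [cst_sum', mul_sum]
  refine sum_congr rfl fun s _ => ?_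
  unfold serX
  rw [prod_mul_distrib, cst_prod]
  congr 1
  have h1 : ∀ i : Fin d, (if tyl d wd ty (ltr s i) then lam (MvPolynomial (Ltr d wd) K)
      else mu (MvPolynomial (Ltr d wd) K)) = if ty i = true then lam (MvPolynomial (Ltr d wd) K)
      else mu (MvPolynomial (Ltr d wd) K) := fun i => rfl
  rw [prod_congr rfl fun i _ => h1 i, prod_ite, prod_const, prod_const, hr, hE]
  congr 2
  refine congrArg Finset.card (filter_congr fun i _ => ?_)
  simp

end chain

section point

variable {L V : Type} [Fintype L] (ty : L → Bool) {K : Type} [Field K] (D : L → V → K)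
  (x0 : V → K)

/-- the point `(u, x0)` -/
def cO (u : K) (o : Option V) : K := o.elim u x0

/-- the directions, zero for `y` -/
noncomputable def aO (o : Option V) : MvPolynomial L K := o.elim 0 (aV ty D)

/-- the directions, zero for `y` -/
noncomputable def bO (o : Option V) : MvPolynomial L K := o.elim 0 (bV ty D)

theorem aO_UU (o : Option V) : aO ty D o ∈ UU ty K 1 := by
  rcases o with _ | v
  · exact Submodule.zero_mem _
  · exact aV_UU ty D v

theorem aO_VV (o : Option V) : aO ty D o ∈ VV ty K 0 := by
  rcases o with _ | v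
  · exact Submodule.zero_mem _
  · exact aV_VV ty D v

theorem bO_UU (o : Option V) : bO ty D o ∈ UU ty K 0 := by
  rcases o with _ | v
  · exact Submodule.zero_mem _
  · exact bV_UU ty D v

theorem bO_VV (o : Option V) : bO ty D o ∈ VV ty K 1 := by
  rcases o with _ | v
  · exact Submodule.zero_mem _
  · exact bV_VV ty D v

theorem PhiG_none (u : K) : PhiG (cO x0 u) (aO ty D) (bO ty D) (MvPolynomial.X none) =
    cst (MvPolynomial.C u) := by
  rw [PhiG_X]
  show cst (MvPolynomial.C u) + lam _ * cst 0 + mu _ * cst 0 = _
  rw [cst_zero, mul_zero, mul_zero, add_zero, add_zero]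

theorem PhiG_some (u : K) (f : MvPolynomial V K) :
    PhiG (cO x0 u) (aO ty D) (bO ty D) (MvPolynomial.rename some f) =
    MvPolynomial.aeval (fun v => algebraMap K (Ser (MvPolynomial L K)) (x0 v) +
      ∑ l, serX ty l * algebraMap K (Ser (MvPolynomial L K)) (D l v)) f := by
  unfold PhiG
  rw [MvPolynomial.aeval_rename]
  congr 2
  funext v
  exact forms_eq ty D (x0 v) v

/-- the substitution over the polynomials in one variable -/
noncomputable def PhiA (p : Polynomial K) :
    MvPolynomial (Option V) K →+* Ser (MvPolynomial L (Polynomial K)) :=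
  MvPolynomial.eval₂Hom (((PowerSeries.C (R := PowerSeries (MvPolynomial L (Polynomial K)))).comp
      (PowerSeries.C (R := MvPolynomial L (Polynomial K)))).comp
      (MvPolynomial.C.comp Polynomial.C)) fun o =>
    cst (MvPolynomial.C (o.elim p fun v => Polynomial.C (x0 v))) +
      lam _ * cst (MvPolynomial.map Polynomial.C (aO ty D o)) +
      mu _ * cst (MvPolynomial.map Polynomial.C (bO ty D o))

theorem map_map_C (t : K) (q : MvPolynomial L K) :
    MvPolynomial.map (Polynomial.evalRingHom t) (MvPolynomial.map Polynomial.C q) = q := by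
  rw [MvPolynomial.map_map]
  have h1 : (Polynomial.evalRingHom t).comp Polynomial.C = RingHom.id K := by
    ext a
    simp
  rw [h1, MvPolynomial.map_id]

theorem serMap_PhiA (p : Polynomial K) (t : K) (Q : MvPolynomial (Option V) K) :
    serMap (MvPolynomial.map (Polynomial.evalRingHom t)) (PhiA ty D x0 p Q) =
      PhiG (cO x0 (p.eval t)) (aO ty D) (bO ty D) Q := by
  unfold PhiA PhiG
  rw [MvPolynomial.coe_eval₂Hom, MvPolynomial.hom_eval₂, MvPolynomial.aeval_def]
  have h1 : (serMap (MvPolynomial.map (Polynomial.evalRingHom t))).comp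
      (((PowerSeries.C (R := PowerSeries (MvPolynomial L (Polynomial K)))).comp
      (PowerSeries.C (R := MvPolynomial L (Polynomial K)))).comp
      (MvPolynomial.C.comp Polynomial.C)) = algebraMap K (Ser (MvPolynomial L K)) := by
    ext a : 1
    show serMap (MvPolynomial.map (Polynomial.evalRingHom t))
      (cst (MvPolynomial.C (Polynomial.C a) : MvPolynomial L (Polynomial K))) = _
    rw [serMap_cst, MvPolynomial.map_C, Pool.Agent.Helper59.CD.algebraMap_ser,
      MvPolynomial.algebraMap_eq, Polynomial.coe_evalRingHom, Polynomial.eval_C]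
  rw [h1]
  congr 1
  funext o
  show serMap (MvPolynomial.map (Polynomial.evalRingHom t))
    (cst (MvPolynomial.C (o.elim p fun v => Polynomial.C (x0 v))) +
      lam _ * cst (MvPolynomial.map Polynomial.C (aO ty D o)) +
      mu _ * cst (MvPolynomial.map Polynomial.C (bO ty D o))) = _
  rw [RingHom.map_add, RingHom.map_add, RingHom.map_mul, RingHom.map_mul,
    serMap_cst, serMap_cst, serMap_cst, serMap_lam, serMap_mu, map_map_C, map_map_C,
    MvPolynomial.map_C]
  rcases o with _ | v
  · rfl
  · show cst (MvPolynomial.C (Polynomial.eval t (Polynomial.C (x0 v)))) + _ + _ = _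
    rw [Polynomial.eval_C]
    rfl

theorem map_cf_PhiA (p : Polynomial K) (t : K) (Q : MvPolynomial (Option V) K) (b e : ℕ) :
    MvPolynomial.map (Polynomial.evalRingHom t) (cf b e (PhiA ty D x0 p Q)) =
      cf b e (PhiG (cO x0 (p.eval t)) (aO ty D) (bO ty D) Q) := by
  rw [← serMap_PhiA, cf_serMap]

end point

end Pool.QPIT
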