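import Pool.Agent.XD.Level
import Pool.Agent.XD.Shape
import Pool.Agent.QPIT.Phi

/-!
# The machine of XD at one base point, for the substitution `PhiG`
-/

set_option autoImplicit false

namespace Pool.QPIT

open Finset Pool.XD Pool.Agent.Helper87.D3 Pool.Agent.Helper41.CD

/-- the cost of a coefficient of the image of a sum of products of elements of `NCls c w0 w S k` -/
theorem nu_at {L : Type} [Fintype L] (ty : L → Bool) {K σ : Type} [Field K] [CharZero K]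
    {T S w w0 k d : ℕ} {y : ℝ} {X Y : ℕ → ℝ}
    (hX : ∀ i, 0 < X i) (hY : ∀ i, 0 < Y i) (hX0 : X 0 = 1) (hY0 : Y 0 = 1)
    (hnum : ∀ i ≤ 2 * k, NumD d (S * ((d : ℝ) + 1) ^ (8 * (w0 + w) + 16)) (Real.exp 1)
        (Real.exp y) (X i) (Y i) (X (i + 1)) (Y (i + 1)))
    (c : σ → K) (α β : σ → MvPolynomial L K) (hα1 : ∀ v, α v ∈ UU ty K 1)
    (hα0 : ∀ v, α v ∈ VV ty K 0) (hβ0 : ∀ v, β v ∈ UU ty K 0) (hβ1 : ∀ v, β v ∈ VV ty K 1)
    (f : Fin T → Fin S → MvPolynomial σ K) (hf : ∀ i j, f i j ∈ NCls c w0 w S k ∧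
      (f i j = 0 ∨ MvPolynomial.eval c (f i j) ≠ 0)) (b e : ℕ) (hbe : b + e ≤ d) :
    Pool.CD.Nu (VV ty K) (UU ty K) (Real.exp y) (Real.exp 1)
      (cf b e (PhiG c α β (∑ i, ∏ j, f i j)))
      (T * (((d : ℝ) + 1) ^ 16 * (X (2 * k + 1) ^ b * Y (2 * k + 1) ^ e))) := by
  obtain ⟨SU, SV, hSU, hSV⟩ := exists_sub ty (K := K)
  have hfV := filt_VV ty (K := K)
  have hfU := filt_UU ty (K := K)
  have he1 : (0 : ℝ) < Real.exp 1 := Real.exp_pos _
  have hey : (0 : ℝ) < Real.exp y := Real.exp_pos _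
  exact level_machine_at (σ := σ) (K := K) (B := MvPolynomial L K)
    (Pool.CD.cost_Nu hfV hfU hey.le he1.le) (Pool.CD.big_Bi hfV hfU) he1 hey
    (Pool.CD.leaf_Bi hfV hfU (Real.exp y) (Real.exp 1)) SU SV
    (fun a ha b hb => by
      have h1 := Pool.CD.Nu.ofMul (V := VV ty K) (U := UU ty K)
        (hv := Real.exp y) (hu := Real.exp 1) ((hSU a).1 ha) ((hSV b).1 hb)
      rwa [pow_zero, pow_zero, mul_one] at h1) c
    (PhiG c α β) (PhiG_mem ty c α β hα1 hα0 hβ0 hβ1) (PhiG_zero c α β)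
    (fun p hp => by
      obtain ⟨a, ha, b, hb, h1⟩ := PhiG_one ty c α β hα0 hβ0 p hp
      exact ⟨a, (hSU a).2 ha, b, (hSV b).2 hb, h1⟩)
    hX hY hX0 hY0 hnum f hf b e hbe

end Pool.QPIT
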