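import Pool.Agent.QPIT.CoreA

/-!
# QPIT, row Q3: multiples of `y - IMM`, the rank at a generic `t`
-/

set_option autoImplicit false
set_option linter.unusedSectionVars false

namespace Pool.QPIT

open Finset Pool.XD Pool.Agent.Helper87.D3 Pool.Agent.Helper41.CD Pool.CDep

section opM

variable {L : Type} [Fintype L] (ty : L → Bool) {A A' : Type} [CommRing A] [CommRing A']

theorem opM_map' (f : A →+* A') (F : MvPolynomial L A) (a b a' b' : ℕ) :
    opM ty (MvPolynomial.map f F) a b a' b' = (opM ty F a b a' b').map f := by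
  ext α γ
  rw [Matrix.map_apply]
  unfold opM
  split_ifs
  · rw [MvPolynomial.coeff_map]
  · rw [map_zero]

theorem opM_C_mul (c : A) (F : MvPolynomial L A) (a b a' b' : ℕ) :
    opM ty (MvPolynomial.C c * F) a b a' b' = c • opM ty F a b a' b' := by
  ext α γ
  rw [Matrix.smul_apply]
  unfold opM
  split_ifs
  · rw [MvPolynomial.coeff_C_mul, smul_eq_mul]
  · rw [smul_zero]

theorem opM_C_mul_det (c : A) (F : MvPolynomial L A) (a b a' b' : ℕ) {ρ : ℕ}
    (I : Fin ρ → Box ty a b) (J : Fin ρ → Box ty a' b') :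
    ((opM ty (MvPolynomial.C c * F) a b a' b').submatrix I J).det =
      c ^ ρ * ((opM ty F a b a' b').submatrix I J).det := by
  have h1 : (opM ty (MvPolynomial.C c * F) a b a' b').submatrix I J =
      c • (opM ty F a b a' b').submatrix I J := by
    rw [opM_C_mul]
    rfl
  rw [h1, Matrix.det_smul, Fintype.card_fin]

end opM

section delta

variable {L V : Type} [Fintype L] (ty : L → Bool) {K : Type} [Field K] (D : L → V → K)
  (x0 : V → K)

theorem eval_cO (f : MvPolynomial V K) (R : MvPolynomial (Option V) K) :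
    MvPolynomial.eval (cO x0 (MvPolynomial.eval x0 f)) R = MvPolynomial.eval x0 (subY f R) := by
  unfold subY
  induction R using MvPolynomial.induction_on with
  | C a => simp
  | add p q hp hq => rw [map_add, map_add, map_add, hp, hq]
  | mul_X q o hq =>
    rw [map_mul, map_mul, map_mul, hq, MvPolynomial.eval_X, MvPolynomial.aeval_X]
    congr 1
    rcases o with _ | v
    · rfl
    · show x0 v = MvPolynomial.eval x0 (MvPolynomial.X v)
      rw [MvPolynomial.eval_X]

/-- the polynomial whose operator has large rank -/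
noncomputable def Pt (f : MvPolynomial V K) (R : MvPolynomial (Option V) K)
    (F0 : MvPolynomial L K) (r E m : ℕ) (t : K) : MvPolynomial L K :=
  MvPolynomial.C t * cf r E (PhiG (cO x0 (MvPolynomial.eval x0 f + t)) (aO ty D) (bO ty D) R) -
    ((m + 1 : ℕ) : MvPolynomial L K) * F0 *
      cf 0 0 (PhiG (cO x0 (MvPolynomial.eval x0 f + t)) (aO ty D) (bO ty D) R)

theorem exists_delta [CharZero K] (f : MvPolynomial V K) (R : MvPolynomial (Option V) K)
    (hR : MvPolynomial.eval x0 (subY f R) ≠ 0) (F0 : MvPolynomial L K) (r E m a b a' b' : ℕ)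
    {ρ : ℕ} (I : Fin ρ → Box ty a b) (J : Fin ρ → Box ty a' b')
    (hIJ : ((opM ty F0 a b a' b').submatrix I J).det ≠ 0) :
    ∃ δ : Polynomial K, δ ≠ 0 ∧ ∀ t : K, δ.eval t ≠ 0 →
      ((opM ty (Pt ty D x0 f R F0 r E m t) a b a' b').submatrix I J).det ≠ 0 := by
  classical
  set p : Polynomial K := Polynomial.C (MvPolynomial.eval x0 f) + Polynomial.X with hp
  have hpt : ∀ t : K, p.eval t = MvPolynomial.eval x0 f + t := by
    intro t
    rw [hp, Polynomial.eval_add, Polynomial.eval_C, Polynomial.eval_X]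
  set PA : MvPolynomial L (Polynomial K) :=
    MvPolynomial.C Polynomial.X * cf r E (PhiA ty D x0 p R) -
      ((m + 1 : ℕ) : MvPolynomial L (Polynomial K)) * MvPolynomial.map Polynomial.C F0 * cf 0 0 (PhiA ty D x0 p R) with hPA
  have hmap : ∀ t : K, MvPolynomial.map (Polynomial.evalRingHom t) PA =
      Pt ty D x0 f R F0 r E m t := by
    intro t
    rw [hPA, map_sub, map_mul, map_mul, map_mul, MvPolynomial.map_C, map_map_C, map_cf_PhiA,
      map_cf_PhiA, hpt, map_natCast, Polynomial.coe_evalRingHom, Polynomial.eval_X]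
    rfl
  set δ : Polynomial K := ((opM ty PA a b a' b').submatrix I J).det with hδ
  have hev : ∀ t : K, δ.eval t =
      ((opM ty (Pt ty D x0 f R F0 r E m t) a b a' b').submatrix I J).det := by
    intro t
    rw [hδ, ← Polynomial.coe_evalRingHom, RingHom.map_det, RingHom.mapMatrix_apply, ← hmap t,
      opM_map']
    rfl
  refine ⟨δ, fun h0 => ?_, fun t ht => by rwa [← hev]⟩
  have h1 := hev 0
  rw [h0, Polynomial.eval_zero] at h1
  have h2 : Pt ty D x0 f R F0 r E m 0 = MvPolynomial.C
      (-(((m + 1 : ℕ) : K) * MvPolynomial.eval x0 (subY f R))) * F0 := by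
    unfold Pt
    rw [PhiG_zero, add_zero, eval_cO, map_zero, zero_mul, zero_sub, MvPolynomial.algebraMap_eq,
      map_neg, map_mul, map_natCast]
    ring
  rw [h2, opM_C_mul_det] at h1
  have h3 : (-(((m + 1 : ℕ) : K) * MvPolynomial.eval x0 (subY f R)) : K) ≠ 0 := by
    rw [neg_ne_zero]
    exact mul_ne_zero (Nat.cast_ne_zero.2 (Nat.succ_ne_zero m)) hR
  exact (mul_ne_zero (pow_ne_zero _ h3) hIJ) h1.symm

end delta

end Pool.QPIT
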