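import Pool.Agent.XD.Defs

/-!
# Quasi-polynomial identity tests for circuits of constant depth: definitions

`immv d w x` is the entry `(0, 0)` of the product of `d` matrices of size `w + 1`.
-/

set_option autoImplicit false

namespace Pool.QPIT

open Finset

/-- the variables of the product of `d` matrices of size `w + 1` -/
abbrev Vr (d w : ℕ) : Type := Fin d × Fin (w + 1) × Fin (w + 1)

/-- the entry `(0, 0)` of the product of the `d` matrices with the entries `x` -/
def immv {R : Type} [CommRing R] (d w : ℕ) (x : Vr d w → R) : R :=
  (List.ofFn fun i : Fin d => (Matrix.of fun a b => x (i, a, b) :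
    Matrix (Fin (w + 1)) (Fin (w + 1)) R)).prod 0 0

/-- the iterated matrix product polynomial -/
noncomputable def imm (d w : ℕ) (R : Type) [CommRing R] : MvPolynomial (Vr d w) R :=
  immv d w MvPolynomial.X

/-- the substitution `y = f (x)` -/
noncomputable def subY {V R : Type} [CommRing R] (f : MvPolynomial V R) :
    MvPolynomial (Option V) R →ₐ[R] MvPolynomial V R :=
  MvPolynomial.aeval fun o => o.elim f MvPolynomial.X

/-- `f` is a sum of at most `N` products of at most `N'` polynomials of degree at most one -/
def Sps {V R : Type} [CommRing R] (N N' : ℕ) (f : MvPolynomial V R) : Prop :=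
  ∃ A : Fin N → Fin N' → MvPolynomial V R, (∀ i j, (A i j).totalDegree ≤ 1) ∧ f = ∑ i, ∏ j, A i j

/-- the number of a variable -/
def num {d w : ℕ} (v : Vr d w) : ℕ := (v.1.val * (w + 1) + v.2.1.val) * (w + 1) + v.2.2.val

/-- the value at `a` of the polynomial over `ZMod p` whose coefficients are the first `κ` digits of
`i` in base `p` -/
def digv (p κ i a : ℕ) : ℕ := (∑ t ∈ range κ, (i / p ^ t % p) * a ^ t) % p

end Pool.QPIT
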