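import Pool.Agent.QPIT.Defs

/-!
# The design (row Q5)

`num` numbers the variables, `digv p κ i` is the polynomial function whose coefficients are the
digits of `i`: two of them agree at less than `κ` points.
-/

set_option autoImplicit false

namespace Pool.QPIT

open Finset

theorem num_lt {d w : ℕ} (v : Vr d w) : num v < d * (w + 1) ^ 2 := by
  obtain ⟨i, a, b⟩ := v
  have hi := i.2
  have ha := a.2
  have hb := b.2
  unfold num
  simp only
  have h1 : i.val * (w + 1) + a.val + 1 ≤ d * (w + 1) := by
    calc i.val * (w + 1) + a.val + 1 ≤ i.val * (w + 1) + (w + 1) := by omega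
      _ = (i.val + 1) * (w + 1) := by ring
      _ ≤ d * (w + 1) := Nat.mul_le_mul_right _ hi
  calc (i.val * (w + 1) + a.val) * (w + 1) + b.val
      < (i.val * (w + 1) + a.val) * (w + 1) + (w + 1) := by omega
    _ = (i.val * (w + 1) + a.val + 1) * (w + 1) := by ring
    _ ≤ d * (w + 1) * (w + 1) := Nat.mul_le_mul_right _ h1
    _ = d * (w + 1) ^ 2 := by ring

theorem num_injective (d w : ℕ) : Function.Injective (num (d := d) (w := w)) := by
  rintro ⟨i, a, b⟩ ⟨i', a', b'⟩ h
  unfold num at h
  simp only at h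
  have hb : b.val = b'.val := by
    have h1 := congrArg (· % (w + 1)) h
    simp only [Nat.mul_add_mod_of_lt b.2, Nat.mul_add_mod_of_lt b'.2] at h1
    exact h1
  have h2 : i.val * (w + 1) + a.val = i'.val * (w + 1) + a'.val := by
    rw [hb] at h
    exact Nat.eq_of_mul_eq_mul_right (Nat.succ_pos w) (Nat.add_right_cancel h)
  have ha : a.val = a'.val := by
    have h1 := congrArg (· % (w + 1)) h2
    simp only [Nat.mul_add_mod_of_lt a.2, Nat.mul_add_mod_of_lt a'.2] at h1
    exact h1
  have hi : i.val = i'.val := by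
    rw [ha] at h2
    exact Nat.eq_of_mul_eq_mul_right (Nat.succ_pos w) (Nat.add_right_cancel h2)
  rw [Prod.mk.injEq, Prod.mk.injEq]
  exact ⟨Fin.ext hi, Fin.ext ha, Fin.ext hb⟩

/-- a number below `p ^ κ` is the sum of its digits times the powers of `p` -/
theorem digits_sum (p : ℕ) (κ : ℕ) : ∀ i : ℕ, i < p ^ κ →
    ∑ t ∈ range κ, (i / p ^ t % p) * p ^ t = i := by
  induction κ with
  | zero =>
    intro i hi
    rw [pow_zero] at hi
    rw [range_zero, sum_empty]
    omega
  | succ κ ih =>
    intro i hi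
    rw [sum_range_succ]
    rcases Nat.eq_zero_or_pos p with hp | hp
    · subst hp
      rw [zero_pow (Nat.succ_ne_zero κ)] at hi
      omega
    have hpk : 0 < p ^ κ := Nat.pow_pos hp
    have h1 : i / p ^ κ < p := by
      rw [Nat.div_lt_iff_lt_mul hpk]
      calc i < p ^ (κ + 1) := hi
        _ = p * p ^ κ := by ring
    rw [Nat.mod_eq_of_lt h1]
    have h2 := ih (i % p ^ κ) (Nat.mod_lt _ hpk)
    have h3 : ∑ t ∈ range κ, (i / p ^ t % p) * p ^ t =
        ∑ t ∈ range κ, (i % p ^ κ / p ^ t % p) * p ^ t := by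
      refine sum_congr rfl fun t ht => ?_
      have ht' := mem_range.1 ht
      congr 1
      have e : p ^ κ = p ^ t * p ^ (κ - t) := by rw [← pow_add]; congr 1; omega
      rw [e, Nat.mod_mul_right_div_self]
      rw [Nat.mod_mod_of_dvd]
      exact dvd_pow_self p (by omega)
    rw [h3, h2]
    have h4 := Nat.div_add_mod i (p ^ κ)
    rw [mul_comm (i / p ^ κ)]
    omega

/-- two different indices agree at less than `κ` points -/
theorem digv_agree {p κ i j : ℕ} (hp : p.Prime) (hi : i < p ^ κ) (hj : j < p ^ κ) (hij : i ≠ j) :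
    ((range p).filter fun a => digv p κ i a = digv p κ j a).card < κ := by
  classical
  have : Fact p.Prime := ⟨hp⟩
  -- some digit differs
  obtain ⟨t, ht, hdt⟩ : ∃ t ∈ range κ, i / p ^ t % p ≠ j / p ^ t % p := by
    by_contra hcon
    push Not at hcon
    apply hij
    rw [← digits_sum p κ i hi, ← digits_sum p κ j hj]
    exact sum_congr rfl fun t ht => by rw [hcon t ht]
  set Q : Polynomial (ZMod p) := ∑ t ∈ range κ,
    Polynomial.C (((i / p ^ t % p : ℕ) : ZMod p) - ((j / p ^ t % p : ℕ) : ZMod p)) *
      Polynomial.X ^ t with hQ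
  have hcoeff : ∀ s, s < κ → Q.coeff s =
      ((i / p ^ s % p : ℕ) : ZMod p) - ((j / p ^ s % p : ℕ) : ZMod p) := by
    intro s hs
    rw [hQ, Polynomial.finsetSum_coeff]
    rw [sum_eq_single s]
    · rw [Polynomial.coeff_C_mul, Polynomial.coeff_X_pow, if_pos rfl, mul_one]
    · intro b _ hb
      rw [Polynomial.coeff_C_mul, Polynomial.coeff_X_pow, if_neg (Ne.symm hb), mul_zero]
    · intro h
      exact absurd (mem_range.2 hs) h
  have hQ0 : Q ≠ 0 := by
    intro h
    have h1 := hcoeff t (mem_range.1 ht)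
    rw [h, Polynomial.coeff_zero] at h1
    have h2 : ((i / p ^ t % p : ℕ) : ZMod p) = ((j / p ^ t % p : ℕ) : ZMod p) :=
      (sub_eq_zero.1 h1.symm)
    rw [ZMod.natCast_eq_natCast_iff'] at h2
    rw [Nat.mod_mod, Nat.mod_mod] at h2
    exact hdt h2
  have hκ : 0 < κ := by
    have := mem_range.1 ht
    omega
  have hdeg : Q.natDegree < κ := by
    have h1 : Q.natDegree ≤ κ - 1 := by
      rw [hQ]
      refine Polynomial.natDegree_sum_le_of_forall_le _ _ fun t ht => ?_
      have ht' := mem_range.1 ht
      exact (Polynomial.natDegree_C_mul_X_pow_le _ _).trans (by omega)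
    omega
  have hsub : ((range p).filter fun a => digv p κ i a = digv p κ j a).image
      (fun a : ℕ => (a : ZMod p)) ⊆ Q.roots.toFinset := by
    intro x hx
    obtain ⟨a, ha, rfl⟩ := mem_image.1 hx
    rw [mem_filter] at ha
    rw [Multiset.mem_toFinset, Polynomial.mem_roots hQ0, Polynomial.IsRoot.def]
    have h1 := ha.2
    unfold digv at h1
    have h2 : ((∑ t ∈ range κ, (i / p ^ t % p) * a ^ t : ℕ) : ZMod p) =
        ((∑ t ∈ range κ, (j / p ^ t % p) * a ^ t : ℕ) : ZMod p) := by
      rw [ZMod.natCast_eq_natCast_iff']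
      exact h1
    rw [hQ, Polynomial.eval_finsetSum]
    push_cast at h2
    simp only [Polynomial.eval_mul, Polynomial.eval_C, Polynomial.eval_pow, Polynomial.eval_X,
      sub_mul, sum_sub_distrib]
    rw [sub_eq_zero]
    exact h2
  have hinj : Set.InjOn (fun a : ℕ => (a : ZMod p))
      ((range p).filter fun a => digv p κ i a = digv p κ j a) := by
    intro a ha b hb hab
    rw [mem_coe, mem_filter, mem_range] at ha hb
    simp only at hab
    rw [ZMod.natCast_eq_natCast_iff', Nat.mod_eq_of_lt ha.1, Nat.mod_eq_of_lt hb.1] at hab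
    exact hab
  calc ((range p).filter fun a => digv p κ i a = digv p κ j a).card
      = (((range p).filter fun a => digv p κ i a = digv p κ j a).image
          (fun a : ℕ => (a : ZMod p))).card := (card_image_of_injOn hinj).symm
    _ ≤ Q.roots.toFinset.card := card_le_card hsub
    _ ≤ Multiset.card Q.roots := Multiset.toFinset_card_le _
    _ ≤ Q.natDegree := Polynomial.card_roots' Q
    _ < κ := hdeg

end Pool.QPIT
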