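import Mathlib

/-!
# QPIT: the numbers of the final statement
-/

set_option autoImplicit false

namespace Pool.QPIT

/-- the length of the matrix product -/
def dd (c s : ℕ) : ℕ := (c * (Nat.log 2 s + 1)) ^ c

theorem log_le_ell {s : ℕ} (hs : 1 ≤ s) : Real.log s ≤ (Nat.log 2 s + 1 : ℕ) := by
  have h1 : s < 2 ^ (Nat.log 2 s + 1) := Nat.lt_pow_succ_log_self (by norm_num) s
  have h2 : (s : ℝ) ≤ 2 ^ (Nat.log 2 s + 1) := by exact_mod_cast h1.le
  have h3 : Real.log s ≤ Real.log (2 ^ (Nat.log 2 s + 1)) :=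
    Real.log_le_log (by exact_mod_cast hs) h2
  rw [Real.log_pow] at h3
  have h4 : Real.log 2 ≤ 1 := by
    have := Real.log_two_lt_d9
    linarith
  have h5 : (0 : ℝ) ≤ ((Nat.log 2 s + 1 : ℕ) : ℝ) := Nat.cast_nonneg _
  nlinarith

theorem exists_c {C : ℝ} (hC : 0 < C) (E : ℕ) : ∃ c : ℕ, 2 ≤ c ∧ ∀ s : ℕ, 2 ≤ s →
    C * Real.log (2 * dd c s * (s + 1)) *
      (Real.log (4 * s ^ 2) + 2 * Real.log (2 * dd c s)) ^ E < dd c s := by
  obtain ⟨a, ha⟩ := exists_nat_ge (C * 16 ^ (E + 1))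
  obtain ⟨c, hc⟩ : ∃ c, c = 4 * (E + 1) + 8 + a := ⟨_, rfl⟩
  refine ⟨c, by omega, fun s hs => ?_⟩
  obtain ⟨l, hl⟩ : ∃ l, l = Nat.log 2 s + 1 := ⟨_, rfl⟩
  have hl1 : 1 ≤ l := by omega
  have hd : dd c s = (c * l) ^ c := by rw [hl]; rfl
  have hlr : (1 : ℝ) ≤ l := by exact_mod_cast hl1
  have hc8 : (12 : ℝ) ≤ c := by
    have : 12 ≤ c := by omega
    exact_mod_cast this
  have hlog2 : Real.log 2 ≤ 1 := by
    have := Real.log_two_lt_d9
    linarith
  have hlogs : Real.log s ≤ l := by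
    have := log_le_ell (s := s) (by omega)
    rw [← hl] at this
    exact this
  have hs0 : (0 : ℝ) < s := by
    have : 0 < s := by omega
    exact_mod_cast this
  have hcl : (0 : ℝ) < c * l := by positivity
  have hlogd : Real.log (2 * dd c s) ≤ 1 + c * (c * l) := by
    rw [hd]
    push_cast
    rw [Real.log_mul (by norm_num) (by positivity), Real.log_pow]
    have h1 : Real.log ((c : ℝ) * l) ≤ c * l := by
      have := Real.log_le_sub_one_of_pos hcl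
      linarith
    have h2 : (c : ℝ) * Real.log ((c : ℝ) * l) ≤ c * (c * l) :=
      mul_le_mul_of_nonneg_left h1 (by positivity)
    linarith
  have hdd0 : (1 : ℝ) ≤ dd c s := by
    rw [hd]
    have h1 : 1 ≤ (c * l) ^ c := Nat.one_le_pow _ _ (Nat.mul_pos (by omega) (by omega))
    exact_mod_cast h1
  have hlogd0 : 0 ≤ Real.log (2 * dd c s) := Real.log_nonneg (by linarith)
  have h1 : Real.log (2 * dd c s * (s + 1)) ≤ 16 * (c ^ 2 * l) := by
    rw [Real.log_mul (by positivity) (by positivity)]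
    have h2 : Real.log ((s : ℝ) + 1) ≤ Real.log (2 * s) := by
      apply Real.log_le_log (by positivity)
      have : (2 : ℝ) ≤ s := by exact_mod_cast hs
      linarith
    rw [Real.log_mul (by norm_num) hs0.ne'] at h2
    nlinarith
  have h2 : Real.log (4 * s ^ 2) + 2 * Real.log (2 * dd c s) ≤ 16 * (c ^ 2 * l) := by
    rw [Real.log_mul (by norm_num) (by positivity), Real.log_pow]
    have h3 : Real.log 4 ≤ 2 := by
      rw [show (4 : ℝ) = 2 ^ 2 by norm_num, Real.log_pow]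
      push_cast
      linarith
    push_cast
    nlinarith
  have h20 : 0 ≤ Real.log (4 * s ^ 2) + 2 * Real.log (2 * dd c s) := by
    have : 0 ≤ Real.log (4 * (s : ℝ) ^ 2) := Real.log_nonneg (by
      have : (2 : ℝ) ≤ s := by exact_mod_cast hs
      nlinarith)
    linarith
  have h3 : (Real.log (4 * s ^ 2) + 2 * Real.log (2 * dd c s)) ^ E ≤ (16 * (c ^ 2 * l)) ^ E :=
    pow_le_pow_left₀ h20 h2 E
  have h4 : C * Real.log (2 * dd c s * (s + 1)) *
      (Real.log (4 * s ^ 2) + 2 * Real.log (2 * dd c s)) ^ E ≤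
      C * (16 * (c ^ 2 * l)) * (16 * (c ^ 2 * l)) ^ E :=
    mul_le_mul (mul_le_mul_of_nonneg_left h1 hC.le) h3 (by positivity) (by positivity)
  refine lt_of_le_of_lt h4 ?_
  have h5 : C * (16 * ((c : ℝ) ^ 2 * l)) * (16 * (c ^ 2 * l)) ^ E =
      (C * 16 ^ (E + 1)) * ((c : ℝ) ^ (2 * (E + 1)) * (l : ℝ) ^ (E + 1)) := by
    rw [mul_pow, mul_pow, pow_succ (16 : ℝ) E, pow_mul, pow_succ ((c : ℝ) ^ 2) E,
      pow_succ (l : ℝ) E]
    ring
  rw [h5, hd]
  push_cast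
  rw [mul_pow]
  have h6 : (l : ℝ) ^ (E + 1) ≤ (l : ℝ) ^ c := pow_le_pow_right₀ hlr (by omega)
  have h7 : (C * 16 ^ (E + 1)) * (c : ℝ) ^ (2 * (E + 1)) < (c : ℝ) ^ c := by
    have h8 : (C * 16 ^ (E + 1)) < (c : ℝ) := by
      refine lt_of_le_of_lt ha ?_
      have : a < c := by omega
      exact_mod_cast this
    calc (C * 16 ^ (E + 1)) * (c : ℝ) ^ (2 * (E + 1)) < c * (c : ℝ) ^ (2 * (E + 1)) :=
          mul_lt_mul_of_pos_right h8 (by positivity)
      _ = (c : ℝ) ^ (2 * (E + 1) + 1) := by ring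
      _ ≤ (c : ℝ) ^ c := pow_le_pow_right₀ (by linarith) (by omega)
  calc (C * 16 ^ (E + 1)) * ((c : ℝ) ^ (2 * (E + 1)) * (l : ℝ) ^ (E + 1))
      = ((C * 16 ^ (E + 1)) * (c : ℝ) ^ (2 * (E + 1))) * (l : ℝ) ^ (E + 1) := by ring
    _ < (c : ℝ) ^ c * (l : ℝ) ^ (E + 1) := mul_lt_mul_of_pos_right h7 (by positivity)
    _ ≤ (c : ℝ) ^ c * (l : ℝ) ^ c := mul_le_mul_of_nonneg_left h6 (by positivity)

theorem two_le_dd {c s : ℕ} (hc : 2 ≤ c) : 2 ≤ dd c s := by
  unfold dd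
  have h1 : 2 ≤ c * (Nat.log 2 s + 1) := by nlinarith
  calc 2 ≤ c * (Nat.log 2 s + 1) := h1
    _ = (c * (Nat.log 2 s + 1)) ^ 1 := (pow_one _).symm
    _ ≤ _ := Nat.pow_le_pow_right (by omega) (by omega)

end Pool.QPIT
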