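import Pool.Agent.QPIT.FinNum

/-!
# QPIT: the numbers of the final statement, explicit constants
-/

set_option autoImplicit false

namespace Pool.QPIT

open Real

/-- the length of the matrix product -/
def ddU (F w s : ℕ) : ℕ := (100 * F * w * (Nat.log 2 s + 1)) ^ (3 * F)

theorem two_le_ddU {F w : ℕ} (hF : 1 ≤ F) (hw : 1 ≤ w) (s : ℕ) : 2 ≤ ddU F w s := by
  unfold ddU
  have h1 : 100 ≤ 100 * F * w * (Nat.log 2 s + 1) := by
    calc 100 = 100 * 1 * 1 * 1 := rfl
      _ ≤ 100 * F * w * (Nat.log 2 s + 1) :=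
        Nat.mul_le_mul (Nat.mul_le_mul (Nat.mul_le_mul_left _ hF) hw) (by omega)
  calc 2 ≤ (100 * F * w * (Nat.log 2 s + 1)) ^ 1 := by rw [pow_one]; omega
    _ ≤ _ := Nat.pow_le_pow_right (by omega) (by omega)

theorem ddU_spec {F w s : ℕ} (hF : 2 ≤ F) (hw : 1 ≤ w) (hs : 2 ≤ s) :
    1250 * log (2 * ddU F w s * (s + 1)) *
      (1250 * (log (4 * s ^ 2) + 2 * w * log (2 * ddU F w s))) ^ (F - 2) < ddU F w s := by
  obtain ⟨l, hl⟩ : ∃ l, l = Nat.log 2 s + 1 := ⟨_, rfl⟩
  obtain ⟨N, hN⟩ : ∃ N, N = 100 * F * w * l := ⟨_, rfl⟩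
  have hd : ddU F w s = N ^ (3 * F) := by rw [hN, hl]; rfl
  have hl1 : (1 : ℝ) ≤ l := by
    have : 1 ≤ l := by omega
    exact_mod_cast this
  have hw1 : (1 : ℝ) ≤ w := by exact_mod_cast hw
  have hF2 : (2 : ℝ) ≤ F := by exact_mod_cast hF
  have hs2 : (2 : ℝ) ≤ s := by exact_mod_cast hs
  have hNr : (N : ℝ) = 100 * F * w * l := by rw [hN]; push_cast; ring
  have hFw : (2 : ℝ) ≤ F * w := by nlinarith
  have hFwl : (2 : ℝ) ≤ F * w * l := by nlinarith
  have hN0 : (200 : ℝ) ≤ N := by rw [hNr]; nlinarith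
  have hwF : 100 * ((F : ℝ) * w) ≤ N := by
    rw [hNr]
    have h1 : (F : ℝ) * w * 1 ≤ F * w * l := mul_le_mul_of_nonneg_left hl1 (by positivity)
    linarith
  have hFN : 100 * (F : ℝ) ≤ N := by
    have h1 : (F : ℝ) * 1 ≤ F * w := mul_le_mul_of_nonneg_left hw1 (by positivity)
    linarith
  have hlN : (l : ℝ) ≤ N := by
    rw [hNr]
    have h1 : (1 : ℝ) * l ≤ 100 * F * w * l :=
      mul_le_mul_of_nonneg_right (by nlinarith) (by positivity)
    linarith
  have hlog2 : log 2 ≤ 1 := by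
    have := log_two_lt_d9
    linarith
  have hlogs : log s ≤ l := by
    have := log_le_ell (s := s) (by omega)
    rw [← hl] at this
    exact this
  have hNpos : (0 : ℝ) < N := by linarith
  have hlogN : log N ≤ N := by
    have := log_le_sub_one_of_pos hNpos
    linarith
  have hdpos : (0 : ℝ) < ddU F w s := by
    have := two_le_ddU (F := F) (w := w) (by omega) hw s
    have h2 : 0 < ddU F w s := by omega
    exact_mod_cast h2
  have hlogd : log (2 * ddU F w s) ≤ 1 + 3 * F * N := by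
    rw [log_mul (by norm_num) hdpos.ne', hd]
    push_cast
    rw [log_pow]
    push_cast
    have h1 : 3 * (F : ℝ) * log N ≤ 3 * F * N :=
      mul_le_mul_of_nonneg_left hlogN (by positivity)
    linarith
  have hd1 : (1 : ℝ) ≤ ddU F w s := by
    have := two_le_ddU (F := F) (w := w) (by omega) hw s
    have h2 : 1 ≤ ddU F w s := by omega
    exact_mod_cast h2
  have hlogd0 : 0 ≤ log (2 * (ddU F w s : ℝ)) := log_nonneg (by linarith)
  have hs0 : (0 : ℝ) < s := by linarith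
  have h1 : 1250 * log (2 * ddU F w s * (s + 1)) ≤ (N : ℝ) ^ 3 := by
    rw [log_mul (by positivity) (by positivity)]
    have h2 : log ((s : ℝ) + 1) ≤ log (2 * s) := log_le_log (by positivity) (by linarith)
    rw [log_mul (by norm_num) hs0.ne'] at h2
    have h3 : 100 * (F : ℝ) * N ≤ N * N := mul_le_mul_of_nonneg_right hFN hNpos.le
    have h4 : 200 * (N : ℝ) ≤ N * N := mul_le_mul_of_nonneg_right hN0 hNpos.le
    have h5 : 200 * ((N : ℝ) * N) ≤ N * (N * N) :=
      mul_le_mul_of_nonneg_right hN0 (by positivity)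
    have h6 : (N : ℝ) ^ 3 = N * (N * N) := by ring
    rw [h6]
    linarith
  have h20 : 0 ≤ 1250 * (log (4 * s ^ 2) + 2 * w * log (2 * ddU F w s)) := by
    have : 0 ≤ log (4 * (s : ℝ) ^ 2) := log_nonneg (by nlinarith)
    have h3 : 0 ≤ 2 * (w : ℝ) * log (2 * ddU F w s) := mul_nonneg (by positivity) hlogd0
    linarith
  have h2 : 1250 * (log (4 * s ^ 2) + 2 * w * log (2 * ddU F w s)) ≤ (N : ℝ) ^ 3 := by
    rw [log_mul (by norm_num) (by positivity), log_pow]
    have h3 : log 4 ≤ 2 := by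
      rw [show (4 : ℝ) = 2 ^ 2 by norm_num, log_pow]
      push_cast
      linarith
    have h4 : 2 * (w : ℝ) * log (2 * ddU F w s) ≤ 2 * w * (1 + 3 * F * N) :=
      mul_le_mul_of_nonneg_left hlogd (by positivity)
    have h5 : (w : ℝ) ≤ N := by
      have h1 : (w : ℝ) * 1 ≤ w * F := mul_le_mul_of_nonneg_left (by linarith) (by positivity)
      linarith
    have h6 : 100 * ((F : ℝ) * w) * N ≤ N * N := mul_le_mul_of_nonneg_right hwF hNpos.le
    have h7 : 200 * (N : ℝ) ≤ N * N := mul_le_mul_of_nonneg_right hN0 hNpos.le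
    have h8 : 200 * ((N : ℝ) * N) ≤ N * (N * N) :=
      mul_le_mul_of_nonneg_right hN0 (by positivity)
    have h9 : (N : ℝ) ^ 3 = N * (N * N) := by ring
    rw [h9]
    push_cast
    nlinarith
  have h3 := pow_le_pow_left₀ h20 h2 (F - 2)
  have h4 : 1250 * log (2 * ddU F w s * (s + 1)) *
      (1250 * (log (4 * s ^ 2) + 2 * w * log (2 * ddU F w s))) ^ (F - 2) ≤
      (N : ℝ) ^ 3 * ((N : ℝ) ^ 3) ^ (F - 2) :=
    mul_le_mul h1 h3 (pow_nonneg h20 _) (by positivity)
  refine lt_of_le_of_lt h4 ?_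
  rw [hd]
  push_cast
  rw [← pow_mul, ← pow_add]
  exact pow_lt_pow_right₀ (by linarith) (by omega)

end Pool.QPIT
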