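import Pool.Agent.QPIT.HitW

/-!
# QPIT: the generator (variable reduction), all degrees
-/

set_option autoImplicit false

namespace Pool.QPIT

open Finset Pool.XD Pool.Agent.Helper41.CD

/-- a nonzero polynomial whose values at the generator vanish gives a multiple of `y - IMM` -/
theorem gen_ofW {K : Type} [Field K] [CharZero K] {w0 k d n κ p T S S' : ℕ} [NeZero p]
    (hw0 : 1 ≤ w0) (hp : p.Prime) (hpm : d * ((d - 1) * (8 * d) + 1) ^ 2 ≤ p) (hκ : 1 ≤ κ)
    (hn : n ≤ p ^ κ) (hS1 : 1 ≤ S) (hS : S ≤ S') (hS' : n * 2 ^ κ + 1 ≤ S') (hκS : κ + 1 ≤ S')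
    (F : MvPolynomial (Fin n) K) (hF : F ≠ 0)
    (f : Fin T → Fin S → MvPolynomial (Fin n) K) (hf : ∀ i j, f i j ∈ Cls w0 w0 S k)
    (hfF : ∑ i, ∏ j, f i j = F)
    (hhard : ∀ (P : MvPolynomial (Option (Vr d ((d - 1) * (8 * d)))) K), P ≠ 0 →
      subY (immP d (Fin ((d - 1) * (8 * d) + 1)) 0 K) P = 0 →
      ∀ g : Fin T → Fin S' → MvPolynomial (Option (Vr d ((d - 1) * (8 * d)))) K,
      (∀ i j, g i j ∈ Cls w0 w0 S' (k + 1)) → P = ∑ i, ∏ j, g i j → False) :
    MvPolynomial.aeval (fun i : Fin n => MvPolynomial.rename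
      (fun v : Vr d ((d - 1) * (8 * d)) => (v, dig p κ i (num v)))
        (imm d ((d - 1) * (8 * d)) K)) F ≠ 0 := by
  classical
  obtain ⟨w, hw⟩ : ∃ w, w = (d - 1) * (8 * d) := ⟨_, rfl⟩
  rw [← hw] at hhard hpm ⊢
  set pl : Fin n → Vr d w → Vr d w × Fin p := fun i v => (v, dig p κ i (num v)) with hpl
  have hag : ∀ i j : Fin n, i ≠ j → {v | pl i v = pl j v}.ncard < κ := by
    intro i j hij
    have h1 := digv_agree (κ := κ) hp (i.2.trans_le hn) (j.2.trans_le hn)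
      (fun h => hij (Fin.ext h))
    refine lt_of_le_of_lt ?_ h1
    rw [← Set.ncard_coe_finset]
    refine Set.ncard_le_ncard_of_injOn (fun v => num v) (fun v hv => ?_) 
      ((num_injective d w).injOn) (Finset.finite_toSet _)
    rw [mem_coe, mem_filter, mem_range]
    refine ⟨(num_lt v).trans_le hpm, ?_⟩
    have h2 : pl i v = pl j v := hv
    rw [hpl] at h2
    have h3 : dig p κ i (num v) = dig p κ j (num v) := (Prod.mk.inj h2).2
    rw [← dig_val, ← dig_val, h3]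
  intro h0
  obtain ⟨φ, hφ, h1, h2⟩ := hybrid hκ (imm d w K) (degreeOf_imm d w K) pl
    (fun i j v v' h => (Prod.mk.inj h).1) hag F hF h0
  have hcls : ∀ i j, MvPolynomial.aeval φ (f i j) ∈ Cls (R := K) w0 w0 S' (k + 1) := fun i j =>
    cls_spsW hw0 hS' hκS (by omega) hS hS1 φ hφ (hf i j)
  have h3 : ∀ i, ∃ g : Fin S' → MvPolynomial (Option (Vr d w)) K,
      (∀ j, g j ∈ Cls (R := K) w0 w0 S' (k + 1)) ∧ ∏ j, g j = ∏ j, MvPolynomial.aeval φ (f i j) :=
    fun i => exists_prod (S := S') (ι := Fin S) (by rw [Fintype.card_fin]; exact hS)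
      (A := (Cls w0 w0 S' (k + 1) : Set (MvPolynomial (Option (Vr d w)) K)))
      (one_mem' w0 w0 S' (k + 1)) _ (hcls i)
  choose g hg hgf using h3
  refine hhard _ h1 h2 g hg ?_
  rw [← hfF, map_sum]
  refine sum_congr rfl fun i _ => ?_
  rw [hgf i, map_prod]
/-- **THE GENERATOR** for sums of products of members of the classes, all degrees -/
theorem gen_sum {k w s n T S : ℕ} (hw : 1 ≤ w) (hs : 2 ≤ s) (hn : n ≤ s) (hT1 : 1 ≤ T)
    (hT : T ≤ s + 1) (hS1 : 1 ≤ S) (hS : S ≤ 4 * s ^ 2) (K : Type) [Field K] [CharZero K]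
    (F : MvPolynomial (Fin n) K) (hF : F ≠ 0)
    (f : Fin T → Fin S → MvPolynomial (Fin n) K) (hf : ∀ i j, f i j ∈ Cls w w S k)
    (hfF : ∑ i, ∏ j, f i j = F) :
    MvPolynomial.aeval (fun i : Fin n => MvPolynomial.rename
      (fun v : Vr (ddU (Nat.fib (2 * (k + 1) + 4)) w s)
        ((ddU (Nat.fib (2 * (k + 1) + 4)) w s - 1) * (8 * ddU (Nat.fib (2 * (k + 1) + 4)) w s)) =>
        (v, dig (lprime (ddU (Nat.fib (2 * (k + 1) + 4)) w s *
          ((ddU (Nat.fib (2 * (k + 1) + 4)) w s - 1) *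
            (8 * ddU (Nat.fib (2 * (k + 1) + 4)) w s) + 1) ^ 2)) (Nat.log 2 n + 1) i (num v)))
        (imm (ddU (Nat.fib (2 * (k + 1) + 4)) w s) ((ddU (Nat.fib (2 * (k + 1) + 4)) w s - 1) *
          (8 * ddU (Nat.fib (2 * (k + 1) + 4)) w s)) K)) F ≠ 0 := by
  have hfib : 3 ≤ Nat.fib (2 * (k + 1) + 4) := by
    have : Nat.fib 4 ≤ Nat.fib (2 * (k + 1) + 4) := Nat.fib_mono (by omega)
    exact this
  have hd2 : 2 ≤ ddU (Nat.fib (2 * (k + 1) + 4)) w s := two_le_ddU (by omega) hw s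
  have hcs := ddU_spec (F := Nat.fib (2 * (k + 1) + 4)) (w := w) (s := s) (by omega) hw hs
  obtain ⟨d, hd⟩ : ∃ d, d = ddU (Nat.fib (2 * (k + 1) + 4)) w s := ⟨_, rfl⟩
  rw [← hd] at hd2 hcs ⊢
  have hpp : (lprime (d * ((d - 1) * (8 * d) + 1) ^ 2)).Prime := lprime_prime _
  have hκ2 : 2 ^ (Nat.log 2 n + 1) ≤ 2 * s := by
    rw [pow_succ]
    rcases Nat.eq_zero_or_pos n with rfl | hn0
    · rw [Nat.log_zero_right, pow_zero]
      omega
    · have := Nat.pow_log_le_self 2 (x := n) (by omega)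
      omega
  have hnκ : n ≤ lprime (d * ((d - 1) * (8 * d) + 1) ^ 2) ^ (Nat.log 2 n + 1) := by
    calc n ≤ 2 ^ (Nat.log 2 n + 1) := (Nat.lt_pow_succ_log_self (by norm_num) n).le
      _ ≤ _ := Nat.pow_le_pow_left hpp.two_le _
  have hS4 : 4 * s ≤ 4 * s ^ 2 := by nlinarith
  exact gen_ofW (K := K) (w0 := w) (k := k) (n := n) (κ := Nat.log 2 n + 1) (T := T)
    (S := S) (S' := 4 * s ^ 2) hw hpp (le_lprime _) (by omega) hnκ
    hS1 hS (by nlinarith [Nat.mul_le_mul hn hκ2]) (by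
      have h2 : Nat.log 2 n + 1 < 2 ^ (Nat.log 2 n + 1) := Nat.lt_two_pow_self
      omega) F hF f hf hfF (fun Q hQ hQ0 h hh hQh => by
      have hd0 : (0 : ℝ) < d := by
        have : 0 < d := by omega
        exact_mod_cast this
      have hlt : 1250 * Real.log (2 * d * T) * (1250 * (Real.log ((4 * s ^ 2 : ℕ) : ℝ) +
          ((w : ℕ) + (w : ℕ)) * Real.log (2 * d))) ^ (Nat.fib (2 * (k + 1) + 4) - 2) < d := by
        refine lt_of_le_of_lt ?_ hcs
        have hT' : (T : ℝ) ≤ s + 1 := by exact_mod_cast hT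
        have hT0 : (0 : ℝ) < T := by
          have : 0 < T := by omega
          exact_mod_cast this
        have e1 : 1250 * Real.log (2 * d * T) ≤ 1250 * Real.log (2 * d * ((s : ℝ) + 1)) := by
          refine mul_le_mul_of_nonneg_left (Real.log_le_log (by positivity) ?_) (by norm_num)
          exact mul_le_mul_of_nonneg_left hT' (by positivity)
        have e2 : Real.log ((4 * s ^ 2 : ℕ) : ℝ) + (((w : ℕ) : ℝ) + ((w : ℕ) : ℝ)) *
            Real.log (2 * d) = Real.log (4 * (s : ℝ) ^ 2) + 2 * w * Real.log (2 * d) := by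
          push_cast
          ring
        rw [e2]
        have e3 : 0 ≤ 1250 * (Real.log (4 * (s : ℝ) ^ 2) + 2 * w * Real.log (2 * d)) := by
          have hs2 : (2 : ℝ) ≤ s := by exact_mod_cast hs
          have hd2' : (2 : ℝ) ≤ d := by exact_mod_cast hd2
          have e4 : 0 ≤ Real.log (4 * (s : ℝ) ^ 2) := Real.log_nonneg (by nlinarith)
          have e5 : 0 ≤ 2 * (w : ℝ) * Real.log (2 * (d : ℝ)) :=
            mul_nonneg (by positivity) (Real.log_nonneg (by linarith))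
          linarith
        exact mul_le_mul_of_nonneg_right e1 (pow_nonneg e3 _)
      obtain ⟨y, X, Y, hy, hy1, hX0, hY0, hX, hY, hnum', hlt'⟩ := single_numbers_u (k + 1) d T
        (4 * s ^ 2) w w hd2 hT1 (by nlinarith) hw hw hlt
      obtain ⟨V1, hV1, hg⟩ := gauge K d (wdc d (8 * d)) (Fin ((d - 1) * (8 * d) + 1)) 0 hd2
        (wdc_zero _ _) (by have := wdc_mul 1 d (8 * d); rwa [one_mul] at this)
        (exists_place d hd2)
      obtain ⟨r, E, h1, h2, h3⟩ := mult_core_gen hd2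
        (immP d (Fin ((d - 1) * (8 * d) + 1)) 0 K) V1 hV1
        hg Q hQ hQ0 h hh hQh hy hy1 hX hY hX0 hY0 hnum'
      exact absurd h3 (not_le.2 (hlt' r E h1 h2)))

end Pool.QPIT
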