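import Pool.Agent.QPIT.Gen


/-!
# QPIT: the polynomials of the generator
-/

set_option autoImplicit false

namespace Pool.QPIT

open Finset MvPolynomial

/-- the entry `(0, 0)` of the product of the matrices with the variables `(v, dig p κ i (num v))` -/
noncomputable def genP (d w p κ n : ℕ) [NeZero p] (K : Type) [Field K] (i : Fin n) :
    MvPolynomial (Vr d w × Fin p) K :=
  (List.ofFn fun j : Fin d => (Matrix.of fun a b => X ((j, a, b), dig p κ i (num (j, a, b))) :
    Matrix (Fin (w + 1)) (Fin (w + 1)) (MvPolynomial (Vr d w × Fin p) K))).prod 0 0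

theorem genP_eq (d w p κ n : ℕ) [NeZero p] (K : Type) [Field K] (i : Fin n) :
    rename (fun v : Vr d w => (v, dig p κ i (num v))) (imm d w K) = genP d w p κ n K i := by
  unfold imm immv genP
  have h1 := immV_map ((rename (fun v : Vr d w => (v, dig p κ i (num v))) :
    MvPolynomial (Vr d w) K →ₐ[K] MvPolynomial (Vr d w × Fin p) K) :
      MvPolynomial (Vr d w) K →+* MvPolynomial (Vr d w × Fin p) K)
    (fun i : Fin d => (Matrix.of fun a b => X (i, a, b) :
      Matrix (Fin (w + 1)) (Fin (w + 1)) (MvPolynomial (Vr d w) K))) 0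
  refine h1.trans ?_
  unfold immV
  have h2 : (fun j : Fin d => (Matrix.of fun a b => (X (j, a, b) : MvPolynomial (Vr d w) K)).map
      ((rename (fun v : Vr d w => (v, dig p κ i (num v))) :
        MvPolynomial (Vr d w) K →ₐ[K] MvPolynomial (Vr d w × Fin p) K) :
        MvPolynomial (Vr d w) K →+* MvPolynomial (Vr d w × Fin p) K)) =
      fun j : Fin d => (Matrix.of fun a b => X ((j, a, b), dig p κ i (num (j, a, b))) :
        Matrix (Fin (w + 1)) (Fin (w + 1)) (MvPolynomial (Vr d w × Fin p) K)) := by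
    funext j
    ext1 a b
    rw [Matrix.map_apply, Matrix.of_apply, Matrix.of_apply]
    exact rename_X _ _
  rw [h2]

/-- **THE GENERATOR** for sums of products of members of the classes, all degrees -/
theorem genP_sum {k w s n T S : ℕ} (hw : 1 ≤ w) (hs : 2 ≤ s) (hn : n ≤ s) (hT1 : 1 ≤ T)
    (hT : T ≤ s + 1) (hS1 : 1 ≤ S) (hS : S ≤ 4 * s ^ 2) (K : Type) [Field K] [CharZero K]
    (F : MvPolynomial (Fin n) K) (hF : F ≠ 0)
    (f : Fin T → Fin S → MvPolynomial (Fin n) K)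
    (hf : ∀ i j, f i j ∈ Pool.Agent.Helper41.CD.Cls w w S k)
    (hfF : ∑ i, ∏ j, f i j = F) {d : ℕ} (hd : d = ddU (Nat.fib (2 * (k + 1) + 4)) w s) :
    aeval (genP d ((d - 1) * (8 * d)) (lprime (d * ((d - 1) * (8 * d) + 1) ^ 2))
      (Nat.log 2 n + 1) n K) F ≠ 0 := by
  have h1 := gen_sum hw hs hn hT1 hT hS1 hS K F hF f hf hfF
  rw [← hd] at h1
  have h2 : (fun i : Fin n => MvPolynomial.rename
      (fun v : Vr d ((d - 1) * (8 * d)) => (v, dig (lprime (d * ((d - 1) * (8 * d) + 1) ^ 2))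
        (Nat.log 2 n + 1) i (num v))) (imm d ((d - 1) * (8 * d)) K)) =
      genP d ((d - 1) * (8 * d)) (lprime (d * ((d - 1) * (8 * d) + 1) ^ 2))
      (Nat.log 2 n + 1) n K := by
    funext i
    exact genP_eq _ _ _ _ _ K i
  rwa [h2] at h1

/-- the number of the variables of the generator -/
theorem seeds_card {d : ℕ} (hd : 1 ≤ d) :
    Fintype.card (Vr d ((d - 1) * (8 * d)) × Fin (lprime (d * ((d - 1) * (8 * d) + 1) ^ 2))) ≤
      8192 * d ^ 10 := by
  rw [Fintype.card_prod, Fintype.card_prod, Fintype.card_prod, Fintype.card_fin, Fintype.card_fin,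
    Fintype.card_fin]
  obtain ⟨W, hW⟩ : ∃ W, W = (d - 1) * (8 * d) + 1 := ⟨_, rfl⟩
  have hW1 := width_le hd
  rw [← hW] at hW1 ⊢
  have hW0 : 1 ≤ W := by omega
  have h1 : lprime (d * W ^ 2) ≤ 2 * (d * W ^ 2) :=
    lprime_le (Nat.mul_pos (by omega) (Nat.pow_pos hW0))
  have h2 : d * W ^ 2 ≤ 64 * d ^ 5 := by
    calc d * W ^ 2 ≤ d * (8 * d ^ 2) ^ 2 := Nat.mul_le_mul_left _ (Nat.pow_le_pow_left hW1 2)
      _ = 64 * d ^ 5 := by ring
  calc d * (W * W) * lprime (d * W ^ 2) ≤ (d * W ^ 2) * (2 * (d * W ^ 2)) := by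
        rw [← pow_two]
        exact Nat.mul_le_mul_left _ h1
    _ = 2 * (d * W ^ 2) ^ 2 := by ring
    _ ≤ 2 * (64 * d ^ 5) ^ 2 := Nat.mul_le_mul_left _ (Nat.pow_le_pow_left h2 2)
    _ = 8192 * d ^ 10 := by ring

end Pool.QPIT
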