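import Mathlib

/-!
# QPIT: a nonzero polynomial does not vanish on a grid
-/

set_option autoImplicit false

namespace Pool.QPIT

open Finset MvPolynomial

/-- a nonzero polynomial of degree at most `D` has a value different from zero at a point with
coordinates in `0, ..., D` -/
theorem exists_grid {σ K : Type} [Fintype σ] [Field K] [CharZero K] {D : ℕ}
    {f : MvPolynomial σ K} (hf : f ≠ 0) (hD : f.totalDegree ≤ D) :
    ∃ x : σ → Fin (D + 1), eval (fun i => ((x i).val : K)) f ≠ 0 := by
  classical
  by_contra hcon
  push Not at hcon
  apply hf
  refine MvPolynomial.eq_zero_of_eval_zero_at_prod_finset f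
    (fun _ => (univ : Finset (Fin (D + 1))).image fun a => (a.val : K)) (fun i => ?_) fun x hx => ?_
  · rw [card_image_of_injective _ fun a b h => Fin.ext (Nat.cast_injective h), card_univ,
      Fintype.card_fin]
    exact Nat.lt_succ_of_le ((degreeOf_le_totalDegree f i).trans hD)
  · choose y _ hy using fun i => mem_image.1 (hx i)
    have h1 := hcon y
    have h2 : x = fun i => ((y i).val : K) := funext fun i => (hy i).symm
    rw [h2]
    exact h1

end Pool.QPIT
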