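import Mathlib

/-!
# QPIT, row Q8a: a grid point where a polynomial does not vanish, and the least prime

-/

set_option autoImplicit false

namespace Pool.QPIT

open MvPolynomial

/-- a nonzero polynomial with all degrees at most `D` does not vanish on the grid `{0..D}` -/
theorem exists_grid_nat {V K : Type} [Finite V] [Field K] [CharZero K] (D : ℕ)
    {H : MvPolynomial V K} (hH : H ≠ 0) (hD : ∀ v, H.degreeOf v ≤ D) :
    ∃ z : V → ℕ, (∀ v, z v ≤ D) ∧ MvPolynomial.eval (fun v => (z v : K)) H ≠ 0 := by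
  classical
  by_contra hcon
  push Not at hcon
  apply hH
  refine eq_zero_of_eval_zero_at_prod_finset H
    (fun _ => (Finset.range (D + 1)).map ⟨fun a : ℕ => (a : K), Nat.cast_injective⟩) ?_ ?_
  · intro v
    rw [Finset.card_map, Finset.card_range]
    exact Nat.lt_succ_of_le (hD v)
  · intro x hx
    have hx' : ∀ v, ∃ a : ℕ, a ≤ D ∧ (a : K) = x v := by
      intro v
      have h1 := hx v
      rw [Finset.mem_map] at h1
      obtain ⟨a, h2, h3⟩ := h1
      exact ⟨a, Nat.le_of_lt_succ (Finset.mem_range.1 h2), h3⟩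
    choose z hz1 hz2 using hx'
    have h2 := hcon z hz1
    have h3 : (fun v => (z v : K)) = x := funext hz2
    rwa [h3] at h2

/-- the least prime number at least `m` -/
noncomputable def prm (m : ℕ) : ℕ := Nat.find (Nat.exists_infinite_primes m)

theorem le_prm (m : ℕ) : m ≤ prm m := (Nat.find_spec (Nat.exists_infinite_primes m)).1

theorem prime_prm (m : ℕ) : (prm m).Prime := (Nat.find_spec (Nat.exists_infinite_primes m)).2

theorem prm_min {m p : ℕ} (hp : p.Prime) (hm : m ≤ p) : prm m ≤ p :=
  Nat.find_min' (Nat.exists_infinite_primes m) ⟨hm, hp⟩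

/-- Bertrand -/
theorem prm_le {m : ℕ} (hm : 1 ≤ m) : prm m ≤ 2 * m := by
  obtain ⟨p, h1, h2, h3⟩ := Nat.exists_prime_lt_and_le_two_mul m (by omega)
  exact (prm_min h1 h2.le).trans h3

/-- the number `κ` of digits: `2 ^ κ ≤ 2 n` -/
theorem two_pow_clog {p n : ℕ} (hp : 2 ≤ p) (hn : 1 ≤ n) : 2 ^ Nat.clog p n ≤ 2 * n := by
  rcases Nat.eq_zero_or_pos (Nat.clog p n) with h | h
  · rw [h]; omega
  · have h1 : p ^ (Nat.clog p n - 1) < n := by
      by_contra hcon
      have h2 := (Nat.clog_le_iff_le_pow (by omega)).2 (not_lt.1 hcon)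
      omega
    have h2 : 2 ^ (Nat.clog p n - 1) ≤ p ^ (Nat.clog p n - 1) := Nat.pow_le_pow_left hp _
    have h3 : 2 ^ Nat.clog p n = 2 * 2 ^ (Nat.clog p n - 1) := by
      rw [← pow_succ']; congr 1; omega
    omega

theorem le_pow_clog {p : ℕ} (hp : 2 ≤ p) (n : ℕ) : n ≤ p ^ Nat.clog p n :=
  Nat.le_pow_clog (by omega) n

/-- with at least one digit -/
theorem two_pow_clog_succ {p n : ℕ} (hp : 2 ≤ p) (hn : 1 ≤ n) :
    2 ^ (Nat.clog p n + 1) ≤ 4 * n := by
  have := two_pow_clog hp hn
  rw [pow_succ]
  omega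

/-- degrees of a composition: if every `G i` has degree at most `e` in the variable `v`, then the
degree of `F (G)` in `v` is at most `e` times the total degree of `F` -/
theorem degreeOf_aeval_le {V K : Type} [Field K] {ι : Type} {e : ℕ} (G : ι → MvPolynomial V K)
    (v : V) (hG : ∀ i, (G i).degreeOf v ≤ e) (F : MvPolynomial ι K) :
    (aeval G F : MvPolynomial V K).degreeOf v ≤ e * F.totalDegree := by
  classical
  rw [aeval_def, eval₂_eq]
  refine (degreeOf_sum_le v F.support _).trans (Finset.sup_le fun m hm => ?_)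
  refine (degreeOf_mul_le v _ _).trans ?_
  have h1 : (algebraMap K (MvPolynomial V K) (coeff m F)).degreeOf v = 0 := degreeOf_C _ v
  rw [h1, zero_add]
  refine (degreeOf_prod_le v m.support _).trans ?_
  refine (Finset.sum_le_sum fun i _ => (degreeOf_pow_le v (G i) (m i)).trans
    (Nat.mul_le_mul_left (m i) (hG i))).trans ?_
  rw [← Finset.sum_mul, mul_comm]
  exact Nat.mul_le_mul_left e (le_totalDegree hm)

/-- the degrees do not grow under an injective renaming -/
theorem degreeOf_rename_le {V Z K : Type} [Field K] {e : V → Z} (he : Function.Injective e)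
    {f : MvPolynomial V K} {D : ℕ} (hf : ∀ v, f.degreeOf v ≤ D) (z : Z) :
    (rename e f).degreeOf z ≤ D := by
  classical
  by_cases h : ∃ v, e v = z
  · obtain ⟨v, rfl⟩ := h
    rw [degreeOf_rename_of_injective he]
    exact hf v
  · have h1 : z ∉ (rename e f).vars := by
      intro h2
      have h3 := vars_rename e f h2
      obtain ⟨v, _, hv⟩ := Finset.mem_image.1 h3
      exact h ⟨v, hv⟩
    have h2 : (rename e f).degreeOf z = 0 := by
      by_contra h3
      apply h1
      rw [degreeOf_def] at h3
      have h4 : z ∈ (rename e f).degrees := Multiset.count_ne_zero.1 h3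
      obtain ⟨d, h5, h6⟩ := mem_degrees.1 h4
      rw [mem_vars_iff_mem_support]
      exact ⟨d, mem_support_iff.2 h5, h6⟩
    rw [h2]
    exact Nat.zero_le D

/-- **grid points for the generator**: `F (G) ≠ 0` at a point of `{0..D}` if all coordinates of `G`
are copies of the same multilinear polynomial and the total degree of `F` is at most `D` -/
theorem exists_grid_gen {V Z K : Type} [Finite Z] [Field K] [CharZero K] {n D : ℕ}
    (f : MvPolynomial V K) (hf : ∀ v, f.degreeOf v ≤ 1) (pl : Fin n → V → Z)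
    (hpl : ∀ i, Function.Injective (pl i)) (F : MvPolynomial (Fin n) K) (hD : F.totalDegree ≤ D)
    (hF : (aeval (fun i => rename (pl i) f) F : MvPolynomial Z K) ≠ 0) :
    ∃ z : Z → ℕ, (∀ v, z v ≤ D) ∧
      eval (fun i => eval (fun v => (z (pl i v) : K)) f) F ≠ 0 := by
  obtain ⟨z, h1, h2⟩ := exists_grid_nat D hF fun v => by
    have h3 := degreeOf_aeval_le (e := 1) (fun i => rename (pl i) f) v
      (fun i => degreeOf_rename_le (hpl i) hf v) F
    omega
  refine ⟨z, h1, ?_⟩
  intro h3
  apply h2
  rw [← h3]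
  have h4 : ((MvPolynomial.aeval (fun v => (z v : K)) : MvPolynomial Z K →ₐ[K] K).comp
      (aeval fun i => rename (pl i) f)) =
      aeval fun i => eval (fun v => (z (pl i v) : K)) f := by
    apply MvPolynomial.algHom_ext
    intro i
    rw [AlgHom.comp_apply, aeval_X, aeval_X, aeval_rename]
    rfl
  exact DFunLike.congr_fun h4 F

end Pool.QPIT
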