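import Pool.Agent.QPIT.Mult
import Pool.Agent.QPIT.Hybrid
import Pool.Agent.QPIT.Class
import Pool.Agent.QPIT.Design
import Pool.Agent.QPIT.FinNum
import Pool.Agent.XD.Circ
import Mathlib.Combinatorics.Nullstellensatz
import Mathlib.NumberTheory.Bertrand

/-!
# QPIT: the hitting set
-/

set_option autoImplicit false

namespace Pool.QPIT

open Finset Pool.XD Pool.Agent.Helper41.CD

/-- the least prime number which is at least `m` -/
def lprime (m : ℕ) : ℕ := Nat.find (Nat.exists_infinite_primes m)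

theorem lprime_prime (m : ℕ) : (lprime m).Prime := (Nat.find_spec (Nat.exists_infinite_primes m)).2

theorem le_lprime (m : ℕ) : m ≤ lprime m := (Nat.find_spec (Nat.exists_infinite_primes m)).1

theorem lprime_le {m : ℕ} (hm : 1 ≤ m) : lprime m ≤ 2 * m := by
  obtain ⟨p, hp, h1, h2⟩ := Nat.exists_prime_lt_and_le_two_mul m (by omega)
  exact (Nat.find_min' (Nat.exists_infinite_primes m) ⟨h1.le, hp⟩).trans h2

instance lprime_neZero (m : ℕ) : NeZero (lprime m) := ⟨(lprime_prime m).ne_zero⟩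

/-- the value at `a` of the polynomial over the field with `p` elements whose coefficients are the
first `κ` digits of `i` in base `p` -/
def dig (p κ i a : ℕ) [NeZero p] : Fin p := Fin.ofNat p (∑ t ∈ range κ, (i / p ^ t % p) * a ^ t)

theorem dig_val (p κ i a : ℕ) [NeZero p] : (dig p κ i a).val = digv p κ i a := rfl

/-- the point of the hitting set which belongs to the numbers `z`: its coordinate `i` is the entry
`(0, 0)` of the product of `d` matrices of size `w + 1`, whose entries are the numbers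
`z (v, dig p κ i (num v))` -/
def pt (d w p κ n : ℕ) [NeZero p] (z : Vr d w × Fin p → ℕ) : Fin n → ℕ := fun i =>
  (List.ofFn fun j : Fin d => (Matrix.of fun a b => z ((j, a, b), dig p κ i (num (j, a, b))) :
    Matrix (Fin (w + 1)) (Fin (w + 1)) ℕ)).prod 0 0

section grid

variable {Z K : Type} [Fintype Z] [Field K] [CharZero K]

/-- a nonzero polynomial does not vanish on the grid -/
theorem exists_grid (H : MvPolynomial Z K) (hH : H ≠ 0) (D : ℕ) (hD : ∀ z, H.degreeOf z ≤ D) :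
    ∃ x : Z → ℕ, (∀ z, x z ≤ D) ∧ MvPolynomial.eval (fun z => (x z : K)) H ≠ 0 := by
  classical
  by_contra hcon
  push Not at hcon
  apply hH
  refine MvPolynomial.eq_zero_of_eval_zero_at_prod_finset H
    (fun _ => (range (D + 1)).image (Nat.cast : ℕ → K)) (fun z => ?_) fun x hx => ?_
  · rw [card_image_of_injective _ Nat.cast_injective, card_range]
    exact Nat.lt_succ_of_le (hD z)
  · have h1 : ∀ z, ∃ a : ℕ, a ≤ D ∧ (a : K) = x z := by
      intro z
      obtain ⟨a, ha, hax⟩ := mem_image.1 (hx z)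
      exact ⟨a, Nat.lt_succ_iff.1 (mem_range.1 ha), hax⟩
    choose y hy hyx using h1
    have h2 : x = fun z => (y z : K) := by
      funext z
      exact (hyx z).symm
    rw [h2]
    exact hcon y hy

omit [Fintype Z] [CharZero K] in
/-- substitution of polynomials of degree at most one in every variable -/
theorem degreeOf_aeval_le {n : ℕ} (G : Fin n → MvPolynomial Z K) (z : Z)
    (hG : ∀ i, (G i).degreeOf z ≤ 1) (F : MvPolynomial (Fin n) K) :
    (MvPolynomial.aeval G F).degreeOf z ≤ F.totalDegree := by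
  classical
  rw [MvPolynomial.aeval_def, MvPolynomial.eval₂_eq]
  refine (MvPolynomial.degreeOf_sum_le _ _ _).trans (Finset.sup_le fun m hm => ?_)
  rw [MvPolynomial.algebraMap_eq]
  refine (MvPolynomial.degreeOf_C_mul_le _ _ _).trans ?_
  refine (MvPolynomial.degreeOf_prod_le _ _ _).trans ?_
  calc ∑ i ∈ m.support, (G i ^ m i).degreeOf z ≤ ∑ i ∈ m.support, m i := by
        refine sum_le_sum fun i _ => (MvPolynomial.degreeOf_pow_le _ _ _).trans ?_
        calc m i * (G i).degreeOf z ≤ m i * 1 := Nat.mul_le_mul_left _ (hG i)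
          _ = m i := mul_one _
    _ ≤ F.totalDegree := MvPolynomial.le_totalDegree hm

end grid

/-! ### the iterated product -/

theorem immP_eq_imm (d w : ℕ) (K : Type) [Field K] : immP d (Fin (w + 1)) 0 K = imm d w K := rfl

theorem degreeOf_rename_le {A Z K : Type} [Field K] (e : A → Z) (he : Function.Injective e)
    (f : MvPolynomial A K) (D : ℕ) (hf : ∀ a, f.degreeOf a ≤ D) (z : Z) :
    (MvPolynomial.rename e f).degreeOf z ≤ D := by
  classical
  by_cases h : ∃ a, e a = z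
  · obtain ⟨a, rfl⟩ := h
    rw [MvPolynomial.degreeOf_rename_of_injective he]
    exact hf a
  · rw [MvPolynomial.degreeOf_le_iff]
    intro m hm
    rw [MvPolynomial.support_rename_of_injective he, mem_image] at hm
    obtain ⟨m', _, rfl⟩ := hm
    rw [Finsupp.mapDomain_of_notMem_range m' z (fun ⟨a, ha⟩ => h ⟨a, ha⟩)]
    exact Nat.zero_le _

theorem prod_map {W R S : Type} [Fintype W] [DecidableEq W] [Semiring R] [Semiring S] (f : R →+* S)
    {d : ℕ} (A : Fin d → Matrix W W R) (o : W) :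
    f ((List.ofFn A).prod o o) = (List.ofFn fun i => (A i).map f).prod o o := by
  have h1 : f.mapMatrix (List.ofFn A).prod = (List.ofFn fun i => (A i).map f).prod := by
    rw [map_list_prod, List.map_ofFn]
    rfl
  rw [← h1]
  rfl

theorem eval_rename_immP (d w p κ n : ℕ) [NeZero p] (K : Type) [Field K]
    (z : Vr d w × Fin p → ℕ) (i : Fin n) :
    MvPolynomial.eval (fun v => (z v : K)) (MvPolynomial.rename
      (fun v : Vr d w => (v, dig p κ i (num v))) (immP d (Fin (w + 1)) 0 K)) =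
    (pt d w p κ n z i : K) := by
  rw [MvPolynomial.eval_rename, eval_immP]
  unfold pt immV
  have h1 := prod_map (Nat.castRingHom K) (fun j : Fin d => (Matrix.of fun a b =>
    z ((j, a, b), dig p κ i (num (j, a, b))) : Matrix (Fin (w + 1)) (Fin (w + 1)) ℕ)) 0
  rw [Nat.coe_castRingHom] at h1
  rw [h1]
  rfl

/-- a nonzero polynomial whose values at the generator vanish gives a multiple of `y - IMM` -/
theorem nonzero_of {K : Type} [Field K] [CharZero K] {k d n κ p T S S' D : ℕ} [NeZero p]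
    (hp : p.Prime) (hpm : d * ((d - 1) * (8 * d) + 1) ^ 2 ≤ p) (hκ : 1 ≤ κ)
    (hn : n ≤ p ^ κ) (hS1 : 1 ≤ S) (hS : S ≤ S') (hS' : n * 2 ^ κ + 1 ≤ S') (hκS : κ + 1 ≤ S')
    (F : MvPolynomial (Fin n) K) (hF : F ≠ 0) (hFD : F.totalDegree ≤ D)
    (f : Fin T → Fin S → MvPolynomial (Fin n) K) (hf : ∀ i j, f i j ∈ Cls 1 1 S k)
    (hfF : ∑ i, ∏ j, f i j = F)
    (hhard : ∀ (P : MvPolynomial (Option (Vr d ((d - 1) * (8 * d)))) K), P ≠ 0 →
      subY (immP d (Fin ((d - 1) * (8 * d) + 1)) 0 K) P = 0 →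
      ∀ g : Fin T → Fin S' → MvPolynomial (Option (Vr d ((d - 1) * (8 * d)))) K,
      (∀ i j, g i j ∈ Cls 1 1 S' (k + 1)) → P = ∑ i, ∏ j, g i j → False) :
    ∃ z : Vr d ((d - 1) * (8 * d)) × Fin p → ℕ, (∀ v, z v ≤ D) ∧
      MvPolynomial.eval (fun i => (pt d ((d - 1) * (8 * d)) p κ n z i : K)) F ≠ 0 := by
  classical
  obtain ⟨w, hw⟩ : ∃ w, w = (d - 1) * (8 * d) := ⟨_, rfl⟩
  rw [← hw] at hhard hpm ⊢
  set pl : Fin n → Vr d w → Vr d w × Fin p := fun i v => (v, dig p κ i (num v)) with hpl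
  have hag : ∀ i j : Fin n, i ≠ j → {v | pl i v = pl j v}.ncard < κ := by
    intro i j hij
    have h1 := digv_agree (κ := κ) hp (i.2.trans_le hn) (j.2.trans_le hn)
      (fun h => hij (Fin.ext h))
    refine lt_of_le_of_lt ?_ h1
    rw [← Set.ncard_coe_finset]
    refine Set.ncard_le_ncard_of_injOn (fun v => num v) (fun v hv => ?_) 
      ((num_injective d w).injOn) (Finset.finite_toSet _)
    rw [mem_coe, mem_filter, mem_range]
    refine ⟨(num_lt v).trans_le hpm, ?_⟩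
    have h2 : pl i v = pl j v := hv
    rw [hpl] at h2
    have h3 : dig p κ i (num v) = dig p κ j (num v) := (Prod.mk.inj h2).2
    rw [← dig_val, ← dig_val, h3]
  have hG : MvPolynomial.aeval (fun i => MvPolynomial.rename (pl i) (imm d w K)) F ≠ 0 := by
    intro h0
    obtain ⟨φ, hφ, h1, h2⟩ := hybrid hκ (imm d w K) (degreeOf_imm d w K) pl
      (fun i j v v' h => (Prod.mk.inj h).1) hag F hF h0
    have hcls : ∀ i j, MvPolynomial.aeval φ (f i j) ∈ Cls (R := K) 1 1 S' (k + 1) := fun i j =>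
      cls_sps hS' hκS (by omega) hS hS1 φ hφ (hf i j)
    have h3 : ∀ i, ∃ g : Fin S' → MvPolynomial (Option (Vr d w)) K,
        (∀ j, g j ∈ Cls (R := K) 1 1 S' (k + 1)) ∧ ∏ j, g j = ∏ j, MvPolynomial.aeval φ (f i j) :=
      fun i => exists_prod (S := S') (ι := Fin S) (by rw [Fintype.card_fin]; exact hS)
        (A := (Cls 1 1 S' (k + 1) : Set (MvPolynomial (Option (Vr d w)) K)))
        (by
          have h4 := cls_const (σ := Option (Vr d w)) (S := S') (k + 1) (1 : K)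
          rwa [MvPolynomial.C_1] at h4) _ (hcls i)
    choose g hg hgf using h3
    refine hhard _ h1 h2 g hg ?_
    rw [← hfF, map_sum]
    refine sum_congr rfl fun i _ => ?_
    rw [hgf i, map_prod]
  have hdeg : ∀ v, ∀ i, (MvPolynomial.rename (pl i) (imm d w K)).degreeOf v ≤ 1 := fun v i =>
    degreeOf_rename_le (pl i) (fun a b h => (Prod.mk.inj h).1) _ 1 (degreeOf_imm d w K) v
  obtain ⟨z, hz, h1⟩ := exists_grid _ hG D (fun v => (degreeOf_aeval_le _ v (hdeg v) F).trans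
    hFD)
  · refine ⟨z, hz, ?_⟩
    have h2 : MvPolynomial.eval (fun v => (z v : K))
        (MvPolynomial.aeval (fun i => MvPolynomial.rename (pl i) (imm d w K)) F) =
        MvPolynomial.eval (fun i => (pt d w p κ n z i : K)) F := by
      rw [← MvPolynomial.coe_aeval_eq_eval, ← MvPolynomial.coe_aeval_eq_eval]
      show ((MvPolynomial.aeval fun v => (z v : K) : MvPolynomial _ K →ₐ[K] K).comp
        (MvPolynomial.aeval (fun i => MvPolynomial.rename (pl i) (imm d w K)))) F = _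
      rw [MvPolynomial.comp_aeval]
      show MvPolynomial.aeval _ F = MvPolynomial.aeval _ F
      congr 2
      funext i
      exact eval_rename_immP d w p κ n K z i
    rwa [h2] at h1

/-! ### the hitting set -/

/-- **the hitting set**: the points `pt` for all numbers `z` between `0` and `D` -/
def hitting (d n D : ℕ) : Finset (Fin n → ℕ) :=
  (Fintype.piFinset fun _ : Vr d ((d - 1) * (8 * d)) ×
      Fin (lprime (d * ((d - 1) * (8 * d) + 1) ^ 2)) => range (D + 1)).image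
    (pt d ((d - 1) * (8 * d)) (lprime (d * ((d - 1) * (8 * d) + 1) ^ 2)) (Nat.log 2 n + 1) n)

theorem width_le {d : ℕ} (hd : 1 ≤ d) : (d - 1) * (8 * d) + 1 ≤ 8 * d ^ 2 := by
  obtain ⟨e, rfl⟩ : ∃ e, d = e + 1 := ⟨d - 1, by omega⟩
  rw [Nat.add_sub_cancel]
  nlinarith

theorem hitting_card {d : ℕ} (hd : 1 ≤ d) (n D : ℕ) :
    (hitting d n D).card ≤ (D + 1) ^ (8192 * d ^ 10) := by
  unfold hitting
  refine card_image_le.trans ?_
  rw [Fintype.card_piFinset, prod_const, card_range, card_univ]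
  refine Nat.pow_le_pow_right (Nat.succ_pos D) ?_
  rw [Fintype.card_prod, Fintype.card_prod, Fintype.card_prod, Fintype.card_fin, Fintype.card_fin,
    Fintype.card_fin]
  obtain ⟨W, hW⟩ : ∃ W, W = (d - 1) * (8 * d) + 1 := ⟨_, rfl⟩
  have hW1 := width_le hd
  rw [← hW] at hW1 ⊢
  have hW0 : 1 ≤ W := by omega
  have h1 : lprime (d * W ^ 2) ≤ 2 * (d * W ^ 2) :=
    lprime_le (Nat.mul_pos (by omega) (Nat.pow_pos hW0))
  have h2 : d * W ^ 2 ≤ 64 * d ^ 5 := by
    calc d * W ^ 2 ≤ d * (8 * d ^ 2) ^ 2 := Nat.mul_le_mul_left _ (Nat.pow_le_pow_left hW1 2)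
      _ = 64 * d ^ 5 := by ring
  calc d * (W * W) * lprime (d * W ^ 2) ≤ (d * W ^ 2) * (2 * (d * W ^ 2)) := by
        rw [← pow_two]
        exact Nat.mul_le_mul_left _ h1
    _ = 2 * (d * W ^ 2) ^ 2 := by ring
    _ ≤ 2 * (64 * d ^ 5) ^ 2 := Nat.mul_le_mul_left _ (Nat.pow_le_pow_left h2 2)
    _ = 8192 * d ^ 10 := by ring

theorem prod_entry_le {W : Type} [Fintype W] [DecidableEq W] (D : ℕ) : ∀ (d : ℕ)
    (M : Fin d → Matrix W W ℕ), (∀ i a b, M i a b ≤ D) → ∀ a b,
    (List.ofFn M).prod a b ≤ (Fintype.card W * D) ^ d := by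
  intro d
  induction d with
  | zero =>
    intro M _ a b
    rw [List.ofFn_zero, List.prod_nil, Matrix.one_apply, pow_zero]
    split_ifs <;> omega
  | succ d ih =>
    intro M h a b
    rw [List.ofFn_succ, List.prod_cons, Matrix.mul_apply]
    calc ∑ c, M 0 a c * (List.ofFn fun i : Fin d => M i.succ).prod c b
        ≤ ∑ _c : W, D * (Fintype.card W * D) ^ d := sum_le_sum fun c _ =>
          Nat.mul_le_mul (h 0 a c) (ih _ (fun i => h i.succ) c b)
      _ = (Fintype.card W * D) ^ (d + 1) := by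
          rw [sum_const, card_univ, smul_eq_mul]
          ring

theorem hitting_le {d : ℕ} (hd : 1 ≤ d) {n D : ℕ} {x : Fin n → ℕ} (hx : x ∈ hitting d n D)
    (i : Fin n) : x i ≤ (D + 1) ^ (16 * d ^ 3) := by
  unfold hitting at hx
  rw [mem_image] at hx
  obtain ⟨z, hz, rfl⟩ := hx
  rw [Fintype.mem_piFinset] at hz
  have h1 : ∀ v, z v ≤ D := fun v => Nat.lt_succ_iff.1 (mem_range.1 (hz v))
  refine (prod_entry_le D d _ (fun j a b => ?_) _ _).trans ?_
  · rw [Matrix.of_apply]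
    exact h1 _
  rw [Fintype.card_fin]
  obtain ⟨W, hW⟩ : ∃ W, W = (d - 1) * (8 * d) + 1 := ⟨_, rfl⟩
  have hW1 := width_le hd
  rw [← hW] at hW1 ⊢
  have h2 : W * D ≤ (D + 1) ^ (W + 1) := by
    rcases Nat.eq_zero_or_pos D with rfl | hD
    · simp
    · calc W * D ≤ 2 ^ W * (D + 1) := Nat.mul_le_mul Nat.lt_two_pow_self.le (Nat.le_succ D)
        _ ≤ (D + 1) ^ W * (D + 1) := Nat.mul_le_mul_right _ (Nat.pow_le_pow_left (by omega) W)
        _ = (D + 1) ^ (W + 1) := (pow_succ _ _).symm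
  calc (W * D) ^ d ≤ ((D + 1) ^ (W + 1)) ^ d := Nat.pow_le_pow_left h2 d
    _ = (D + 1) ^ ((W + 1) * d) := (pow_mul _ _ _).symm
    _ ≤ (D + 1) ^ (16 * d ^ 3) := by
      refine Nat.pow_le_pow_right (Nat.succ_pos D) ?_
      have h3 : 1 ≤ d ^ 2 := Nat.pow_pos hd
      calc (W + 1) * d ≤ (16 * d ^ 2) * d := Nat.mul_le_mul_right _ (by omega)
        _ = 16 * d ^ 3 := by ring

/-- **hitting sets of quasi-polynomial size for circuits of constant depth**, from the numbers -/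
theorem hitting_of (k : ℕ) {Ex : ℕ} {C : ℝ} (hC : 0 < C) (hnum : ∀ d T S w w0 : ℕ, 2 ≤ d → 1 ≤ T → 2 ≤ S →
    1 ≤ w → 1 ≤ w0 → C * Real.log (2 * d * T) *
      (Real.log S + (w + w0) * Real.log (2 * d)) ^ Ex < d →
    ∃ (y : ℝ) (X Y : ℕ → ℝ), 0 < y ∧ y ≤ 1 ∧ X 0 = 1 ∧ Y 0 = 1 ∧ (∀ i, 0 < X i) ∧
      (∀ i, 0 < Y i) ∧ (∀ i ≤ 2 * (k + 1), NumD d (S * (d + 1) ^ (8 * (w0 + w) + 16)) (Real.exp 1)
        (Real.exp y) (X i) (Y i) (X (i + 1)) (Y (i + 1))) ∧
      ∀ r E : ℕ, r + E = d → -y ≤ r - y * E →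
        T * ((d + 1 : ℝ) ^ 16 * (X (2 * (k + 1) + 1) ^ r * Y (2 * (k + 1) + 1) ^ E)) *
          (6 * Real.exp 2) < Real.exp 1 ^ r) :
    ∃ c : ℕ, ∀ s n D : ℕ, 2 ≤ s → n ≤ s → ∀ (K : Type) [Field K] [CharZero K] (s' : ℕ),
      s' ≤ s → ∀ P : Fin s' → MvPolynomial (Fin n) K, IsCircuit (k + 1) P → ∀ g, P g ≠ 0 →
      (P g).totalDegree ≤ D → ∃ x ∈ hitting (dd c s) n D,
        MvPolynomial.eval (fun i => (x i : K)) (P g) ≠ 0 := by
  obtain ⟨c, hc2, hc⟩ := exists_c hC Ex
  refine ⟨c, fun s n D hs hn K _ _ s' hs' P hP g hPg hPD => ?_⟩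
  have hd2 : 2 ≤ dd c s := two_le_dd hc2
  have hcs := hc s hs
  obtain ⟨d, hd⟩ : ∃ d, d = dd c s := ⟨_, rfl⟩
  rw [← hd] at hd2 hcs ⊢
  obtain ⟨f, hf, hfP⟩ := circuit_sum (S := s' + n + 1) (by rw [Fintype.card_fin]) hP g
  obtain ⟨p, hpdef⟩ : ∃ p, p = lprime (d * ((d - 1) * (8 * d) + 1) ^ 2) := ⟨_, rfl⟩
  have hpp : (lprime (d * ((d - 1) * (8 * d) + 1) ^ 2)).Prime := lprime_prime _
  have hκ2 : 2 ^ (Nat.log 2 n + 1) ≤ 2 * s := by
    rw [pow_succ]
    rcases Nat.eq_zero_or_pos n with rfl | hn0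
    · rw [Nat.log_zero_right, pow_zero]
      omega
    · have := Nat.pow_log_le_self 2 (x := n) (by omega)
      omega
  have hnκ : n ≤ lprime (d * ((d - 1) * (8 * d) + 1) ^ 2) ^ (Nat.log 2 n + 1) := by
    calc n ≤ 2 ^ (Nat.log 2 n + 1) := (Nat.lt_pow_succ_log_self (by norm_num) n).le
      _ ≤ _ := Nat.pow_le_pow_left hpp.two_le _
  have hS4 : 4 * s ≤ 4 * s ^ 2 := by nlinarith
  have h1 := nonzero_of (K := K) (k := k) (n := n) (κ := Nat.log 2 n + 1) (T := s' + 1)
    (S := s' + n + 1) (S' := 4 * s ^ 2) (D := D) hpp (le_lprime _) (by omega) hnκ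
    (by omega) (by omega) (by nlinarith [Nat.mul_le_mul hn hκ2]) (by
      have h2 : Nat.log 2 n + 1 < 2 ^ (Nat.log 2 n + 1) := Nat.lt_two_pow_self
      omega) (P g) hPg hPD f hf hfP (fun Q hQ hQ0 h hh hQh => by
      have h3 := multiples_of hnum K d (s' + 1) (4 * s ^ 2) 1 1 hd2 (by omega) (by nlinarith)
        le_rfl le_rfl Q hQ hQ0 h hh hQh
      refine absurd (lt_of_le_of_lt h3 (lt_of_le_of_lt ?_ hcs)) (lt_irrefl _)
      have hd0 : (0 : ℝ) < d := by
        have : 0 < d := by omega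
        exact_mod_cast this
      have hs1 : ((s' : ℝ)) ≤ s := by exact_mod_cast hs'
      have e1 : Real.log (2 * d * ((s' + 1 : ℕ) : ℝ)) ≤ Real.log (2 * d * ((s : ℝ) + 1)) := by
        apply Real.log_le_log (by positivity)
        push_cast
        nlinarith
      have e2 : Real.log ((4 * s ^ 2 : ℕ) : ℝ) + (((1 : ℕ) : ℝ) + ((1 : ℕ) : ℝ)) *
          Real.log (2 * d) = Real.log (4 * (s : ℝ) ^ 2) + 2 * Real.log (2 * d) := by
        push_cast
        norm_num
      rw [e2]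
      have e3 : 0 ≤ Real.log (4 * (s : ℝ) ^ 2) + 2 * Real.log (2 * d) := by
        have hs2 : (2 : ℝ) ≤ s := by exact_mod_cast hs
        have hd2' : (2 : ℝ) ≤ d := by exact_mod_cast hd2
        have e4 : 0 ≤ Real.log (4 * (s : ℝ) ^ 2) := Real.log_nonneg (by nlinarith)
        have e5 : 0 ≤ Real.log (2 * (d : ℝ)) := Real.log_nonneg (by linarith)
        linarith
      exact mul_le_mul_of_nonneg_right (mul_le_mul_of_nonneg_left e1 hC.le) (pow_nonneg e3 _))
  obtain ⟨z, hz, h2⟩ := h1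
  refine ⟨_, ?_, h2⟩
  unfold hitting
  rw [mem_image]
  exact ⟨z, Fintype.mem_piFinset.2 fun v => mem_range.2 (Nat.lt_succ_of_le (hz v)), rfl⟩

/-- **HITTING SETS OF QUASI-POLYNOMIAL SIZE FOR CIRCUITS OF CONSTANT DEPTH** -/
theorem hitting_set (k : ℕ) : ∃ c : ℕ, ∀ s n D : ℕ, 2 ≤ s → n ≤ s →
    ∀ (K : Type) [Field K] [CharZero K] (s' : ℕ), s' ≤ s →
      ∀ P : Fin s' → MvPolynomial (Fin n) K, IsCircuit (k + 1) P → ∀ g, P g ≠ 0 →
      (P g).totalDegree ≤ D → ∃ x ∈ hitting (dd c s) n D,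
        MvPolynomial.eval (fun i => (x i : K)) (P g) ≠ 0 := by
  obtain ⟨C, hC, h⟩ := single_numbers (k + 1)
  exact hitting_of k hC h

end Pool.QPIT
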