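import Pool.Agent.QPIT.Hit
import Pool.Agent.QPIT.ClassW
import Pool.Agent.QPIT.NumU
import Pool.Agent.QPIT.FinNumU

/-!
# QPIT: the hitting set, explicit constants, arbitrary gates of fan-in `w`
-/

set_option autoImplicit false

namespace Pool.QPIT

open Finset Pool.XD Pool.Agent.Helper41.CD

/-- a nonzero polynomial whose values at the generator vanish gives a multiple of `y - IMM` -/
theorem nonzero_ofW {K : Type} [Field K] [CharZero K] {w0 k d n κ p T S S' D : ℕ} [NeZero p]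
    (hw0 : 1 ≤ w0) (hp : p.Prime) (hpm : d * ((d - 1) * (8 * d) + 1) ^ 2 ≤ p) (hκ : 1 ≤ κ)
    (hn : n ≤ p ^ κ) (hS1 : 1 ≤ S) (hS : S ≤ S') (hS' : n * 2 ^ κ + 1 ≤ S') (hκS : κ + 1 ≤ S')
    (F : MvPolynomial (Fin n) K) (hF : F ≠ 0) (hFD : F.totalDegree ≤ D)
    (f : Fin T → Fin S → MvPolynomial (Fin n) K) (hf : ∀ i j, f i j ∈ Cls w0 w0 S k)
    (hfF : ∑ i, ∏ j, f i j = F)
    (hhard : ∀ (P : MvPolynomial (Option (Vr d ((d - 1) * (8 * d)))) K), P ≠ 0 →
      subY (immP d (Fin ((d - 1) * (8 * d) + 1)) 0 K) P = 0 →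
      ∀ g : Fin T → Fin S' → MvPolynomial (Option (Vr d ((d - 1) * (8 * d)))) K,
      (∀ i j, g i j ∈ Cls w0 w0 S' (k + 1)) → P = ∑ i, ∏ j, g i j → False) :
    ∃ z : Vr d ((d - 1) * (8 * d)) × Fin p → ℕ, (∀ v, z v ≤ D) ∧
      MvPolynomial.eval (fun i => (pt d ((d - 1) * (8 * d)) p κ n z i : K)) F ≠ 0 := by
  classical
  obtain ⟨w, hw⟩ : ∃ w, w = (d - 1) * (8 * d) := ⟨_, rfl⟩
  rw [← hw] at hhard hpm ⊢
  set pl : Fin n → Vr d w → Vr d w × Fin p := fun i v => (v, dig p κ i (num v)) with hpl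
  have hag : ∀ i j : Fin n, i ≠ j → {v | pl i v = pl j v}.ncard < κ := by
    intro i j hij
    have h1 := digv_agree (κ := κ) hp (i.2.trans_le hn) (j.2.trans_le hn)
      (fun h => hij (Fin.ext h))
    refine lt_of_le_of_lt ?_ h1
    rw [← Set.ncard_coe_finset]
    refine Set.ncard_le_ncard_of_injOn (fun v => num v) (fun v hv => ?_) 
      ((num_injective d w).injOn) (Finset.finite_toSet _)
    rw [mem_coe, mem_filter, mem_range]
    refine ⟨(num_lt v).trans_le hpm, ?_⟩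
    have h2 : pl i v = pl j v := hv
    rw [hpl] at h2
    have h3 : dig p κ i (num v) = dig p κ j (num v) := (Prod.mk.inj h2).2
    rw [← dig_val, ← dig_val, h3]
  have hG : MvPolynomial.aeval (fun i => MvPolynomial.rename (pl i) (imm d w K)) F ≠ 0 := by
    intro h0
    obtain ⟨φ, hφ, h1, h2⟩ := hybrid hκ (imm d w K) (degreeOf_imm d w K) pl
      (fun i j v v' h => (Prod.mk.inj h).1) hag F hF h0
    have hcls : ∀ i j, MvPolynomial.aeval φ (f i j) ∈ Cls (R := K) w0 w0 S' (k + 1) := fun i j =>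
      cls_spsW hw0 hS' hκS (by omega) hS hS1 φ hφ (hf i j)
    have h3 : ∀ i, ∃ g : Fin S' → MvPolynomial (Option (Vr d w)) K,
        (∀ j, g j ∈ Cls (R := K) w0 w0 S' (k + 1)) ∧ ∏ j, g j = ∏ j, MvPolynomial.aeval φ (f i j) :=
      fun i => exists_prod (S := S') (ι := Fin S) (by rw [Fintype.card_fin]; exact hS)
        (A := (Cls w0 w0 S' (k + 1) : Set (MvPolynomial (Option (Vr d w)) K)))
        (one_mem' w0 w0 S' (k + 1)) _ (hcls i)
    choose g hg hgf using h3
    refine hhard _ h1 h2 g hg ?_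
    rw [← hfF, map_sum]
    refine sum_congr rfl fun i _ => ?_
    rw [hgf i, map_prod]
  have hdeg : ∀ v, ∀ i, (MvPolynomial.rename (pl i) (imm d w K)).degreeOf v ≤ 1 := fun v i =>
    degreeOf_rename_le (pl i) (fun a b h => (Prod.mk.inj h).1) _ 1 (degreeOf_imm d w K) v
  obtain ⟨z, hz, h1⟩ := exists_grid _ hG D (fun v => (degreeOf_aeval_le _ v (hdeg v) F).trans
    hFD)
  · refine ⟨z, hz, ?_⟩
    have h2 : MvPolynomial.eval (fun v => (z v : K))
        (MvPolynomial.aeval (fun i => MvPolynomial.rename (pl i) (imm d w K)) F) =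
        MvPolynomial.eval (fun i => (pt d w p κ n z i : K)) F := by
      rw [← MvPolynomial.coe_aeval_eq_eval, ← MvPolynomial.coe_aeval_eq_eval]
      show ((MvPolynomial.aeval fun v => (z v : K) : MvPolynomial _ K →ₐ[K] K).comp
        (MvPolynomial.aeval (fun i => MvPolynomial.rename (pl i) (imm d w K)))) F = _
      rw [MvPolynomial.comp_aeval]
      show MvPolynomial.aeval _ F = MvPolynomial.aeval _ F
      congr 2
      funext i
      exact eval_rename_immP d w p κ n K z i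
    rwa [h2] at h1

/-- **THE HITTING SET** for sums of products of members of the classes -/
theorem hit_sum {k w s n D T S : ℕ} (hw : 1 ≤ w) (hs : 2 ≤ s) (hn : n ≤ s) (hT1 : 1 ≤ T)
    (hT : T ≤ s + 1) (hS1 : 1 ≤ S) (hS : S ≤ 4 * s ^ 2) (K : Type) [Field K] [CharZero K]
    (F : MvPolynomial (Fin n) K) (hF : F ≠ 0) (hFD : F.totalDegree ≤ D)
    (f : Fin T → Fin S → MvPolynomial (Fin n) K) (hf : ∀ i j, f i j ∈ Cls w w S k)
    (hfF : ∑ i, ∏ j, f i j = F) :
    ∃ x ∈ hitting (ddU (Nat.fib (2 * (k + 1) + 4)) w s) n D,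
      MvPolynomial.eval (fun i => (x i : K)) F ≠ 0 := by
  have hfib : 3 ≤ Nat.fib (2 * (k + 1) + 4) := by
    have : Nat.fib 4 ≤ Nat.fib (2 * (k + 1) + 4) := Nat.fib_mono (by omega)
    exact this
  have hd2 : 2 ≤ ddU (Nat.fib (2 * (k + 1) + 4)) w s := two_le_ddU (by omega) hw s
  have hcs := ddU_spec (F := Nat.fib (2 * (k + 1) + 4)) (w := w) (s := s) (by omega) hw hs
  obtain ⟨d, hd⟩ : ∃ d, d = ddU (Nat.fib (2 * (k + 1) + 4)) w s := ⟨_, rfl⟩
  rw [← hd] at hd2 hcs ⊢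
  have hpp : (lprime (d * ((d - 1) * (8 * d) + 1) ^ 2)).Prime := lprime_prime _
  have hκ2 : 2 ^ (Nat.log 2 n + 1) ≤ 2 * s := by
    rw [pow_succ]
    rcases Nat.eq_zero_or_pos n with rfl | hn0
    · rw [Nat.log_zero_right, pow_zero]
      omega
    · have := Nat.pow_log_le_self 2 (x := n) (by omega)
      omega
  have hnκ : n ≤ lprime (d * ((d - 1) * (8 * d) + 1) ^ 2) ^ (Nat.log 2 n + 1) := by
    calc n ≤ 2 ^ (Nat.log 2 n + 1) := (Nat.lt_pow_succ_log_self (by norm_num) n).le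
      _ ≤ _ := Nat.pow_le_pow_left hpp.two_le _
  have hS4 : 4 * s ≤ 4 * s ^ 2 := by nlinarith
  have h1 := nonzero_ofW (K := K) (w0 := w) (k := k) (n := n) (κ := Nat.log 2 n + 1) (T := T)
    (S := S) (S' := 4 * s ^ 2) (D := D) hw hpp (le_lprime _) (by omega) hnκ
    hS1 hS (by nlinarith [Nat.mul_le_mul hn hκ2]) (by
      have h2 : Nat.log 2 n + 1 < 2 ^ (Nat.log 2 n + 1) := Nat.lt_two_pow_self
      omega) F hF hFD f hf hfF (fun Q hQ hQ0 h hh hQh => by
      have hd0 : (0 : ℝ) < d := by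
        have : 0 < d := by omega
        exact_mod_cast this
      have hlt : 1250 * Real.log (2 * d * T) * (1250 * (Real.log ((4 * s ^ 2 : ℕ) : ℝ) +
          ((w : ℕ) + (w : ℕ)) * Real.log (2 * d))) ^ (Nat.fib (2 * (k + 1) + 4) - 2) < d := by
        refine lt_of_le_of_lt ?_ hcs
        have hT' : (T : ℝ) ≤ s + 1 := by exact_mod_cast hT
        have hT0 : (0 : ℝ) < T := by
          have : 0 < T := by omega
          exact_mod_cast this
        have e1 : 1250 * Real.log (2 * d * T) ≤ 1250 * Real.log (2 * d * ((s : ℝ) + 1)) := by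
          refine mul_le_mul_of_nonneg_left (Real.log_le_log (by positivity) ?_) (by norm_num)
          exact mul_le_mul_of_nonneg_left hT' (by positivity)
        have e2 : Real.log ((4 * s ^ 2 : ℕ) : ℝ) + (((w : ℕ) : ℝ) + ((w : ℕ) : ℝ)) *
            Real.log (2 * d) = Real.log (4 * (s : ℝ) ^ 2) + 2 * w * Real.log (2 * d) := by
          push_cast
          ring
        rw [e2]
        have e3 : 0 ≤ 1250 * (Real.log (4 * (s : ℝ) ^ 2) + 2 * w * Real.log (2 * d)) := by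
          have hs2 : (2 : ℝ) ≤ s := by exact_mod_cast hs
          have hd2' : (2 : ℝ) ≤ d := by exact_mod_cast hd2
          have e4 : 0 ≤ Real.log (4 * (s : ℝ) ^ 2) := Real.log_nonneg (by nlinarith)
          have e5 : 0 ≤ 2 * (w : ℝ) * Real.log (2 * (d : ℝ)) :=
            mul_nonneg (by positivity) (Real.log_nonneg (by linarith))
          linarith
        exact mul_le_mul_of_nonneg_right e1 (pow_nonneg e3 _)
      obtain ⟨y, X, Y, hy, hy1, hX0, hY0, hX, hY, hnum', hlt'⟩ := single_numbers_u (k + 1) d T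
        (4 * s ^ 2) w w hd2 hT1 (by nlinarith) hw hw hlt
      obtain ⟨V1, hV1, hg⟩ := gauge K d (wdc d (8 * d)) (Fin ((d - 1) * (8 * d) + 1)) 0 hd2
        (wdc_zero _ _) (by have := wdc_mul 1 d (8 * d); rwa [one_mul] at this)
        (exists_place d hd2)
      obtain ⟨r, E, h1, h2, h3⟩ := mult_core_gen hd2
        (immP d (Fin ((d - 1) * (8 * d) + 1)) 0 K) V1 hV1
        hg Q hQ hQ0 h hh hQh hy hy1 hX hY hX0 hY0 hnum'
      exact absurd h3 (not_le.2 (hlt' r E h1 h2)))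
  obtain ⟨z, hz, h2⟩ := h1
  refine ⟨_, ?_, h2⟩
  unfold hitting
  rw [mem_image]
  exact ⟨z, Fintype.mem_piFinset.2 fun v => mem_range.2 (Nat.lt_succ_of_le (hz v)), rfl⟩

end Pool.QPIT
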