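import Pool.Agent.QPIT.Hybrid
import Pool.Agent.QPIT.Subst

/-!
# QPIT, row Q5b: the hybrids are polynomials in few variables

If two seed sets meet in at most `κ` points, each polynomial which is plugged into `F` at step `j`
of the hybrid argument is a member of the class `0` with `κ` affine forms.
-/

set_option autoImplicit false

namespace Pool.QPIT

open Finset MvPolynomial Pool.Agent.Helper41.CD Pool.XD

section few

variable {V W K : Type} [Field K]

/-- a polynomial with all but few variables replaced by constants is a polynomial in few affine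
forms -/
theorem cls0_restrict (D : Finset V) (f : MvPolynomial V K) (θ : V → MvPolynomial W K)
    (h1 : ∀ v ∈ D, (θ v).totalDegree ≤ 1) (c : V → K) (h2 : ∀ v, v ∉ D → θ v = C (c v)) {κ : ℕ}
    (hκ : D.card ≤ κ) (w S : ℕ) : aeval θ f ∈ Cls κ w S 0 := by
  classical
  refine ⟨fun l => if h : l.val < D.card then θ (D.equivFin.symm ⟨l.val, h⟩).val else 0,
    aeval (fun v => if h : v ∈ D then
      (X (⟨(D.equivFin ⟨v, h⟩).val, lt_of_lt_of_le (D.equivFin ⟨v, h⟩).2 hκ⟩ : Fin κ) :
        MvPolynomial (Fin κ) K) else C (c v)) f, fun l => ?_, ?_⟩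
  · show (if h : l.val < D.card then θ (D.equivFin.symm ⟨l.val, h⟩).val else 0 :
      MvPolynomial W K).totalDegree ≤ 1
    split_ifs with h
    · exact h1 _ (D.equivFin.symm ⟨l.val, h⟩).2
    · rw [totalDegree_zero]
      exact Nat.zero_le 1
  · rw [← AlgHom.comp_apply, comp_aeval]
    congr 2
    funext v
    by_cases h : v ∈ D
    · simp only [h, dif_pos]
      rw [aeval_X]
      have h3 : (D.equivFin ⟨v, h⟩).val < D.card := (D.equivFin ⟨v, h⟩).2
      rw [dif_pos h3]
      have h4 : D.equivFin.symm ⟨(D.equivFin ⟨v, h⟩).val, h3⟩ = ⟨v, h⟩ := by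
        rw [Equiv.symm_apply_eq]
      rw [h4]
    · simp only [h, dif_neg, not_false_eq_true]
      rw [h2 v h, aeval_C]
      rfl

end few

section hyb

variable {A Z K : Type} [Field K] {n : ℕ}

/-- **Row Q5b** -/
theorem hyb_mem [Finite A] {κ : ℕ} (hκ : 1 ≤ κ) (f : MvPolynomial A K) (e : Fin n → A → Z)
    (j : Fin n) (c : Z → K) (b : Fin n → K)
    (hag : ∀ i, i < j → {a | ∃ a', e j a' = e i a}.ncard ≤ κ) (w S : ℕ) (i : Fin n) :
    hyb f e j c b i ∈ Cls κ w S 0 := by
  classical
  rw [hyb]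
  split_ifs with h1 h2
  · have hfin : {a | ∃ a', e j a' = e i a}.Finite := Set.toFinite _
    refine cls0_restrict hfin.toFinset f _ (fun v hv => ?_) (fun a => c (e i a)) (fun v hv => ?_)
      (by rw [← Set.ncard_eq_toFinset_card _ hfin]; exact hag i h1) w S
    · rw [Set.Finite.mem_toFinset] at hv
      have hv' : ∃ a', e j a' = e i v := hv
      unfold look
      rw [dif_pos hv']
      exact (totalDegree_X _).le
    · rw [Set.Finite.mem_toFinset] at hv
      exact look_of_not c fun a ha => hv ⟨a, ha⟩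
  · refine ⟨fun _ => X none, X ⟨0, hκ⟩, fun _ => (totalDegree_X _).le, ?_⟩
    rw [aeval_X]
  · exact const_mem _ _ _ _ _

/-- **Rows Q5b, Q6 and Q7 together**: a polynomial of the class `k` which vanishes at the generator
yields a nonzero multiple of `y - f` in the class `k + 1` (with `κ` affine forms at the leaves) -/
theorem hybrid_cls [Finite A] [Infinite K] {κ : ℕ} (hκ : 1 ≤ κ) (f : MvPolynomial A K)
    (e : Fin n → A → Z) (he : ∀ i, Function.Injective (e i))
    (hag : ∀ i j, i < j → {a | ∃ a', e j a' = e i a}.ncard ≤ κ)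
    {w0 w w' S S' k : ℕ} (hw0 : w0 ≤ w') (hw : w ≤ w') (hS : S ≤ S') (hn : n + 1 ≤ S')
    {F : MvPolynomial (Fin n) K} (hF : F ≠ 0) (hFc : F ∈ Cls w0 w S k)
    (hG : aeval (fun i => rename (e i) f) F = (0 : MvPolynomial Z K)) :
    ∃ P : MvPolynomial (Option A) K, P ≠ 0 ∧ subY f P = 0 ∧ P ∈ Cls κ w' S' (k + 1) := by
  obtain ⟨j, c, b, h1, h2⟩ := hybrid_abs f e he hF hG
  refine ⟨_, h1, h2, ?_⟩
  refine cls_subst hw0 hw hS (by rw [Fintype.card_fin]; exact hn) _ (fun i => ?_) k hFc
  exact hyb_mem hκ f e j c b (fun i hi => hag i j hi) w' S' i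

/-- the same, in the form of the rows file -/
theorem hybrid_cls' [Finite A] [Infinite K] {κ : ℕ} (hκ : 1 ≤ κ) (f : MvPolynomial A K)
    (pl : Fin n → A → Z) (hpl : ∀ i j v v', pl i v = pl j v' → v = v')
    (hag : ∀ i j, i ≠ j → {v | pl i v = pl j v}.ncard < κ)
    {w0 w w' S S' k : ℕ} (hw0 : w0 ≤ w') (hw : w ≤ w') (hS : S ≤ S') (hn : n + 1 ≤ S')
    {F : MvPolynomial (Fin n) K} (hF : F ≠ 0) (hFc : F ∈ Cls w0 w S k)
    (hG : aeval (fun i => rename (pl i) f) F = (0 : MvPolynomial Z K)) :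
    ∃ P : MvPolynomial (Option A) K, P ≠ 0 ∧ subY f P = 0 ∧ P ∈ Cls κ w' S' (k + 1) := by
  refine hybrid_cls hκ f pl (fun i v v' h => hpl i i v v' h) (fun i j hij => ?_) hw0 hw hS hn hF
    hFc hG
  have h1 : {a | ∃ a', pl j a' = pl i a} = {v | pl i v = pl j v} := by
    ext a
    constructor
    · rintro ⟨a', h⟩
      have h2 := hpl j i a' a h
      subst h2
      exact h.symm
    · intro h
      exact ⟨a, Eq.symm h⟩
  rw [h1]
  exact (hag i j (ne_of_lt hij)).le

end hyb

end Pool.QPIT
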