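import Pool.Agent.XD.Num
import Pool.Agent.XD.Defs

/-!
# QPIT, row Q4: the numbers for one chain
-/

set_option autoImplicit false

namespace Pool.QPIT

open Real Pool.Helper98.CD Pool.XD

theorem single_numbers (k : ℕ) : ∃ C : ℝ, 0 < C ∧ ∀ d T S w w0 : ℕ, 2 ≤ d → 1 ≤ T → 2 ≤ S →
    1 ≤ w → 1 ≤ w0 → C * log (2 * d * T) *
      (log S + (w + w0) * log (2 * d)) ^ (Nat.fib (2 * k + 4) - 2) < d →
    ∃ (y : ℝ) (X Y : ℕ → ℝ), 0 < y ∧ y ≤ 1 ∧ X 0 = 1 ∧ Y 0 = 1 ∧ (∀ i, 0 < X i) ∧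
      (∀ i, 0 < Y i) ∧ (∀ i ≤ 2 * k, NumD d (S * (d + 1) ^ (8 * (w0 + w) + 16)) (exp 1)
        (exp y) (X i) (Y i) (X (i + 1)) (Y (i + 1))) ∧
      ∀ r E : ℕ, r + E = d → -y ≤ r - y * E →
        T * ((d + 1 : ℝ) ^ 16 * (X (2 * k + 1) ^ r * Y (2 * k + 1) ^ E)) * (6 * exp 2) <
          exp 1 ^ r := by
  obtain ⟨p, hp⟩ : ∃ p : ℕ, p = Nat.fib (2 * k + 4) - 2 := ⟨_, rfl⟩
  obtain ⟨C0, hC0⟩ : ∃ C0 : ℝ, C0 = 16 * (18 * 67) ^ p := ⟨_, rfl⟩
  refine ⟨C0 * 64, by rw [hC0]; positivity, ?_⟩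
  intro d T S w w0 hd hT hS hw hw0 hlt
  rw [← hp] at hlt
  have hdr : (2 : ℝ) ≤ d := by exact_mod_cast hd
  have hSr : (2 : ℝ) ≤ S := by exact_mod_cast hS
  have hTr : (1 : ℝ) ≤ T := by exact_mod_cast hT
  have hwr : (1 : ℝ) ≤ w := by exact_mod_cast hw
  have hw0r : (1 : ℝ) ≤ w0 := by exact_mod_cast hw0
  have hl2 : (0.6931 : ℝ) < log 2 := by
    have := log_two_gt_d9
    linarith
  have hl2' : log 2 ≤ 1 := by
    have := log_two_lt_d9
    linarith
  have hlS : log 2 ≤ log S := log_le_log (by norm_num) hSr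
  have hlT : 0 ≤ log T := log_nonneg hTr
  have hld : log (d + 1) ≤ log (2 * d) := log_le_log (by linarith) (by linarith)
  have hld0 : 0 ≤ log ((d : ℝ) + 1) := log_nonneg (by linarith)
  have hl4 : 2 * log 2 ≤ log (2 * d) := by
    rw [log_mul (by norm_num) (by linarith)]
    have := log_le_log (by norm_num) hdr
    linarith
  obtain ⟨κ, hκ⟩ : ∃ κ : ℝ, κ = S * (d + 1 : ℝ) ^ (8 * (w0 + w) + 16) := ⟨_, rfl⟩
  have hκ1 : 1 ≤ κ := by
    rw [hκ]
    have := one_le_pow₀ (n := 8 * (w0 + w) + 16) (show (1 : ℝ) ≤ d + 1 by linarith)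
    nlinarith
  have hlκ : log κ = log S + (8 * (w0 + w) + 16) * log (d + 1) := by
    rw [hκ, log_mul (by positivity) (by positivity), log_pow]
    push_cast
    ring
  obtain ⟨Λ, hΛ⟩ : ∃ Λ : ℝ, Λ = log S + (w + w0) * log (2 * d) := ⟨_, rfl⟩
  rw [← hΛ] at hlt
  have hΛ1 : 1 ≤ Λ := by
    rw [hΛ]
    nlinarith
  have hlκΛ : log κ ≤ 16 * Λ := by
    rw [hlκ, hΛ]
    have h1 : (8 * ((w0 : ℝ) + w) + 16) * log (d + 1) ≤ (8 * (w0 + w) + 16) * log (2 * d) :=
      mul_le_mul_of_nonneg_left hld (by positivity)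
    have h2 : 0 ≤ log (2 * (d : ℝ)) := by linarith
    have h3 : (8 * ((w0 : ℝ) + w) + 16) * log (2 * d) ≤ (16 * (w + w0)) * log (2 * d) :=
      mul_le_mul_of_nonneg_right (by linarith) h2
    linarith
  obtain ⟨σ, hσ⟩ : ∃ σ : ℕ, σ = ⌈2 * log κ⌉₊ := ⟨_, rfl⟩
  have hlκ0 : 0.6931 < log κ := by
    rw [hlκ]
    have : 0 ≤ (8 * ((w0 : ℝ) + w) + 16) * log (d + 1) := mul_nonneg (by positivity) hld0
    linarith
  have hσ1 : 2 * log κ ≤ σ := by rw [hσ]; exact Nat.le_ceil _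
  have hσ2 : (σ : ℝ) ≤ 2 * log κ + 1 := by
    rw [hσ]
    exact (Nat.ceil_lt_add_one (by linarith)).le
  have hσ0 : 1 ≤ σ := by
    have : (0 : ℝ) < σ := by linarith
    have : 0 < σ := by exact_mod_cast this
    omega
  obtain ⟨A, B, s, X, Y, hs, hB, hBA, hA2, hsA, hX0, hY0, hXp, hYp, hch, hXL, hYL⟩ :=
    growth_chain (2 * k + 1) σ (by omega) hσ0 κ hκ1 (by linarith)
  rw [show 2 * k + 1 + 3 = 2 * k + 4 by ring, ← hp] at hsA
  have hA : 1 ≤ A := hB.trans hBA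
  have hAr : (0 : ℝ) < A := by exact_mod_cast hA
  have hBr : (0 : ℝ) < B := by exact_mod_cast hB
  have hsr : (0 : ℝ) < s := by exact_mod_cast hs
  have hsA0 : (0 : ℝ) < s * A := by positivity
  have hσΛ : (σ : ℝ) ≤ 67 * Λ := by linarith
  have hsAle : 4 * ((s : ℝ) * A) ≤ C0 * Λ ^ p := by
    have h1 : ((s * A : ℕ) : ℝ) ≤ ((4 * (18 * σ) ^ p : ℕ) : ℝ) := by exact_mod_cast hsA
    push_cast at h1
    have h3 : (18 * (σ : ℝ)) ^ p ≤ (18 * (67 * Λ)) ^ p :=
      pow_le_pow_left₀ (by positivity) (by linarith) p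
    have h4 : (18 * (67 * Λ)) ^ p = (18 * 67) ^ p * Λ ^ p := by
      rw [← mul_pow]
      congr 1
      ring
    rw [h4] at h3
    rw [hC0]
    linarith
  have hy1 : (B : ℝ) / A ≤ 1 := by
    rw [div_le_one hAr]
    exact_mod_cast hBA
  refine ⟨(B : ℝ) / A, X, Y, by positivity, hy1, hX0, hY0, hXp, hYp, ?_, ?_⟩
  · intro i hi b e hbe hbe2
    have h1 := hch i (by omega) b e hbe
    rw [hκ] at h1
    rcases h1 with h | h | h
    · exact Or.inr (Or.inl h)
    · exact Or.inl h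
    · exact Or.inr (Or.inr h)
  · intro r E hrE hbal
    rw [hXL, hYL]
    have hd1 : (0 : ℝ) < d + 1 := by linarith
    rw [← log_lt_log_iff (by positivity) (by positivity), exp_mul_exp,
      log_mul (by positivity) (by positivity), log_mul (by positivity) (by positivity),
      log_mul (by positivity) (by positivity), log_mul (by positivity) (by positivity),
      log_pow, log_pow, log_exp, log_exp, log_exp]
    have h1 : (1 / 2 - 1 / (4 * (s * A : ℝ))) * r + ((B : ℝ) / A / 2 - 1 / (4 * (s * A : ℝ))) * E =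
        (r + (B : ℝ) / A * E) / 2 - ((r : ℝ) + E) / (4 * (s * A)) := by ring
    rw [h1]
    have hrE' : (r : ℝ) + E = d := by exact_mod_cast hrE
    rw [hrE']
    have h6 : log 6 ≤ 3 := by
      have := log_le_sub_one_of_pos (show (0 : ℝ) < 6 / 2 by norm_num)
      rw [log_div (by norm_num) (by norm_num)] at this
      linarith
    have hlog : log (2 * d * T) = log (2 * d) + log T := log_mul (by positivity) (by positivity)
    have h7 : 64 * (log (2 * d) + log T) * (4 * (s * A)) < d := by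
      have h8 : 64 * (log (2 * d) + log T) * (4 * ((s : ℝ) * A)) ≤
          64 * (log (2 * d) + log T) * (C0 * Λ ^ p) :=
        mul_le_mul_of_nonneg_left hsAle (by linarith)
      rw [hlog] at hlt
      linarith
    have h9 : 64 * (log (2 * d) + log T) < d / (4 * (s * A)) := by
      rw [lt_div_iff₀ (by positivity)]
      exact h7
    push_cast
    linarith

end Pool.QPIT
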