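import Pool.Agent.QPIT.Core
import Pool.Agent.QPIT.Gauge
import Pool.Agent.QPIT.Num

/-!
# QPIT: all multiples of `y - IMM` are hard
-/

set_option autoImplicit false

namespace Pool.QPIT

open Finset Pool.XD Pool.Agent.Helper87.D3 Pool.Agent.Helper41.CD

theorem exists_place (d : ℕ) (hd : 2 ≤ d) :
    ∃ e : GV d (wdc d (8 * d)) → Fin ((d - 1) * (8 * d) + 1), Function.Injective e ∧
      e none = 0 := by
  classical
  have hcard : Fintype.card (GV d (wdc d (8 * d))) ≤ Fintype.card (Fin ((d - 1) * (8 * d) + 1)) := by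
    rw [Fintype.card_option, Fintype.card_sigma, Fintype.card_fin]
    refine Nat.add_le_add_right ?_ 1
    calc ∑ j : Fin (d - 1), Fintype.card (Fin (wdc d (8 * d) (j + 1)))
        ≤ ∑ _j : Fin (d - 1), 8 * d := sum_le_sum fun j _ => by
          rw [Fintype.card_fin]
          exact wdc_le (by omega) _
      _ = (d - 1) * (8 * d) := by rw [sum_const, card_univ, Fintype.card_fin, smul_eq_mul]
  obtain ⟨e0⟩ := Function.Embedding.nonempty_of_card_le hcard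
  refine ⟨fun x => Equiv.swap (e0 none) 0 (e0 x), (Equiv.swap (e0 none) 0).injective.comp
    e0.injective, ?_⟩
  exact Equiv.swap_apply_left _ _

/-- **all multiples of `y - IMM` are hard**, from the numbers -/
theorem multiples_of {k Ex : ℕ} {C : ℝ} (hnum : ∀ d T S w w0 : ℕ, 2 ≤ d → 1 ≤ T → 2 ≤ S →
    1 ≤ w → 1 ≤ w0 → C * Real.log (2 * d * T) *
      (Real.log S + (w + w0) * Real.log (2 * d)) ^ Ex < d →
    ∃ (y : ℝ) (X Y : ℕ → ℝ), 0 < y ∧ y ≤ 1 ∧ X 0 = 1 ∧ Y 0 = 1 ∧ (∀ i, 0 < X i) ∧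
      (∀ i, 0 < Y i) ∧ (∀ i ≤ 2 * k, NumD d (S * (d + 1) ^ (8 * (w0 + w) + 16)) (Real.exp 1)
        (Real.exp y) (X i) (Y i) (X (i + 1)) (Y (i + 1))) ∧
      ∀ r E : ℕ, r + E = d → -y ≤ r - y * E →
        T * ((d + 1 : ℝ) ^ 16 * (X (2 * k + 1) ^ r * Y (2 * k + 1) ^ E)) * (6 * Real.exp 2) <
          Real.exp 1 ^ r) (K : Type) [Field K] [CharZero K]
    (d T S w w0 : ℕ) (hd : 2 ≤ d) (hT : 1 ≤ T) (hS : 2 ≤ S) (hw : 1 ≤ w) (hw0 : 1 ≤ w0)
    (P : MvPolynomial (Option (Fin d × Fin ((d - 1) * (8 * d) + 1) ×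
      Fin ((d - 1) * (8 * d) + 1))) K) (hP : P ≠ 0)
    (hP0 : subY (immP d (Fin ((d - 1) * (8 * d) + 1)) 0 K) P = 0)
    (f : Fin T → Fin S → MvPolynomial (Option (Fin d × Fin ((d - 1) * (8 * d) + 1) ×
      Fin ((d - 1) * (8 * d) + 1))) K)
    (hf : ∀ i j, f i j ∈ Cls w0 w S k) (hPf : P = ∑ i, ∏ j, f i j) :
    (d : ℝ) ≤ C * Real.log (2 * d * T) *
      (Real.log S + (w + w0) * Real.log (2 * d)) ^ Ex := by
  classical
  by_contra hcon
  push Not at hcon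
  obtain ⟨y, X, Y, hy, hy1, hX0, hY0, hX, hY, hnum', hlt⟩ := hnum d T S w w0 hd hT hS hw hw0 hcon
  obtain ⟨V1, hV1, hg⟩ := gauge K d (wdc d (8 * d)) (Fin ((d - 1) * (8 * d) + 1)) 0 hd
    (wdc_zero _ _) (by have := wdc_mul 1 d (8 * d); rwa [one_mul] at this) (exists_place d hd)
  obtain ⟨r, E, h1, h2, h3⟩ := mult_core_gen hd (immP d (Fin ((d - 1) * (8 * d) + 1)) 0 K) V1 hV1
    hg P hP hP0 f hf hPf hy hy1 hX hY hX0 hY0 hnum'
  exact absurd h3 (not_le.2 (hlt r E h1 h2))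

/-- **all multiples of `y - IMM` are hard** for sums of products of circuits of bounded depth -/
theorem multiples (k : ℕ) : ∃ C : ℝ, 0 < C ∧ ∀ (K : Type) [Field K] [CharZero K]
    (d T S w w0 : ℕ), 2 ≤ d → 1 ≤ T → 2 ≤ S → 1 ≤ w → 1 ≤ w0 →
    ∀ P : MvPolynomial (Option (Fin d × Fin ((d - 1) * (8 * d) + 1) ×
      Fin ((d - 1) * (8 * d) + 1))) K, P ≠ 0 →
    subY (immP d (Fin ((d - 1) * (8 * d) + 1)) 0 K) P = 0 →
    ∀ f : Fin T → Fin S → MvPolynomial (Option (Fin d × Fin ((d - 1) * (8 * d) + 1) ×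
      Fin ((d - 1) * (8 * d) + 1))) K,
    (∀ i j, f i j ∈ Cls w0 w S k) → P = ∑ i, ∏ j, f i j →
    (d : ℝ) ≤ C * Real.log (2 * d * T) *
      (Real.log S + (w + w0) * Real.log (2 * d)) ^ (Nat.fib (2 * k + 4) - 2) := by
  obtain ⟨C, hC, h⟩ := single_numbers k
  exact ⟨C, hC, fun K _ _ d T S w w0 hd hT hS hw hw0 P hP hP0 f hf hPf =>
    multiples_of h K d T S w w0 hd hT hS hw hw0 P hP hP0 f hf hPf⟩

end Pool.QPIT
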