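import Pool.Agent.QPIT.VPlace
import Pool.Agent.XDA.Core

/-!
# QPITV, row VE: all multiples of `y - f` are expensive over valued fields
-/

set_option autoImplicit false
set_option linter.unusedSectionVars false

namespace Pool.QPIT

open Finset Pool.XD Pool.XDA Pool.Agent.Helper87.D3 Pool.Agent.Helper41.CD Pool.CDep

section code

variable {g : ℕ} {L W : Type} [Fintype L] [DecidableEq L] [Fintype W] [DecidableEq W]
  (ty : L → Bool) (Sw : W → Finset L)

/-- the code polynomial on the letters as series -/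
theorem aeval_serX_codeP {K : Type} [Field K] {r E : ℕ}
    (hcU : ∀ s, ((Sw s).filter fun l => ty l = true).card = r)
    (hcV : ∀ s, ((Sw s).filter fun l => ty l = false).card = E) :
    MvPolynomial.aeval (serX (K := K) (cty ty g)) (codeP Sw g K) =
      lam _ ^ (g * r) * mu _ ^ (g * E) * cst (codeP Sw g K) := by
  unfold codeP
  rw [map_sum, cst_sum', mul_sum]
  refine sum_congr rfl fun s _ => ?_
  rw [prod_lets Sw s (fun x => MvPolynomial.X x), map_prod]
  have h1 := card_lets ty Sw true hcU s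
  have h2 := card_lets ty Sw false hcV s
  have h3 : ∀ x ∈ lets Sw s, MvPolynomial.aeval (serX (K := K) (cty ty g))
      (MvPolynomial.X x : MvPolynomial (Fin g × L) K) =
      (if cty ty g x = true then lam (MvPolynomial (Fin g × L) K) else
        mu (MvPolynomial (Fin g × L) K)) * cst (MvPolynomial.X x) := by
    intro x _
    rw [MvPolynomial.aeval_X]
    rfl
  rw [prod_congr rfl h3, prod_mul_distrib, prod_ite, prod_const, prod_const, h1]
  have h4 : ((lets Sw s).filter fun x => ¬ cty ty g x = true).card = g * E := by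
    rw [← h2]
    congr 1
    ext x
    simp
  rw [h4, cst_prod]

end code

/-- **the core inequality over `(O, Lf, κ)`** -/
theorem mult_coreV {O Lf κ V : Type} [CommRing O] [Field Lf] [CharZero Lf] [Field κ] [Infinite κ]
    [Fintype V] (ι : O →+* Lf) (hι : Function.Injective ι) (π : O →+* κ)
    (hπ : Function.Surjective π) {ϖ : O} (hϖ0 : π ϖ = 0) (hϖ1 : ϖ ≠ 0)
    {T S w w0 k kb l : ℕ} {θ : ℝ} {X Y : ℕ → ℝ}
    (f0 V1 : MvPolynomial V κ) (hV1 : V1 ≠ 0)
    (hgauge : ∀ x : V → κ, MvPolynomial.eval x V1 ≠ 0 → ∃ D : Fin 1 × Lt kb l → V → κ,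
      ∀ (R : Type) [CommRing R] [Algebra κ R] (X : Fin 1 × Lt kb l → R),
        MvPolynomial.aeval (fun v => algebraMap κ R (x v) + ∑ a, X a * algebraMap κ R (D a v))
          f0 = algebraMap κ R (MvPolynomial.eval x f0) +
            ∑ s : Fin 1 → (Fin kb → Bool), ∏ i : Fin 1, ∏ a ∈ ltS l (s i), X (i, a))
    (P : MvPolynomial (Option V) O) (hP : MvPolynomial.map π P ≠ 0)
    (hP0 : subY f0 (MvPolynomial.map π P) = 0)
    (hdeg : ∀ j : ℕ, 1 ≤ j → j ≤ (MvPolynomial.map π P).degreeOf none → (j : κ) ≠ 0)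
    (f : Fin T → Fin S → MvPolynomial (Option V) Lf) (hf : ∀ i j, f i j ∈ Cls w0 w S k)
    (hPf : MvPolynomial.map ι P = ∑ i, ∏ j, f i j)
    (hkb : 1 ≤ kb) (h0 : 0 < θ) (h1 : θ < 1)
    (hlU : 4 * ((kb + l : ℕ) : ℝ) ^ 2 * 2 ^ (1 / θ) ≤ 2 ^ l)
    (hlV : 4 * ((kb + l : ℕ) : ℝ) ^ 2 * 2 ^ (1 / (1 - θ)) ≤ 2 ^ l)
    (hX : ∀ i, 0 < X i) (hY : ∀ i, 0 < Y i) (hX0 : X 0 = 1) (hY0 : Y 0 = 1)
    (hnum : ∀ i ≤ 2 * k, NumD (kb + l)
      (S * (((kb + l : ℕ) : ℝ) + 1) ^ (8 * (w0 + w) + 16)) (2 ^ (1 / θ)) (2 ^ (1 / (1 - θ)))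
        (X i) (Y i) (X (i + 1)) (Y (i + 1))) :
    ∃ r E : ℕ, r + E = kb + l ∧ (2 ^ (1 / θ) : ℝ) ^ r ≤ 2 ^ (kb + l) ∧
      (2 ^ (1 / (1 - θ)) : ℝ) ^ E ≤ 2 ^ (1 / (1 - θ)) * 2 ^ (kb + l) ∧
      (2 : ℝ) ^ kb ≤ (4 * (r + 1) * (E + 1)) * (T * (((kb + l : ℕ) + 1 : ℝ) ^ 16
        * (X (2 * k + 1) ^ r * Y (2 * k + 1) ^ E))) := by
  classical
  have h1' : 0 < 1 - θ := by linarith
  obtain ⟨HU, hHU⟩ : ∃ H : ℝ, H = 2 ^ (1 / θ) := ⟨_, rfl⟩
  obtain ⟨HV, hHV⟩ : ∃ H : ℝ, H = 2 ^ (1 / (1 - θ)) := ⟨_, rfl⟩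
  have hHU1 : 1 < HU := by
    rw [hHU]
    exact Real.one_lt_rpow (by norm_num) (by positivity)
  have hHV1 : 1 < HV := by
    rw [hHV]
    exact Real.one_lt_rpow (by norm_num) (by positivity)
  obtain ⟨τ, hbU, hbV, hcU, hcV⟩ := exists_types h0 h1
  rw [← hHU] at hbU hcU hlU hnum ⊢
  rw [← hHV] at hbV hcV hlV hnum ⊢
  obtain ⟨r, hr⟩ : ∃ r, r = cnt τ true 0 (kb + l) := ⟨_, rfl⟩
  obtain ⟨E, hE⟩ : ∃ E, E = cnt τ false 0 (kb + l) := ⟨_, rfl⟩
  obtain ⟨h1U, h1V, hrE, LU, LV, hrL, hLU1, hLV1, hLV2, hmc⟩ :=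
    exists_params hkb hHU1 hHV1 hbU hbV hlU hlV hr hE
  -- the words
  have hk2 : ∀ H : ℝ, 1 ≤ H → 4 * ((kb + l : ℕ) : ℝ) ^ 2 * H ≤ 2 ^ l →
      4 * (kb : ℝ) ^ 2 * H ≤ 2 ^ l := by
    intro H hH h
    refine le_trans ?_ h
    apply mul_le_mul_of_nonneg_right _ (by linarith)
    apply mul_le_mul_of_nonneg_left _ (by norm_num)
    apply pow_le_pow_left₀ (Nat.cast_nonneg _)
    exact_mod_cast Nat.le_add_right _ _
  have hsU := ltS_sparse (k := kb) (l := l) τ true hHU1.le hbU (hk2 _ hHU1.le hlU)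
  have hsV := ltS_sparse (k := kb) (l := l) τ false hHV1.le hbV (hk2 _ hHV1.le hlV)
  have hcardU : ∀ s, ((ltS (k := kb) l s).filter fun x => lty τ x = true).card = r := by
    intro s
    rw [ltS_card, hr]
  have hcardV : ∀ s, ((ltS (k := kb) l s).filter fun x => lty τ x = false).card = E := by
    intro s
    rw [ltS_card, hE]
  obtain ⟨I, hI1, hI2, R, Q, wd, hwC, hIcard, hiso1, hiso2⟩ :=
    exists_iso (g := 1) (lty (k := kb) (l := l) τ) (ltS (k := kb) l) hrL hcardU hcardV hHU1.le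
      hHV1.le hLU1 hLV1 hsU hsV univ
  -- the point
  set ty := cty (lty (k := kb) (l := l) τ) 1 with hty
  obtain ⟨W1, hW1, hgen⟩ := exists_gen (I := Fin T × Fin S) (fun p => f p.1 p.2)
    (fun p => hf p.1 p.2)
  have hcode : ∀ (R : Type) [CommRing R] [Algebra κ R] (X : Fin 1 × Lt kb l → R),
      MvPolynomial.aeval X (codeP (ltS (k := kb) l) 1 κ) =
        ∑ s : Fin 1 → (Fin kb → Bool), ∏ i : Fin 1, ∏ a ∈ ltS l (s i), X (i, a) := by
    intro R _ _ X
    unfold codeP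
    simp only [map_sum, map_prod, MvPolynomial.aeval_X]
  have hne : (r, E) ≠ (0, 0) := by
    intro h
    rw [Prod.mk.injEq] at h
    omega
  have hminor : mnr ty (fun i => glu fun j => (R i j).1) (fun i => glu fun j => (Q i j).1)
      (codeP (ltS (k := kb) l) 1 κ) = 1 := by
    ext i i'
    rw [Matrix.one_apply]
    show ent ty (codeP (ltS (k := kb) l) 1 κ) (glu fun j => (R i j).1) (glu fun j => (Q i' j).1) = _
    unfold ent
    by_cases hii : i = i'
    · subst hii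
      rw [if_pos (hiso2 i).1, (hiso2 i).2, coeff_codeP_cmon _ ltS_inj, if_pos rfl]
    · rw [if_neg hii]
      split_ifs with hA
      · exact coeff_codeP _ ltS_inj κ _ fun s hs => hii (hiso1 i i' s hA hs)
      · rfl
  have hser := aeval_serX_codeP (K := κ) (g := 1) (lty (k := kb) (l := l) τ) (ltS (k := kb) l)
    hcardU hcardV
  rw [one_mul, one_mul] at hser
  obtain ⟨c, D, hcW, hdet⟩ := place_lift ty ι hι π hπ hϖ0 hϖ1 f0 V1 hV1
    (codeP (ltS (k := kb) l) 1 κ) (fun x hx => by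
      obtain ⟨D, hD⟩ := hgauge x hx
      refine ⟨D, fun R _ _ X => ?_⟩
      rw [hD R X, hcode R X]) hne hser P hP hP0 hdeg
    (fun i => glu fun j => (R i j).1) (fun i => glu fun j => (Q i j).1)
    (by rw [hminor, Matrix.det_one]; exact one_ne_zero) W1 hW1
  have hN := hgen c hcW
  -- the machine
  obtain ⟨SU, SV, hSU, hSV⟩ := exists_sub ty (K := Lf)
  have hfV := filt_VV ty (K := Lf)
  have hfU := filt_UU ty (K := Lf)
  have hmach := level_machine_at (σ := Option V) (K := Lf)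
    (B := MvPolynomial (Fin 1 × Lt kb l) Lf)
    (Pool.CD.cost_Nu hfV hfU (by linarith : (0 : ℝ) ≤ HV) (by linarith : (0 : ℝ) ≤ HU))
    (Pool.CD.big_Bi hfV hfU) (by linarith : (0 : ℝ) < HU) (by linarith : (0 : ℝ) < HV)
    (Pool.CD.leaf_Bi hfV hfU HV HU) SU SV
    (fun a ha b hb => by
      have h1 := Pool.CD.Nu.ofMul (V := VV ty Lf) (U := UU ty Lf)
        (hv := HV) (hu := HU) ((hSU a).1 ha) ((hSV b).1 hb)
      rwa [pow_zero, pow_zero, mul_one] at h1)
    c (PhiG c (aO ty D) (bO ty D))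
    (PhiG_mem ty c _ _ (aO_UU ty D) (aO_VV ty D) (bO_UU ty D) (bO_VV ty D))
    (PhiG_zero c _ _)
    (fun p hp => by
      obtain ⟨a, ha, b, hb, h1⟩ := PhiG_one ty c (aO ty D) (bO ty D) (aO_VV ty D) (bO_UU ty D) p hp
      exact ⟨a, (hSU a).2 ha, b, (hSV b).2 hb, h1⟩)
    (d := kb + l) hX hY hX0 hY0 hnum f (fun i j => hN (i, j)) r E (by omega)
  rw [← hPf] at hmach
  set P' := cf r E (PhiG c (aO ty D) (bO ty D) (MvPolynomial.map ι P)) with hP'
  have hrank := rank_cM_le (g := 1) (lty (k := kb) (l := l) τ) hHU1.le hHV1.le hrL h1U h1V hLU1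
    hLV2 P' hmach (E := E)
  -- the number of isolated entries is at most the rank
  have hcr : Fintype.card I ≤
      (cM (lty (k := kb) (l := l) τ) P' LU LV (LU - r) (LV + E)).rank := by
    have h2 : ((cM (lty (k := kb) (l := l) τ) P' LU LV (LU - r) (LV + E)).submatrix R Q).rank =
        Fintype.card I := by
      apply Matrix.rank_of_isUnit
      rw [Matrix.isUnit_iff_isUnit_det]
      exact isUnit_iff_ne_zero.2 hdet
    rw [← h2]
    exact Matrix.rank_submatrix_le _ _ _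
  refine ⟨r, E, hrE, ?_, ?_, ?_⟩
  · rw [hr]
    exact hcU _
  · rw [hE]
    exact hcV _
  · have hmU' : (0 : ℝ) < (nU (lty (k := kb) (l := l) τ)).multichoose (LU - r) := by
      exact_mod_cast mc_pos h1U _
    have hmV : (0 : ℝ) < (nV (lty (k := kb) (l := l) τ)).multichoose LV := by
      exact_mod_cast mc_pos h1V _
    have hX1 := hX (2 * k + 1)
    have hY1 := hY (2 * k + 1)
    have hfin := combine (g := 1) (kb := kb) (r := r) (E := E) (HU := HU)
      (κ := T * ((((kb + l : ℕ) : ℝ) + 1) ^ 16 * (X (2 * k + 1) ^ r * Y (2 * k + 1) ^ E)))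
      (mU := (nU (lty (k := kb) (l := l) τ)).multichoose LU) (by linarith)
      hmU' hmV (by positivity) ?_ (Nat.cast_le.2 hcr) ?_ hmc (Nat.cast_nonneg _)
    · rwa [one_mul, pow_one] at hfin
    · refine le_trans (le_of_eq ?_) hIcard
      rw [card_univ, Fintype.card_fun, Fintype.card_fun, Fintype.card_bool, Fintype.card_fin,
        Fintype.card_fin]
      push_cast
      rw [pow_mul']
    · refine hrank.trans (le_of_eq ?_)
      push_cast
      ring

end Pool.QPIT
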