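import Pool.Agent.CDep.Lift

/-!
# QPITV, row VF: from a valued field to a ring with a map to an infinite field and a map to a field
of characteristic zero
-/

set_option autoImplicit false
set_option linter.unusedSectionVars false

namespace Pool.QPIT

open Finset Pool.CDep Pool.Agent.Helper41.CD

section val

variable {L Γ : Type} [Field L] [LinearOrderedCommGroupWithZero Γ] (v : Valuation L Γ)

/-- the residue map vanishes exactly on the elements of valuation less than one -/
theorem residue_ne_zero (x : v.valuationSubring) (hx : v (x : L) = 1) :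
    IsLocalRing.residue v.valuationSubring x ≠ 0 := by
  intro h0
  rw [IsLocalRing.residue_eq_zero_iff, IsLocalRing.mem_maximalIdeal, mem_nonunits_iff] at h0
  apply h0
  have hx0 : (x : L) ≠ 0 := by
    intro h
    rw [h, map_zero] at hx
    exact zero_ne_one hx
  have hi : v ((x : L)⁻¹) ≤ 1 := by
    rw [map_inv₀, hx, inv_one]
  exact IsUnit.of_mul_eq_one ⟨(x : L)⁻¹, hi⟩ (Subtype.ext (mul_inv_cancel₀ hx0))

theorem val_eq_one (x : v.valuationSubring) (hx : IsLocalRing.residue v.valuationSubring x ≠ 0) :
    v (x : L) = 1 := by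
  by_contra hne
  apply hx
  have hx1 : v (x : L) ≤ 1 := x.2
  rw [IsLocalRing.residue_eq_zero_iff, IsLocalRing.mem_maximalIdeal, mem_nonunits_iff]
  intro hu
  obtain ⟨y, hy⟩ := hu.exists_right_inv
  have h1 : (x : L) * (y : L) = 1 := congrArg Subtype.val hy
  have h2 : v (x : L) * v (y : L) = 1 := by rw [← map_mul, h1, map_one]
  have hy1 : v (y : L) ≤ 1 := y.2
  have h3 : v (x : L) < 1 := lt_of_le_of_ne hx1 hne
  have h4 : v (x : L) * v (y : L) ≤ v (x : L) * 1 := mul_le_mul_right hy1 _
  rw [h2, mul_one] at h4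
  exact absurd h3 (not_lt.2 h4)

/-- values at natural points and changes of coefficients -/
theorem eval_map_nat {A B : Type} [CommRing A] [CommRing B] {n : ℕ} (ψ : A →+* B)
    (P : MvPolynomial (Fin n) A) (x : Fin n → ℕ) :
    MvPolynomial.eval (fun i => (x i : B)) (MvPolynomial.map ψ P) =
      ψ (MvPolynomial.eval (fun i => (x i : A)) P) := by
  induction P using MvPolynomial.induction_on with
  | C a => rw [MvPolynomial.map_C, MvPolynomial.eval_C, MvPolynomial.eval_C]
  | add p q hp hq => rw [map_add, map_add, map_add, map_add, hp, hq]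
  | mul_X p i hp =>
    rw [map_mul, map_mul, MvPolynomial.map_X, MvPolynomial.eval_X, hp, map_mul, map_mul,
      MvPolynomial.eval_X, map_natCast]

theorem map_aevalR {n : ℕ} {R R' V : Type} [CommRing R] [CommRing R'] (ψ : R →+* R')
    (φ : Fin n → MvPolynomial V ℤ) (F : MvPolynomial (Fin n) R) :
    MvPolynomial.map ψ (MvPolynomial.aeval
      (fun i => MvPolynomial.map (Int.castRingHom R) (φ i)) F) =
      MvPolynomial.aeval (fun i => MvPolynomial.map (Int.castRingHom R') (φ i))
        (MvPolynomial.map ψ F) := by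
  have hψ : ψ.comp (Int.castRingHom R) = Int.castRingHom R' := RingHom.ext_int _ _
  induction F using MvPolynomial.induction_on with
  | C a => simp only [MvPolynomial.algHom_C, MvPolynomial.map_C, MvPolynomial.algebraMap_eq]
  | add p q hp hq => rw [map_add, map_add, map_add, map_add, hp, hq]
  | mul_X p i hp =>
    rw [map_mul, map_mul, MvPolynomial.aeval_X, hp, map_mul, map_mul, MvPolynomial.map_X,
      MvPolynomial.aeval_X, MvPolynomial.map_map, hψ]

end val

/-- **VF** -/
theorem exists_ring {L Γ : Type} [Field L] [LinearOrderedCommGroupWithZero Γ] (v : Valuation L Γ)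
    {n T S w0 w k : ℕ} (f : Fin T → Fin S → MvPolynomial (Fin n) L)
    (hf : ∀ i j, f i j ∈ Cls w0 w S k) (F : MvPolynomial (Fin n) L)
    (hF : ∑ i, ∏ j, f i j = F) (hint : ∀ m, v (MvPolynomial.coeff m F) ≤ 1) :
    ∃ (O κ Lf : Type) (_ : CommRing O) (_ : Field κ) (_ : Field Lf) (_ : CharZero Lf)
      (_ : Infinite κ) (ι : O →+* Lf) (π : O →+* κ) (ϖ : O) (F' : MvPolynomial (Fin n) O)
      (g : Fin T → Fin S → MvPolynomial (Fin n) Lf),
      Function.Injective ι ∧ Function.Surjective π ∧ π ϖ = 0 ∧ ϖ ≠ 0 ∧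
      (∀ i j, g i j ∈ Cls w0 w S k) ∧ MvPolynomial.map ι F' = ∑ i, ∏ j, g i j ∧
      (∀ m, v (MvPolynomial.coeff m F) = 1 → MvPolynomial.coeff m (MvPolynomial.map π F') ≠ 0) ∧
      (MvPolynomial.map π F').totalDegree ≤ F.totalDegree ∧
      (∀ m : ℕ, v (m : L) = 1 → (m : κ) ≠ 0) ∧
      (∀ x : Fin n → ℕ, MvPolynomial.eval (fun i => (x i : κ)) (MvPolynomial.map π F') ≠ 0 →
        v (MvPolynomial.eval (fun i => (x i : L)) F) = 1) ∧
      (∀ (Z : Type) (φ : Fin n → MvPolynomial Z ℤ),
        MvPolynomial.aeval (fun i => MvPolynomial.map (Int.castRingHom κ) (φ i))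
          (MvPolynomial.map π F') ≠ 0 →
        ∃ m, v (MvPolynomial.coeff m (MvPolynomial.aeval
          (fun i => MvPolynomial.map (Int.castRingHom L) (φ i)) F)) = 1) := by
  classical
  let V := v.valuationSubring
  let κ := AlgebraicClosure (IsLocalRing.ResidueField V)
  let E := MvPolynomial κ L
  let res : V →+* κ := (algebraMap (IsLocalRing.ResidueField V) κ).comp (IsLocalRing.residue V)
  let mp : MvPolynomial κ V →+* E := MvPolynomial.map (algebraMap V L)
  have hmp : Function.Injective mp := MvPolynomial.map_injective _ (Subtype.val_injective)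
  let O : Subring (LRing E × MvPolynomial κ V) :=
    RingHom.eqLocus ((proj E).comp (RingHom.fst _ _)) (mp.comp (RingHom.snd _ _))
  let ι1 : O →+* LRing E := (RingHom.fst _ _).comp O.subtype
  let ι : O →+* LField E := (algebraMap (LRing E) (LField E)).comp ι1
  let π1 : MvPolynomial κ V →+* κ := MvPolynomial.eval₂Hom res (fun e => e)
  let π : O →+* κ := π1.comp ((RingHom.snd _ _).comp O.subtype)
  have hO : ∀ p : LRing E × MvPolynomial κ V, p ∈ O ↔ proj E p.1 = mp p.2 := fun p => Iff.rfl
  let ϖ : O := ⟨(MvPolynomial.X (0 : E), 0), by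
    rw [hO, map_zero]
    simp [proj]⟩
  -- the polynomial over the valuation ring
  let Fv : MvPolynomial (Fin n) V :=
    ∑ m ∈ F.support, MvPolynomial.monomial m ⟨MvPolynomial.coeff m F, hint m⟩
  have hFv : ∀ m, MvPolynomial.coeff m Fv = ⟨MvPolynomial.coeff m F, hint m⟩ := by
    intro m
    show MvPolynomial.coeff m (∑ m ∈ F.support, MvPolynomial.monomial m
      (⟨MvPolynomial.coeff m F, hint m⟩ : V)) = _
    rw [MvPolynomial.coeff_sum]
    simp only [MvPolynomial.coeff_monomial]
    rw [Finset.sum_ite_eq']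
    split_ifs with h
    · rfl
    · rw [MvPolynomial.notMem_support_iff] at h
      exact Subtype.ext h.symm
  have hFvmap : MvPolynomial.map (algebraMap V L) Fv = F := by
    ext m
    rw [MvPolynomial.coeff_map, hFv]
    rfl
  -- the lift
  have hfE : ∀ i j, MvPolynomial.map (MvPolynomial.C : L →+* E) (f i j) ∈ Cls w0 w S k :=
    fun i j => cls_map _ k (hf i j)
  choose G hG hGf using fun i j => cls_lift (proj E) (proj_surjective E) k (hfE i j)
  obtain ⟨Q, hQ⟩ : ∃ Q, Q = ∑ i, ∏ j, G i j := ⟨_, rfl⟩
  have hQ1 : MvPolynomial.map (proj E) Q = MvPolynomial.map (MvPolynomial.C : L →+* E) F := by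
    rw [hQ, ← hF]
    simp only [map_sum, map_prod, hGf]
  have hmem : ∀ m, (MvPolynomial.coeff m Q,
      (MvPolynomial.C (MvPolynomial.coeff m Fv) : MvPolynomial κ V)) ∈ O := by
    intro m
    rw [hO]
    show proj E (MvPolynomial.coeff m Q) = mp (MvPolynomial.C (MvPolynomial.coeff m Fv))
    rw [← MvPolynomial.coeff_map, hQ1, MvPolynomial.coeff_map, hFv]
    show _ = MvPolynomial.map (algebraMap V L) (MvPolynomial.C _)
    rw [MvPolynomial.map_C]
    rfl
  let c : (Fin n →₀ ℕ) → O := fun m => ⟨_, hmem m⟩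
  let F' : MvPolynomial (Fin n) O :=
    ∑ m ∈ Q.support ∪ F.support, MvPolynomial.monomial m (c m)
  have hF' : ∀ m, MvPolynomial.coeff m F' = c m := by
    intro m
    show MvPolynomial.coeff m (∑ m ∈ Q.support ∪ F.support, MvPolynomial.monomial m (c m)) = _
    rw [MvPolynomial.coeff_sum]
    simp only [MvPolynomial.coeff_monomial]
    rw [Finset.sum_ite_eq']
    split_ifs with h
    · rfl
    · rw [mem_union, not_or, MvPolynomial.notMem_support_iff, MvPolynomial.notMem_support_iff] at h
      apply Subtype.ext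
      show (0 : LRing E × MvPolynomial κ V) = (MvPolynomial.coeff m Q,
        (MvPolynomial.C (MvPolynomial.coeff m Fv) : MvPolynomial κ V))
      have h2 : MvPolynomial.coeff m Fv = 0 := by
        rw [hFv]
        exact Subtype.ext h.2
      rw [h.1, h2, map_zero]
      rfl
  have hπc : ∀ m, π (c m) = res (MvPolynomial.coeff m Fv) := by
    intro m
    show MvPolynomial.eval₂Hom res (fun e => e) (MvPolynomial.C (MvPolynomial.coeff m Fv)) = _
    rw [MvPolynomial.eval₂Hom_C]
  have hπF : MvPolynomial.map π F' = MvPolynomial.map res Fv := by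
    ext m
    rw [MvPolynomial.coeff_map, MvPolynomial.coeff_map, hF', hπc]
  have hres1 : ∀ x : V, v (x : L) = 1 → res x ≠ 0 := by
    intro x hx h0
    have h1 : algebraMap (IsLocalRing.ResidueField V) κ (IsLocalRing.residue V x) = 0 := h0
    rw [_root_.map_eq_zero] at h1
    exact residue_ne_zero v x hx h1
  have hres2 : ∀ x : V, res x ≠ 0 → v (x : L) = 1 := by
    intro x hx
    refine val_eq_one v x fun h0 => hx ?_
    show algebraMap (IsLocalRing.ResidueField V) κ (IsLocalRing.residue V x) = 0
    rw [h0, map_zero]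
  refine ⟨O, κ, LField E, inferInstance, inferInstance, inferInstance, inferInstance,
    inferInstance, ι, π, ϖ, F',
    fun i j => MvPolynomial.map (algebraMap (LRing E) (LField E)) (G i j), ?_, ?_, ?_, ?_, ?_, ?_,
    ?_, ?_, ?_, ?_, ?_⟩
  · -- injective
    rw [injective_iff_map_eq_zero]
    intro a ha
    have h1 : (a : LRing E × MvPolynomial κ V).1 = 0 :=
      IsFractionRing.injective (LRing E) (LField E) (by rw [map_zero]; exact ha)
    have h2 : proj E (a : LRing E × MvPolynomial κ V).1 = mp (a : LRing E × MvPolynomial κ V).2 :=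
      a.2
    rw [h1, map_zero] at h2
    have h3 : (a : LRing E × MvPolynomial κ V).2 = 0 := hmp (by rw [map_zero]; exact h2.symm)
    exact Subtype.ext (Prod.ext h1 h3)
  · intro e
    refine ⟨⟨(MvPolynomial.X (MvPolynomial.X e : E), MvPolynomial.X e), ?_⟩, ?_⟩
    · rw [hO]
      show proj E (MvPolynomial.X (MvPolynomial.X e : E)) =
        MvPolynomial.map (algebraMap V L) (MvPolynomial.X e)
      rw [MvPolynomial.map_X]
      simp [proj]
    · show MvPolynomial.eval₂Hom res (fun e => e) (MvPolynomial.X e) = e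
      rw [MvPolynomial.eval₂Hom_X']
  · show MvPolynomial.eval₂Hom res (fun e => e) (0 : MvPolynomial κ V) = 0
    rw [map_zero]
  · intro h
    have h1 : (MvPolynomial.X (0 : E) : LRing E) = 0 :=
      congrArg (fun a : O => (a : LRing E × MvPolynomial κ V).1) h
    exact MvPolynomial.X_ne_zero (R := ℤ) (0 : E) h1
  · exact fun i j => cls_map _ k (hG i j)
  · have h1 : MvPolynomial.map ι F' = MvPolynomial.map (algebraMap (LRing E) (LField E)) Q := by
      ext m
      rw [MvPolynomial.coeff_map, MvPolynomial.coeff_map, hF']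
      rfl
    rw [h1, hQ]
    simp only [map_sum, map_prod]
  · intro m hm
    rw [hπF, MvPolynomial.coeff_map]
    apply hres1
    rw [hFv]
    exact hm
  · rw [hπF]
    refine Finset.sup_mono fun m hm => ?_
    rw [MvPolynomial.mem_support_iff] at hm ⊢
    intro h0
    apply hm
    rw [MvPolynomial.coeff_map, hFv]
    have h1 : (⟨MvPolynomial.coeff m F, hint m⟩ : V) = 0 := Subtype.ext h0
    rw [h1, map_zero]
  · intro m hm h0
    refine hres1 (m : V) (by
      have : ((m : V) : L) = (m : L) := by push_cast; rfl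
      rw [this]
      exact hm) ?_
    rw [map_natCast]
    exact h0
  · intro x hx
    rw [hπF, eval_map_nat] at hx
    have h1 := hres2 _ hx
    have h2 : ((MvPolynomial.eval (fun i => (x i : V)) Fv : V) : L) =
        MvPolynomial.eval (fun i => (x i : L)) F := by
      have h3 := eval_map_nat (algebraMap V L) Fv x
      rw [hFvmap] at h3
      exact h3.symm
    rw [← h2]
    exact h1
  · intro Z φ hx
    rw [hπF, ← map_aevalR] at hx
    obtain ⟨m, hm⟩ := MvPolynomial.ne_zero_iff.1 hx
    rw [MvPolynomial.coeff_map] at hm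
    refine ⟨m, ?_⟩
    have h1 := hres2 _ hm
    rw [← hFvmap, ← map_aevalR, MvPolynomial.coeff_map]
    exact h1

end Pool.QPIT
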