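import Pool.Agent.QPIT.VHit
import Pool.Agent.QPIT.CircW
import Pool.Agent.QPIT.VRing

/-!
# QPITV: the hitting set and the generator over valued fields
-/

set_option autoImplicit false

namespace Pool.QPIT

open Finset Pool.XD Pool.XDA Pool.CDep Pool.Agent.Helper87.D3 Pool.Agent.Helper41.CD

section val

variable {L Γ : Type} [Field L] [LinearOrderedCommGroupWithZero Γ] (v : Valuation L Γ)

/-- division by a coefficient of largest value -/
theorem exists_scale {k w n T S : ℕ} (hS1 : 1 ≤ S) (F : MvPolynomial (Fin n) L) (hF0 : F ≠ 0)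
    (f : Fin T → Fin S → MvPolynomial (Fin n) L) (hf : ∀ i j, f i j ∈ Cls w w S k)
    (hfF : ∑ i, ∏ j, f i j = F) :
    ∃ a : L, v a ≠ 0 ∧ (∀ m, v (MvPolynomial.coeff m F) ≤ v a) ∧
      (∀ m, v (MvPolynomial.coeff m (MvPolynomial.C a⁻¹ * F)) ≤ 1) ∧
      (∃ m, v (MvPolynomial.coeff m (MvPolynomial.C a⁻¹ * F)) = 1) ∧
      (MvPolynomial.C a⁻¹ * F).totalDegree ≤ F.totalDegree ∧
      ∃ f' : Fin T → Fin S → MvPolynomial (Fin n) L, (∀ i j, f' i j ∈ Cls w w S k) ∧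
        ∑ i, ∏ j, f' i j = MvPolynomial.C a⁻¹ * F := by
  classical
  obtain ⟨m0, hm0, hmax⟩ := F.support.exists_max_image (fun m => v (MvPolynomial.coeff m F))
    (MvPolynomial.support_nonempty.2 hF0)
  obtain ⟨a, ha⟩ : ∃ a, a = MvPolynomial.coeff m0 F := ⟨_, rfl⟩
  have ha0 : a ≠ 0 := by
    rw [ha]
    exact MvPolynomial.mem_support_iff.1 hm0
  have hva : v a ≠ 0 := (Valuation.ne_zero_iff v).2 ha0
  have hle : ∀ m, v (MvPolynomial.coeff m F) ≤ v a := by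
    intro m
    by_cases h : m ∈ F.support
    · rw [ha]
      exact hmax m h
    · rw [MvPolynomial.notMem_support_iff.1 h, map_zero]
      exact zero_le
  have hval : ∀ b : L, v (a⁻¹ * b) = (v a)⁻¹ * v b := fun b => by rw [map_mul, map_inv₀]
  refine ⟨a, hva, hle, fun m => ?_, ⟨m0, ?_⟩, ?_,
    fun i j => if j = ⟨0, hS1⟩ then MvPolynomial.C a⁻¹ * f i j else f i j, fun i j => ?_, ?_⟩
  · rw [MvPolynomial.coeff_C_mul, hval]
    calc (v a)⁻¹ * v (MvPolynomial.coeff m F) ≤ (v a)⁻¹ * v a := mul_le_mul' le_rfl (hle m)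
      _ = 1 := inv_mul_cancel₀ hva
  · rw [MvPolynomial.coeff_C_mul, hval, ← ha, inv_mul_cancel₀ hva]
  · refine (MvPolynomial.totalDegree_mul _ _).trans ?_
    rw [MvPolynomial.totalDegree_C, zero_add]
  · show (if j = ⟨0, hS1⟩ then MvPolynomial.C a⁻¹ * f i j else f i j) ∈ Cls w w S k
    split_ifs
    · exact smul_mem' (hf i j) _
    · exact hf i j
  · rw [← hfF, mul_sum]
    refine sum_congr rfl fun i _ => ?_
    show (∏ j, if j = ⟨0, hS1⟩ then MvPolynomial.C a⁻¹ * f i j else f i j) =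
      MvPolynomial.C a⁻¹ * ∏ j, f i j
    rw [← mul_prod_erase univ _ (mem_univ (⟨0, hS1⟩ : Fin S)),
      ← mul_prod_erase univ (fun j => f i j) (mem_univ (⟨0, hS1⟩ : Fin S)), if_pos rfl, mul_assoc]
    congr 2
    refine prod_congr rfl fun j hj => ?_
    rw [if_neg (ne_of_mem_erase hj)]

theorem val_of_scale {a b : L} (ha : v a ≠ 0) (h : v (a⁻¹ * b) = 1) : v b = v a := by
  rw [map_mul, map_inv₀] at h
  calc v b = v a * ((v a)⁻¹ * v b) := by rw [← mul_assoc, mul_inv_cancel₀ ha, one_mul]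
    _ = v a := by rw [h, mul_one]

/-- **THE HITTING SET over valued fields**: at some point of the hitting set the value of `F` is at
least as large as all coefficients of `F` -/
theorem hit_val {k w s n D T S : ℕ} (hw : 1 ≤ w) (hs : 2 ≤ s) (hn : n ≤ s) (hT1 : 1 ≤ T)
    (hT : T ≤ s + 1) (hS1 : 1 ≤ S) (hS : S ≤ 4 * s ^ 2)
    (hv : ∀ m : ℕ, 1 ≤ m → m ≤ D → v (m : L) = 1)
    (F : MvPolynomial (Fin n) L) (hF0 : F ≠ 0) (hFD : F.totalDegree ≤ D)
    (f : Fin T → Fin S → MvPolynomial (Fin n) L) (hf : ∀ i j, f i j ∈ Cls w w S k)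
    (hfF : ∑ i, ∏ j, f i j = F) :
    ∃ x ∈ hittingV (ddU (Nat.fib (2 * (k + 1) + 4)) w s) n D,
      ∀ m, v (MvPolynomial.coeff m F) ≤ v (MvPolynomial.eval (fun i => (x i : L)) F) := by
  obtain ⟨a, hva, hle, hint, ⟨m, hm⟩, hdeg, f', hf', hfF'⟩ := exists_scale v hS1 F hF0 f hf hfF
  obtain ⟨O, κ, Lf, _, _, _, _, _, ι, π, ϖ, F', g, hι, hπ, hϖ0, hϖ1, hg, hgF, h1, h2, h3, h4, _⟩ :=
    exists_ring v f' hf' _ hfF' hint
  have hF' : MvPolynomial.map π F' ≠ 0 := by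
    intro h0
    apply h1 m hm
    rw [h0, MvPolynomial.coeff_zero]
  obtain ⟨x, hx, hx1⟩ := hit_ring ι hι π hπ hϖ0 hϖ1 hw hs hn hT1 hT hS1 hS
    (fun m hm1 hm2 => h3 m (hv m hm1 hm2)) F' hF' ((h2.trans hdeg).trans hFD) g hg hgF
  refine ⟨x, hx, fun m => ?_⟩
  have h5 := h4 x hx1
  rw [map_mul, MvPolynomial.eval_C] at h5
  rw [val_of_scale v hva h5]
  exact hle m

/-- **THE GENERATOR over valued fields**: some coefficient of `F (G)` is at least as large as all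
coefficients of `F` -/
theorem gen_val {k w s n D T S : ℕ} (hw : 1 ≤ w) (hs : 2 ≤ s) (hn : n ≤ s) (hT1 : 1 ≤ T)
    (hT : T ≤ s + 1) (hS1 : 1 ≤ S) (hS : S ≤ 4 * s ^ 2)
    (hv : ∀ m : ℕ, 1 ≤ m → m ≤ D → v (m : L) = 1)
    (F : MvPolynomial (Fin n) L) (hF0 : F ≠ 0) (hFD : F.totalDegree ≤ D)
    (f : Fin T → Fin S → MvPolynomial (Fin n) L) (hf : ∀ i j, f i j ∈ Cls w w S k)
    (hfF : ∑ i, ∏ j, f i j = F) :
    ∃ m', ∀ m, v (MvPolynomial.coeff m F) ≤ v (MvPolynomial.coeff m' (MvPolynomial.aeval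
      (genV (ddU (Nat.fib (2 * (k + 1) + 4)) w s) n L) F)) := by
  obtain ⟨a, hva, hle, hint, ⟨m, hm⟩, hdeg, f', hf', hfF'⟩ := exists_scale v hS1 F hF0 f hf hfF
  obtain ⟨O, κ, Lf, _, _, _, _, _, ι, π, ϖ, F', g, hι, hπ, hϖ0, hϖ1, hg, hgF, h1, h2, h3, _, h4⟩ :=
    exists_ring v f' hf' _ hfF' hint
  have hF' : MvPolynomial.map π F' ≠ 0 := by
    intro h0
    apply h1 m hm
    rw [h0, MvPolynomial.coeff_zero]
  have h5 := gen_ring ι hι π hπ hϖ0 hϖ1 hw hs hn hT1 hT hS1 hS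
    (fun m hm1 hm2 => h3 m (hv m hm1 hm2)) F' hF' ((h2.trans hdeg).trans hFD) g hg hgF
  obtain ⟨m', hm'⟩ := h4 _ (genV (ddU (Nat.fib (2 * (k + 1) + 4)) w s) n ℤ) (by
    have h6 : (fun i => MvPolynomial.map (Int.castRingHom κ)
        (genV (ddU (Nat.fib (2 * (k + 1) + 4)) w s) n ℤ i)) =
        genV (ddU (Nat.fib (2 * (k + 1) + 4)) w s) n κ := funext fun i => map_genV _ _ _ i
    rw [h6]
    exact h5)
  refine ⟨m', fun m => ?_⟩
  have h6 : (fun i => MvPolynomial.map (Int.castRingHom L)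
      (genV (ddU (Nat.fib (2 * (k + 1) + 4)) w s) n ℤ i)) =
      genV (ddU (Nat.fib (2 * (k + 1) + 4)) w s) n L := funext fun i => map_genV _ _ _ i
  rw [h6, map_mul, MvPolynomial.algHom_C, MvPolynomial.algebraMap_eq,
    MvPolynomial.coeff_C_mul] at hm'
  rw [val_of_scale v hva hm']
  exact hle m

end val

end Pool.QPIT
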