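import Pool.Agent.QPIT.Gauge
import Pool.Agent.XDA.Perm

/-!
# The gauge for the code of the words (De Bruijn graph)

`gauge_code`: from the gauge with the widths `1, 2 ^ l, ..., 2 ^ l, 1`: outside of a hypersurface
there are linear directions, one for each letter of the code, along which iterated matrix
multiplication is exactly a constant plus the sum of the products of the letters of the words.
-/

set_option autoImplicit false

namespace Pool.QPIT

open Finset Pool.XD Pool.XDA

section code

variable {A : Type} [CommRing A] (k l : ℕ)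

/-- the widths of the graph of the words -/
def wdc (j : ℕ) : ℕ := if j = 0 ∨ j = k + l then 1 else 2 ^ l

/-- the numbers of the states -/
noncomputable def enS : (Fin l → Bool) ≃ Fin (2 ^ l) :=
  Fintype.equivFinOfCardEq (by rw [Fintype.card_fun, Fintype.card_bool, Fintype.card_fin])

/-- the state of the vertex `a` of the layer `j` -/
noncomputable def decS (j a : ℕ) : Fin l → Bool :=
  if j = 0 then fun _ => false else if h : a < 2 ^ l then (enS l).symm ⟨a, h⟩ else fun _ => false

/-- the edge from `a` to `b` in the block `j` has the new bit `β` -/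
def okE (j a b : ℕ) (β : Bool) : Prop :=
  okb k j β ∧ (j + 1 = k + l ∨ (enS l (shf l (decS l j a) β) : ℕ) = b)

open Classical in
/-- the total weight of the letters over the edge from `a` to `b` in the block `j` -/
noncomputable def eW (Y : ℕ → (Fin (l + 1) → Bool) → A) (j a b : ℕ) : A :=
  ∑ β : Bool, if okE k l j a b β then Y j (cont l (decS l j a) β) else 0

theorem PS_eW (Y : ℕ → (Fin (l + 1) → Bool) → A) (m : ℕ) : ∀ j a : ℕ, j + m = k + l →
    PS (wdc k l) (eW k l Y) m j a = cW k l Y m j (decS l j a) := by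
  classical
  induction m with
  | zero => intro j a _; rfl
  | succ m ih =>
    intro j a hj
    rw [PS_succ]
    show _ = ∑ ε : Bool, (if okb k j ε then Y j (cont l (decS l j a) ε) *
      cW k l Y m (j + 1) (shf l (decS l j a) ε) else 0)
    have h1 : ∀ b ∈ range (wdc k l (j + 1)), eW k l Y j a b * PS (wdc k l) (eW k l Y) m (j + 1) b =
        ∑ β : Bool, (if okE k l j a b β then Y j (cont l (decS l j a) β) *
          cW k l Y m (j + 1) (decS l (j + 1) b) else 0) := by
      intro b _
      rw [ih (j + 1) b (by omega)]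
      unfold eW
      rw [sum_mul]
      refine sum_congr rfl fun β _ => ?_
      rw [ite_mul, zero_mul]
    rw [sum_congr rfl h1, sum_comm]
    refine sum_congr rfl fun β _ => ?_
    by_cases hb : okb k j β
    · rw [if_pos hb]
      by_cases hl : j + 1 = k + l
      · have hm : m = 0 := by omega
        subst hm
        have hw : wdc k l (j + 1) = 1 := if_pos (Or.inr hl)
        rw [hw, sum_range_one, if_pos ⟨hb, Or.inl hl⟩]
        rfl
      · have hw : wdc k l (j + 1) = 2 ^ l := if_neg (by omega)
        rw [hw, sum_eq_single (enS l (shf l (decS l j a) β) : ℕ)]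
        · rw [if_pos ⟨hb, Or.inr rfl⟩]
          congr 2
          unfold decS
          rw [if_neg (Nat.succ_ne_zero _), dif_pos (enS l _).2]
          exact (enS l).symm_apply_apply _
        · intro b _ hne
          rw [if_neg]
          rintro ⟨_, h | h⟩
          · exact hl h
          · exact hne h.symm
        · intro h
          exact absurd (mem_range.2 (enS l _).2) h
    · rw [if_neg hb]
      exact sum_eq_zero fun b _ => if_neg fun h => hb h.1

end code

section main

variable {kb l : ℕ}

open Classical in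
/-- the incidence of the letters of the code and the edges of the graph -/
noncomputable def inc (K : Type) [Field K] (kb l : ℕ) (x : Lt kb l)
    (y : Ltr (kb + l) (wdc kb l)) : K :=
  if x.1 = y.1 ∧ Fin.tail x.2 = decS l y.1 y.2.1 ∧ okE kb l y.1 y.2.1 y.2.2 (x.2 0) then 1 else 0

theorem sum_inc {K R : Type} [Field K] [CommRing R] [Algebra K R] (X : Lt kb l → R)
    (y : Ltr (kb + l) (wdc kb l)) :
    ∑ x, X x * algebraMap K R (inc K kb l x y) =
      eW kb l (fun j c => if h : j < kb + l then X (⟨j, h⟩, c) else 0) y.1 y.2.1 y.2.2 := by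
  classical
  obtain ⟨i, a, b⟩ := y
  rw [Fintype.sum_prod_type, sum_eq_single i]
  · have e1 := (Fin.consEquiv (fun _ : Fin (l + 1) => Bool)).sum_comp
      (fun c : Fin (l + 1) → Bool => X (i, c) * algebraMap K R (inc K kb l (i, c) ⟨i, a, b⟩))
    rw [← e1, Fintype.sum_prod_type]
    unfold eW
    refine sum_congr rfl fun β _ => ?_
    rw [sum_eq_single (decS l i a)]
    · show X (i, Fin.cons (α := fun _ : Fin (l + 1) => Bool) β (decS l i a)) *
        algebraMap K R (if i = i ∧
          Fin.tail (Fin.cons (α := fun _ : Fin (l + 1) => Bool) β (decS l i a)) = decS l i a ∧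
          okE kb l i a b (Fin.cons (α := fun _ : Fin (l + 1) => Bool) β (decS l i a) 0)
          then 1 else 0) = _
      rw [Fin.tail_cons, Fin.cons_zero]
      by_cases h : okE kb l i a b β
      · rw [if_pos ⟨rfl, rfl, h⟩, if_pos h, map_one, mul_one]
        show _ = (if h : (i : ℕ) < kb + l then X (⟨i, h⟩, cont l (decS l i a) β) else 0)
        rw [dif_pos i.2]
        rfl
      · rw [if_neg (fun h1 => h h1.2.2), if_neg h, map_zero, mul_zero]
    · intro s _ hs
      show X (i, Fin.cons (α := fun _ : Fin (l + 1) => Bool) β s) *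
        algebraMap K R (if i = i ∧
          Fin.tail (Fin.cons (α := fun _ : Fin (l + 1) => Bool) β s) = decS l i a ∧
          okE kb l i a b (Fin.cons (α := fun _ : Fin (l + 1) => Bool) β s 0)
          then 1 else 0) = 0
      rw [Fin.tail_cons, if_neg (fun h => hs h.2.1), map_zero, mul_zero]
    · intro h
      exact absurd (mem_univ _) h
  · intro j _ hj
    refine sum_eq_zero fun c _ => ?_
    show X (j, c) * algebraMap K R (if j = i ∧ _ then 1 else 0) = 0
    rw [if_neg (fun h => hj h.1), map_zero, mul_zero]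
  · intro h
    exact absurd (mem_univ _) h

/-- **the gauge for the code** -/
theorem gauge_code {K : Type} [Field K] {kb l : ℕ} (hkb : 1 ≤ kb) (hd : 2 ≤ kb + l) (W : Type)
    [Fintype W] [DecidableEq W] (o : W) (hW : (kb + l - 1) * 2 ^ l + 1 ≤ Fintype.card W) :
    ∃ V1 : MvPolynomial (Fin (kb + l) × W × W) K, V1 ≠ 0 ∧
      ∀ x : Fin (kb + l) × W × W → K, MvPolynomial.eval x V1 ≠ 0 →
        ∃ D : Fin 1 × Lt kb l → Fin (kb + l) × W × W → K,
          ∀ (R : Type) [CommRing R] [Algebra K R] (X : Fin 1 × Lt kb l → R),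
            MvPolynomial.aeval (fun v => algebraMap K R (x v) +
              ∑ a, X a * algebraMap K R (D a v)) (immP (kb + l) W o K) =
            algebraMap K R (MvPolynomial.eval x (immP (kb + l) W o K)) +
              ∑ s : Fin 1 → (Fin kb → Bool), ∏ i : Fin 1, ∏ a ∈ ltS l (s i), X (i, a) := by
  classical
  have hw0 : wdc kb l 0 = 1 := if_pos (Or.inl rfl)
  have hw1 : wdc kb l (kb + l) = 1 := if_pos (Or.inr rfl)
  -- the injection
  have hinj : ∃ e : GV (kb + l) (wdc kb l) → W, Function.Injective e ∧ e none = o := by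
    have hc : Fintype.card (GV (kb + l) (wdc kb l)) = (kb + l - 1) * 2 ^ l + 1 := by
      rw [Fintype.card_option, Fintype.card_sigma]
      congr 1
      have h1 : ∀ j : Fin (kb + l - 1), Fintype.card (Fin (wdc kb l (j + 1))) = 2 ^ l := by
        intro j
        rw [Fintype.card_fin]
        have := j.2
        exact if_neg (by omega)
      rw [sum_congr rfl fun j _ => h1 j, sum_const, card_univ, Fintype.card_fin, smul_eq_mul]
    rw [← hc] at hW
    obtain ⟨e0⟩ := Function.Embedding.nonempty_of_card_le hW
    refine ⟨fun x => Equiv.swap (e0 none) o (e0 x), ?_, ?_⟩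
    · intro x y h
      exact e0.injective ((Equiv.swap (e0 none) o).injective h)
    · exact Equiv.swap_apply_left _ _
  obtain ⟨V, hV, hV2⟩ := gauge K (kb + l) (wdc kb l) W o hd hw0 hw1 hinj
  refine ⟨V, hV, fun x hx => ?_⟩
  obtain ⟨D0, hD0⟩ := hV2 x hx
  refine ⟨fun a v => ∑ y, inc K kb l a.2 y * D0 y v, ?_⟩
  intro R _ _ X
  obtain ⟨X0, hX0⟩ : ∃ X0 : Ltr (kb + l) (wdc kb l) → R,
      X0 = fun y => ∑ x, X (0, x) * algebraMap K R (inc K kb l x y) := ⟨_, rfl⟩
  have h1 := hD0 R X0
  have h2 : (fun v => algebraMap K R (x v) + ∑ y, X0 y * algebraMap K R (D0 y v)) =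
      fun v => algebraMap K R (x v) +
        ∑ a : Fin 1 × Lt kb l, X a * algebraMap K R (∑ y, inc K kb l a.2 y * D0 y v) := by
    funext v
    congr 1
    rw [Fintype.sum_prod_type, Fin.sum_univ_one]
    have h3 : ∀ y, X0 y * algebraMap K R (D0 y v) =
        ∑ x, X (0, x) * (algebraMap K R (inc K kb l x y) * algebraMap K R (D0 y v)) := by
      intro y
      rw [hX0]
      show (∑ x, X (0, x) * algebraMap K R (inc K kb l x y)) * _ = _
      rw [sum_mul]
      exact sum_congr rfl fun x _ => mul_assoc _ _ _
    rw [sum_congr rfl fun y _ => h3 y, sum_comm]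
    refine sum_congr rfl fun x _ => ?_
    rw [← mul_sum, map_sum]
    show _ = X (0, x) * _
    congr 1
    exact sum_congr rfl fun y _ => (map_mul _ _ _).symm
  rw [h2] at h1
  rw [h1]
  congr 1
  -- the words
  obtain ⟨Y, hY⟩ : ∃ Y : ℕ → (Fin (l + 1) → Bool) → R,
      Y = fun j c => if h : j < kb + l then X (0, (⟨j, h⟩, c)) else 0 := ⟨_, rfl⟩
  have h4 : ∀ y, X0 y = eW kb l Y y.1 y.2.1 y.2.2 := by
    intro y
    rw [hX0, hY]
    exact sum_inc (fun x => X (0, x)) y
  have h5 : ∑ s : Wrd (kb + l) (wdc kb l), ∏ i : Fin (kb + l), X0 (ltr s i) =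
      ∑ s : Wrd (kb + l) (wdc kb l), ∏ i : Fin (kb + l),
        eW kb l Y i (s i.castSucc) (s i.succ) := by
    refine sum_congr rfl fun s _ => prod_congr rfl fun i _ => ?_
    rw [h4]
    rfl
  rw [h5, sum_wrd (kb + l) (wdc kb l) (eW kb l Y) hw0, PS_eW kb l Y (kb + l) 0 0 (by omega)]
  have h6 : decS l 0 0 = fun _ => false := if_pos rfl
  rw [h6, cW_eq]
  have h7 := (Equiv.funUnique (Fin 1) (Fin kb → Bool)).symm.sum_comp
    (fun s : Fin 1 → (Fin kb → Bool) => ∏ i : Fin 1, ∏ a ∈ ltS l (s i), X (i, a))
  rw [← h7]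
  refine sum_congr rfl fun t _ => ?_
  rw [Fin.prod_univ_one]
  show _ = ∏ a ∈ ltS l t, X (0, a)
  unfold ltS
  rw [prod_image fun a _ b _ h => (Prod.mk.inj h).1, ← Fin.prod_univ_eq_prod_range
    (fun j => Y j (win l t j)) (kb + l)]
  refine prod_congr rfl fun j _ => ?_
  rw [hY]
  exact dif_pos j.2

end main

end Pool.QPIT
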