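import Pool.Agent.QPIT.Hybrid

/-!
# QPIT: the hybrid argument over a field in which `0, ..., D` are different

`hybridV`: the point of the hybrid argument is taken in the grid `{0, ..., D}`, so that the polynomials
which are put into the variables are defined over `ℤ`.
-/

set_option autoImplicit false

namespace Pool.QPIT

open MvPolynomial

section grid

theorem degV_aeval {V R : Type} [CommRing R] {ι : Type} {e : ℕ} (G : ι → MvPolynomial V R)
    (v : V) (hG : ∀ i, (G i).degreeOf v ≤ e) (F : MvPolynomial ι R) :
    (aeval G F : MvPolynomial V R).degreeOf v ≤ e * F.totalDegree := by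
  classical
  rw [aeval_def, eval₂_eq]
  refine (degreeOf_sum_le v F.support _).trans (Finset.sup_le fun m hm => ?_)
  refine (degreeOf_mul_le v _ _).trans ?_
  have h1 : (algebraMap R (MvPolynomial V R) (coeff m F)).degreeOf v = 0 := degreeOf_C _ v
  rw [h1, zero_add]
  refine (degreeOf_prod_le v m.support _).trans ?_
  refine (Finset.sum_le_sum fun i _ => (degreeOf_pow_le v (G i) (m i)).trans
    (Nat.mul_le_mul_left (m i) (hG i))).trans ?_
  rw [← Finset.sum_mul, mul_comm]
  exact Nat.mul_le_mul_left e (le_totalDegree hm)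

theorem degV_rename {V Z R : Type} [CommRing R] {e : V → Z} (he : Function.Injective e)
    {f : MvPolynomial V R} {D : ℕ} (hf : ∀ v, f.degreeOf v ≤ D) (z : Z) :
    (rename e f).degreeOf z ≤ D := by
  classical
  by_cases h : ∃ v, e v = z
  · obtain ⟨v, rfl⟩ := h
    rw [degreeOf_rename_of_injective he]
    exact hf v
  · have h1 : z ∉ (rename e f).vars := by
      intro h2
      have h3 := vars_rename e f h2
      rw [Finset.mem_image] at h3
      obtain ⟨v, _, h4⟩ := h3
      exact h ⟨v, h4⟩
    have h2 : (rename e f).degreeOf z = 0 := by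
      rw [degreeOf_def, Multiset.count_eq_zero]
      intro h3
      exact h1 (by rw [vars_def]; exact Multiset.mem_toFinset.2 h3)
    rw [h2]
    exact Nat.zero_le _

theorem degV_map {V R K : Type} [CommRing R] [CommRing K] (φ : R →+* K) {f : MvPolynomial V R} {D : ℕ}
    {v : V} (hf : f.degreeOf v ≤ D) : (map φ f).degreeOf v ≤ D := by
  rw [degreeOf_le_iff] at hf ⊢
  exact fun m hm => hf m (support_map_subset φ f hm)

/-- a nonzero polynomial has a value different from zero at a point with coordinates in
`0, ..., D` -/
theorem exists_gridV {σ K : Type} [Finite σ] [Field K] {D : ℕ}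
    (hD : ∀ a ≤ D, ∀ b ≤ D, (a : K) = (b : K) → a = b) {f : MvPolynomial σ K} (hf : f ≠ 0)
    (hfD : ∀ v, f.degreeOf v ≤ D) :
    ∃ x : σ → ℕ, (∀ v, x v ≤ D) ∧ eval (fun v => (x v : K)) f ≠ 0 := by
  classical
  by_contra hcon
  push Not at hcon
  apply hf
  refine MvPolynomial.eq_zero_of_eval_zero_at_prod_finset f
    (fun _ => (Finset.range (D + 1)).image fun a : ℕ => (a : K)) (fun i => ?_) fun x hx => ?_
  · rw [Finset.card_image_of_injOn, Finset.card_range]
    · exact Nat.lt_succ_of_le (hfD i)
    · intro a ha b hb h
      exact hD a (by have := Finset.mem_range.1 ha; omega) b (by have := Finset.mem_range.1 hb; omega) h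
  · choose y hy1 hy using fun i => Finset.mem_image.1 (hx i)
    have h1 := hcon y fun v => by have := Finset.mem_range.1 (hy1 v); omega
    have h2 : x = fun i => (y i : K) := funext fun i => (hy i).symm
    rw [h2]
    exact h1

end grid

section hybZ

variable {A Z : Type} {n : ℕ}

open Classical in
/-- the seed `z` seen from the set of seeds `e`: a variable or an integer -/
noncomputable def lookZ (e : A → Z) (c : Z → ℤ) (z : Z) : MvPolynomial (Option A) ℤ :=
  if h : ∃ a, e a = z then X (some h.choose) else C (c z)

theorem lookZ_self {e : A → Z} (he : Function.Injective e) (c : Z → ℤ) (a : A) :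
    lookZ e c (e a) = X (some a) := by
  classical
  have h : ∃ a', e a' = e a := ⟨a, rfl⟩
  rw [lookZ, dif_pos h]
  exact congrArg (fun b => X (some b)) (he h.choose_spec)

theorem lookZ_of_not {e : A → Z} (c : Z → ℤ) {z : Z} (h : ∀ a, e a ≠ z) :
    lookZ e c z = C (c z) := by
  classical
  rw [lookZ, dif_neg]
  rintro ⟨a, ha⟩
  exact h a ha

theorem map_lookZ {K : Type} [Field K] (e : A → Z) (c : Z → ℤ) (z : Z) :
    map (Int.castRingHom K) (lookZ e c z) = look e (fun z => ((c z : ℤ) : K)) z := by
  classical
  rw [lookZ, look]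
  split_ifs with h
  · rw [map_X]
  · rw [map_C]
    rfl

theorem degV_lookZ (e : A → Z) (c : Z → ℤ) (z : Z) : (lookZ e c z).degreeOf none ≤ 0 := by
  classical
  rw [lookZ]
  split_ifs with h
  · rw [degreeOf_X, if_neg (by simp)]
  · rw [degreeOf_C]

open Classical in
/-- the polynomials which are put into the variables at step `j` of the hybrid argument -/
noncomputable def hybZ (f : MvPolynomial A ℤ) (e : Fin n → A → Z) (j : Fin n) (c : Z → ℤ)
    (b : Fin n → ℤ) (i : Fin n) : MvPolynomial (Option A) ℤ :=
  if i < j then aeval (fun a => lookZ (e j) c (e i a)) f else if i = j then X none else C (b i)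

theorem map_aevalZ {K : Type} [Field K] (θ : A → MvPolynomial (Option A) ℤ) (f : MvPolynomial A ℤ) :
    map (Int.castRingHom K) (aeval θ f) =
      aeval (fun a => map (Int.castRingHom K) (θ a)) (map (Int.castRingHom K) f) := by
  have h1 : (map (Int.castRingHom K)).comp (aeval θ : MvPolynomial A ℤ →ₐ[ℤ] _).toRingHom =
      (aeval (fun a => map (Int.castRingHom K) (θ a)) : MvPolynomial A K →ₐ[K] _).toRingHom.comp
        (map (Int.castRingHom K)) := by
    apply MvPolynomial.ringHom_ext
    · intro r
      simp
    · intro i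
      simp
  exact DFunLike.congr_fun h1 f

theorem map_hybZ {K : Type} [Field K] (f : MvPolynomial A ℤ) (e : Fin n → A → Z) (j : Fin n)
    (c : Z → ℤ) (b : Fin n → ℤ) (i : Fin n) :
    map (Int.castRingHom K) (hybZ f e j c b i) =
      hyb (map (Int.castRingHom K) f) e j (fun z => ((c z : ℤ) : K)) (fun i => ((b i : ℤ) : K)) i := by
  classical
  rw [hybZ, hyb]
  split_ifs with h1 h2
  · rw [map_aevalZ]
    congr 2
    funext a
    exact map_lookZ _ _ _
  · rw [map_X]
  · rw [map_C]
    rfl

theorem degV_hybZ (f : MvPolynomial A ℤ) (e : Fin n → A → Z) (j : Fin n) (c : Z → ℤ)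
    (b : Fin n → ℤ) (i : Fin n) : (hybZ f e j c b i).degreeOf none ≤ 1 := by
  classical
  rw [hybZ]
  split_ifs with h1 h2
  · have h3 := degV_aeval (e := 0) (fun a => lookZ (e j) c (e i a)) none
      (fun a => degV_lookZ _ _ _) f
    omega
  · rw [degreeOf_X, if_pos rfl]
  · rw [degreeOf_C]
    exact Nat.zero_le _

/-- the hybrid argument with a point of the grid -/
theorem hybrid_absV {K : Type} [Field K] [Finite Z] {D : ℕ}
    (hD : ∀ a ≤ D, ∀ b ≤ D, (a : K) = (b : K) → a = b) (f : MvPolynomial A K)
    (hf : ∀ v, f.degreeOf v ≤ 1) (e : Fin n → A → Z) (he : ∀ i, Function.Injective (e i))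
    {F : MvPolynomial (Fin n) K} (hF : F ≠ 0) (hFD : F.totalDegree ≤ D)
    (hG : aeval (fun i => rename (e i) f) F = (0 : MvPolynomial Z K)) :
    ∃ (j : Fin n) (c : Z → ℕ) (b : Fin n → ℕ),
      aeval (hyb f e j (fun z => (c z : K)) (fun i => (b i : K))) F ≠ 0 ∧
        subY f (aeval (hyb f e j (fun z => (c z : K)) (fun i => (b i : K))) F) = 0 := by
  classical
  -- the hybrids
  let g : ℕ → Fin n → MvPolynomial (Z ⊕ Fin n) K := fun j i =>
    if i.val < j then rename Sum.inl (rename (e i) f) else X (Sum.inr i)
  let H : ℕ → MvPolynomial (Z ⊕ Fin n) K := fun j => aeval (g j) F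
  have hH0 : H 0 ≠ 0 := by
    have h1 : H 0 = rename Sum.inr F := by
      show aeval (g 0) F = rename Sum.inr F
      rw [rename_eq_aeval]
      congr 1
    rw [h1]
    intro h2
    apply hF
    exact rename_injective _ Sum.inr_injective (by rw [h2, map_zero])
  have hHn : H n = 0 := by
    have h1 : H n = rename Sum.inl (aeval (fun i => rename (e i) f) F : MvPolynomial Z K) := by
      show aeval (g n) F = _
      rw [← AlgHom.comp_apply]
      congr 1
      apply MvPolynomial.algHom_ext
      intro i
      rw [AlgHom.comp_apply, aeval_X, aeval_X]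
      show (if i.val < n then _ else _) = _
      rw [if_pos i.2]
    rw [h1, hG, map_zero]
  obtain ⟨j, hj1, hj2, hj3⟩ : ∃ j, j < n ∧ H j ≠ 0 ∧ H (j + 1) = 0 := by
    by_contra hcon
    push Not at hcon
    have h1 : ∀ j, j ≤ n → H j ≠ 0 := by
      intro j
      induction j with
      | zero => intro _; exact hH0
      | succ j ih => intro h; exact hcon j (by omega) (ih (by omega))
    exact h1 n le_rfl hHn
  let j' : Fin n := ⟨j, hj1⟩
  -- the degrees
  have hdeg : ∀ v, (H j).degreeOf v ≤ D := by
    intro v
    have h1 : ∀ i, (g j i).degreeOf v ≤ 1 := by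
      intro i
      show (if i.val < j then rename Sum.inl (rename (e i) f) else X (Sum.inr i)).degreeOf v ≤ 1
      split_ifs with h
      · exact degV_rename Sum.inl_injective (fun z => degV_rename (he i) hf z) v
      · rw [degreeOf_X]
        split_ifs
        · exact le_rfl
        · exact Nat.zero_le _
    have h2 := degV_aeval (e := 1) (g j) v h1 F
    rw [one_mul] at h2
    exact h2.trans hFD
  -- a point where the hybrid does not vanish
  obtain ⟨p, -, hp⟩ := exists_gridV hD hj2 hdeg
  let c : Z → K := fun z => (p (Sum.inl z) : K)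
  let b : Fin n → K := fun i => (p (Sum.inr i) : K)
  let σ : Z ⊕ Fin n → MvPolynomial (Option A) K := Sum.elim (fun z => look (e j') c z)
    fun i => if i = j' then X none else C (b i)
  have hcomp : aeval (hyb f e j' c b) F = aeval σ (H j) := by
    show _ = aeval σ (aeval (g j) F)
    rw [← AlgHom.comp_apply]
    congr 1
    apply MvPolynomial.algHom_ext
    intro i
    rw [AlgHom.comp_apply, aeval_X, aeval_X]
    show _ = aeval σ (if i.val < j then rename Sum.inl (rename (e i) f) else X (Sum.inr i))
    rw [hyb]
    by_cases h1 : i < j'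
    · have h2 : i.val < j := h1
      rw [if_pos h1, if_pos h2, aeval_rename, aeval_rename]
      rfl
    · have h2 : ¬ i.val < j := h1
      rw [if_neg h1, if_neg h2, aeval_X]
      rfl
  refine ⟨j', fun z => p (Sum.inl z), fun i => p (Sum.inr i), ?_, ?_⟩
  · -- the value at the point
    intro h0
    apply hp
    let q : Option A → K := fun o => o.elim (p (Sum.inr j') : K) fun a => (p (Sum.inl (e j' a)) : K)
    have h1 : ∀ s, eval q (σ s) = (p s : K) := by
      rintro (z | i)
      · show eval q (look (e j') c z) = (p (Sum.inl z) : K)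
        by_cases h2 : ∃ a, e j' a = z
        · obtain ⟨a, rfl⟩ := h2
          rw [look_self (he j'), eval_X]
          rfl
        · rw [look_of_not c fun a ha => h2 ⟨a, ha⟩, eval_C]
      · show eval q (if i = j' then X none else C (b i)) = (p (Sum.inr i) : K)
        by_cases h2 : i = j'
        · rw [if_pos h2, eval_X, h2]
          rfl
        · rw [if_neg h2, eval_C]
    have h2 : eval q (aeval σ (H j)) = eval (fun v => (p v : K)) (H j) := by
      have h3 : ((aeval q : MvPolynomial (Option A) K →ₐ[K] K).comp (aeval σ)) =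
          aeval fun v => (p v : K) := by
        apply MvPolynomial.algHom_ext
        intro s
        rw [AlgHom.comp_apply, aeval_X, aeval_X]
        exact h1 s
      exact DFunLike.congr_fun h3 (H j)
    have h0' : aeval (hyb f e j' c b) F = 0 := h0
    rw [← h2, ← hcomp, h0', map_zero]
  · -- it vanishes at y = f
    have h1 : subY f (aeval σ (H j)) = aeval (fun s => subY f (σ s)) (H (j + 1)) := by
      have h2 : subY f (aeval σ (H j)) = aeval (fun s => subY f (σ s)) (H j) := by
        rw [← AlgHom.comp_apply]
        congr 1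
        apply MvPolynomial.algHom_ext
        intro s
        rw [AlgHom.comp_apply, aeval_X, aeval_X]
      rw [h2]
      show aeval (fun s => subY f (σ s)) (aeval (g j) F) =
        aeval (fun s => subY f (σ s)) (aeval (g (j + 1)) F)
      rw [← AlgHom.comp_apply, ← AlgHom.comp_apply]
      congr 1
      apply MvPolynomial.algHom_ext
      intro i
      rw [AlgHom.comp_apply, AlgHom.comp_apply, aeval_X, aeval_X]
      show aeval (fun s => subY f (σ s)) (if i.val < j then rename Sum.inl (rename (e i) f)
        else X (Sum.inr i)) = aeval (fun s => subY f (σ s))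
          (if i.val < j + 1 then rename Sum.inl (rename (e i) f) else X (Sum.inr i))
      by_cases h3 : i.val < j
      · rw [if_pos h3, if_pos (by omega)]
      · by_cases h4 : i.val = j
        · rw [if_neg h3, if_pos (by omega), aeval_X, aeval_rename, aeval_rename]
          have h5 : i = j' := Fin.ext h4
          have h6 : ((fun s => subY f (σ s)) ∘ Sum.inl) ∘ e i = (X : A → MvPolynomial A K) := by
            funext a
            show subY f (look (e j') c (e i a)) = X a
            rw [h5, look_self (he j'), subY, aeval_X]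
            rfl
          rw [h6, aeval_X_left_apply]
          show subY f (if i = j' then X none else C (b i)) = f
          rw [if_pos h5, subY, aeval_X]
          rfl
        · rw [if_neg h3, if_neg (by omega)]
    have h2 : subY f (aeval (hyb f e j' c b) F) = 0 := by
      rw [hcomp, h1, hj3, map_zero]
    exact h2

end hybZ

/-- **the hybrid argument over any field in which `0, ..., D` are different, integral constants** -/
theorem hybridV {V Z K : Type} [Finite V] [Finite Z] [Field K] {n κ D : ℕ} (hκ : 1 ≤ κ)
    (hD : ∀ a ≤ D, ∀ b ≤ D, (a : K) = (b : K) → a = b)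
    (f : MvPolynomial V ℤ) (hf : ∀ v, f.degreeOf v ≤ 1) (pl : Fin n → V → Z)
    (hpl : ∀ i j v v', pl i v = pl j v' → v = v')
    (hag : ∀ i j, i ≠ j → {v | pl i v = pl j v}.ncard < κ)
    (F : MvPolynomial (Fin n) K) (hF : F ≠ 0) (hFD : F.totalDegree ≤ D)
    (hF0 : MvPolynomial.aeval (fun i => MvPolynomial.rename (pl i)
      (MvPolynomial.map (Int.castRingHom K) f)) F = 0) :
    ∃ φ : Fin n → MvPolynomial (Option V) ℤ, (∀ i, Sps (2 ^ κ) (κ + 1) (φ i)) ∧
      (∀ i, (φ i).degreeOf none ≤ 1) ∧
      (MvPolynomial.aeval (fun i => MvPolynomial.map (Int.castRingHom K) (φ i)) F).degreeOf none ≤ D ∧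
      MvPolynomial.aeval (fun i => MvPolynomial.map (Int.castRingHom K) (φ i)) F ≠ 0 ∧
      subY (MvPolynomial.map (Int.castRingHom K) f)
        (MvPolynomial.aeval (fun i => MvPolynomial.map (Int.castRingHom K) (φ i)) F) = 0 := by
  classical
  obtain ⟨j, c, b, h1, h2⟩ := hybrid_absV hD (MvPolynomial.map (Int.castRingHom K) f)
    (fun v => degV_map _ (hf v)) pl (fun i v v' h => hpl i i v v' h) hF hFD hF0
  have hmap : (fun i => MvPolynomial.map (Int.castRingHom K)
      (hybZ f pl j (fun z => (c z : ℤ)) (fun i => (b i : ℤ)) i)) =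
      hyb (MvPolynomial.map (Int.castRingHom K) f) pl j (fun z => (c z : K)) (fun i => (b i : K)) := by
    funext i
    rw [map_hybZ]
    congr 1
    · funext z
      exact Int.cast_natCast _
    · funext z
      exact Int.cast_natCast _
  refine ⟨hybZ f pl j (fun z => (c z : ℤ)) (fun i => (b i : ℤ)), fun i => ?_, fun i => degV_hybZ _ _ _ _ _ _, ?_,
    ?_, ?_⟩
  · rw [hybZ]
    have h2κ : 1 ≤ 2 ^ κ := Nat.one_le_two_pow
    by_cases h3 : i < j
    · rw [if_pos h3]
      have hfin : {v | pl i v = pl j v}.Finite := Set.toFinite _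
      have hcard : hfin.toFinset.card ≤ κ := by
        have h4 := hag i j h3.ne
        rw [Set.ncard_eq_toFinset_card _ hfin] at h4
        exact h4.le
      refine Sps.restrict hfin.toFinset f hf _ some ?_ (fun v => ((c (pl i v) : ℕ) : ℤ)) ?_ hcard
        (fun x _ y _ h => Option.some_injective _ h)
      · intro v hv
        rw [Set.Finite.mem_toFinset, Set.mem_ofPred_eq] at hv
        show lookZ (pl j) _ (pl i v) = _
        rw [hv, lookZ_self fun v v' h => hpl j j v v' h]
      · intro v hv
        rw [Set.Finite.mem_toFinset, Set.mem_ofPred_eq] at hv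
        show lookZ (pl j) _ (pl i v) = _
        rw [lookZ_of_not]
        intro v' hv'
        have h5 := hpl j i v' v hv'
        rw [h5] at hv'
        exact hv hv'.symm
    · rw [if_neg h3]
      by_cases h4 : i = j
      · rw [if_pos h4]
        exact Sps.X h2κ hκ none
      · rw [if_neg h4]
        exact Sps.C h2κ κ _
  · have h3 := degV_aeval (e := 1) (fun i => MvPolynomial.map (Int.castRingHom K)
      (hybZ f pl j (fun z => (c z : ℤ)) (fun i => (b i : ℤ)) i)) none
      (fun i => degV_map _ (degV_hybZ _ _ _ _ _ _)) F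
    rw [one_mul] at h3
    exact h3.trans hFD
  · rw [hmap]
    exact h1
  · rw [hmap]
    exact h2

end Pool.QPIT
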