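import Pool.Agent.XDA.Num

/-!
# QPITV, row VB: the numbers for one chunk of the De Bruijn code, explicit constants
-/

set_option autoImplicit false

namespace Pool.QPIT

open Real Pool.XD Pool.XDA

theorem two_pow_gt {a : ℕ} (ha : 17 ≤ a) : 256 * a ^ 2 < 2 ^ a := by
  induction a, ha using Nat.le_induction with
  | base => norm_num
  | succ a ha ih =>
    rw [pow_succ 2 a]
    nlinarith

/-- the rates: bounds for the two bases -/
theorem theta_spec {A B : ℕ} (hB : 1 ≤ B) (hBA : B ≤ A) (hA2 : A ≤ 2 * B) :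
    ∃ θ t : ℝ, 0 < θ ∧ θ < 1 ∧ 2 * log 2 ≤ t ∧ t * ((B : ℝ) / A) / 2 ≤ log 2 ∧
      (2 : ℝ) ^ (1 / θ) = exp t ∧ (2 : ℝ) ^ (1 / (1 - θ)) = exp (t * ((B : ℝ) / A)) ∧
      (2 : ℝ) ^ (1 / θ) ≤ 8 ∧ (2 : ℝ) ^ (1 / (1 - θ)) ≤ 8 := by
  have hBr : (1 : ℝ) ≤ B := by exact_mod_cast hB
  have hBAr : (B : ℝ) ≤ A := by exact_mod_cast hBA
  have hA2r : (A : ℝ) ≤ 2 * B := by exact_mod_cast hA2
  have hAB0 : (0 : ℝ) < A + B := by linarith
  have hA0 : (0 : ℝ) < A := by linarith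
  have hB0 : (0 : ℝ) < B := by linarith
  have hl2 : 0 < log 2 := log_pos (by norm_num)
  obtain ⟨t, ht⟩ : ∃ t : ℝ, t = log 2 * (((A : ℝ) + B) / B) := ⟨_, rfl⟩
  obtain ⟨θ, hθ⟩ : ∃ θ : ℝ, θ = (B : ℝ) / (A + B) := ⟨_, rfl⟩
  have hθi : 1 / θ = ((A : ℝ) + B) / B := by
    rw [hθ, one_div_div]
  have h1θ : 1 - θ = (A : ℝ) / (A + B) := by
    rw [hθ]
    field_simp
    ring
  have h1θi : 1 / (1 - θ) = ((A : ℝ) + B) / A := by
    rw [h1θ, one_div_div]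
  refine ⟨θ, t, by rw [hθ]; positivity, ?_, ?_, ?_, ?_, ?_, ?_, ?_⟩
  · rw [hθ, div_lt_one hAB0]
    linarith
  · have h1 : (2 : ℝ) ≤ ((A : ℝ) + B) / B := by
      rw [le_div_iff₀ hB0]
      linarith
    rw [ht, mul_comm]
    exact mul_le_mul_of_nonneg_left h1 hl2.le
  · have e1 : t * ((B : ℝ) / A) / 2 = log 2 * (((A : ℝ) + B) / (2 * A)) := by
      rw [ht]
      field_simp
    have e2 : ((A : ℝ) + B) / (2 * A) ≤ 1 := by
      rw [div_le_one (by linarith)]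
      linarith
    rw [e1]
    exact mul_le_of_le_one_right hl2.le e2
  · rw [rpow_def_of_pos (by norm_num), hθi, ht]
  · rw [rpow_def_of_pos (by norm_num), h1θi, ht]
    congr 1
    field_simp
  · rw [hθi]
    have h1 : ((A : ℝ) + B) / B ≤ 3 := by
      rw [div_le_iff₀ hB0]
      linarith
    calc (2 : ℝ) ^ (((A : ℝ) + B) / B) ≤ 2 ^ (3 : ℝ) := rpow_le_rpow_of_exponent_le (by norm_num) h1
      _ = 8 := by norm_num
  · rw [h1θi]
    have h1 : ((A : ℝ) + B) / A ≤ 3 := by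
      rw [div_le_iff₀ hA0]
      linarith
    calc (2 : ℝ) ^ (((A : ℝ) + B) / A) ≤ 2 ^ (3 : ℝ) := rpow_le_rpow_of_exponent_le (by norm_num) h1
      _ = 8 := by norm_num

/-- the final inequality, in logarithms -/
theorem chunk_lt {A B N d kb l r E T : ℕ} {t : ℝ} (hN : 1 ≤ N) (hB : 1 ≤ B) (hBA : B ≤ A)
    (ht : 2 * log 2 ≤ t) (hHV : t * ((B : ℝ) / A) / 2 ≤ log 2) (hT : 1 ≤ T) (hd : 2 ≤ d)
    (hkb : kb + l = d) (hl2 : 2 ^ l ≤ 256 * d ^ 2)
    (hlarge : 80 * (log (2 * d) + log T) * N < d)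
    (hrE : r + E = d) (hr : exp t ^ r ≤ 2 ^ d)
    (hE : exp (t * ((B : ℝ) / A)) ^ E ≤ exp (t * ((B : ℝ) / A)) * 2 ^ d) :
    (4 * (r + 1) * (E + 1)) * (T * ((d + 1 : ℝ) ^ 16 * (exp (t * (1 / 2 - 1 / (4 * N))) ^ r *
        exp (t * ((B : ℝ) / A / 2 - 1 / (4 * N))) ^ E))) < 2 ^ kb := by
  have hNr : (1 : ℝ) ≤ N := by exact_mod_cast hN
  have hN0 : (0 : ℝ) < N := by linarith
  have hdr : (2 : ℝ) ≤ d := by exact_mod_cast hd
  have hTr : (1 : ℝ) ≤ T := by exact_mod_cast hT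
  have hTr0 : (0 : ℝ) < T := by linarith
  have h2 := log_two_gt_d9
  have hr0 : (0 : ℝ) ≤ r := Nat.cast_nonneg _
  have hE0 : (0 : ℝ) ≤ E := Nat.cast_nonneg _
  have hrEr : (r : ℝ) + E = d := by exact_mod_cast hrE
  have hkbr : (kb : ℝ) + l = d := by exact_mod_cast hkb
  have hBr : (0 : ℝ) < B := by exact_mod_cast hB
  have hAr : (0 : ℝ) < A := by exact_mod_cast hB.trans hBA
  -- the two balance conditions
  have hr' : (r : ℝ) * t ≤ d * log 2 := by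
    have h3 := log_le_log (by positivity) hr
    rwa [log_pow, log_pow, log_exp] at h3
  have hE' : (E : ℝ) * (t * ((B : ℝ) / A)) ≤ t * ((B : ℝ) / A) + d * log 2 := by
    have h3 := log_le_log (by positivity) hE
    rwa [log_pow, log_mul (by positivity) (by positivity), log_pow, log_exp] at h3
  have hd1 : (0 : ℝ) < (d : ℝ) + 1 := by linarith
  have hX0 := exp_pos (t * (1 / 2 - 1 / (4 * (N : ℝ))))
  have hY0 := exp_pos (t * ((B : ℝ) / A / 2 - 1 / (4 * (N : ℝ))))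
  have hP0 : (0 : ℝ) < 4 * ((r : ℝ) + 1) * (E + 1) := by positivity
  have hX1 := pow_pos hX0 r
  have hY1 := pow_pos hY0 E
  have hG1 := pow_pos hd1 16
  rw [← log_lt_log_iff (by positivity) (by positivity), log_mul hP0.ne' (by positivity),
    log_mul hTr0.ne' (by positivity), log_mul hG1.ne' (by positivity), log_mul hX1.ne' hY1.ne',
    log_pow, log_pow, log_pow, log_pow, log_exp, log_exp]
  push_cast
  have hld : log ((d : ℝ) + 1) ≤ log (2 * d) := log_le_log hd1 (by linarith)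
  have hld' : log (d : ℝ) ≤ log (2 * d) - log 2 := by
    rw [log_mul (by norm_num) (by linarith)]
    linarith
  have hl4 : 2 * log 2 ≤ log (2 * d) := by
    rw [log_mul (by norm_num) (by linarith)]
    have := log_le_log (by norm_num) hdr
    linarith
  have hW' : log (4 * ((r : ℝ) + 1) * (E + 1)) ≤ 2 * log 2 + 2 * log ((d : ℝ) + 1) := by
    have e1 : (r : ℝ) + 1 ≤ d + 1 := by linarith
    have e2 : (E : ℝ) + 1 ≤ d + 1 := by linarith
    have e3 : ((r : ℝ) + 1) * (E + 1) ≤ (d + 1) * (d + 1) :=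
      mul_le_mul e1 e2 (by positivity) (by positivity)
    have e4 : log (4 * ((r : ℝ) + 1) * (E + 1)) ≤ log (2 ^ 2 * ((d : ℝ) + 1) ^ 2) := by
      apply log_le_log hP0
      have e5 : (2 : ℝ) ^ 2 * ((d : ℝ) + 1) ^ 2 = 4 * ((d + 1) * (d + 1)) := by ring
      rw [e5]
      linarith
    rw [log_mul (by positivity : (2 : ℝ) ^ 2 ≠ 0) (by positivity : ((d : ℝ) + 1) ^ 2 ≠ 0),
      log_pow, log_pow] at e4
    push_cast at e4
    exact e4
  have hl' : (l : ℝ) * log 2 ≤ 8 * log 2 + 2 * log (d : ℝ) := by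
    have e1 : (2 : ℝ) ^ l ≤ 2 ^ 8 * (d : ℝ) ^ 2 := by
      have : ((2 ^ l : ℕ) : ℝ) ≤ ((256 * d ^ 2 : ℕ) : ℝ) := by exact_mod_cast hl2
      push_cast at this
      linarith
    have e2 := log_le_log (by positivity) e1
    rw [log_mul (by positivity) (by positivity), log_pow, log_pow, log_pow] at e2
    push_cast at e2
    exact e2
  have hlT : 0 ≤ log (T : ℝ) := log_nonneg hTr
  -- the gain
  have hgain : 25 * (log (2 * d) + log T) < t * d / (4 * N) := by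
    have e1 : 2 * log 2 * d / (4 * N) ≤ t * d / (4 * N) := by
      apply div_le_div_of_nonneg_right _ (by positivity)
      exact mul_le_mul_of_nonneg_right ht (by linarith)
    have e2 : 20 * (log (2 * d) + log T) * (2 * log 2) < 2 * log 2 * d / (4 * N) := by
      rw [lt_div_iff₀ (by positivity)]
      have e3 := mul_lt_mul_of_pos_left hlarge (show 0 < 2 * log 2 by linarith)
      linarith
    have e3 : 20 * (log (2 * d) + log T) * 1.25 ≤ 20 * (log (2 * d) + log T) * (2 * log 2) :=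
      mul_le_mul_of_nonneg_left (by linarith) (by linarith)
    linarith
  have e5 : (r : ℝ) * (t * (1 / 2 - 1 / (4 * N))) + E * (t * ((B : ℝ) / A / 2 - 1 / (4 * N))) =
      (r * t + E * (t * ((B : ℝ) / A))) / 2 - t * (r + E) / (4 * N) := by
    field_simp
    ring
  rw [e5, hrEr]
  have e6 : (kb : ℝ) * log 2 = d * log 2 - l * log 2 := by
    rw [← hkbr]
    ring
  rw [e6]
  linarith

/-- **ROW VB** -/
theorem numbersV (k d T S w w0 : ℕ) (hd : 2 ≤ d) (hT : 1 ≤ T) (hS : 2 ≤ S)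
    (hw : 1 ≤ w) (hw0 : 1 ≤ w0) (hlt : 1250 * log (2 * d * T) *
      (1250 * (log S + (w + w0) * log (2 * d))) ^ (Nat.fib (2 * k + 4) - 2) < d) :
    ∃ (θ : ℝ) (kb l : ℕ) (X Y : ℕ → ℝ), kb + l = d ∧ 1 ≤ kb ∧ 1 ≤ l ∧ 0 < θ ∧ θ < 1 ∧
      4 * ((kb + l : ℕ) : ℝ) ^ 2 * 2 ^ (1 / θ) ≤ 2 ^ l ∧
      4 * ((kb + l : ℕ) : ℝ) ^ 2 * 2 ^ (1 / (1 - θ)) ≤ 2 ^ l ∧ 2 ^ l ≤ 256 * d ^ 2 ∧
      X 0 = 1 ∧ Y 0 = 1 ∧ (∀ i, 0 < X i) ∧ (∀ i, 0 < Y i) ∧
      (∀ i ≤ 2 * k, NumD d (S * (d + 1) ^ (8 * (w0 + w) + 16)) (2 ^ (1 / θ))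
        (2 ^ (1 / (1 - θ))) (X i) (Y i) (X (i + 1)) (Y (i + 1))) ∧
      ∀ r E : ℕ, r + E = d → (2 ^ (1 / θ) : ℝ) ^ r ≤ 2 ^ d →
        (2 ^ (1 / (1 - θ)) : ℝ) ^ E ≤ 2 ^ (1 / (1 - θ)) * 2 ^ d →
        (4 * (r + 1) * (E + 1)) * (T * ((d + 1 : ℝ) ^ 16 *
          (X (2 * k + 1) ^ r * Y (2 * k + 1) ^ E))) < 2 ^ kb := by
  obtain ⟨p, hp⟩ : ∃ p : ℕ, p = Nat.fib (2 * k + 4) - 2 := ⟨_, rfl⟩
  rw [← hp] at hlt
  have hdr : (2 : ℝ) ≤ d := by exact_mod_cast hd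
  have hSr : (2 : ℝ) ≤ S := by exact_mod_cast hS
  have hTr : (1 : ℝ) ≤ T := by exact_mod_cast hT
  have hwr : (1 : ℝ) ≤ w := by exact_mod_cast hw
  have hw0r : (1 : ℝ) ≤ w0 := by exact_mod_cast hw0
  have hl2 : (0.6931 : ℝ) < log 2 := by
    have := log_two_gt_d9
    linarith
  have hlS : log 2 ≤ log S := log_le_log (by norm_num) hSr
  have hlT : 0 ≤ log T := log_nonneg hTr
  have hld : log (d + 1) ≤ log (2 * d) := log_le_log (by linarith) (by linarith)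
  have hld0 : 0 ≤ log ((d : ℝ) + 1) := log_nonneg (by linarith)
  have hl4 : 2 * log 2 ≤ log (2 * d) := by
    rw [log_mul (by norm_num) (by linarith)]
    have := log_le_log (by norm_num) hdr
    linarith
  obtain ⟨κ, hκ⟩ : ∃ κ : ℝ, κ = S * (d + 1 : ℝ) ^ (8 * (w0 + w) + 16) := ⟨_, rfl⟩
  have hκ1 : 1 ≤ κ := by
    rw [hκ]
    have := one_le_pow₀ (n := 8 * (w0 + w) + 16) (show (1 : ℝ) ≤ d + 1 by linarith)
    exact one_le_mul_of_one_le_of_one_le (by linarith) this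
  have hlκ : log κ = log S + (8 * (w0 + w) + 16) * log (d + 1) := by
    rw [hκ, log_mul (by positivity) (by positivity), log_pow]
    push_cast
    ring
  obtain ⟨Λ, hΛ⟩ : ∃ Λ : ℝ, Λ = log S + (w + w0) * log (2 * d) := ⟨_, rfl⟩
  rw [← hΛ] at hlt
  have hΛ1 : 1 ≤ Λ := by
    rw [hΛ]
    have h1 : (1 : ℝ) * log (2 * d) ≤ (w + w0) * log (2 * d) :=
      mul_le_mul_of_nonneg_right (by linarith) (by linarith)
    linarith
  have hlκΛ : log κ ≤ 16 * Λ := by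
    rw [hlκ, hΛ]
    have h1 : (8 * ((w0 : ℝ) + w) + 16) * log (d + 1) ≤ (8 * (w0 + w) + 16) * log (2 * d) :=
      mul_le_mul_of_nonneg_left hld (by positivity)
    have h2 : 0 ≤ log (2 * (d : ℝ)) := by linarith
    have h3 : (8 * ((w0 : ℝ) + w) + 16) * log (2 * d) ≤ (16 * (w + w0)) * log (2 * d) :=
      mul_le_mul_of_nonneg_right (by linarith) h2
    linarith
  obtain ⟨σ, hσ⟩ : ∃ σ : ℕ, σ = ⌈2 * log κ⌉₊ := ⟨_, rfl⟩
  have hlκ0 : 0.6931 < log κ := by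
    rw [hlκ]
    have : 0 ≤ (8 * ((w0 : ℝ) + w) + 16) * log (d + 1) := mul_nonneg (by positivity) hld0
    linarith
  have hσ1 : 2 * log κ ≤ σ := by rw [hσ]; exact Nat.le_ceil _
  have hσ2 : (σ : ℝ) ≤ 2 * log κ + 1 := by
    rw [hσ]
    exact (Nat.ceil_lt_add_one (by linarith)).le
  have hσ0 : 1 ≤ σ := by
    have : (0 : ℝ) < σ := by linarith
    have : 0 < σ := by exact_mod_cast this
    omega
  obtain ⟨A, B, s, X, Y, hs, hB, hBA, hA2, hsA, hX0, hY0, hXp, hYp, hch, hXL, hYL⟩ :=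
    growth_chain (2 * k + 1) σ (by omega) hσ0 κ hκ1 (by linarith)
  rw [show 2 * k + 1 + 3 = 2 * k + 4 by ring, ← hp] at hsA
  have hA : 1 ≤ A := hB.trans hBA
  obtain ⟨N, hN⟩ : ∃ N, N = s * A := ⟨_, rfl⟩
  have hN1 : 1 ≤ N := by rw [hN]; exact Nat.mul_pos hs hA
  have hNr : ((s : ℝ) * A) = N := by rw [hN]; push_cast; rfl
  rw [← hN] at hsA
  rw [hNr] at hXL hYL
  have hlog : log (2 * d * T) = log (2 * d) + log T := log_mul (by positivity) (by positivity)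
  rw [hlog] at hlt
  obtain ⟨P, hP⟩ : ∃ P : ℝ, P = (1250 * Λ) ^ p := ⟨_, rfl⟩
  rw [← hP] at hlt
  have hP1 : 1 ≤ P := by
    rw [hP]
    exact one_le_pow₀ (by linarith)
  have hNle : (N : ℝ) ≤ 4 * P := by
    have h1 : (N : ℝ) ≤ 4 * (18 * (σ : ℝ)) ^ p := by exact_mod_cast hsA
    have h2 : (18 * (σ : ℝ)) ^ p ≤ (1250 * Λ) ^ p :=
      pow_le_pow_left₀ (by positivity) (by linarith) p
    rw [hP]
    linarith
  have hlarge : 80 * (log (2 * d) + log T) * N < d := by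
    have h1 : 80 * (log (2 * d) + log T) * N ≤ 80 * (log (2 * d) + log T) * (4 * P) :=
      mul_le_mul_of_nonneg_left hNle (by linarith)
    have h2 : 0 ≤ (log (2 * d) + log T) * P := mul_nonneg (by linarith) (by linarith)
    linarith
  have hd17 : 17 ≤ d := by
    have h1 : 1250 * (log (2 * d) + log T) * 1 ≤ 1250 * (log (2 * d) + log T) * P :=
      mul_le_mul_of_nonneg_left hP1 (by linarith)
    have h2 : (17 : ℝ) ≤ d := by linarith
    exact_mod_cast h2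
  obtain ⟨l, hl1, hl3, hl5⟩ := exists_l (kb := d) (by omega)
  have hld2 : l < d := by
    have h1 := two_pow_gt hd17
    exact (Nat.pow_lt_pow_iff_right (by norm_num : 1 < 2)).1 (hl5.trans_lt h1)
  have hl0 : 1 ≤ l := by
    by_contra h1
    have h2 : l = 0 := by omega
    rw [h2, pow_zero] at hl3
    have h3 : 0 < d ^ 2 := pow_pos (by omega) 2
    omega
  obtain ⟨θ, t, hθ0, hθ1, ht, hHV1, hHU, hHV, hHU8, hHV8⟩ := theta_spec hB hBA hA2
  have ht1 : 1 ≤ t := by linarith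
  have hside : ∀ H : ℝ, H ≤ 8 → 4 * ((d - l + l : ℕ) : ℝ) ^ 2 * H ≤ 2 ^ l := by
    intro H hH
    rw [Nat.sub_add_cancel hl1]
    have h3 : (128 : ℝ) * d ^ 2 ≤ 2 ^ l := by exact_mod_cast hl3
    have h4 : (0 : ℝ) ≤ (d : ℝ) ^ 2 := by positivity
    calc 4 * (d : ℝ) ^ 2 * H ≤ 4 * (d : ℝ) ^ 2 * 8 :=
          mul_le_mul_of_nonneg_left hH (by positivity)
      _ ≤ 128 * (d : ℝ) ^ 2 := by linarith
      _ ≤ _ := h3
  refine ⟨θ, d - l, l, fun i => X i ^ t, fun i => Y i ^ t, Nat.sub_add_cancel hl1, by omega, hl0,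
    hθ0, hθ1, hside _ hHU8, hside _ hHV8, hl5, ?_, ?_, fun i => rpow_pos_of_pos (hXp i) _,
    fun i => rpow_pos_of_pos (hYp i) _, ?_, ?_⟩
  · show X 0 ^ t = 1
    rw [hX0, one_rpow]
  · show Y 0 ^ t = 1
    rw [hY0, one_rpow]
  · intro i hi
    have h1 := numAll_rpow (exp_pos 1).le (exp_pos _).le hκ1 (hXp i).le (hYp i).le
      (hXp (i + 1)).le (hYp (i + 1)).le ht1 (hch i (by omega))
    rw [← exp_one_rpow t] at hHU
    rw [mul_comm, exp_mul] at hHV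
    rw [← hHU, ← hHV, hκ] at h1
    intro b e hbe _
    rcases h1 b e hbe with h2 | h2 | h2
    · exact Or.inr (Or.inl h2)
    · exact Or.inl h2
    · exact Or.inr (Or.inr h2)
  · intro r E hrE hr hE
    rw [hHU] at hr
    rw [hHV] at hE
    have e1 : X (2 * k + 1) ^ t = exp (t * (1 / 2 - 1 / (4 * N))) := by
      rw [hXL, ← exp_mul, mul_comm]
    have e2 : Y (2 * k + 1) ^ t = exp (t * ((B : ℝ) / A / 2 - 1 / (4 * N))) := by
      rw [hYL, ← exp_mul, mul_comm]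
    beta_reduce
    rw [e1, e2]
    exact chunk_lt hN1 hB hBA ht hHV1 hT hd (Nat.sub_add_cancel hl1) hl5 hlarge hrE hr hE

end Pool.QPIT
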