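import Pool.Agent.QPIT.VCore
import Pool.Agent.QPIT.VGauge
import Pool.Agent.QPIT.VHyb
import Pool.Agent.QPIT.VNum
import Pool.Agent.QPIT.HitW

/-!
# QPITV, row VG: the hitting set over `(O, Lf, κ)`
-/

set_option autoImplicit false
set_option linter.unusedSectionVars false

namespace Pool.QPIT

open Finset Pool.XD Pool.XDA Pool.Agent.Helper87.D3 Pool.Agent.Helper41.CD Pool.CDep

/-! ### changes of coefficients -/

theorem Sps.map {V R R' : Type} [CommRing R] [CommRing R'] (ψ : R →+* R') {N N' : ℕ}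
    {f : MvPolynomial V R} (hf : Sps N N' f) : Sps N N' (MvPolynomial.map ψ f) := by
  obtain ⟨A, hA, rfl⟩ := hf
  refine ⟨fun i j => MvPolynomial.map ψ (A i j), fun i j =>
    (Finset.sup_mono (MvPolynomial.support_map_subset ψ (A i j))).trans (hA i j), ?_⟩
  simp only [map_sum, map_prod]

theorem map_immV {R R' : Type} [CommRing R] [CommRing R'] (ψ : R →+* R') {d w : ℕ}
    (x : Vr d w → R) : ψ (immv d w x) = immv d w fun v => ψ (x v) := by
  unfold immv
  have h := prod_map ψ (fun i : Fin d => (Matrix.of fun a b => x (i, a, b) :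
    Matrix (Fin (w + 1)) (Fin (w + 1)) R)) 0
  rw [h]
  rfl

theorem map_imm {R R' : Type} [CommRing R] [CommRing R'] (ψ : R →+* R') (d w : ℕ) :
    MvPolynomial.map ψ (imm d w R) = imm d w R' := by
  unfold imm
  rw [map_immV]
  simp only [MvPolynomial.map_X]

theorem map_aeval' {n : ℕ} {R R' V : Type} [CommRing R] [CommRing R'] (ψ : R →+* R')
    (φ : Fin n → MvPolynomial V ℤ) (F : MvPolynomial (Fin n) R) :
    MvPolynomial.map ψ (MvPolynomial.aeval
      (fun i => MvPolynomial.map (Int.castRingHom R) (φ i)) F) =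
      MvPolynomial.aeval (fun i => MvPolynomial.map (Int.castRingHom R') (φ i))
        (MvPolynomial.map ψ F) := by
  rw [map_aeval_eq]
  congr 2
  funext i
  rw [MvPolynomial.map_map]
  have h : ψ.comp (Int.castRingHom R) = Int.castRingHom R' := RingHom.ext_int _ _
  rw [h]

theorem degreeOf_imm_int (d N : ℕ) (v : Vr d N) : (imm d N ℤ).degreeOf v ≤ 1 := by
  rw [MvPolynomial.degreeOf_le_iff]
  intro m hm
  have h1 := degreeOf_imm d N ℚ v
  rw [MvPolynomial.degreeOf_le_iff] at h1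
  apply h1 m
  rw [← map_imm (Int.castRingHom ℚ) d N, MvPolynomial.support_map_of_injective _
    (RingHom.injective_int (Int.castRingHom ℚ))]
  exact hm

theorem cast_inj_of {K : Type} [Field K] {D : ℕ} (h : ∀ m : ℕ, 1 ≤ m → m ≤ D → (m : K) ≠ 0) :
    ∀ a ≤ D, ∀ b ≤ D, (a : K) = (b : K) → a = b := by
  intro a ha b hb hab
  rcases lt_trichotomy a b with h1 | h1 | h1
  · exfalso
    apply h (b - a) (by omega) (by omega)
    rw [Nat.cast_sub h1.le, hab, sub_self]
  · exact h1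
  · exfalso
    apply h (a - b) (by omega) (by omega)
    rw [Nat.cast_sub h1.le, hab, sub_self]

/-! ### the generator -/

/-- the polynomials of the generator -/
noncomputable def genV (d n : ℕ) (R : Type) [CommRing R] (i : Fin n) :
    MvPolynomial (Vr d (256 * d ^ 3) × Fin (lprime (d * (256 * d ^ 3 + 1) ^ 2))) R :=
  MvPolynomial.rename (fun v : Vr d (256 * d ^ 3) =>
    (v, dig (lprime (d * (256 * d ^ 3 + 1) ^ 2)) (Nat.log 2 n + 1) i (num v)))
    (imm d (256 * d ^ 3) R)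

theorem map_genV {R R' : Type} [CommRing R] [CommRing R'] (ψ : R →+* R') (d n : ℕ) (i : Fin n) :
    MvPolynomial.map ψ (genV d n R i) = genV d n R' i := by
  unfold genV
  rw [MvPolynomial.map_rename, map_imm]

/-- the number of the variables of the generator -/
theorem genV_card {d : ℕ} (hd : 1 ≤ d) :
    Fintype.card (Vr d (256 * d ^ 3) × Fin (lprime (d * (256 * d ^ 3 + 1) ^ 2))) ≤
      10 ^ 10 * d ^ 14 := by
  rw [Fintype.card_prod, Fintype.card_prod, Fintype.card_prod, Fintype.card_fin, Fintype.card_fin,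
    Fintype.card_fin]
  obtain ⟨W, hW⟩ : ∃ W, W = 256 * d ^ 3 + 1 := ⟨_, rfl⟩
  have hW1 : 256 * d ^ 3 + 1 ≤ 257 * d ^ 3 := by
    have : 1 ≤ d ^ 3 := Nat.pow_pos hd
    omega
  rw [← hW] at hW1 ⊢
  have hW0 : 1 ≤ W := by omega
  have h1 : lprime (d * W ^ 2) ≤ 2 * (d * W ^ 2) :=
    lprime_le (Nat.mul_pos (by omega) (Nat.pow_pos hW0))
  have h2 : d * W ^ 2 ≤ 66049 * d ^ 7 := by
    calc d * W ^ 2 ≤ d * (257 * d ^ 3) ^ 2 := Nat.mul_le_mul_left _ (Nat.pow_le_pow_left hW1 2)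
      _ = 66049 * d ^ 7 := by ring
  calc d * (W * W) * lprime (d * W ^ 2) ≤ (d * W ^ 2) * (2 * (d * W ^ 2)) := by
        rw [← pow_two]
        exact Nat.mul_le_mul_left _ h1
    _ = 2 * (d * W ^ 2) ^ 2 := by ring
    _ ≤ 2 * (66049 * d ^ 7) ^ 2 := Nat.mul_le_mul_left _ (Nat.pow_le_pow_left h2 2)
    _ = 8724940802 * d ^ 14 := by ring
    _ ≤ 10 ^ 10 * d ^ 14 := Nat.mul_le_mul_right _ (by norm_num)

/-! ### the hitting set -/

/-- **the hitting set**: the points `pt` for all numbers `z` between `0` and `D` -/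
def hittingV (d n D : ℕ) : Finset (Fin n → ℕ) :=
  (Fintype.piFinset fun _ : Vr d (256 * d ^ 3) × Fin (lprime (d * (256 * d ^ 3 + 1) ^ 2)) =>
      range (D + 1)).image
    (pt d (256 * d ^ 3) (lprime (d * (256 * d ^ 3 + 1) ^ 2)) (Nat.log 2 n + 1) n)

theorem widthV_le {d : ℕ} (hd : 1 ≤ d) : 256 * d ^ 3 + 1 ≤ 257 * d ^ 3 := by
  have : 1 ≤ d ^ 3 := Nat.pow_pos hd
  omega

theorem hittingV_card {d : ℕ} (hd : 1 ≤ d) (n D : ℕ) :
    (hittingV d n D).card ≤ (D + 1) ^ (10 ^ 10 * d ^ 14) := by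
  unfold hittingV
  refine card_image_le.trans ?_
  rw [Fintype.card_piFinset, prod_const, card_range, card_univ]
  exact Nat.pow_le_pow_right (Nat.succ_pos D) (genV_card hd)

theorem hittingV_le {d : ℕ} (hd : 1 ≤ d) {n D : ℕ} {x : Fin n → ℕ} (hx : x ∈ hittingV d n D)
    (i : Fin n) : x i ≤ (D + 1) ^ (258 * d ^ 4) := by
  unfold hittingV at hx
  rw [mem_image] at hx
  obtain ⟨z, hz, rfl⟩ := hx
  rw [Fintype.mem_piFinset] at hz
  have h1 : ∀ v, z v ≤ D := fun v => Nat.lt_succ_iff.1 (mem_range.1 (hz v))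
  refine (prod_entry_le D d _ (fun j a b => ?_) _ _).trans ?_
  · rw [Matrix.of_apply]
    exact h1 _
  rw [Fintype.card_fin]
  obtain ⟨W, hW⟩ : ∃ W, W = 256 * d ^ 3 + 1 := ⟨_, rfl⟩
  have hW1 := widthV_le hd
  rw [← hW] at hW1 ⊢
  have h2 : W * D ≤ (D + 1) ^ (W + 1) := by
    rcases Nat.eq_zero_or_pos D with rfl | hD
    · simp
    · calc W * D ≤ 2 ^ W * (D + 1) := Nat.mul_le_mul Nat.lt_two_pow_self.le (Nat.le_succ D)
        _ ≤ (D + 1) ^ W * (D + 1) := Nat.mul_le_mul_right _ (Nat.pow_le_pow_left (by omega) W)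
        _ = (D + 1) ^ (W + 1) := (pow_succ _ _).symm
  calc (W * D) ^ d ≤ ((D + 1) ^ (W + 1)) ^ d := Nat.pow_le_pow_left h2 d
    _ = (D + 1) ^ ((W + 1) * d) := (pow_mul _ _ _).symm
    _ ≤ (D + 1) ^ (258 * d ^ 4) := by
      refine Nat.pow_le_pow_right (Nat.succ_pos D) ?_
      have h3 : 1 ≤ d ^ 3 := Nat.pow_pos hd
      calc (W + 1) * d ≤ (258 * d ^ 3) * d := Nat.mul_le_mul_right _ (by omega)
        _ = 258 * d ^ 4 := by ring

section main

variable {O κ Lf : Type} [CommRing O] [Field Lf] [CharZero Lf] [Field κ] [Infinite κ]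

/-- a nonzero polynomial which vanishes at the generator gives a multiple of `y - IMM` -/
theorem gen_ofV (ι : O →+* Lf) (π : O →+* κ) {w0 k d N n ν p T S S' D : ℕ} [NeZero p]
    (hw0 : 1 ≤ w0) (hp : p.Prime) (hpm : d * (N + 1) ^ 2 ≤ p) (hν : 1 ≤ ν)
    (hn : n ≤ p ^ ν) (hS1 : 1 ≤ S) (hS : S ≤ S') (hS' : n * 2 ^ ν + 1 ≤ S') (hνS : ν + 1 ≤ S')
    (hchar : ∀ m : ℕ, 1 ≤ m → m ≤ D → (m : κ) ≠ 0)
    (F : MvPolynomial (Fin n) O) (hF : MvPolynomial.map π F ≠ 0)
    (hFD : (MvPolynomial.map π F).totalDegree ≤ D)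
    (f : Fin T → Fin S → MvPolynomial (Fin n) Lf) (hf : ∀ i j, f i j ∈ Cls w0 w0 S k)
    (hfF : MvPolynomial.map ι F = ∑ i, ∏ j, f i j)
    (hhard : ∀ (P : MvPolynomial (Option (Vr d N)) O), MvPolynomial.map π P ≠ 0 →
      subY (imm d N κ) (MvPolynomial.map π P) = 0 →
      (MvPolynomial.map π P).degreeOf none ≤ D →
      ∀ g : Fin T → Fin S' → MvPolynomial (Option (Vr d N)) Lf,
      (∀ i j, g i j ∈ Cls w0 w0 S' (k + 1)) → MvPolynomial.map ι P = ∑ i, ∏ j, g i j → False) :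
    MvPolynomial.aeval (fun i : Fin n => MvPolynomial.rename
      (fun v : Vr d N => (v, dig p ν i (num v))) (imm d N κ)) (MvPolynomial.map π F) ≠ 0 := by
  classical
  have hcast := cast_inj_of hchar
  set pl : Fin n → Vr d N → Vr d N × Fin p := fun i v => (v, dig p ν i (num v)) with hpl
  have hag : ∀ i j : Fin n, i ≠ j → {v | pl i v = pl j v}.ncard < ν := by
    intro i j hij
    have h1 := digv_agree (κ := ν) hp (i.2.trans_le hn) (j.2.trans_le hn)
      (fun h => hij (Fin.ext h))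
    refine lt_of_le_of_lt ?_ h1
    rw [← Set.ncard_coe_finset]
    refine Set.ncard_le_ncard_of_injOn (fun v => num v) (fun v hv => ?_)
      ((num_injective d N).injOn) (Finset.finite_toSet _)
    rw [mem_coe, mem_filter, mem_range]
    refine ⟨(num_lt v).trans_le hpm, ?_⟩
    have h2 : pl i v = pl j v := hv
    rw [hpl] at h2
    have h3 : dig p ν i (num v) = dig p ν j (num v) := (Prod.mk.inj h2).2
    rw [← dig_val, ← dig_val, h3]
  intro h0
  rw [← map_imm (Int.castRingHom κ) d N] at h0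
  obtain ⟨φ, hφ, _, hφD, h1, h2⟩ := hybridV hν hcast (imm d N ℤ) (degreeOf_imm_int d N) pl
    (fun i j v v' h => (Prod.mk.inj h).1) hag (MvPolynomial.map π F) hF hFD h0
  rw [map_imm] at h2
  have hcls : ∀ i j, MvPolynomial.aeval (fun i => MvPolynomial.map (Int.castRingHom Lf) (φ i))
      (f i j) ∈ Cls (R := Lf) w0 w0 S' (k + 1) := fun i j =>
    cls_spsW hw0 hS' hνS (by omega) hS hS1 _ (fun i => (hφ i).map _) (hf i j)
  have h3 : ∀ i, ∃ g : Fin S' → MvPolynomial (Option (Vr d N)) Lf,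
      (∀ j, g j ∈ Cls (R := Lf) w0 w0 S' (k + 1)) ∧ ∏ j, g j =
        ∏ j, MvPolynomial.aeval (fun i => MvPolynomial.map (Int.castRingHom Lf) (φ i)) (f i j) :=
    fun i => exists_prod (S := S') (ι := Fin S) (by rw [Fintype.card_fin]; exact hS)
      (A := (Cls w0 w0 S' (k + 1) : Set (MvPolynomial (Option (Vr d N)) Lf)))
      (one_mem' w0 w0 S' (k + 1)) _ (hcls i)
  choose g hg hgf using h3
  have hP := map_aeval' π φ F
  have hPι := map_aeval' ι φ F
  refine hhard (MvPolynomial.aeval (fun i => MvPolynomial.map (Int.castRingHom O) (φ i)) F)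
    (by rw [hP]; exact h1) (by rw [hP]; exact h2) (by rw [hP]; exact hφD) g hg ?_
  rw [hPι, hfF, map_sum]
  refine sum_congr rfl fun i _ => ?_
  rw [hgf i, map_prod]

/-- points of the grid for the generator -/
theorem grid_ofV {d N n ν p D : ℕ} [NeZero p] (F : MvPolynomial (Fin n) κ)
    (hchar : ∀ m : ℕ, 1 ≤ m → m ≤ D → (m : κ) ≠ 0) (hFD : F.totalDegree ≤ D)
    (hG : MvPolynomial.aeval (fun i : Fin n => MvPolynomial.rename
      (fun v : Vr d N => (v, dig p ν i (num v))) (imm d N κ)) F ≠ 0) :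
    ∃ z : Vr d N × Fin p → ℕ, (∀ v, z v ≤ D) ∧
      MvPolynomial.eval (fun i => (pt d N p ν n z i : κ)) F ≠ 0 := by
  classical
  have hcast := cast_inj_of hchar
  set pl : Fin n → Vr d N → Vr d N × Fin p := fun i v => (v, dig p ν i (num v)) with hpl
  have hdeg : ∀ v, ∀ i, (MvPolynomial.rename (pl i) (imm d N κ)).degreeOf v ≤ 1 := fun v i =>
    degreeOf_rename_le (pl i) (fun a b h => (Prod.mk.inj h).1) _ 1 (degreeOf_imm d N κ) v
  obtain ⟨z, hz, h1⟩ := exists_gridV hcast hG (fun v => (degreeOf_aeval_le _ v (hdeg v)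
    F).trans hFD)
  refine ⟨z, hz, ?_⟩
  have h2 : MvPolynomial.eval (fun v => (z v : κ))
      (MvPolynomial.aeval (fun i => MvPolynomial.rename (pl i) (imm d N κ))
        F) =
      MvPolynomial.eval (fun i => (pt d N p ν n z i : κ)) F := by
    rw [← MvPolynomial.coe_aeval_eq_eval, ← MvPolynomial.coe_aeval_eq_eval]
    show ((MvPolynomial.aeval fun v => (z v : κ) : MvPolynomial _ κ →ₐ[κ] κ).comp
      (MvPolynomial.aeval (fun i => MvPolynomial.rename (pl i) (imm d N κ))))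
        F = _
    rw [MvPolynomial.comp_aeval]
    show MvPolynomial.aeval _ F = MvPolynomial.aeval _ F
    congr 2
    funext i
    exact eval_rename_immP d N p ν n κ z i
  rwa [h2] at h1

/-- **THE GENERATOR over `(O, Lf, κ)`** for sums of products of members of the classes -/
theorem gen_ring (ι : O →+* Lf) (hι : Function.Injective ι) (π : O →+* κ)
    (hπ : Function.Surjective π) {ϖ : O} (hϖ0 : π ϖ = 0) (hϖ1 : ϖ ≠ 0)
    {k w s n D T S : ℕ} (hw : 1 ≤ w) (hs : 2 ≤ s) (hn : n ≤ s) (hT1 : 1 ≤ T)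
    (hT : T ≤ s + 1) (hS1 : 1 ≤ S) (hS : S ≤ 4 * s ^ 2)
    (hchar : ∀ m : ℕ, 1 ≤ m → m ≤ D → (m : κ) ≠ 0)
    (F : MvPolynomial (Fin n) O) (hF : MvPolynomial.map π F ≠ 0)
    (hFD : (MvPolynomial.map π F).totalDegree ≤ D)
    (f : Fin T → Fin S → MvPolynomial (Fin n) Lf) (hf : ∀ i j, f i j ∈ Cls w w S k)
    (hfF : MvPolynomial.map ι F = ∑ i, ∏ j, f i j) :
    MvPolynomial.aeval (genV (ddU (Nat.fib (2 * (k + 1) + 4)) w s) n κ)
      (MvPolynomial.map π F) ≠ 0 := by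
  have hfib : 3 ≤ Nat.fib (2 * (k + 1) + 4) := by
    have : Nat.fib 4 ≤ Nat.fib (2 * (k + 1) + 4) := Nat.fib_mono (by omega)
    exact this
  have hd2 : 2 ≤ ddU (Nat.fib (2 * (k + 1) + 4)) w s := two_le_ddU (by omega) hw s
  have hcs := ddU_spec (F := Nat.fib (2 * (k + 1) + 4)) (w := w) (s := s) (by omega) hw hs
  obtain ⟨d, hd⟩ : ∃ d, d = ddU (Nat.fib (2 * (k + 1) + 4)) w s := ⟨_, rfl⟩
  rw [← hd] at hd2 hcs ⊢
  have hpp : (lprime (d * (256 * d ^ 3 + 1) ^ 2)).Prime := lprime_prime _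
  have hκ2 : 2 ^ (Nat.log 2 n + 1) ≤ 2 * s := by
    rw [pow_succ]
    rcases Nat.eq_zero_or_pos n with rfl | hn0
    · rw [Nat.log_zero_right, pow_zero]
      omega
    · have := Nat.pow_log_le_self 2 (x := n) (by omega)
      omega
  have hnκ : n ≤ lprime (d * (256 * d ^ 3 + 1) ^ 2) ^ (Nat.log 2 n + 1) := by
    calc n ≤ 2 ^ (Nat.log 2 n + 1) := (Nat.lt_pow_succ_log_self (by norm_num) n).le
      _ ≤ _ := Nat.pow_le_pow_left hpp.two_le _
  have hS4 : 4 * s ≤ 4 * s ^ 2 := by nlinarith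
  exact gen_ofV ι π (w0 := w) (k := k) (n := n) (ν := Nat.log 2 n + 1) (T := T)
    (S := S) (S' := 4 * s ^ 2) (D := D) hw hpp (le_lprime _) (by omega) hnκ
    hS1 hS (by nlinarith [Nat.mul_le_mul hn hκ2]) (by
      have h2 : Nat.log 2 n + 1 < 2 ^ (Nat.log 2 n + 1) := Nat.lt_two_pow_self
      omega) hchar F hF hFD f hf hfF (fun Q hQ hQ0 hQD h hh hQh => by
      have hd0 : (0 : ℝ) < d := by
        have : 0 < d := by omega
        exact_mod_cast this
      have hlt : 1250 * Real.log (2 * d * T) * (1250 * (Real.log ((4 * s ^ 2 : ℕ) : ℝ) +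
          ((w : ℕ) + (w : ℕ)) * Real.log (2 * d))) ^ (Nat.fib (2 * (k + 1) + 4) - 2) < d := by
        refine lt_of_le_of_lt ?_ hcs
        have hT' : (T : ℝ) ≤ s + 1 := by exact_mod_cast hT
        have hT0 : (0 : ℝ) < T := by
          have : 0 < T := by omega
          exact_mod_cast this
        have e1 : 1250 * Real.log (2 * d * T) ≤ 1250 * Real.log (2 * d * ((s : ℝ) + 1)) := by
          refine mul_le_mul_of_nonneg_left (Real.log_le_log (by positivity) ?_) (by norm_num)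
          exact mul_le_mul_of_nonneg_left hT' (by positivity)
        have e2 : Real.log ((4 * s ^ 2 : ℕ) : ℝ) + (((w : ℕ) : ℝ) + ((w : ℕ) : ℝ)) *
            Real.log (2 * d) = Real.log (4 * (s : ℝ) ^ 2) + 2 * w * Real.log (2 * d) := by
          push_cast
          ring
        rw [e2]
        have e3 : 0 ≤ 1250 * (Real.log (4 * (s : ℝ) ^ 2) + 2 * w * Real.log (2 * d)) := by
          have hs2 : (2 : ℝ) ≤ s := by exact_mod_cast hs
          have hd2' : (2 : ℝ) ≤ d := by exact_mod_cast hd2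
          have e4 : 0 ≤ Real.log (4 * (s : ℝ) ^ 2) := Real.log_nonneg (by nlinarith)
          have e5 : 0 ≤ 2 * (w : ℝ) * Real.log (2 * (d : ℝ)) :=
            mul_nonneg (by positivity) (Real.log_nonneg (by linarith))
          linarith
        exact mul_le_mul_of_nonneg_right e1 (pow_nonneg e3 _)
      obtain ⟨θ, kb, l, X, Y, hkl, hkb, hl1, hθ0, hθ1, hlU, hlV, hl2, hX0, hY0, hX, hY, hnum,
        hlt'⟩ := numbersV (k + 1) d T (4 * s ^ 2) w w hd2 hT1 (by nlinarith) hw hw hlt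
      clear hd hcs hlt
      subst hkl
      have hsize : (kb + l - 1) * 2 ^ l + 1 ≤ Fintype.card (Fin (256 * (kb + l) ^ 3 + 1)) := by
        rw [Fintype.card_fin]
        refine Nat.add_le_add_right ?_ 1
        calc (kb + l - 1) * 2 ^ l ≤ (kb + l) * (256 * (kb + l) ^ 2) :=
              Nat.mul_le_mul (Nat.sub_le _ _) hl2
          _ = 256 * (kb + l) ^ 3 := by ring
      obtain ⟨V1, hV1, hg⟩ := gauge_code (K := κ) hkb hd2 (Fin (256 * (kb + l) ^ 3 + 1)) 0 hsize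
      obtain ⟨r, E, h1, h2, h3, h4⟩ := mult_coreV ι hι π hπ hϖ0 hϖ1
        (immP (kb + l) (Fin (256 * (kb + l) ^ 3 + 1)) 0 κ) V1 hV1 hg Q hQ hQ0
        (fun j hj1 hj2 => hchar j hj1 (hj2.trans hQD)) h hh hQh hkb hθ0 hθ1 hlU hlV hX hY hX0 hY0
        hnum
      exact absurd h4 (not_le.2 (hlt' r E h1 h2 h3)))

/-- **THE HITTING SET over `(O, Lf, κ)`** for sums of products of members of the classes -/
theorem hit_ring (ι : O →+* Lf) (hι : Function.Injective ι) (π : O →+* κ)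
    (hπ : Function.Surjective π) {ϖ : O} (hϖ0 : π ϖ = 0) (hϖ1 : ϖ ≠ 0)
    {k w s n D T S : ℕ} (hw : 1 ≤ w) (hs : 2 ≤ s) (hn : n ≤ s) (hT1 : 1 ≤ T)
    (hT : T ≤ s + 1) (hS1 : 1 ≤ S) (hS : S ≤ 4 * s ^ 2)
    (hchar : ∀ m : ℕ, 1 ≤ m → m ≤ D → (m : κ) ≠ 0)
    (F : MvPolynomial (Fin n) O) (hF : MvPolynomial.map π F ≠ 0)
    (hFD : (MvPolynomial.map π F).totalDegree ≤ D)
    (f : Fin T → Fin S → MvPolynomial (Fin n) Lf) (hf : ∀ i j, f i j ∈ Cls w w S k)
    (hfF : MvPolynomial.map ι F = ∑ i, ∏ j, f i j) :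
    ∃ x ∈ hittingV (ddU (Nat.fib (2 * (k + 1) + 4)) w s) n D,
      MvPolynomial.eval (fun i => (x i : κ)) (MvPolynomial.map π F) ≠ 0 := by
  have h1 := gen_ring ι hι π hπ hϖ0 hϖ1 hw hs hn hT1 hT hS1 hS hchar F hF hFD f hf hfF
  obtain ⟨z, hz, h2⟩ := grid_ofV (MvPolynomial.map π F) hchar hFD h1
  refine ⟨_, ?_, h2⟩
  unfold hittingV
  rw [mem_image]
  exact ⟨z, Fintype.mem_piFinset.2 fun v => mem_range.2 (Nat.lt_succ_of_le (hz v)), rfl⟩

end main

end Pool.QPIT
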