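import Pool.Agent.QPIT.CoreB
import Pool.Agent.XDA.Val

/-!
# QPITV, row VD: base point and directions

`O → L` and `O → κ` are ring homomorphisms, `P` is a polynomial over `O` whose image over the field
`κ` is a nonzero multiple of `y - f`.  There are a base point and directions over `L` such that a
given minor of the operator of the image of `P` is not zero.
-/

set_option autoImplicit false
set_option linter.unusedSectionVars false

namespace Pool.QPIT

open Finset Pool.XD Pool.XDA Pool.Agent.Helper87.D3 Pool.Agent.Helper41.CD Pool.CDep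

section minor

variable {L : Type} [Fintype L] (ty : L → Bool) {A B : Type} [CommRing A] [CommRing B]
  {I : Type} (R Q : I → L → ℕ)

/-- a part of the matrix of the operator of `F` -/
noncomputable def mnr (F : MvPolynomial L A) : Matrix I I A :=
  Matrix.of fun i i' => ent ty F (R i) (Q i')

theorem mnr_map (ψ : A →+* B) (F : MvPolynomial L A) :
    mnr ty R Q (MvPolynomial.map ψ F) = (mnr ty R Q F).map ψ := by
  ext i i'
  show ent ty (MvPolynomial.map ψ F) (R i) (Q i') = ψ (ent ty F (R i) (Q i'))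
  rw [ent_map]

theorem mnr_C_mul (c : A) (F : MvPolynomial L A) :
    mnr ty R Q (MvPolynomial.C c * F) = c • mnr ty R Q F := by
  ext i i'
  show ent ty (MvPolynomial.C c * F) (R i) (Q i') = c * ent ty F (R i) (Q i')
  unfold ent
  split_ifs
  · rw [MvPolynomial.coeff_C_mul]
  · rw [mul_zero]

variable [Fintype I] [DecidableEq I]

theorem mnr_det_map (ψ : A →+* B) (F : MvPolynomial L A) :
    (mnr ty R Q (MvPolynomial.map ψ F)).det = ψ (mnr ty R Q F).det := by
  rw [mnr_map, ← RingHom.mapMatrix_apply, ← RingHom.map_det]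

theorem mnr_det_C_mul (c : A) (F : MvPolynomial L A) :
    (mnr ty R Q (MvPolynomial.C c * F)).det = c ^ Fintype.card I * (mnr ty R Q F).det := by
  rw [mnr_C_mul, Matrix.det_smul]

end minor

section delta

variable {L V : Type} [Fintype L] (ty : L → Bool) {K : Type} [Field K] (D : L → V → K)
  (x0 : V → K)

/-- `exists_delta` for an arbitrary field -/
theorem exists_deltaV (f : MvPolynomial V K) (R : MvPolynomial (Option V) K)
    (hR : MvPolynomial.eval x0 (subY f R) ≠ 0) (F0 : MvPolynomial L K) (r E m : ℕ)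
    (hm : ((m + 1 : ℕ) : K) ≠ 0)
    {I : Type} [Fintype I] [DecidableEq I] (Rr Qc : I → L → ℕ)
    (hIJ : (mnr ty Rr Qc F0).det ≠ 0) :
    ∃ δ : Polynomial K, δ ≠ 0 ∧ ∀ t : K, δ.eval t ≠ 0 →
      (mnr ty Rr Qc (Pt ty D x0 f R F0 r E m t)).det ≠ 0 := by
  classical
  set p : Polynomial K := Polynomial.C (MvPolynomial.eval x0 f) + Polynomial.X with hp
  have hpt : ∀ t : K, p.eval t = MvPolynomial.eval x0 f + t := by
    intro t
    rw [hp, Polynomial.eval_add, Polynomial.eval_C, Polynomial.eval_X]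
  set PA : MvPolynomial L (Polynomial K) :=
    MvPolynomial.C Polynomial.X * cf r E (PhiA ty D x0 p R) -
      ((m + 1 : ℕ) : MvPolynomial L (Polynomial K)) * MvPolynomial.map Polynomial.C F0 *
        cf 0 0 (PhiA ty D x0 p R) with hPA
  have hmap : ∀ t : K, MvPolynomial.map (Polynomial.evalRingHom t) PA =
      Pt ty D x0 f R F0 r E m t := by
    intro t
    rw [hPA, map_sub, map_mul, map_mul, map_mul, MvPolynomial.map_C, map_map_C, map_cf_PhiA,
      map_cf_PhiA, hpt, map_natCast, Polynomial.coe_evalRingHom, Polynomial.eval_X]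
    rfl
  set δ : Polynomial K := (mnr ty Rr Qc PA).det with hδ
  have hev : ∀ t : K, δ.eval t = (mnr ty Rr Qc (Pt ty D x0 f R F0 r E m t)).det := by
    intro t
    rw [hδ, ← Polynomial.coe_evalRingHom, ← mnr_det_map, hmap t]
  refine ⟨δ, fun h0 => ?_, fun t ht => by rwa [← hev]⟩
  have h1 := hev 0
  rw [h0, Polynomial.eval_zero] at h1
  have h2 : Pt ty D x0 f R F0 r E m 0 = MvPolynomial.C
      (-(((m + 1 : ℕ) : K) * MvPolynomial.eval x0 (subY f R))) * F0 := by
    unfold Pt
    rw [PhiG_zero, add_zero, eval_cO, map_zero, zero_mul, zero_sub, MvPolynomial.algebraMap_eq,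
      map_neg, map_mul, map_natCast]
    ring
  rw [h2, mnr_det_C_mul] at h1
  have h3 : (-(((m + 1 : ℕ) : K) * MvPolynomial.eval x0 (subY f R)) : K) ≠ 0 := by
    rw [neg_ne_zero]
    exact mul_ne_zero hm hR
  exact (mul_ne_zero (pow_ne_zero _ h3) hIJ) h1.symm

end delta

section field

variable {L V : Type} [Fintype L] (ty : L → Bool) {K : Type} [Field K]

theorem exists_eval_neV {V K : Type} [Field K] [Infinite K] (p : MvPolynomial V K) (hp : p ≠ 0) :
    ∃ x : V → K, MvPolynomial.eval x p ≠ 0 := by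
  by_contra h
  push Not at h
  exact hp (MvPolynomial.funext fun x => by rw [h x, map_zero])

theorem degreeOf_yMinus_pow {V K : Type} [Field K] (f : MvPolynomial V K) (m : ℕ)
    (R : MvPolynomial (Option V) K) (hR : R ≠ 0) :
    m ≤ (yMinus f ^ m * R).degreeOf none := by
  classical
  have h1 : ∀ P : MvPolynomial (Option V) K,
      (MvPolynomial.optionEquivLeft K V P).natDegree = P.degreeOf none :=
    fun P => MvPolynomial.natDegree_optionEquivLeft K P
  have h2 : (MvPolynomial.optionEquivLeft K V) (yMinus f) = Polynomial.X - Polynomial.C f := by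
    rw [yMinus, map_sub, MvPolynomial.optionEquivLeft_X_none]
    congr 1
    have h2 : ((MvPolynomial.optionEquivLeft K V).toAlgHom.comp (MvPolynomial.rename some)) =
        (Polynomial.CAlgHom : MvPolynomial V K →ₐ[K] Polynomial (MvPolynomial V K)) := by
      apply MvPolynomial.algHom_ext
      intro a
      simp [MvPolynomial.optionEquivLeft_X_some]
    exact DFunLike.congr_fun h2 f
  rw [← h1, map_mul, map_pow, h2]
  have h3 : (MvPolynomial.optionEquivLeft K V) R ≠ 0 := by simpa using hR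
  rw [Polynomial.natDegree_mul (pow_ne_zero _ (Polynomial.X_sub_C_ne_zero f)) h3,
    Polynomial.natDegree_pow, Polynomial.natDegree_X_sub_C]
  omega

/-- **placement over a field** -/
theorem place_field [Infinite K] [Fintype V] (f0 V1 : MvPolynomial V K) (hV1 : V1 ≠ 0)
    (F0 : MvPolynomial L K)
    (hgauge : ∀ x : V → K, MvPolynomial.eval x V1 ≠ 0 → ∃ D : L → V → K,
      ∀ (R : Type) [CommRing R] [Algebra K R] (X : L → R),
        MvPolynomial.aeval (fun v => algebraMap K R (x v) + ∑ l, X l * algebraMap K R (D l v))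
          f0 = algebraMap K R (MvPolynomial.eval x f0) + MvPolynomial.aeval X F0)
    {r E : ℕ} (hrE : (r, E) ≠ (0, 0))
    (hF0 : MvPolynomial.aeval (serX (K := K) ty) F0 = lam _ ^ r * mu _ ^ E * cst F0)
    (P : MvPolynomial (Option V) K) (hP : P ≠ 0) (hP0 : subY f0 P = 0)
    (hdeg : ∀ j : ℕ, 1 ≤ j → j ≤ P.degreeOf none → (j : K) ≠ 0)
    {I : Type} [Fintype I] [DecidableEq I] (Rr Qc : I → L → ℕ)
    (hIJ : (mnr ty Rr Qc F0).det ≠ 0) :
    ∃ (c : Option V → K) (D : L → V → K),
      (mnr ty Rr Qc (cf r E (PhiG c (aO ty D) (bO ty D) P))).det ≠ 0 := by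
  classical
  obtain ⟨μ, R, hμ, hPR, hR⟩ := exists_factor f0 hP hP0
  obtain ⟨m, rfl⟩ : ∃ m, μ = m + 1 := ⟨μ - 1, by omega⟩
  have hR0 : R ≠ 0 := by
    rintro rfl
    exact hR (map_zero _)
  have hm : ((m + 1 : ℕ) : K) ≠ 0 := by
    refine hdeg (m + 1) (by omega) ?_
    rw [hPR]
    exact degreeOf_yMinus_pow f0 (m + 1) R hR0
  obtain ⟨x0, hx0⟩ := exists_eval_neV (V1 * subY f0 R) (mul_ne_zero hV1 hR)
  rw [map_mul] at hx0
  have hx1 := left_ne_zero_of_mul hx0
  have hx2 := right_ne_zero_of_mul hx0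
  obtain ⟨D, hD⟩ := hgauge x0 hx1
  obtain ⟨δ, hδ, hδt⟩ := exists_deltaV ty D x0 f0 R hx2 F0 r E m hm Rr Qc hIJ
  obtain ⟨t, ht⟩ : ∃ t : K, (δ * Polynomial.X).eval t ≠ 0 := by
    by_contra h
    push Not at h
    exact (mul_ne_zero hδ Polynomial.X_ne_zero)
      (Polynomial.funext fun t => by rw [h t, Polynomial.eval_zero])
  rw [Polynomial.eval_mul, Polynomial.eval_X] at ht
  have ht1 := left_ne_zero_of_mul ht
  have ht0 := right_ne_zero_of_mul ht
  refine ⟨cO x0 (MvPolynomial.eval x0 f0 + t), D, ?_⟩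
  have hyM : PhiG (cO x0 (MvPolynomial.eval x0 f0 + t)) (aO ty D) (bO ty D) (yMinus f0) =
      cst (MvPolynomial.C t) - lam _ ^ r * mu _ ^ E * cst F0 := by
    unfold yMinus
    rw [map_sub, PhiG_none, PhiG_some, hD (Ser (MvPolynomial L K)) (serX ty), hF0,
      Pool.Agent.Helper59.CD.algebraMap_ser, MvPolynomial.algebraMap_eq, MvPolynomial.C_add,
      cst_add]
    ring
  have hcoef := cf_pow_mul (PhiG (cO x0 (MvPolynomial.eval x0 f0 + t)) (aO ty D) (bO ty D)) hrE
    (MvPolynomial.C t) F0 m (yMinus f0) R hyM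
  rw [hPR, hcoef, ← MvPolynomial.C_pow]
  rw [mnr_det_C_mul]
  exact mul_ne_zero (pow_ne_zero _ (pow_ne_zero _ ht0)) (hδt t ht1)

end field

section ring

variable {L V : Type} [Fintype L] (ty : L → Bool) {A B : Type} [CommRing A] [CommRing B]

/-- the substitution over a ring -/
noncomputable def PhR (c : V → A) (α β : V → MvPolynomial L A) :
    MvPolynomial V A →ₐ[A] Ser (MvPolynomial L A) :=
  MvPolynomial.aeval fun v => cst (MvPolynomial.C (c v)) + lam (MvPolynomial L A) * cst (α v) +
    mu (MvPolynomial L A) * cst (β v)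

/-- the directions of type `true` -/
noncomputable def aR (D : L → V → A) (o : Option V) : MvPolynomial L A :=
  o.elim 0 fun v => ∑ l, if ty l then MvPolynomial.C (D l v) * MvPolynomial.X l else 0

/-- the directions of type `false` -/
noncomputable def bR (D : L → V → A) (o : Option V) : MvPolynomial L A :=
  o.elim 0 fun v => ∑ l, if ty l then 0 else MvPolynomial.C (D l v) * MvPolynomial.X l

theorem map_aR (ψ : A →+* B) (D : L → V → A) (o : Option V) :
    MvPolynomial.map ψ (aR ty D o) = aR ty (fun l v => ψ (D l v)) o := by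
  rcases o with _ | v
  · exact map_zero _
  · show MvPolynomial.map ψ (∑ l, if ty l then MvPolynomial.C (D l v) * MvPolynomial.X l else 0) =
      ∑ l, if ty l then MvPolynomial.C (ψ (D l v)) * MvPolynomial.X l else 0
    rw [map_sum]
    refine sum_congr rfl fun l _ => ?_
    split_ifs
    · rw [map_mul, MvPolynomial.map_C, MvPolynomial.map_X]
    · rw [map_zero]

theorem map_bR (ψ : A →+* B) (D : L → V → A) (o : Option V) :
    MvPolynomial.map ψ (bR ty D o) = bR ty (fun l v => ψ (D l v)) o := by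
  rcases o with _ | v
  · exact map_zero _
  · show MvPolynomial.map ψ (∑ l, if ty l then 0 else MvPolynomial.C (D l v) * MvPolynomial.X l) =
      ∑ l, if ty l then 0 else MvPolynomial.C (ψ (D l v)) * MvPolynomial.X l
    rw [map_sum]
    refine sum_congr rfl fun l _ => ?_
    split_ifs
    · rw [map_zero]
    · rw [map_mul, MvPolynomial.map_C, MvPolynomial.map_X]

theorem serMap_PhR {V : Type} (ψ : A →+* B) (c : V → A) (α β : V → MvPolynomial L A)
    (P : MvPolynomial V A) :
    serMap (MvPolynomial.map ψ) (PhR c α β P) =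
      PhR (fun v => ψ (c v)) (fun v => MvPolynomial.map ψ (α v))
        (fun v => MvPolynomial.map ψ (β v)) (MvPolynomial.map ψ P) := by
  unfold PhR
  rw [MvPolynomial.aeval_def, MvPolynomial.aeval_def, MvPolynomial.hom_eval₂,
    MvPolynomial.eval₂_map]
  have h2 : (serMap (MvPolynomial.map ψ)).comp (algebraMap A (Ser (MvPolynomial L A))) =
      (algebraMap B (Ser (MvPolynomial L B))).comp ψ := by
    ext x : 1
    show serMap (MvPolynomial.map ψ) (algebraMap A (Ser (MvPolynomial L A)) x) =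
      algebraMap B (Ser (MvPolynomial L B)) (ψ x)
    rw [algebraMap_ser', serMap_cst, algebraMap_ser']
    congr 1
    exact MvPolynomial.map_C ψ x
  rw [h2]
  congr 1
  ext v : 1
  show serMap _ (cst (MvPolynomial.C (c v)) + lam _ * cst (α v) + mu _ * cst (β v)) =
    cst (MvPolynomial.C (ψ (c v))) + lam _ * cst (MvPolynomial.map ψ (α v)) +
      mu _ * cst (MvPolynomial.map ψ (β v))
  rw [map_add, map_add, map_mul, map_mul, serMap_cst, serMap_cst, serMap_cst, MvPolynomial.map_C,
    serMap_lam, serMap_mu]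

theorem cf_PhR_map {V : Type} (ψ : A →+* B) (c : V → A) (α β : V → MvPolynomial L A)
    (P : MvPolynomial V A) (b e : ℕ) :
    cf b e (PhR (fun v => ψ (c v)) (fun v => MvPolynomial.map ψ (α v))
      (fun v => MvPolynomial.map ψ (β v)) (MvPolynomial.map ψ P)) =
      MvPolynomial.map ψ (cf b e (PhR c α β P)) := by
  rw [← serMap_PhR, cf_serMap]

theorem cf_PhR_dir (ψ : A →+* B) (c : Option V → A) (D : L → V → A)
    (P : MvPolynomial (Option V) A) (b e : ℕ) :
    cf b e (PhR (fun v => ψ (c v)) (aR ty fun l v => ψ (D l v)) (bR ty fun l v => ψ (D l v))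
      (MvPolynomial.map ψ P)) =
      MvPolynomial.map ψ (cf b e (PhR c (aR ty D) (bR ty D) P)) := by
  rw [← cf_PhR_map]
  congr 3
  · funext o
    exact (map_aR ty ψ D o).symm
  · funext o
    exact (map_bR ty ψ D o).symm

theorem PhG_eq {K : Type} [Field K] (c : Option V → K) (D : L → V → K) :
    PhiG c (aO ty D) (bO ty D) = PhR c (aR ty D) (bR ty D) := rfl

/-- a base point with integral differences from the given one where a polynomial is not zero -/
theorem exists_shift {V K : Type} [Field K] [CharZero K] [Fintype V] (W : MvPolynomial V K)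
    (hW : W ≠ 0) (c : V → K) {ϖ : K} (hϖ : ϖ ≠ 0) :
    ∃ n : V → ℕ, MvPolynomial.eval (fun v => c v + n v * ϖ) W ≠ 0 := by
  classical
  have hcomp : MvPolynomial.aeval (fun v => (MvPolynomial.C (c v) +
      MvPolynomial.C ϖ * MvPolynomial.X v : MvPolynomial V K)) W ≠ 0 := by
    intro h0
    apply hW
    have h1 := congrArg (MvPolynomial.aeval (fun v => (MvPolynomial.C (-c v * ϖ⁻¹) +
      MvPolynomial.C ϖ⁻¹ * MvPolynomial.X v : MvPolynomial V K))) h0
    rw [map_zero, ← AlgHom.comp_apply, MvPolynomial.comp_aeval] at h1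
    have h2 : (fun v => MvPolynomial.aeval (fun v => (MvPolynomial.C (-c v * ϖ⁻¹) +
        MvPolynomial.C ϖ⁻¹ * MvPolynomial.X v : MvPolynomial V K)) (MvPolynomial.C (c v) +
        MvPolynomial.C ϖ * MvPolynomial.X v : MvPolynomial V K)) = MvPolynomial.X := by
      funext v
      rw [map_add, map_mul, MvPolynomial.aeval_X, ← MvPolynomial.algebraMap_eq,
        AlgHom.commutes, AlgHom.commutes, MvPolynomial.algebraMap_eq, mul_add, ← mul_assoc,
        ← MvPolynomial.C_mul, ← MvPolynomial.C_mul, mul_inv_cancel₀ hϖ, MvPolynomial.C_1, one_mul,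
        ← add_assoc, ← MvPolynomial.C_add]
      have h3 : c v + ϖ * (-c v * ϖ⁻¹) = 0 := by
        field_simp
        ring
      rw [h3, MvPolynomial.C_0, zero_add]
    rw [h2, MvPolynomial.aeval_X_left_apply] at h1
    exact h1
  obtain ⟨n, hn⟩ := exists_nat_eval _ hcomp
  refine ⟨n, ?_⟩
  rw [← MvPolynomial.coe_aeval_eq_eval] at hn ⊢
  intro h
  apply hn
  rw [← h]
  show ((MvPolynomial.aeval (fun v => (n v : K))).comp (MvPolynomial.aeval _)) W = _
  rw [MvPolynomial.comp_aeval]
  show MvPolynomial.aeval _ W = MvPolynomial.aeval _ W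
  congr 2
  funext v
  rw [map_add, map_mul, MvPolynomial.aeval_X, ← MvPolynomial.algebraMap_eq, AlgHom.commutes,
    AlgHom.commutes]
  show c v + ϖ * n v = c v + n v * ϖ
  ring

/-- **PLACEMENT**: base point and directions over `Lf` from the residue field `κ` -/
theorem place_lift {O Lf κ : Type} [CommRing O] [Field Lf] [CharZero Lf] [Field κ] [Infinite κ]
    [Fintype V] (ι : O →+* Lf) (hι : Function.Injective ι) (π : O →+* κ)
    (hπ : Function.Surjective π) {ϖ : O} (hϖ0 : π ϖ = 0) (hϖ1 : ϖ ≠ 0)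
    (f0 V1 : MvPolynomial V κ) (hV1 : V1 ≠ 0) (F0 : MvPolynomial L κ)
    (hgauge : ∀ x : V → κ, MvPolynomial.eval x V1 ≠ 0 → ∃ D : L → V → κ,
      ∀ (R : Type) [CommRing R] [Algebra κ R] (X : L → R),
        MvPolynomial.aeval (fun v => algebraMap κ R (x v) + ∑ l, X l * algebraMap κ R (D l v))
          f0 = algebraMap κ R (MvPolynomial.eval x f0) + MvPolynomial.aeval X F0)
    {r E : ℕ} (hrE : (r, E) ≠ (0, 0))
    (hF0 : MvPolynomial.aeval (serX (K := κ) ty) F0 = lam _ ^ r * mu _ ^ E * cst F0)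
    (P : MvPolynomial (Option V) O) (hP : MvPolynomial.map π P ≠ 0)
    (hP0 : subY f0 (MvPolynomial.map π P) = 0)
    (hdeg : ∀ j : ℕ, 1 ≤ j → j ≤ (MvPolynomial.map π P).degreeOf none → (j : κ) ≠ 0)
    {I : Type} [Fintype I] [DecidableEq I] (Rr Qc : I → L → ℕ)
    (hIJ : (mnr ty Rr Qc F0).det ≠ 0) (W : MvPolynomial (Option V) Lf) (hW : W ≠ 0) :
    ∃ (c : Option V → Lf) (D : L → V → Lf), MvPolynomial.eval c W ≠ 0 ∧
      (mnr ty Rr Qc (cf r E (PhiG c (aO ty D) (bO ty D) (MvPolynomial.map ι P)))).det ≠ 0 := by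
  classical
  obtain ⟨c0, D0, h0⟩ := place_field ty f0 V1 hV1 F0 hgauge hrE hF0 (MvPolynomial.map π P) hP hP0
    hdeg Rr Qc hIJ
  choose s hs using hπ
  have hϖι : ι ϖ ≠ 0 := fun h => hϖ1 (hι (by rw [h, map_zero]))
  obtain ⟨n, hn⟩ := exists_shift W hW (fun v => ι (s (c0 v))) hϖι
  set c : Option V → O := fun v => s (c0 v) + n v * ϖ with hc
  set D : L → V → O := fun l v => s (D0 l v) with hD
  have hcι : (fun v => ι (c v)) = fun v => ι (s (c0 v)) + n v * ι ϖ := by
    funext v
    rw [hc]
    show ι (s (c0 v) + n v * ϖ) = _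
    rw [map_add, map_mul, map_natCast]
  have hcπ : (fun v => π (c v)) = c0 := by
    funext v
    rw [hc]
    show π (s (c0 v) + n v * ϖ) = _
    rw [map_add, map_mul, map_natCast, hϖ0, mul_zero, add_zero, hs]
  have hDπ : (fun l v => π (D l v)) = D0 := by
    funext l v
    exact hs _
  refine ⟨fun v => ι (c v), fun l v => ι (D l v), by rwa [hcι], ?_⟩
  rw [PhG_eq, cf_PhR_dir ty ι c D P r E, mnr_det_map]
  rw [PhG_eq] at h0
  have h1 := cf_PhR_dir ty π c D P r E
  rw [hcπ, hDπ] at h1
  rw [h1, mnr_det_map] at h0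
  intro h2
  apply h0
  have h3 : (mnr ty Rr Qc (cf r E (PhR c (aR ty D) (bR ty D) P))).det = 0 :=
    hι (by rw [h2, map_zero])
  rw [h3, map_zero]

end ring

end Pool.QPIT
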